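import Pool.Agent.Lib.MP_971469_al.Dom

/-! Definitions for the disproof of MP_971469_al (see h41_MP_971469.md). -/

namespace Pool.Agent.MP971469

/-! ### Conjugation -/

section Cj

variable {R : Type} [Ring R]

/-- Conjugation of a ring element by a unit. -/
def cj (g : Rˣ) (X : R) : R := (g : R) * X * ((g⁻¹ : Rˣ) : R)

theorem cj_one (X : R) : cj 1 X = X := by simp [cj]

theorem cj_mul (g h : Rˣ) (X : R) : cj (g * h) X = cj g (cj h X) := by
  simp [cj, mul_assoc]

theorem cj_inv_cj (g : Rˣ) (X : R) : cj g⁻¹ (cj g X) = X := by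
  rw [← cj_mul, inv_mul_cancel, cj_one]

theorem cj_cj_inv (g : Rˣ) (X : R) : cj g (cj g⁻¹ X) = X := by
  rw [← cj_mul, mul_inv_cancel, cj_one]

theorem cj_map_mul (g : Rˣ) (X Y : R) : cj g (X * Y) = cj g X * cj g Y := by
  simp [cj, mul_assoc]

theorem cj_map_one (g : Rˣ) : cj g (1 : R) = 1 := by simp [cj]

theorem cj_map_zero (g : Rˣ) : cj g (0 : R) = 0 := by simp [cj]

theorem cj_map_add (g : Rˣ) (X Y : R) : cj g (X + Y) = cj g X + cj g Y := by
  simp [cj, mul_add, add_mul]

theorem cj_map_sub (g : Rˣ) (X Y : R) : cj g (X - Y) = cj g X - cj g Y := by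
  simp [cj, mul_sub, sub_mul]

theorem cj_map_neg (g : Rˣ) (X : R) : cj g (-X) = - cj g X := by
  simp [cj]

theorem cj_map_smul {K : Type} [CommRing K] [Algebra K R] (g : Rˣ) (c : K) (X : R) :
    cj g (c • X) = c • cj g X := by
  simp [cj]

theorem cj_injective (g : Rˣ) : Function.Injective (cj g) := by
  intro X Y h
  rw [← cj_inv_cj g X, h, cj_inv_cj]

theorem cj_eq_iff (g : Rˣ) (X Y : R) : cj g X = Y ↔ (g : R) * X = Y * g := by
  constructor
  · rintro rfl
    simp [cj, mul_assoc]
  · intro h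
    simp [cj, h, mul_assoc]

end Cj

/-! ### Symplectic groups -/

section Symp

variable {K V : Type} [Field K] [AddCommGroup V] [Module K V]

instance finite_End [Finite V] : Finite (Module.End K V) := DFunLike.finite _

/-- The isometry group of a bilinear form, as a subgroup of the units of `End V`. -/
def SpGroup (B : LinearMap.BilinForm K V) : Subgroup (Module.End K V)ˣ where
  carrier := {g | ∀ x y, B ((g : Module.End K V) x) ((g : Module.End K V) y) = B x y}
  mul_mem' := by
    intro a b ha hb x y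
    simp only [Set.mem_ofPred_eq] at ha hb ⊢
    rw [Units.val_mul, Module.End.mul_apply, Module.End.mul_apply, ha, hb]
  one_mem' := by intro x y; simp
  inv_mem' := by
    intro a ha x y
    simp only [Set.mem_ofPred_eq] at ha ⊢
    rw [← ha]
    rw [← Module.End.mul_apply, ← Module.End.mul_apply, a.mul_inv]
    simp

/-- The subgroup `{1,-1}` of the units of `End V`. -/
def pm (K V : Type) [Field K] [AddCommGroup V] [Module K V] : Subgroup (Module.End K V)ˣ where
  carrier := {g | g = 1 ∨ g = -1}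
  mul_mem' := by
    rintro a b (rfl | rfl) (rfl | rfl) <;> simp
  one_mem' := Or.inl rfl
  inv_mem' := by
    rintro a (rfl | rfl) <;> simp

/-- `nn B u : v ↦ B v u • u`. -/
noncomputable def nn (B : LinearMap.BilinForm K V) (u : V) : Module.End K V :=
  (B.flip u).smulRight u

@[simp] theorem nn_apply (B : LinearMap.BilinForm K V) (u v : V) : nn B u v = B v u • u := by
  simp [nn]

theorem nn_sq {B : LinearMap.BilinForm K V} (hB : B.IsAlt) (u : V) : nn B u * nn B u = 0 := by
  ext v
  simp [hB u]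

/-- The symplectic transvection `v ↦ v + c * B v u • u`, as a unit of `End V`. -/
noncomputable def tv {B : LinearMap.BilinForm K V} (hB : B.IsAlt) (u : V) (c : K) :
    (Module.End K V)ˣ where
  val := 1 + c • nn B u
  inv := 1 - c • nn B u
  val_inv := by
    have := nn_sq hB u
    simp [mul_sub, add_mul, this]
  inv_val := by
    have := nn_sq hB u
    simp [sub_mul, mul_add, this]

theorem tv_apply {B : LinearMap.BilinForm K V} (hB : B.IsAlt) (u : V) (c : K) (v : V) :
    (tv hB u c : Module.End K V) v = v + (c * B v u) • u := by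
  simp [tv, mul_smul]

theorem tv_mem {B : LinearMap.BilinForm K V} (hB : B.IsAlt) (u : V) (c : K) :
    tv hB u c ∈ SpGroup B := by
  intro x y
  rw [tv_apply, tv_apply]
  simp only [map_add, LinearMap.add_apply, map_smul, LinearMap.smul_apply, smul_eq_mul, hB u]
  rw [← hB.neg_eq y u]
  ring

end Symp

/-! ### The field model -/

/-- The data: `E` is a field with `p^(2r)` elements, `r ≥ 11` is a prime, `p ≡ 1 mod 4` is a prime,
`lam` is a nonsquare of `F_p` and `j ∈ E` is a square root of `lam`. -/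
structure Data (p r : ℕ) [Fact p.Prime] (E : Type) [Field E] [Algebra (ZMod p) E] where
  r_prime : r.Prime
  r_ge : 11 ≤ r
  p_mod : p % 4 = 1
  r_lt : 8 * r < p
  card : Nat.card E = p ^ (2 * r)
  lam : ZMod p
  lam_ns : ¬ IsSquare lam
  j : E
  j_sq : j * j = algebraMap (ZMod p) E lam

/-- The field `E` considered as a vector space only (a type synonym). -/
def VV (E : Type) : Type := E

noncomputable instance (E : Type) [Field E] : AddCommGroup (VV E) := inferInstanceAs (AddCommGroup E)

noncomputable instance (K E : Type) [Field K] [Field E] [Algebra K E] : Module K (VV E) :=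
  inferInstanceAs (Module K E)

instance (E : Type) [Finite E] : Finite (VV E) := inferInstanceAs (Finite E)

/-- The endomorphism ring of the `F_p`-space `E`. -/
abbrev AE (p : ℕ) [Fact p.Prime] (E : Type) [Field E] [Algebra (ZMod p) E] : Type :=
  Module.End (ZMod p) (VV E)

/-- The identity map `VV E → E`. -/
noncomputable def toE (p : ℕ) [Fact p.Prime] {E : Type} [Field E] [Algebra (ZMod p) E] :
    VV E ≃ₗ[ZMod p] E :=
  LinearEquiv.refl (ZMod p) E

/-- Multiplication by `a` as an endomorphism of `E` over `F_p`. -/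
noncomputable def mE (p : ℕ) [Fact p.Prime] {E : Type} [Field E] [Algebra (ZMod p) E] :
    E →ₐ[ZMod p] AE p E :=
  Algebra.lmul (ZMod p) E

/-- Automorphisms of `E` as endomorphisms. -/
noncomputable def gE (p : ℕ) [Fact p.Prime] {E : Type} [Field E] [Algebra (ZMod p) E] :
    Gal(E/ZMod p) →* AE p E where
  toFun σ := (σ : Gal(E/ZMod p)).toLinearMap
  map_one' := rfl
  map_mul' _ _ := rfl

@[simp] theorem toE_mE (p : ℕ) [Fact p.Prime] {E : Type} [Field E] [Algebra (ZMod p) E]
    (a : E) (x : VV E) : toE p (mE p a x) = a * toE p x := rfl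

@[simp] theorem toE_gE (p : ℕ) [Fact p.Prime] {E : Type} [Field E] [Algebra (ZMod p) E]
    (σ : Gal(E/ZMod p)) (x : VV E) : toE p (gE p σ x) = σ (toE p x) := rfl

namespace Data

variable {p r : ℕ} [Fact p.Prime] {E : Type} [Field E] [Finite E] [Algebra (ZMod p) E]

/-- The involution `x ↦ x^(p^r)` of `E`. -/
noncomputable def bar (_ : Data p r E) : Gal(E/ZMod p) :=
  FiniteField.frobeniusAlgEquivOfAlgebraic (ZMod p) E ^ r

/-- The alternating form `B(x,y) = Tr(j x bar(y))`. -/
noncomputable def B (S : Data p r E) : LinearMap.BilinForm (ZMod p) (VV E) :=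
  LinearMap.mk₂ (ZMod p) (fun x y => Algebra.trace (ZMod p) E (S.j * toE p x * S.bar (toE p y)))
    (fun x x' y => by rw [← map_add, map_add]; congr 1; ring)
    (fun c x y => by
      rw [← map_smul]; congr 1; simp [Algebra.smul_def]; ring)
    (fun x y y' => by rw [← map_add, map_add, map_add]; congr 1; ring)
    (fun c x y => by
      rw [← map_smul]; congr 1; simp [Algebra.smul_def]; ring)

theorem B_apply (S : Data p r E) (x y : VV E) :
    S.B x y = Algebra.trace (ZMod p) E (S.j * toE p x * S.bar (toE p y)) := rfl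

/-- The symplectic group of the model. -/
noncomputable def Sp (S : Data p r E) : Subgroup (AE p E)ˣ := SpGroup S.B

/-- The endomorphism `J`, multiplication by `j`. -/
noncomputable def J (S : Data p r E) : AE p E := mE p S.j

/-- Skew-adjoint endomorphisms (the Lie algebra). -/
noncomputable def skew (S : Data p r E) : Submodule (ZMod p) (AE p E) where
  carrier := {X | ∀ x y, S.B (X x) y = - S.B x (X y)}
  add_mem' := by
    intro a b ha hb x y
    simp only [Set.mem_ofPred_eq] at ha hb
    simp only [LinearMap.add_apply, map_add, ha, hb]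
    ring
  zero_mem' := by intro x y; simp
  smul_mem' := by
    intro c a ha x y
    simp only [Set.mem_ofPred_eq] at ha
    simp only [LinearMap.smul_apply, map_smul, ha, smul_eq_mul]
    ring

/-- Self-adjoint endomorphisms. -/
noncomputable def sym (S : Data p r E) : Submodule (ZMod p) (AE p E) where
  carrier := {X | ∀ x y, S.B (X x) y = S.B x (X y)}
  add_mem' := by
    intro a b ha hb x y
    simp only [Set.mem_ofPred_eq] at ha hb
    simp only [LinearMap.add_apply, map_add, ha, hb]
  zero_mem' := by intro x y; simp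
  smul_mem' := by
    intro c a ha x y
    simp only [Set.mem_ofPred_eq] at ha
    simp only [LinearMap.smul_apply, map_smul, ha, smul_eq_mul]

/-- The torus: multiplications by elements `e` with `e * bar e = 1`. -/
def T (S : Data p r E) : Subgroup (AE p E)ˣ where
  carrier := {g | ∃ e : E, e * S.bar e = 1 ∧ (g : AE p E) = mE p e}
  mul_mem' := by
    rintro a b ⟨e, he, ha⟩ ⟨f, hf, hb⟩
    refine ⟨e * f, ?_, ?_⟩
    · rw [map_mul]
      calc e * f * (S.bar e * S.bar f) = (e * S.bar e) * (f * S.bar f) := by ring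
        _ = 1 := by rw [he, hf, one_mul]
    · rw [Units.val_mul, ha, hb, ← map_mul]
  one_mem' := ⟨1, by simp, by simp⟩
  inv_mem' := by
    rintro a ⟨e, he, ha⟩
    have he0 : e ≠ 0 := by rintro rfl; simp at he
    refine ⟨e⁻¹, ?_, ?_⟩
    · rw [map_inv₀, ← mul_inv, he, inv_one]
    · have h1 : (a : AE p E) * mE p e⁻¹ = 1 := by
        rw [ha, ← map_mul, mul_inv_cancel₀ he0, map_one]
      calc ((a⁻¹ : (AE p E)ˣ) : AE p E)
          = ((a⁻¹ : (AE p E)ˣ) : AE p E) *
            ((a : AE p E) * mE p e⁻¹) := by rw [h1, mul_one]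
        _ = mE p e⁻¹ := by rw [← mul_assoc, a.inv_mul, one_mul]

/-- The centralizer of an endomorphism in `Sp`. -/
def C (S : Data p r E) (X : AE p E) : Subgroup (AE p E)ˣ where
  carrier := {g | g ∈ S.Sp ∧ (g : AE p E) * X = X * g}
  mul_mem' := by
    rintro a b ⟨ha, ha'⟩ ⟨hb, hb'⟩
    refine ⟨mul_mem ha hb, ?_⟩
    rw [Units.val_mul, mul_assoc, hb', ← mul_assoc, ha', mul_assoc]
  one_mem' := ⟨one_mem _, by simp⟩
  inv_mem' := by
    rintro a ⟨ha, ha'⟩
    refine ⟨inv_mem ha, ?_⟩
    calc ((a⁻¹ : (AE p E)ˣ) : AE p E) * X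
        = ((a⁻¹ : (AE p E)ˣ) : AE p E) * (X * (a : AE p E)) *
          ((a⁻¹ : (AE p E)ˣ) : AE p E) := by
            rw [mul_assoc, mul_assoc, a.mul_inv, mul_one]
      _ = X * ((a⁻¹ : (AE p E)ˣ) : AE p E) := by
            rw [← ha', ← mul_assoc, a.inv_mul, one_mul]

/-- The elements of `Sp` which map `X` to `X` or `-X` by conjugation. -/
def H (S : Data p r E) (X : AE p E) : Subgroup (AE p E)ˣ where
  carrier := {g | g ∈ S.Sp ∧ ((g : AE p E) * X = X * g ∨
    (g : AE p E) * X = - (X * g))}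
  mul_mem' := by
    rintro a b ⟨ha, ha'⟩ ⟨hb, hb'⟩
    refine ⟨mul_mem ha hb, ?_⟩
    rw [Units.val_mul]
    rcases ha' with ha' | ha' <;> rcases hb' with hb' | hb'
    · left; rw [mul_assoc, hb', ← mul_assoc, ha', mul_assoc]
    · right; rw [mul_assoc, hb', mul_neg, ← mul_assoc, ha', mul_assoc]
    · right; rw [mul_assoc, hb', ← mul_assoc, ha', neg_mul, mul_assoc]
    · left; rw [mul_assoc, hb', mul_neg, ← mul_assoc, ha', neg_mul, neg_neg, mul_assoc]
  one_mem' := ⟨one_mem _, by simp⟩
  inv_mem' := by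
    rintro a ⟨ha, ha'⟩
    refine ⟨inv_mem ha, ?_⟩
    have key : ∀ Y : AE p E, (a : AE p E) * X = Y * a →
        ((a⁻¹ : (AE p E)ˣ) : AE p E) * Y =
          X * ((a⁻¹ : (AE p E)ˣ) : AE p E) := by
      intro Y hY
      calc ((a⁻¹ : (AE p E)ˣ) : AE p E) * Y
          = ((a⁻¹ : (AE p E)ˣ) : AE p E) * (Y * (a : AE p E)) *
            ((a⁻¹ : (AE p E)ˣ) : AE p E) := by
              rw [mul_assoc, mul_assoc, a.mul_inv, mul_one]
        _ = X * ((a⁻¹ : (AE p E)ˣ) : AE p E) := by
              rw [← hY, ← mul_assoc, a.inv_mul, one_mul]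
    rcases ha' with ha' | ha'
    · left; exact key X ha'
    · right
      have := key (-X) (by rw [ha', neg_mul])
      rw [mul_neg] at this
      exact neg_eq_iff_eq_neg.mp this

/-- The elements of `Sp` which normalize the subfield `F = {f : bar f = f}`. -/
def KF (S : Data p r E) : Subgroup (AE p E)ˣ where
  carrier := {g | g ∈ S.Sp ∧ (∀ f : E, S.bar f = f → ∃ f' : E, S.bar f' = f' ∧
      (g : AE p E) * mE p f = mE p f' * g) ∧
    (∀ f' : E, S.bar f' = f' → ∃ f : E, S.bar f = f ∧
      (g : AE p E) * mE p f = mE p f' * g)}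
  mul_mem' := by
    rintro a b ⟨ha, ha1, ha2⟩ ⟨hb, hb1, hb2⟩
    refine ⟨mul_mem ha hb, ?_, ?_⟩
    · intro f hf
      obtain ⟨f1, hf1, h1⟩ := hb1 f hf
      obtain ⟨f2, hf2, h2⟩ := ha1 f1 hf1
      exact ⟨f2, hf2, by rw [Units.val_mul, mul_assoc, h1, ← mul_assoc, h2, mul_assoc]⟩
    · intro f hf
      obtain ⟨f1, hf1, h1⟩ := ha2 f hf
      obtain ⟨f2, hf2, h2⟩ := hb2 f1 hf1
      exact ⟨f2, hf2, by rw [Units.val_mul, mul_assoc, h2, ← mul_assoc, h1, mul_assoc]⟩
  one_mem' := ⟨one_mem _, fun f hf => ⟨f, hf, by simp⟩, fun f hf => ⟨f, hf, by simp⟩⟩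
  inv_mem' := by
    rintro a ⟨ha, ha1, ha2⟩
    have key : ∀ X Y : AE p E, (a : AE p E) * X = Y * a →
        ((a⁻¹ : (AE p E)ˣ) : AE p E) * Y =
          X * ((a⁻¹ : (AE p E)ˣ) : AE p E) := by
      intro X Y hY
      calc ((a⁻¹ : (AE p E)ˣ) : AE p E) * Y
          = ((a⁻¹ : (AE p E)ˣ) : AE p E) * (Y * (a : AE p E)) *
            ((a⁻¹ : (AE p E)ˣ) : AE p E) := by
              rw [mul_assoc, mul_assoc, a.mul_inv, mul_one]
        _ = X * ((a⁻¹ : (AE p E)ˣ) : AE p E) := by
              rw [← hY, ← mul_assoc, a.inv_mul, one_mul]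
    refine ⟨inv_mem ha, ?_, ?_⟩
    · intro f hf
      obtain ⟨f1, hf1, h1⟩ := ha2 f hf
      exact ⟨f1, hf1, key _ _ h1⟩
    · intro f hf
      obtain ⟨f1, hf1, h1⟩ := ha1 f hf
      exact ⟨f1, hf1, key _ _ h1⟩

/-- The `Sp`-conjugacy orbit of `J`. -/
def orbJ (S : Data p r E) : Set (AE p E) :=
  {Y | ∃ g ∈ S.Sp, Y = cj g S.J}

/-- The sign character of the Galois group: `σ j = sgn σ * j`. -/
noncomputable def sgn (S : Data p r E) (σ : Gal(E/ZMod p)) : E := σ S.j / S.j

end Data

/-! ### Domination upstairs -/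

/-- The condition on `s, g` in a group `H ≥ Z` (inside an ambient group `U`) which says that the
images of `s` and `g s g⁻¹` in `H/Z` form a uniform dominating set. -/
def Dom {U : Type} [Group U] (H Z : Subgroup U) (s g : U) : Prop :=
  s ∉ Z ∧ ∀ x ∈ H, x ∉ Z →
    (Subgroup.closure {x, s} ⊔ Z = H ∨ Subgroup.closure {x, g * s * g⁻¹} ⊔ Z = H)

end Pool.Agent.MP971469
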