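import Mathlib

/-! The notions of MP_971469_al: total and uniform dominating sets, `γ_u(G)`, `P(G,s,c)`, `P_c(G)`. -/

namespace Pool.Agent.MP971469

/-! ### Dominating sets in finite groups -/

section Dom

variable (G : Type) [Group G]

/-- `S` is a total dominating set: a set of nontrivial elements such that every nontrivial `x`
generates `G` together with some member of `S`. -/
def IsTDS (S : Set G) : Prop :=
  (1 : G) ∉ S ∧ ∀ x : G, x ≠ 1 → ∃ y ∈ S, Subgroup.closure {x, y} = (⊤ : Subgroup G)

/-- `S` is a uniform dominating set: a total dominating set of pairwise conjugate elements. -/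
def IsUDS (S : Set G) : Prop :=
  IsTDS G S ∧ ∀ x ∈ S, ∀ y ∈ S, IsConj x y

/-- The uniform domination number: the least size of a uniform dominating set. -/
noncomputable def gammaU : ℕ :=
  sInf {n : ℕ | ∃ S : Set G, IsUDS G S ∧ S.Finite ∧ S.ncard = n}

/-- `P(G,s,c)`: the proportion of `c`-tuples of conjugates of `s` which form a uniform
dominating set. -/
noncomputable def PP (s : G) (c : ℕ) : ℝ :=
  (Nat.card {f : Fin c → G // (∀ i, IsConj s (f i)) ∧ IsUDS G (Set.range f)} : ℝ) /
    (Nat.card {x : G // IsConj s x} : ℝ) ^ c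

/-- `P_c(G)`: the maximum of `P(G,s,c)` over `s`. -/
noncomputable def Pmax (c : ℕ) : ℝ := ⨆ s : G, PP G s c

end Dom

end Pool.Agent.MP971469
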