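import Pool.Agent.Lib.MP_971469_al.Defs

/-! G1: a two-element UDS in a noncommutative group gives `gammaU G = 2`. -/

namespace Pool.Agent.MP971469

private theorem g1_closure_comm {G : Type} [Group G] (y : G)
    (h : Subgroup.closure {y, y} = (⊤ : Subgroup G)) : ∀ a b : G, a * b = b * a := by
  intro a b
  have h1 : Subgroup.closure {y} = (⊤ : Subgroup G) := by
    rw [← h]; simp
  have ha : a ∈ Subgroup.closure {y} := by rw [h1]; exact Subgroup.mem_top a
  have hb : b ∈ Subgroup.closure {y} := by rw [h1]; exact Subgroup.mem_top b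
  rw [Subgroup.mem_closure_singleton] at ha hb
  obtain ⟨m, rfl⟩ := ha
  obtain ⟨n, rfl⟩ := hb
  rw [← zpow_add, ← zpow_add, add_comm]

private theorem g1_single {G : Type} [Group G] (hG : ¬ ∀ a b : G, a * b = b * a) (y : G)
    (h : IsTDS G {y}) : False := by
  have hy : y ≠ 1 := by
    intro h1
    exact h.1 (by rw [h1]; exact Set.mem_singleton 1)
  obtain ⟨z, hz, hc⟩ := h.2 y hy
  rw [Set.mem_singleton_iff] at hz
  rw [hz] at hc
  exact hG (g1_closure_comm y hc)

/-- Proof: no UDS has size 0 (G is nontrivial) or 1 (if `{y}` is a TDS, then `y ≠ 1` and with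
`x = y` we get `closure {y,y} = ⊤`, so `G` is commutative). The UDS `{s, g s g⁻¹}` has at most two
elements, so exactly two. -/
theorem gammaU_eq_two {G : Type} [Group G] [Finite G] (hG : ¬ ∀ a b : G, a * b = b * a) (s g : G)
    (h : IsUDS G {s, g * s * g⁻¹}) : gammaU G = 2 := by
  have hne : s ≠ g * s * g⁻¹ := by
    intro he
    rw [← he, Set.pair_eq_singleton] at h
    exact g1_single hG s h.1
  have h2 : 2 ∈ {n : ℕ | ∃ S : Set G, IsUDS G S ∧ S.Finite ∧ S.ncard = n} :=
    ⟨_, h, Set.toFinite _, Set.ncard_pair hne⟩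
  apply le_antisymm (Nat.sInf_le h2)
  apply le_csInf ⟨2, h2⟩
  rintro n ⟨S, hS, hfin, hn⟩
  by_contra hlt
  push Not at hlt
  have h01 : n = 0 ∨ n = 1 := by omega
  rcases h01 with h0 | h1
  · rw [h0, Set.ncard_eq_zero hfin] at hn
    obtain ⟨x, hx⟩ : ∃ x : G, x ≠ 1 := by
      by_contra hc
      push Not at hc
      exact hG fun a b => by rw [hc a, hc b]
    obtain ⟨y, hy, _⟩ := hS.1.2 x hx
    rw [hn] at hy
    exact hy
  · rw [h1, Set.ncard_eq_one] at hn
    obtain ⟨y, hy⟩ := hn
    rw [hy] at hS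
    exact g1_single hG y hS.1

end Pool.Agent.MP971469
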