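import Pool.Agent.Lib.MP_971469_al.Defs

/-! G2: the pair proportion `P(G,s,2)` as a proportion of elements of `G`. -/

namespace Pool.Agent.MP971469

private theorem g2_conj_closure {G : Type} [Group G] (a x y : G)
    (h : Subgroup.closure {x, y} = (⊤ : Subgroup G)) :
    Subgroup.closure {a * x * a⁻¹, a * y * a⁻¹} = (⊤ : Subgroup G) := by
  have h1 := congrArg (Subgroup.map (MulAut.conj a).toMonoidHom) h
  rw [MonoidHom.map_closure, Set.image_pair] at h1
  simp only [MulEquiv.toMonoidHom_eq_coe, MonoidHom.coe_coe, MulAut.conj_apply] at h1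
  rw [h1, ← MonoidHom.range_eq_map, MonoidHom.range_eq_top]
  exact (MulAut.conj a).surjective

private theorem g2_uds_conj {G : Type} [Group G] (a : G) (S : Set G) (h : IsUDS G S) :
    IsUDS G ((fun x => a * x * a⁻¹) '' S) := by
  obtain ⟨⟨h1, h2⟩, h3⟩ := h
  refine ⟨⟨?_, ?_⟩, ?_⟩
  · rintro ⟨x, hx, he⟩
    apply h1
    have : x = 1 := by
      have h4 : a * x * a⁻¹ = 1 := he
      have h5 : x = a⁻¹ * (a * x * a⁻¹) * a := by group
      rw [h5, h4]; group
    rw [← this]; exact hx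
  · intro x hx
    have hx' : a⁻¹ * x * a ≠ 1 := by
      intro he
      apply hx
      have h5 : x = a * (a⁻¹ * x * a) * a⁻¹ := by group
      rw [h5, he]; group
    obtain ⟨y, hy, hc⟩ := h2 _ hx'
    refine ⟨a * y * a⁻¹, ⟨y, hy, rfl⟩, ?_⟩
    have h6 := g2_conj_closure a _ _ hc
    have h7 : a * (a⁻¹ * x * a) * a⁻¹ = x := by group
    rw [h7] at h6
    exact h6
  · rintro _ ⟨x, hx, rfl⟩ _ ⟨y, hy, rfl⟩
    have h4 := h3 x hx y hy
    have e1 : IsConj x (a * x * a⁻¹) := isConj_iff.2 ⟨a, rfl⟩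
    have e2 : IsConj y (a * y * a⁻¹) := isConj_iff.2 ⟨a, rfl⟩
    exact e1.symm.trans (h4.trans e2)

private theorem g2_uds_pair {G : Type} [Group G] (s a b : G) :
    IsUDS G {a * s * a⁻¹, b * s * b⁻¹} ↔
      IsUDS G {s, (a⁻¹ * b) * s * (a⁻¹ * b)⁻¹} := by
  constructor
  · intro h
    have h1 := g2_uds_conj a⁻¹ _ h
    rw [Set.image_pair] at h1
    have e1 : a⁻¹ * (a * s * a⁻¹) * a⁻¹⁻¹ = s := by group
    have e2 : a⁻¹ * (b * s * b⁻¹) * a⁻¹⁻¹ = (a⁻¹ * b) * s * (a⁻¹ * b)⁻¹ := by group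
    rw [e1, e2] at h1
    exact h1
  · intro h
    have h1 := g2_uds_conj a _ h
    rw [Set.image_pair] at h1
    have e2 : a * ((a⁻¹ * b) * s * (a⁻¹ * b)⁻¹) * a⁻¹ = b * s * b⁻¹ := by group
    rw [e2] at h1
    exact h1

/-- fibres of the orbit map -/
private theorem g2_fibre {G : Type} [Group G] [Finite G] (s x : G) (hx : IsConj s x) :
    Nat.card {a : G // a * s * a⁻¹ = x} = Nat.card {a : G // a * s * a⁻¹ = s} := by
  obtain ⟨c, hc⟩ := isConj_iff.1 hx
  apply Nat.card_congr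
  refine ⟨fun a => ⟨c⁻¹ * a.1, ?_⟩, fun a => ⟨c * a.1, ?_⟩, ?_, ?_⟩
  · have h1 : c⁻¹ * a.1 * s * (c⁻¹ * a.1)⁻¹ = c⁻¹ * (a.1 * s * a.1⁻¹) * c := by group
    rw [h1, a.2, ← hc]; group
  · have h1 : c * a.1 * s * (c * a.1)⁻¹ = c * (a.1 * s * a.1⁻¹) * c⁻¹ := by group
    rw [h1, a.2, hc]
  · intro a; ext; simp
  · intro a; ext; simp

private theorem g2_card {G : Type} [Group G] [Finite G] (s : G) :
    Nat.card G = Nat.card {x : G // IsConj s x} * Nat.card {a : G // a * s * a⁻¹ = s} := by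
  have e : G ≃ Σ x : {x : G // IsConj s x}, {a : G // a * s * a⁻¹ = x.1} :=
    { toFun := fun a => ⟨⟨a * s * a⁻¹, isConj_iff.2 ⟨a, rfl⟩⟩, ⟨a, rfl⟩⟩
      invFun := fun z => z.2.1
      left_inv := fun a => rfl
      right_inv := by
        rintro ⟨⟨x, hx⟩, ⟨a, ha⟩⟩
        have ha' : a * s * a⁻¹ = x := ha
        subst ha'
        rfl }
  rw [Nat.card_congr e]
  have : Fintype {x : G // IsConj s x} := Fintype.ofFinite _
  rw [Nat.card_sigma, Finset.sum_congr rfl (fun x _ => g2_fibre s x.1 x.2), Finset.sum_const,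
    smul_eq_mul, Finset.card_univ, Nat.card_eq_fintype_card (α := {x : G // IsConj s x})]

/-- Proof: the map `(a,b) ↦ (a s a⁻¹, b s b⁻¹)` from `G × G` to pairs of conjugates of `s` has all
fibres of size `|C(s)|²` and `|G| = |C(s)| * |s^G|`. The pair `(a s a⁻¹, b s b⁻¹)` is a UDS iff
`{s, (a⁻¹ b) s (a⁻¹ b)⁻¹}` is one (UDS is invariant under conjugation by `a⁻¹`), and for each `g`
there are `|G|` pairs `(a,b)` with `a⁻¹ b = g`. -/
theorem PP_two {G : Type} [Group G] [Finite G] (s : G) :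
    PP G s 2 = (Nat.card {g : G // IsUDS G {s, g * s * g⁻¹}} : ℝ) / (Nat.card G : ℝ) := by
  have hn := g2_card s
  -- count pairs in two ways
  have e1 : {ab : G × G // IsUDS G {ab.1 * s * ab.1⁻¹, ab.2 * s * ab.2⁻¹}} ≃
      G × {g : G // IsUDS G {s, g * s * g⁻¹}} :=
    { toFun := fun ab => (ab.1.1, ⟨ab.1.1⁻¹ * ab.1.2, (g2_uds_pair s _ _).1 ab.2⟩)
      invFun := fun z => ⟨(z.1, z.1 * z.2.1), (g2_uds_pair s _ _).2 (by
        have : z.1⁻¹ * (z.1 * z.2.1) = z.2.1 := by group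
        simp only [this]
        exact z.2.2)⟩
      left_inv := by rintro ⟨⟨a, b⟩, h⟩; simp
      right_inv := by rintro ⟨a, ⟨g, h⟩⟩; simp }
  have e2 : {ab : G × G // IsUDS G {ab.1 * s * ab.1⁻¹, ab.2 * s * ab.2⁻¹}} ≃
      Σ f : {f : Fin 2 → G // (∀ i, IsConj s (f i)) ∧ IsUDS G (Set.range f)},
        ({a : G // a * s * a⁻¹ = f.1 0} × {b : G // b * s * b⁻¹ = f.1 1}) :=
    { toFun := fun ab => ⟨⟨![ab.1.1 * s * ab.1.1⁻¹, ab.1.2 * s * ab.1.2⁻¹], by
          intro i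
          fin_cases i
          · exact isConj_iff.2 ⟨_, rfl⟩
          · exact isConj_iff.2 ⟨_, rfl⟩, by
          have : Set.range ![ab.1.1 * s * ab.1.1⁻¹, ab.1.2 * s * ab.1.2⁻¹] =
            {ab.1.1 * s * ab.1.1⁻¹, ab.1.2 * s * ab.1.2⁻¹} := by
              simp [Matrix.range_cons, Matrix.range_empty, Set.pair_comm]
          rw [this]
          exact ab.2⟩, (⟨ab.1.1, rfl⟩, ⟨ab.1.2, rfl⟩)⟩
      invFun := fun z => ⟨(z.2.1.1, z.2.2.1), by
        have h1 := z.1.2.2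
        have h2 : Set.range z.1.1 = {z.1.1 0, z.1.1 1} := by
          ext x
          simp [Fin.exists_fin_two, eq_comm]
        have e0 := z.2.1.2
        have e3 := z.2.2.2
        rw [h2] at h1
        show IsUDS G {z.2.1.1 * s * z.2.1.1⁻¹, z.2.2.1 * s * z.2.2.1⁻¹}
        rw [e0, e3]
        exact h1⟩
      left_inv := fun ab => rfl
      right_inv := by
        rintro ⟨⟨f, hf⟩, ⟨⟨a, ha⟩, ⟨b, hb⟩⟩⟩
        have hf' : f = ![a * s * a⁻¹, b * s * b⁻¹] := by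
          ext i
          fin_cases i
          · exact ha.symm
          · exact hb.symm
        subst hf'
        rfl }
  have c1 := Nat.card_congr e1
  have c2 := Nat.card_congr e2
  rw [Nat.card_prod] at c1
  have : Fintype {f : Fin 2 → G // (∀ i, IsConj s (f i)) ∧ IsUDS G (Set.range f)} :=
    Fintype.ofFinite _
  rw [Nat.card_sigma, Finset.sum_congr rfl (fun f _ => (Nat.card_prod _ _).trans
    (congrArg₂ (· * ·) (g2_fibre s (f.1 0) (f.2.1 0)) (g2_fibre s (f.1 1) (f.2.1 1)))),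
    Finset.sum_const, smul_eq_mul, Finset.card_univ, ← Nat.card_eq_fintype_card] at c2
  rw [c1] at c2
  have hc : 0 < Nat.card {a : G // a * s * a⁻¹ = s} := by
    have : Nonempty {a : G // a * s * a⁻¹ = s} := ⟨⟨1, by simp⟩⟩
    exact Nat.card_pos
  have hk : 0 < Nat.card {x : G // IsConj s x} := by
    have : Nonempty {x : G // IsConj s x} := ⟨⟨s, IsConj.refl s⟩⟩
    exact Nat.card_pos
  unfold PP
  obtain ⟨c, hc'⟩ : ∃ c : ℕ, c = Nat.card {a : G // a * s * a⁻¹ = s} := ⟨_, rfl⟩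
  obtain ⟨k, hk'⟩ : ∃ k : ℕ, k = Nat.card {x : G // IsConj s x} := ⟨_, rfl⟩
  obtain ⟨A, hA⟩ : ∃ A : ℕ, A = Nat.card {f : Fin 2 → G // (∀ i, IsConj s (f i)) ∧
    IsUDS G (Set.range f)} := ⟨_, rfl⟩
  obtain ⟨N, hN⟩ : ∃ N : ℕ, N = Nat.card {g : G // IsUDS G {s, g * s * g⁻¹}} := ⟨_, rfl⟩
  rw [← hc', ← hk'] at hn
  rw [← hc', ← hA, ← hN, hn] at c2
  rw [← hc'] at hc
  rw [← hk'] at hk
  rw [← hA, ← hk', ← hN, hn]
  have hcR : (0 : ℝ) < c := by exact_mod_cast hc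
  have hkR : (0 : ℝ) < k := by exact_mod_cast hk
  have c3 : (k : ℝ) * c * N = A * (c * c) := by exact_mod_cast c2
  push_cast
  rw [div_eq_div_iff (by positivity) (by positivity)]
  have : (A : ℝ) * c = k * N := by
    have h1 : c * ((A : ℝ) * c) = c * (k * N) := by linarith
    exact mul_left_cancel₀ hcR.ne' h1
  calc (A : ℝ) * (k * c) = (A * c) * k := by ring
    _ = (k * N) * k := by rw [this]
    _ = N * k ^ 2 := by ring

end Pool.Agent.MP971469
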