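import Pool.Agent.Lib.MP_971469_al.G2_PP

/-! G3: bounds for `Pmax G 2` (use `PP_two` of G2 and the finiteness of `G`). -/

namespace Pool.Agent.MP971469

theorem Pmax_le {G : Type} [Group G] [Finite G] (δ : ℝ)
    (h : ∀ s : G, (Nat.card {g : G // IsUDS G {s, g * s * g⁻¹}} : ℝ) ≤ δ * Nat.card G) :
    Pmax G 2 ≤ δ := by
  have hc : (0 : ℝ) < Nat.card G := by exact_mod_cast Nat.card_pos
  refine ciSup_le fun s => ?_
  rw [PP_two, div_le_iff₀ hc]
  exact h s

theorem Pmax_pos {G : Type} [Group G] [Finite G] (s g : G) (h : IsUDS G {s, g * s * g⁻¹}) :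
    0 < Pmax G 2 := by
  have hc : (0 : ℝ) < Nat.card G := by exact_mod_cast Nat.card_pos
  have hb : BddAbove (Set.range fun s : G => PP G s 2) := (Set.finite_range _).bddAbove
  refine lt_of_lt_of_le ?_ (le_ciSup hb s)
  rw [PP_two]
  refine div_pos ?_ hc
  have : Nonempty {g : G // IsUDS G {s, g * s * g⁻¹}} := ⟨⟨g, h⟩⟩
  exact_mod_cast Nat.card_pos

end Pool.Agent.MP971469
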