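import Pool.Agent.Lib.MP_971469_al.Defs

/-! G4: generation in a quotient `H/Z` for subgroups `Z ≤ H` of an ambient group `U`. -/

namespace Pool.Agent.MP971469

/-- Proof: the preimage of `closure {π x, π y}` in `H` is `closure {x,y} ⊔ Z`. -/
theorem closure_quot_top_iff {U : Type} [Group U] (H Z : Subgroup U) (hZ : Z ≤ H)
    [(Z.subgroupOf H).Normal] (x y : H) :
    Subgroup.closure {(x : H ⧸ Z.subgroupOf H), (y : H ⧸ Z.subgroupOf H)} = ⊤ ↔
      Subgroup.closure {(x : U), (y : U)} ⊔ Z = H := by
  have h1 : Subgroup.closure {(x : H ⧸ Z.subgroupOf H), (y : H ⧸ Z.subgroupOf H)} =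
      (Subgroup.closure {x, y}).map (QuotientGroup.mk' (Z.subgroupOf H)) := by
    rw [MonoidHom.map_closure, Set.image_pair]
    rfl
  have h2 : (QuotientGroup.mk' (Z.subgroupOf H)).range = ⊤ :=
    MonoidHom.range_eq_top.2 (QuotientGroup.mk'_surjective _)
  rw [h1, ← h2, Subgroup.map_eq_range_iff, codisjoint_iff, QuotientGroup.ker_mk']
  have h3 : (Subgroup.closure {x, y} ⊔ Z.subgroupOf H).map H.subtype =
      Subgroup.closure {(x : U), (y : U)} ⊔ Z := by
    rw [Subgroup.map_sup, MonoidHom.map_closure, Set.image_pair, Subgroup.map_subgroupOf_eq_of_le hZ]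
    rfl
  have h4 : (⊤ : Subgroup H).map H.subtype = H := by
    rw [← MonoidHom.range_eq_map, Subgroup.range_subtype]
  constructor
  · intro h
    rw [← h3, h, h4]
  · intro h
    apply Subgroup.map_injective H.subtype_injective
    rw [h3, h4, h]

end Pool.Agent.MP971469
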