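import Pool.Agent.Lib.MP_971469_al.G4_QuotTop

/-! G5: a pair `{s, g s g⁻¹}` is a UDS of `H/Z` iff `Dom H Z s g`. -/

namespace Pool.Agent.MP971469

/-- Proof: unfold; `π s ≠ 1 ↔ s ∉ Z`, `π (g s g⁻¹) ≠ 1 ↔ π s ≠ 1`; the two elements are conjugate;
use `closure_quot_top_iff` and surjectivity of `π`. -/
theorem isUDS_quot_iff {U : Type} [Group U] (H Z : Subgroup U) (hZ : Z ≤ H)
    [(Z.subgroupOf H).Normal] (s g : H) :
    IsUDS (H ⧸ Z.subgroupOf H) {(s : H ⧸ Z.subgroupOf H),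
      (g : H ⧸ Z.subgroupOf H) * (s : H ⧸ Z.subgroupOf H) * (g : H ⧸ Z.subgroupOf H)⁻¹} ↔
      Dom H Z (s : U) (g : U) := by
  have hone : ∀ x : H, ((x : H ⧸ Z.subgroupOf H) = 1 ↔ (x : U) ∈ Z) := by
    intro x
    rw [QuotientGroup.eq_one_iff, Subgroup.mem_subgroupOf]
  have hmul : (g : H ⧸ Z.subgroupOf H) * (s : H ⧸ Z.subgroupOf H) * (g : H ⧸ Z.subgroupOf H)⁻¹ =
      ((g * s * g⁻¹ : H) : H ⧸ Z.subgroupOf H) := by
    simp
  have hcoe : ((g * s * g⁻¹ : H) : U) = (g : U) * (s : U) * (g : U)⁻¹ := by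
    simp
  constructor
  · rintro ⟨⟨h1, h2⟩, -⟩
    refine ⟨fun hs => h1 ?_, fun x hx hxZ => ?_⟩
    · rw [(hone s).2 hs]
      exact Set.mem_insert _ _
    · obtain ⟨y, hy, hy2⟩ := h2 ((⟨x, hx⟩ : H) : H ⧸ Z.subgroupOf H)
        (fun h => hxZ ((hone ⟨x, hx⟩).1 h))
      rcases hy with rfl | hy
      · left
        exact (closure_quot_top_iff H Z hZ ⟨x, hx⟩ s).1 hy2
      · right
        rw [Set.mem_singleton_iff] at hy
        subst hy
        rw [hmul] at hy2
        have h3 := (closure_quot_top_iff H Z hZ ⟨x, hx⟩ (g * s * g⁻¹)).1 hy2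
        rw [hcoe] at h3
        exact h3
  · rintro ⟨h1, h2⟩
    have hs1 : (s : H ⧸ Z.subgroupOf H) ≠ 1 := fun h => h1 ((hone s).1 h)
    refine ⟨⟨?_, ?_⟩, ?_⟩
    · rintro (h | h)
      · exact hs1 h.symm
      · rw [Set.mem_singleton_iff] at h
        refine hs1 ?_
        have h4 : (s : H ⧸ Z.subgroupOf H) = (g : H ⧸ Z.subgroupOf H)⁻¹ *
            ((g : H ⧸ Z.subgroupOf H) * (s : H ⧸ Z.subgroupOf H) *
              (g : H ⧸ Z.subgroupOf H)⁻¹) * (g : H ⧸ Z.subgroupOf H) := by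
          group
        rw [h4, ← h]
        group
    · intro q hq
      induction q using QuotientGroup.induction_on with
      | H x =>
        have hx : (x : U) ∉ Z := fun h => hq ((hone x).2 h)
        rcases h2 (x : U) x.2 hx with h | h
        · exact ⟨_, Set.mem_insert _ _, (closure_quot_top_iff H Z hZ x s).2 h⟩
        · refine ⟨_, Set.mem_insert_of_mem _ rfl, ?_⟩
          rw [hmul]
          refine (closure_quot_top_iff H Z hZ x (g * s * g⁻¹)).2 ?_
          rw [hcoe]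
          exact h
    · have hc : IsConj (s : H ⧸ Z.subgroupOf H)
          ((g : H ⧸ Z.subgroupOf H) * (s : H ⧸ Z.subgroupOf H) *
            (g : H ⧸ Z.subgroupOf H)⁻¹) := isConj_iff.2 ⟨_, rfl⟩
      rintro x (rfl | hx) y (rfl | hy)
      · exact IsConj.refl _
      · rw [Set.mem_singleton_iff] at hy
        rw [hy]
        exact hc
      · rw [Set.mem_singleton_iff] at hx
        rw [hx]
        exact hc.symm
      · rw [Set.mem_singleton_iff] at hx hy
        rw [hx, hy]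

end Pool.Agent.MP971469
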