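import Pool.Agent.Lib.MP_971469_al.G1_Gamma
import Pool.Agent.Lib.MP_971469_al.G3_Pmax
import Pool.Agent.Lib.MP_971469_al.G5_QuotUDS

/-! G6: transfer of the counting to `H/Z`. -/

namespace Pool.Agent.MP971469

/-- Proof: `gammaU_eq_two`, `Pmax_pos` and `isUDS_quot_iff`. -/
theorem quot_pos {U : Type} [Group U] [Finite U] (H Z : Subgroup U) (hZ : Z ≤ H)
    [(Z.subgroupOf H).Normal] (s g : U) (hs : s ∈ H) (hg : g ∈ H) (h : Dom H Z s g)
    (hna : ¬ ∀ a b : H ⧸ Z.subgroupOf H, a * b = b * a) :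
    gammaU (H ⧸ Z.subgroupOf H) = 2 ∧ 0 < Pmax (H ⧸ Z.subgroupOf H) 2 := by
  have h1 := (isUDS_quot_iff H Z hZ ⟨s, hs⟩ ⟨g, hg⟩).2 h
  exact ⟨gammaU_eq_two hna _ _ h1, Pmax_pos _ _ h1⟩

/-- Proof: by `Pmax_le` it is enough to bound, for each `s ∈ H`, the number of `ḡ ∈ H/Z` such that
the pair is a UDS; this property depends only on `ḡ`, so this number times `|Z|` is the number of
`g ∈ H` with `Dom H Z s g`, and `|H| = |Z| * |H/Z|`. -/
theorem quot_Pmax_le {U : Type} [Group U] [Finite U] (H Z : Subgroup U) (hZ : Z ≤ H)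
    [(Z.subgroupOf H).Normal] (δ : ℝ)
    (h : ∀ s ∈ H, (Nat.card {g : U // g ∈ H ∧ Dom H Z s g} : ℝ) ≤ δ * Nat.card H) :
    Pmax (H ⧸ Z.subgroupOf H) 2 ≤ δ := by
  refine Pmax_le δ fun σ => ?_
  induction σ using QuotientGroup.induction_on with
  | H s =>
    have e1 := Nat.card_congr (QuotientGroup.preimageMkEquivSubgroupProdSet (Z.subgroupOf H)
      {γ : H ⧸ Z.subgroupOf H | IsUDS (H ⧸ Z.subgroupOf H) {(s : H ⧸ Z.subgroupOf H),
        γ * (s : H ⧸ Z.subgroupOf H) * γ⁻¹}})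
    rw [Nat.card_prod] at e1
    have e2 : Nat.card H = Nat.card (H ⧸ Z.subgroupOf H) * Nat.card (Z.subgroupOf H) :=
      Subgroup.card_eq_card_quotient_mul_card_subgroup _
    have e3 : Nat.card (QuotientGroup.mk ⁻¹' {γ : H ⧸ Z.subgroupOf H |
        IsUDS (H ⧸ Z.subgroupOf H) {(s : H ⧸ Z.subgroupOf H),
          γ * (s : H ⧸ Z.subgroupOf H) * γ⁻¹}} : Set H) =
        Nat.card {g : U // g ∈ H ∧ Dom H Z (s : U) g} := by
      refine Nat.card_congr
        { toFun := fun g => ⟨((g : H) : U), (g : H).2, (isUDS_quot_iff H Z hZ s (g : H)).1 g.2⟩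
          invFun := fun g => ⟨⟨(g : U), g.2.1⟩,
            (isUDS_quot_iff H Z hZ s ⟨(g : U), g.2.1⟩).2 g.2.2⟩
          left_inv := fun g => rfl
          right_inv := fun g => rfl }
    have h1 := h (s : U) s.2
    rw [← e3, e1, e2] at h1
    push_cast at h1
    have hN : (0 : ℝ) < (Nat.card (Z.subgroupOf H) : ℝ) := by
      exact_mod_cast Nat.card_pos
    have h2 : (Nat.card (Z.subgroupOf H) : ℝ) *
        (Nat.card {γ : H ⧸ Z.subgroupOf H // IsUDS (H ⧸ Z.subgroupOf H)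
          {(s : H ⧸ Z.subgroupOf H), γ * (s : H ⧸ Z.subgroupOf H) * γ⁻¹}} : ℝ) ≤
        (Nat.card (Z.subgroupOf H) : ℝ) * (δ * (Nat.card (H ⧸ Z.subgroupOf H) : ℝ)) := by
      calc _ ≤ δ * ((Nat.card (H ⧸ Z.subgroupOf H) : ℝ) * (Nat.card (Z.subgroupOf H) : ℝ)) := h1
        _ = _ := by ring
    exact le_of_mul_le_mul_left h2 hN

end Pool.Agent.MP971469
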