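import Mathlib

/-! L01: the arithmetic lemma. -/

namespace Pool.Agent.MP971469

private theorem L01_res (p r e : ℕ) (hp : 5 ≤ p) (hr : 1 ≤ r) (he : e < 3 * r) :
    ∃ X a : ℤ, ((p : ℤ) ^ r + 1) ∣ (p : ℤ) ^ e - X ∧ |X| ≤ (p : ℤ) ^ (r - 1) ∧ (p : ℤ) ∣ X - a ∧
      ((e = 0 ∧ X = 1 ∧ a = 1) ∨ (e = 2 * r ∧ X = 1 ∧ a = 1) ∨ (e = r ∧ X = -1 ∧ a = -1) ∨
        (0 < e ∧ e < r ∧ X = (p : ℤ) ^ e ∧ a = 0) ∨ (r < e ∧ e < 2 * r ∧ a = 0) ∨
        (2 * r < e ∧ a = 0)) := by
  have hp1 : (1 : ℤ) ≤ (p : ℤ) := by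
    have : 1 ≤ p := by omega
    exact_mod_cast this
  have hp0 : (0 : ℤ) ≤ (p : ℤ) := by linarith
  have hmono : ∀ m, m ≤ r - 1 → (p : ℤ) ^ m ≤ (p : ℤ) ^ (r - 1) := fun m hm =>
    pow_le_pow_right₀ hp1 hm
  have hpos : ∀ m, |(p : ℤ) ^ m| = (p : ℤ) ^ m := fun m => abs_of_nonneg (pow_nonneg hp0 m)
  have hdvd : ∀ m, 0 < m → (p : ℤ) ∣ (p : ℤ) ^ m - 0 := by
    intro m hm
    rw [sub_zero]
    exact dvd_pow_self _ (by omega)
  rcases lt_or_ge e r with h1 | h1
  · rcases Nat.eq_zero_or_pos e with h0 | h0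
    · refine ⟨1, 1, by simp [h0], ?_, by simp, Or.inl ⟨h0, rfl, rfl⟩⟩
      rw [abs_one]
      exact one_le_pow₀ hp1
    · refine ⟨(p : ℤ) ^ e, 0, by simp, ?_, hdvd e h0, ?_⟩
      · rw [hpos]
        exact hmono e (by omega)
      · right; right; right; left
        exact ⟨h0, h1, rfl, rfl⟩
  · rcases lt_or_ge e (2 * r) with h2 | h2
    · have hd : ((p : ℤ) ^ r + 1) ∣ (p : ℤ) ^ e - (-(p : ℤ) ^ (e - r)) := by
        refine ⟨(p : ℤ) ^ (e - r), ?_⟩
        have : (p : ℤ) ^ e = (p : ℤ) ^ r * (p : ℤ) ^ (e - r) := by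
          rw [← pow_add]
          congr 1
          omega
        rw [this]
        ring
      rcases Nat.eq_or_lt_of_le h1 with h3 | h3
      · refine ⟨-1, -1, ?_, ?_, by simp, ?_⟩
        · have h4 : e - r = 0 := by omega
          rw [h4, pow_zero] at hd
          exact hd
        · rw [abs_neg, abs_one]
          exact one_le_pow₀ hp1
        · right; right; left
          exact ⟨h3.symm, rfl, rfl⟩
      · refine ⟨-(p : ℤ) ^ (e - r), 0, hd, ?_, ?_, ?_⟩
        · rw [abs_neg, hpos]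
          exact hmono _ (by omega)
        · rw [sub_zero, dvd_neg]
          exact dvd_pow_self _ (by omega)
        · right; right; right; right; left
          exact ⟨h3, h2, rfl⟩
    · have hd : ((p : ℤ) ^ r + 1) ∣ (p : ℤ) ^ e - (p : ℤ) ^ (e - 2 * r) := by
        refine ⟨((p : ℤ) ^ r - 1) * (p : ℤ) ^ (e - 2 * r), ?_⟩
        have : (p : ℤ) ^ e = (p : ℤ) ^ r * (p : ℤ) ^ r * (p : ℤ) ^ (e - 2 * r) := by
          rw [← pow_add, ← pow_add]
          congr 1
          omega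
        rw [this]
        ring
      rcases Nat.eq_or_lt_of_le h2 with h3 | h3
      · refine ⟨1, 1, ?_, ?_, by simp, ?_⟩
        · have h4 : e - 2 * r = 0 := by omega
          rw [h4, pow_zero] at hd
          exact hd
        · rw [abs_one]
          exact one_le_pow₀ hp1
        · right; left
          exact ⟨h3.symm, rfl, rfl⟩
      · refine ⟨(p : ℤ) ^ (e - 2 * r), 0, hd, ?_, hdvd _ (by omega), ?_⟩
        · rw [hpos]
          exact hmono _ (by omega)
        · right; right; right; right; right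
          exact ⟨h3, rfl⟩

/-- Let `n = p^r + 1`, `p ≥ 5`. If `p^k (1 - p^i) ≡ 1 - p^i' mod n` with `1 ≤ i, i' ≤ r`, `k < 2r`, then
`k = 0` and `i = i'`.
Proof: modulo `n` we have `p^(m+r) ≡ -p^m`. Let `A`, `B`, `C` be the signed residues of `p^k`,
`p^(k+i)`, `p^i'`: `A = p^k` if `k < r`, `-p^(k-r)` if `r ≤ k < 2r`; `B = p^(k+i)`, `-p^(k+i-r)`,
`p^(k+i-2r)` according to the size of `k+i < 3r`; `C = p^i'` if `i' < r` and `C = -1` if `i' = r`.
All are `±p^m` with `m < r`. The congruence is `A - B ≡ 1 - C`; as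
`|A - B - 1 + C| ≤ 3 p^(r-1) + 1 < n` it is an equality `A + C = 1 + B` of integers.
Case `C = p^i'`, `i' < r`: modulo `p`: `A ≡ 1 + B` with `A, B ∈ {0,1,-1} mod p`: so `A = 1` (`k = 0`) and
`B ≡ 0`, `B = C`, i.e. `p^i = p^i'` (if `i < r`; `i = r` gives `B = -1`), or `A ≡ 0` and `B = -1`
(`k + i = r`), `A = -p^i'` forces `k ≥ r`, contradiction. Case `C = -1`: `A = 2 + B`, modulo `p`:
`A = 1`, `B = -1`, `k = 0`, `i = r = i'`. -/
theorem arith_lemma (p r i i' k : ℕ) (hp : 5 ≤ p) (hi : 1 ≤ i) (hi2 : i ≤ r) (hi' : 1 ≤ i')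
    (hi'2 : i' ≤ r) (hk : k < 2 * r)
    (h : ((p : ℤ) ^ r + 1) ∣ (p : ℤ) ^ k * (1 - (p : ℤ) ^ i) - (1 - (p : ℤ) ^ i')) :
    k = 0 ∧ i = i' := by
  have hr : 1 ≤ r := by omega
  have hp5 : (5 : ℤ) ≤ (p : ℤ) := by exact_mod_cast hp
  obtain ⟨A, a, hA1, hA2, hA3, hA4⟩ := L01_res p r k hp hr (by omega)
  obtain ⟨B, b, hB1, hB2, hB3, hB4⟩ := L01_res p r (k + i) hp hr (by omega)
  obtain ⟨C, c, hC1, hC2, hC3, hC4⟩ := L01_res p r i' hp hr (by omega)
  have hdv : ((p : ℤ) ^ r + 1) ∣ A - B - 1 + C := by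
    have h1 := dvd_add (dvd_sub h (dvd_add hA1 hC1)) hB1
    have h2 : (p : ℤ) ^ k * (1 - (p : ℤ) ^ i) - (1 - (p : ℤ) ^ i') -
        ((p : ℤ) ^ k - A + ((p : ℤ) ^ i' - C)) + ((p : ℤ) ^ (k + i) - B) = A - B - 1 + C := by
      rw [pow_add]
      ring
    rwa [h2] at h1
  have hpr : (p : ℤ) ^ r = p * (p : ℤ) ^ (r - 1) := by
    rw [← pow_succ']
    congr 1
    omega
  have hq : (1 : ℤ) ≤ (p : ℤ) ^ (r - 1) := one_le_pow₀ (by linarith)
  have hz : A - B - 1 + C = 0 := by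
    refine Int.eq_zero_of_abs_lt_dvd hdv ?_
    rw [abs_le] at hA2 hB2 hC2
    have h5 : 5 * (p : ℤ) ^ (r - 1) ≤ (p : ℤ) ^ r := by
      rw [hpr]
      exact mul_le_mul_of_nonneg_right hp5 (by linarith)
    rw [abs_lt]
    constructor <;> linarith [hA2.1, hA2.2, hB2.1, hB2.2, hC2.1, hC2.2]
  have hab : a - b - 1 + c = 0 := by
    have h1 : (p : ℤ) ∣ a - b - 1 + c := by
      have h2 := dvd_sub (dvd_sub hB3 hA3) hC3
      have h3 : B - b - (A - a) - (C - c) = a - b - 1 + c - (A - B - 1 + C) := by ring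
      rw [h3, hz, sub_zero] at h2
      exact h2
    refine Int.eq_zero_of_abs_lt_dvd h1 ?_
    have ha : |a| ≤ 1 := by
      rcases hA4 with h | h | h | h | h | h <;> simp [h]
    have hb : |b| ≤ 1 := by
      rcases hB4 with h | h | h | h | h | h <;> simp [h]
    have hc : |c| ≤ 1 := by
      rcases hC4 with h | h | h | h | h | h <;> simp [h]
    rw [abs_le] at ha hb hc
    rw [abs_lt]
    constructor <;> linarith [ha.1, ha.2, hb.1, hb.2, hc.1, hc.2]
  have hc01 : c = 0 ∨ c = -1 := by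
    rcases hC4 with h | h | h | h | h | h <;> omega
  rcases hC4 with hC | hC | hC | hC | hC | hC
  · omega
  · omega
  · rcases hA4 with hA | hA | hA | hA | hA | hA <;>
      rcases hB4 with hB | hB | hB | hB | hB | hB <;> omega
  · rcases hA4 with hA | hA | hA | hA | hA | hA
    · rcases hB4 with hB | hB | hB | hB | hB | hB
      · omega
      · omega
      · omega
      · have h1 : (p : ℤ) ^ (k + i) = (p : ℤ) ^ i' := by
          rw [← hB.2.2.1, ← hC.2.2.1]
          linarith [hA.2.1]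
        have h2 : p ^ (k + i) = p ^ i' := by exact_mod_cast h1
        have h3 := Nat.pow_right_injective (by omega : 2 ≤ p) h2
        omega
      · omega
      · omega
    · omega
    · rcases hB4 with hB | hB | hB | hB | hB | hB <;> omega
    · rcases hB4 with hB | hB | hB | hB | hB | hB
      · omega
      · omega
      · exfalso
        have h1 : (0 : ℤ) < (p : ℤ) ^ k := pow_pos (by linarith) k
        have h2 : (0 : ℤ) < (p : ℤ) ^ i' := pow_pos (by linarith) i'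
        have h3 := hA.2.2.1
        have h4 := hC.2.2.1
        have h5 := hB.2.1
        linarith
      · omega
      · omega
      · omega
    · rcases hB4 with hB | hB | hB | hB | hB | hB <;> omega
    · omega
  · omega
  · omega

end Pool.Agent.MP971469
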