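import Pool.Agent.Lib.MP_971469_al.M07_Skew
import Pool.Agent.Lib.MP_971469_al.L01_Arith

/-! L02: the elements `θ_σ = ζ / σ ζ`. -/

set_option linter.unusedSectionVars false

namespace Pool.Agent.MP971469

namespace Data

variable {p r : ℕ} [Fact p.Prime] {E : Type} [Field E] [Finite E] [Algebra (ZMod p) E]

/-- Key case with exponents. `ζ` has order `p^r+1`; `φ^i ζ = ζ^(p^i)`. -/
theorem theta_key (S : Data p r E) (ζ : E) (h1 : ζ * S.bar ζ = 1) (h2 : orderOf ζ = p ^ r + 1)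
    (i i' k : ℕ) (hi : 1 ≤ i) (hi2 : i ≤ r) (hi' : 1 ≤ i') (hi'2 : i' ≤ r) (hk : k < 2 * r)
    (h : (ζ / ζ ^ (p ^ i)) ^ (p ^ k) = ζ / ζ ^ (p ^ i')) : k = 0 ∧ i = i' := by
  have hζ : ζ ≠ 0 := by rintro rfl; simp at h1
  obtain ⟨u, rfl⟩ : ∃ u : Eˣ, (u : E) = ζ := ⟨Units.mk0 ζ hζ, rfl⟩
  rw [orderOf_units] at h2
  have hu : (u / u ^ (p ^ i)) ^ (p ^ k) = u / u ^ (p ^ i') := by
    ext
    push_cast
    exact h
  refine arith_lemma p r i i' k (by have := S.p_ge; omega) hi hi2 hi' hi'2 hk ?_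
  have h3 : ((p : ℤ) ^ r + 1) = (orderOf u : ℤ) := by
    rw [h2]
    push_cast
    ring
  rw [h3, orderOf_dvd_iff_zpow_eq_one, zpow_sub, zpow_mul', zpow_sub, zpow_sub, zpow_one]
  have e1 : ∀ m : ℕ, u ^ ((p : ℤ) ^ m) = u ^ (p ^ m) := fun m => by
    rw [← zpow_natCast]
    push_cast
    rfl
  have e2 : ∀ (w : Eˣ) (m : ℕ), w ^ ((p : ℤ) ^ m) = w ^ (p ^ m) := fun w m => by
    rw [← zpow_natCast]
    push_cast
    rfl
  rw [e1, e1, e2, ← div_eq_mul_inv, ← div_eq_mul_inv, hu, ← div_eq_mul_inv, div_self']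

/-- `θ_σ⁻¹ = σ⁻¹ (bar θ_σ)`, where `θ_σ = ζ / σ ζ`, because `bar θ = θ⁻¹`. -/
theorem theta_inv (S : Data p r E) (ζ : E) (h1 : ζ * S.bar ζ = 1) (σ : Gal(E/ZMod p)) :
    ζ / σ⁻¹ ζ = σ⁻¹ (S.bar (ζ / σ ζ)) := by
  have hζ : ζ ≠ 0 := by rintro rfl; simp at h1
  have hb : S.bar ζ = ζ⁻¹ := eq_inv_of_mul_eq_one_right h1
  have e1 : S.bar (ζ / σ ζ) = σ ζ / ζ := by
    rw [map_div₀, S.gal_apply_comm S.bar σ, hb, map_inv₀, inv_div_inv]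
  have e2 : σ⁻¹ (σ ζ) = ζ := by
    rw [← AlgEquiv.mul_apply, inv_mul_cancel, AlgEquiv.one_apply]
  rw [e1, map_div₀, e2]

/-- every nontrivial `σ` or its inverse is `φ^i` with `1 ≤ i ≤ r` -/
private theorem L02_red (S : Data p r E) (ζ : E) (h1 : ζ * S.bar ζ = 1)
    (σ : Gal(E/ZMod p)) (hσ : σ ≠ 1) :
    ∃ (s : Gal(E/ZMod p)) (i : ℕ) (α : Gal(E/ZMod p)), (s = σ ∨ s = σ⁻¹) ∧ 1 ≤ i ∧ i ≤ r ∧
      s = FiniteField.frobeniusAlgEquivOfAlgebraic (ZMod p) E ^ i ∧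
      ζ / ζ ^ (p ^ i) = α (ζ / σ ζ) := by
  obtain ⟨k, hk, hσk⟩ := S.exists_frob_pow σ
  have hk0 : k ≠ 0 := by
    rintro rfl
    exact hσ (by rw [hσk, pow_zero])
  rcases le_or_gt k r with hkr | hkr
  · refine ⟨σ, k, 1, Or.inl rfl, by omega, hkr, hσk, ?_⟩
    rw [AlgEquiv.one_apply, hσk, S.frob_pow_apply]
  · have hinv : σ⁻¹ = FiniteField.frobeniusAlgEquivOfAlgebraic (ZMod p) E ^ (2 * r - k) := by
      rw [hσk]
      refine inv_eq_of_mul_eq_one_left ?_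
      rw [← pow_add, Nat.sub_add_cancel hk.le, ← S.orderOf_frob, pow_orderOf_eq_one]
    refine ⟨σ⁻¹, 2 * r - k, σ⁻¹ * S.bar, Or.inr rfl, by omega, by omega, hinv, ?_⟩
    rw [AlgEquiv.mul_apply, ← S.theta_inv ζ h1 σ, hinv, S.frob_pow_apply]

/-- Every nontrivial `σ` or its inverse is `φ^i` with `1 ≤ i ≤ r`. Proof of the theorem: with
`theta_inv` reduce to the case where `σ` and `τ` are `φ^i`, `φ^i'` with `1 ≤ i, i' ≤ r`; then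
`theta_key`. -/
theorem theta_conj (S : Data p r E) (ζ : E) (h1 : ζ * S.bar ζ = 1) (h2 : orderOf ζ = p ^ r + 1)
    (σ τ ρ : Gal(E/ZMod p)) (hσ : σ ≠ 1) (hτ : τ ≠ 1) (h : ρ (ζ / σ ζ) = ζ / τ ζ) :
    τ = σ ∨ τ = σ⁻¹ := by
  obtain ⟨s, i, α, hs, hi, hi2, hsi, hα⟩ := S.L02_red ζ h1 σ hσ
  obtain ⟨t, i', β, ht, hi', hi'2, hti, hβ⟩ := S.L02_red ζ h1 τ hτ
  obtain ⟨k, hk, hρ⟩ := S.exists_frob_pow (β * ρ * α⁻¹)
  have h3 : (ζ / ζ ^ (p ^ i)) ^ (p ^ k) = ζ / ζ ^ (p ^ i') := by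
    rw [← S.frob_pow_apply k, ← hρ, hα, hβ, ← h]
    simp only [AlgEquiv.mul_apply]
    rw [← AlgEquiv.mul_apply α⁻¹ α, inv_mul_cancel, AlgEquiv.one_apply]
  obtain ⟨-, hii⟩ := S.theta_key ζ h1 h2 i i' k hi hi2 hi' hi'2 hk h3
  have hst : s = t := by rw [hsi, hti, hii]
  subst hst
  rcases hs with rfl | rfl
  · rcases ht with ht | ht
    · exact Or.inl ht.symm
    · right
      rw [ht, inv_inv]
  · rcases ht with ht | ht
    · exact Or.inr ht.symm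
    · left
      exact (inv_injective ht).symm

/-- `θ_σ` is not fixed by any nontrivial automorphism (the same reduction to `theta_key`). -/
theorem theta_fix (S : Data p r E) (ζ : E) (h1 : ζ * S.bar ζ = 1) (h2 : orderOf ζ = p ^ r + 1)
    (σ ρ : Gal(E/ZMod p)) (hσ : σ ≠ 1) (h : ρ (ζ / σ ζ) = ζ / σ ζ) : ρ = 1 := by
  obtain ⟨s, i, α, hs, hi, hi2, hsi, hα⟩ := S.L02_red ζ h1 σ hσ
  obtain ⟨k, hk, hρ⟩ := S.exists_frob_pow (α * ρ * α⁻¹)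
  have h3 : (ζ / ζ ^ (p ^ i)) ^ (p ^ k) = ζ / ζ ^ (p ^ i) := by
    rw [← S.frob_pow_apply k, ← hρ, hα]
    simp only [AlgEquiv.mul_apply]
    rw [← AlgEquiv.mul_apply α⁻¹ α, inv_mul_cancel, AlgEquiv.one_apply, h]
  obtain ⟨hk0, -⟩ := S.theta_key ζ h1 h2 i i k hi hi2 hi hi2 hk h3
  rw [hk0, pow_zero] at hρ
  have h4 : α * ρ * α⁻¹ * α = α := by rw [hρ, one_mul]
  rw [inv_mul_cancel_right] at h4
  exact mul_eq_left.1 h4

end Data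

end Pool.Agent.MP971469
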