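import Pool.Agent.Lib.MP_971469_al.L02_Theta

/-! L03: interpolation polynomials and their action on `T`-stable subspaces. -/

namespace Pool.Agent.MP971469

namespace Data

variable {p r : ℕ} [Fact p.Prime] {E : Type} [Field E] [Finite E] [Algebra (ZMod p) E]

open Polynomial

private theorem L03_conj (x y : E) (h : aeval x (minpoly (ZMod p) y) = 0) :
    ∃ ρ : Gal(E/ZMod p), ρ y = x :=
  minpoly.exists_algEquiv_of_root' (Algebra.IsAlgebraic.isAlgebraic y) h

private theorem L03_gen (x : E) (hx : ∀ ρ : Gal(E/ZMod p), ρ x = x → ρ = 1) (c : E) :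
    ∃ R : (ZMod p)[X], aeval x R = c := by
  have h1 : IntermediateField.fixingSubgroup (IntermediateField.adjoin (ZMod p) {x}) = ⊥ := by
    rw [eq_bot_iff]
    intro ρ hρ
    rw [Subgroup.mem_bot]
    apply hx
    rw [IntermediateField.mem_fixingSubgroup_iff] at hρ
    exact hρ x (IntermediateField.mem_adjoin_simple_self (ZMod p) x)
  have h2 : IntermediateField.adjoin (ZMod p) {x} = ⊤ := by
    rw [← IsGalois.fixedField_fixingSubgroup (IntermediateField.adjoin (ZMod p) {x}), h1,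
      IntermediateField.fixedField_bot]
  have h3 : c ∈ IntermediateField.adjoin (ZMod p) {x} := by
    rw [h2]
    exact IntermediateField.mem_top
  have h4 : c ∈ (IntermediateField.adjoin (ZMod p) {x}).toSubalgebra := h3
  rw [IntermediateField.adjoin_simple_toSubalgebra_of_isAlgebraic
    (Algebra.IsAlgebraic.isAlgebraic x), Algebra.adjoin_singleton_eq_range_aeval] at h4
  obtain ⟨R, hR⟩ := h4
  exact ⟨R, hR⟩

/-- Proof: let `Q` be the product of the minimal polynomials over `F_p` of all the `θ_τ`,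
`τ ∉ {σ, σ⁻¹}` (`θ_1 = 1`). `Q(θ_σ) ≠ 0`: otherwise `θ_σ` and some `θ_τ` have the same minimal
polynomial, so they are conjugate under the Galois group (`Normal`), which contradicts
`theta_conj` (or, for `τ = 1`, `θ_σ = 1`, contradicting `theta_fix`). `θ_σ` generates `E` over `F_p` by
`theta_fix` (Galois correspondence), so there is `R` with `R(θ_σ) = c / Q(θ_σ)`; take `P = Q R`. -/
theorem exists_poly (S : Data p r E) (ζ : E) (h1 : ζ * S.bar ζ = 1) (h2 : orderOf ζ = p ^ r + 1)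
    (σ : Gal(E/ZMod p)) (hσ : σ ≠ 1) (c : E) :
    ∃ P : (ZMod p)[X], aeval (ζ / σ ζ) P = c ∧
      ∀ τ : Gal(E/ZMod p), τ ≠ σ → τ ≠ σ⁻¹ → aeval (ζ / τ ζ) P = 0 := by
  classical
  have hζ : ζ ≠ 0 := by
    rintro rfl
    simp at h1
  set s : Finset Gal(E/ZMod p) := Finset.univ.filter (fun τ => τ ≠ σ ∧ τ ≠ σ⁻¹) with hs
  set Q : (ZMod p)[X] := ∏ τ ∈ s, minpoly (ZMod p) (ζ / τ ζ) with hQ
  have hQ0 : aeval (ζ / σ ζ) Q ≠ 0 := by
    rw [hQ, map_prod, Finset.prod_ne_zero_iff]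
    intro τ hτ h0
    rw [hs, Finset.mem_filter] at hτ
    obtain ⟨ρ, hρ⟩ := L03_conj _ _ h0
    by_cases hτ1 : τ = 1
    · rw [hτ1, AlgEquiv.one_apply, div_self hζ, map_one] at hρ
      apply hσ
      exact S.theta_fix ζ h1 h2 σ σ hσ (by rw [← hρ, map_one])
    · rcases S.theta_conj ζ h1 h2 τ σ ρ hτ1 hσ hρ with h | h
      · exact hτ.2.1 h.symm
      · exact hτ.2.2 (by rw [h, inv_inv])
  obtain ⟨R, hR⟩ := L03_gen (ζ / σ ζ) (fun ρ h => S.theta_fix ζ h1 h2 σ ρ hσ h)
    (c / aeval (ζ / σ ζ) Q)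
  refine ⟨Q * R, ?_, ?_⟩
  · rw [map_mul, hR, mul_div_cancel₀ _ hQ0]
  · intro τ hτ hτ'
    rw [map_mul, hQ, map_prod]
    have : ∏ i ∈ s, aeval (ζ / τ ζ) (minpoly (ZMod p) (ζ / i ζ)) = 0 := by
      apply Finset.prod_eq_zero (i := τ)
      · rw [hs, Finset.mem_filter]
        exact ⟨Finset.mem_univ _, hτ, hτ'⟩
      · exact minpoly.aeval _ _
    rw [this, zero_mul]

/-- The same for `σ = 1` (`θ_1 = 1`): `P(1) = 1`, `P(θ_τ) = 0` for `τ ≠ 1`. -/
theorem exists_poly_one (S : Data p r E) (ζ : E) (h1 : ζ * S.bar ζ = 1)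
    (h2 : orderOf ζ = p ^ r + 1) :
    ∃ P : (ZMod p)[X], aeval (1 : E) P = 1 ∧
      ∀ τ : Gal(E/ZMod p), τ ≠ 1 → aeval (ζ / τ ζ) P = 0 := by
  classical
  set s : Finset Gal(E/ZMod p) := Finset.univ.filter (fun τ => τ ≠ 1) with hs
  set Q : (ZMod p)[X] := ∏ τ ∈ s, minpoly (ZMod p) (ζ / τ ζ) with hQ
  have hQ0 : aeval (1 : E) Q ≠ 0 := by
    rw [hQ, map_prod, Finset.prod_ne_zero_iff]
    intro τ hτ h0
    rw [hs, Finset.mem_filter] at hτ
    obtain ⟨ρ, hρ⟩ := L03_conj _ _ h0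
    have h3 : ζ / τ ζ = 1 := by
      apply ρ.injective
      rw [hρ, map_one]
    exact hτ.2 (S.theta_fix ζ h1 h2 τ τ hτ.2 (by rw [h3, map_one]))
  have h4 : aeval (1 : E) Q = algebraMap (ZMod p) E (Q.eval 1) := by
    have := aeval_algebraMap_apply_eq_algebraMap_eval (A := E) (1 : ZMod p) Q
    rwa [map_one] at this
  have h5 : Q.eval 1 ≠ 0 := by
    intro h
    rw [h4, h, map_zero] at hQ0
    exact hQ0 rfl
  refine ⟨Polynomial.C (Q.eval 1)⁻¹ * Q, ?_, ?_⟩
  · rw [map_mul, aeval_C, h4, ← map_mul, inv_mul_cancel₀ h5, map_one]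
  · intro τ hτ
    rw [map_mul, hQ, map_prod]
    have : ∏ i ∈ s, aeval (ζ / τ ζ) (minpoly (ZMod p) (ζ / i ζ)) = 0 := by
      apply Finset.prod_eq_zero (i := τ)
      · rw [hs, Finset.mem_filter]
        exact ⟨Finset.mem_univ _, hτ⟩
      · exact minpoly.aeval _ _
    rw [this, mul_zero]

/-- If `W` is stable under conjugation by `T` and `X ∈ W`, then the endomorphism with coefficients
`P(θ_σ) * coef X σ` is in `W`. Proof: conjugation by multiplication with `ζ` multiplies the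
coefficient at `σ` by `θ_σ` (`coef_mE_mul`, `coef_mul_mE`); induction on `P`. -/
theorem poly_mem (S : Data p r E) (ζ : E) (h1 : ζ * S.bar ζ = 1)
    (W : Submodule (ZMod p) (AE p E)) (hT : ∀ g ∈ S.T, ∀ X ∈ W, cj g X ∈ W)
    (X : AE p E) (hX : X ∈ W) (P : (ZMod p)[X]) :
    ofCoef p E (fun σ => aeval (ζ / σ ζ) P * coef X σ) ∈ W := by
  have hζ : ζ ≠ 0 := by
    rintro rfl
    simp at h1
  have hmul1 : mE p ζ * mE p ζ⁻¹ = 1 := by
    rw [← map_mul, mul_inv_cancel₀ hζ, map_one]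
  have hmul2 : mE p ζ⁻¹ * mE p ζ = 1 := by
    rw [← map_mul, inv_mul_cancel₀ hζ, map_one]
  let g : (AE p E)ˣ := ⟨mE p ζ, mE p ζ⁻¹, hmul1, hmul2⟩
  have hg : g ∈ S.T := ⟨ζ, h1, rfl⟩
  have hcoef : ∀ (Y : AE p E) (σ : Gal(E/ZMod p)), coef (cj g Y) σ = ζ / σ ζ * coef Y σ := by
    intro Y σ
    have : cj g Y = mE p ζ * Y * mE p ζ⁻¹ := rfl
    rw [this, coef_mul_mE, coef_mE_mul, map_inv₀, div_eq_mul_inv]
    ring
  have hmono : ∀ n : ℕ, ∀ Y ∈ W, ofCoef p E (fun σ => (ζ / σ ζ) ^ n * coef Y σ) ∈ W := by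
    intro n
    induction n with
    | zero =>
      intro Y hY
      have : ofCoef p E (fun σ => (ζ / σ ζ) ^ 0 * coef Y σ) = Y := by
        apply coef_ext
        intro σ
        rw [coef_ofCoef, pow_zero, one_mul]
      rw [this]
      exact hY
    | succ n ih =>
      intro Y hY
      have := ih (cj g Y) (hT g hg Y hY)
      have h3 : (fun σ : Gal(E/ZMod p) => (ζ / σ ζ) ^ (n + 1) * coef Y σ) =
          (fun σ => (ζ / σ ζ) ^ n * coef (cj g Y) σ) := by
        funext σ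
        rw [hcoef, pow_succ]
        ring
      rw [h3]
      exact this
  induction P using Polynomial.induction_on' with
  | add a b ha hb =>
    have : (fun σ : Gal(E/ZMod p) => aeval (ζ / σ ζ) (a + b) * coef X σ) =
        (fun σ => aeval (ζ / σ ζ) a * coef X σ) + (fun σ => aeval (ζ / σ ζ) b * coef X σ) := by
      funext σ
      rw [map_add, add_mul]
      rfl
    rw [this, map_add]
    exact W.add_mem ha hb
  | monomial n a =>
    have : (fun σ : Gal(E/ZMod p) => aeval (ζ / σ ζ) (monomial n a) * coef X σ) =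
        a • (fun σ : Gal(E/ZMod p) => (ζ / σ ζ) ^ n * coef X σ) := by
      funext σ
      rw [aeval_monomial, Pi.smul_apply, Algebra.smul_def]
      ring
    rw [this, map_smul]
    exact W.smul_mem _ (hmono n X hX)

end Data

end Pool.Agent.MP971469
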