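import Pool.Agent.Lib.MP_971469_al.L03_Poly

/-! L04: a `T`-stable subspace of `skew` is graded. -/

namespace Pool.Agent.MP971469

namespace Data

variable {p r : ℕ} [Fact p.Prime] {E : Type} [Field E] [Finite E] [Algebra (ZMod p) E]

/-- Proof: `exists_zeta`, `exists_poly_one`, `poly_mem`. -/
theorem isotypic_one (S : Data p r E) (W : Submodule (ZMod p) (AE p E))
    (hT : ∀ g ∈ S.T, ∀ X ∈ W, cj g X ∈ W)
    (X : AE p E) (hX : X ∈ W) : mE p (coef X 1) ∈ W := by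
  classical
  obtain ⟨ζ, h1, h2, -⟩ := S.exists_zeta
  have hζ0 : ζ ≠ 0 := by rintro rfl; simp at h1
  obtain ⟨P, hP1, hP2⟩ := S.exists_poly_one ζ h1 h2
  have hmem := S.poly_mem ζ h1 W hT X hX P
  have heq : ofCoef p E (fun σ => Polynomial.aeval (ζ / σ ζ) P * coef X σ) = mE p (coef X 1) := by
    apply coef_ext
    intro τ
    rw [coef_ofCoef, coef_mE]
    by_cases hτ : τ = 1
    · subst hτ
      rw [if_pos rfl, AlgEquiv.one_apply, div_self hζ0, hP1, one_mul]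
    · rw [if_neg hτ, hP2 τ hτ, zero_mul]
  rw [heq] at hmem
  exact hmem

/-- Proof: let `c = coef X σ ≠ 0`. Choose `P` with `P(θ_σ) = a / c` (or `a / (2c)` when
`σ = σ⁻¹ = bar`), `P(θ_τ) = 0` for `τ ∉ {σ, σ⁻¹}`. The element of `W` given by `poly_mem` is skew, has
coefficient `a` (resp. `a/2`) at `σ` and `0` outside of `{σ, σ⁻¹}`, so it is `dd σ a` (resp.
half of it) by `coef_skew`, `coef_dd`. (`σ = σ⁻¹`, `σ ≠ 1` implies `σ = bar` by `eq_bar_of_sq`.) -/
theorem isotypic (S : Data p r E) (W : Submodule (ZMod p) (AE p E)) (hW : W ≤ S.skew)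
    (hT : ∀ g ∈ S.T, ∀ X ∈ W, cj g X ∈ W)
    (X : AE p E) (hX : X ∈ W) (σ : Gal(E/ZMod p)) (hσ : σ ≠ 1) (hc : coef X σ ≠ 0) (a : E) :
    S.dd σ a ∈ W := by
  classical
  obtain ⟨ζ, h1, h2, -⟩ := S.exists_zeta
  obtain ⟨P, hP1, hP2⟩ := S.exists_poly ζ h1 h2 σ hσ (a / coef X σ)
  have hmem := S.poly_mem ζ h1 W hT X hX P
  set Y : AE p E := ofCoef p E (fun σ => Polynomial.aeval (ζ / σ ζ) P * coef X σ) with hY
  have hYσ : coef Y σ = a := by
    rw [hY, coef_ofCoef, hP1, div_mul_cancel₀ _ hc]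
  have hYτ : ∀ τ : Gal(E/ZMod p), τ ≠ σ → τ ≠ σ⁻¹ → coef Y τ = 0 := by
    intro τ ht1 ht2
    rw [hY, coef_ofCoef, hP2 τ ht1 ht2, zero_mul]
  by_cases hsq : σ * σ = 1
  · have hb : σ = S.bar := S.eq_bar_of_sq σ hsq hσ
    subst hb
    have heq : Y = mE p a * gE p S.bar := by
      apply coef_ext
      intro τ
      rw [coef_single]
      by_cases hτ : τ = S.bar
      · rw [if_pos hτ, hτ, hYσ]
      · rw [if_neg hτ]
        exact hYτ τ hτ (by rw [S.bar_inv]; exact hτ)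
    rw [S.dd_bar, ← heq]
    exact W.smul_mem _ hmem
  · have hYs : Y ∈ S.skew := hW hmem
    have heq : Y = S.dd σ a := by
      apply coef_ext
      intro τ
      by_cases hτ : τ = σ
      · rw [hτ, hYσ, S.coef_dd_self σ a hsq]
      · by_cases hτ2 : τ = σ⁻¹
        · rw [hτ2, S.coef_skew Y hYs, S.coef_skew _ (S.dd_mem_skew σ a), inv_inv, hYσ,
            S.coef_dd_self σ a hsq]
        · rw [hYτ τ hτ hτ2, S.coef_dd_ne σ τ a hτ hτ2]
    rw [← heq]
    exact hmem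

end Data

end Pool.Agent.MP971469
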