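import Pool.Agent.Lib.MP_971469_al.M07_Skew

/-! L05: subgroups of the Galois group (cyclic of order `2r`, `r` an odd prime). -/

namespace Pool.Agent.MP971469

namespace Data

variable {p r : ℕ} [Fact p.Prime] {E : Type} [Field E] [Finite E] [Algebra (ZMod p) E]

private theorem L05_sgn_pow (S : Data p r E) (σ : Gal(E/ZMod p)) (n : ℕ) :
    S.sgn (σ ^ n) = S.sgn σ ^ n := by
  induction n with
  | zero => rw [pow_zero, pow_zero, S.sgn_one]
  | succ n ih => rw [pow_succ, S.sgn_mul, ih, pow_succ]

/-- Proof: `|H|` divides `2r`, so it is `1, 2, r` or `2r`. If it is `1` or `r` (odd), the homomorphism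
`sgn` with values in `{1,-1}` is trivial on `H`. If it is `2`, the nontrivial element is `bar`
(`eq_bar_of_sq`). If it is `2r`, `H = ⊤`. -/
theorem subgroup_tri (S : Data p r E) (H : Subgroup Gal(E/ZMod p)) :
    (∀ σ ∈ H, S.sgn σ = 1) ∨ (S.bar ∈ H ∧ ∀ σ ∈ H, σ = 1 ∨ σ = S.bar) ∨ H = ⊤ := by
  have hd : Nat.card H ∣ 2 * r := by
    rw [← S.card_gal]
    exact H.card_subgroup_dvd_card
  obtain ⟨a, b, ha, hb, hab⟩ := (Nat.dvd_mul).1 hd
  have hpow : ∀ σ ∈ H, σ ^ Nat.card H = 1 := by
    intro σ hσ
    have h1 : (⟨σ, hσ⟩ : H) ^ Nat.card H = 1 := pow_card_eq_one'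
    exact congrArg Subtype.val h1
  rcases (Nat.dvd_prime Nat.prime_two).1 ha with rfl | rfl
  · -- odd order
    left
    intro σ hσ
    have hodd : Odd (Nat.card H) := by
      rw [← hab, one_mul]
      exact Odd.of_dvd_nat S.r_odd hb
    rcases S.sgn_eq σ with h | h
    · exact h
    · exfalso
      have h1 := L05_sgn_pow S σ (Nat.card H)
      rw [hpow σ hσ, S.sgn_one, h, hodd.neg_one_pow] at h1
      apply S.two_ne'
      have h2 : (1 : E) + 1 = 0 := by
        nth_rewrite 1 [h1]
        rw [neg_add_cancel]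
      rw [← one_add_one_eq_two, h2]
  · rcases (Nat.dvd_prime S.r_prime).1 hb with rfl | rfl
    · right; left
      have hcard : Nat.card H = 2 := by rw [← hab]
      have hall : ∀ σ ∈ H, σ = 1 ∨ σ = S.bar := by
        intro σ hσ
        by_cases h1 : σ = 1
        · exact Or.inl h1
        · right
          apply S.eq_bar_of_sq σ _ h1
          have := hpow σ hσ
          rw [hcard, pow_two] at this
          exact this
      refine ⟨?_, hall⟩
      have hnt : Nontrivial H := by
        rw [← Finite.one_lt_card_iff_nontrivial, hcard]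
        norm_num
      obtain ⟨⟨σ, hσ⟩, hne⟩ := exists_ne (1 : H)
      have hσ1 : σ ≠ 1 := fun h => hne (Subtype.ext h)
      rcases hall σ hσ with h | h
      · exact absurd h hσ1
      · rw [← h]; exact hσ
    · right; right
      apply Subgroup.eq_top_of_card_eq
      rw [← hab, S.card_gal]

end Data

end Pool.Agent.MP971469
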