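import Pool.Agent.Lib.MP_971469_al.L04_Isotypic

/-! L06: the normalizer of a subspace of `skew`. -/

namespace Pool.Agent.MP971469

namespace Data

variable {p r : ℕ} [Fact p.Prime] {E : Type} [Field E] [Finite E] [Algebra (ZMod p) E]

/-- `{X ∈ skew : [X, L] ⊆ L}`. -/
noncomputable def nrm (S : Data p r E) (L : Submodule (ZMod p) (AE p E)) :
    Submodule (ZMod p) (AE p E) where
  carrier := {X | X ∈ S.skew ∧ ∀ Y ∈ L, X * Y - Y * X ∈ L}
  add_mem' := by
    rintro X X' ⟨h1, h2⟩ ⟨h1', h2'⟩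
    refine ⟨add_mem h1 h1', fun Y hY => ?_⟩
    have := add_mem (h2 Y hY) (h2' Y hY)
    rwa [show (X + X') * Y - Y * (X + X') = X * Y - Y * X + (X' * Y - Y * X') by
      rw [add_mul, mul_add]; abel]
  zero_mem' := ⟨zero_mem _, fun Y hY => by simp⟩
  smul_mem' := by
    rintro c X ⟨h1, h2⟩
    refine ⟨Submodule.smul_mem _ c h1, fun Y hY => ?_⟩
    have := Submodule.smul_mem L c (h2 Y hY)
    rwa [show (c • X) * Y - Y * (c • X) = c • (X * Y - Y * X) by
      rw [smul_mul_assoc, mul_smul_comm, smul_sub]]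

theorem nrm_le (S : Data p r E) (L : Submodule (ZMod p) (AE p E)) : S.nrm L ≤ S.skew :=
  fun _ h => h.1

/-- The bracket of skew endomorphisms is skew. -/
theorem bracket_mem_skew (S : Data p r E) (X Y : AE p E) (hX : X ∈ S.skew) (hY : Y ∈ S.skew) :
    X * Y - Y * X ∈ S.skew := by
  rw [S.mem_skew_iff] at hX hY ⊢
  rw [S.adj_sub, S.adj_mul, S.adj_mul, hX, hY, neg_mul_neg, neg_mul_neg, neg_sub]

/-- Jacobi identity. -/
theorem nrm_bracket (S : Data p r E) (L : Submodule (ZMod p) (AE p E)) (X Y : AE p E)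
    (hX : X ∈ S.nrm L) (hY : Y ∈ S.nrm L) : X * Y - Y * X ∈ S.nrm L := by
  refine ⟨S.bracket_mem_skew X Y hX.1 hY.1, fun Z hZ => ?_⟩
  have h := sub_mem (hX.2 _ (hY.2 Z hZ)) (hY.2 _ (hX.2 Z hZ))
  rwa [show X * (Y * Z - Z * Y) - (Y * Z - Z * Y) * X - (Y * (X * Z - Z * X) - (X * Z - Z * X) * Y) =
    (X * Y - Y * X) * Z - Z * (X * Y - Y * X) by noncomm_ring] at h

theorem nrm_cj (S : Data p r E) (L : Submodule (ZMod p) (AE p E)) (g : (AE p E)ˣ) (hg : g ∈ S.Sp)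
    (h1 : ∀ Y ∈ L, cj g Y ∈ L) (h2 : ∀ Y ∈ L, cj g⁻¹ Y ∈ L) (X : AE p E) (hX : X ∈ S.nrm L) :
    cj g X ∈ S.nrm L := by
  refine ⟨S.cj_mem_skew g hg X hX.1, fun Y hY => ?_⟩
  have h := h1 _ (hX.2 _ (h2 Y hY))
  rwa [cj_map_sub, cj_map_mul, cj_map_mul, cj_cj_inv] at h

/-- If `L ≤ skew` is stable under `T`, then `nrm L` contains the multiplications by elements of
`E⁻`. Proof: let `Y ∈ L`, `a ∈ E⁻`. The bracket `a Y - Y a` has coefficient `(a - σ a) coef Y σ` at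
`σ`. With `b_σ = (a - σ a) coef Y σ` we have, as `[a, Y]` is skew, `2 [a, Y] = ∑_σ dd σ b_σ`
(`skew_eq_sum`), and each `dd σ b_σ` is in `L`: it is `0` if `b_σ = 0`; if `b_σ ≠ 0` then `coef Y σ ≠ 0`
and `σ ≠ 1`, so `dd σ b_σ ∈ L` by `isotypic`. -/
theorem nrm_em (S : Data p r E) (L : Submodule (ZMod p) (AE p E)) (hL : L ≤ S.skew)
    (hT : ∀ g ∈ S.T, ∀ X ∈ L, cj g X ∈ L) (a : E) (ha : S.bar a = -a) : mE p a ∈ S.nrm L := by
  have hs : mE p a ∈ S.skew := (S.mE_mem_skew_iff a).2 ha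
  refine ⟨hs, fun Y hY => ?_⟩
  have h1 := S.bracket_mem_skew (mE p a) Y hs (hL hY)
  have h2 := S.skew_eq_sum _ h1
  have h3 : ∑ σ, S.dd σ (coef (mE p a * Y - Y * mE p a) σ) ∈ L := by
    refine Submodule.sum_mem _ fun σ _ => ?_
    have e : coef (mE p a * Y - Y * mE p a) σ = a * coef Y σ - coef Y σ * σ a := by
      rw [coef_sub, coef_mE_mul, coef_mul_mE]
    have z : S.dd σ 0 = 0 := by
      have := S.dd_smul σ 0 0
      simpa using this
    by_cases hσ : σ = 1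
    · subst hσ
      rw [e, AlgEquiv.one_apply, mul_comm, sub_self, z]
      exact zero_mem _
    · by_cases hc : coef Y σ = 0
      · rw [e, hc, mul_zero, zero_mul, sub_self, z]
        exact zero_mem _
      · exact S.isotypic L hL hT Y hY σ hσ hc _
  rw [← h2] at h3
  have h4 : (2 : ZMod p) ≠ 0 := by
    intro h0
    apply S.two_ne'
    have h5 := congrArg (algebraMap (ZMod p) E) h0
    rwa [map_zero, map_ofNat] at h5
  exact (Submodule.smul_mem_iff L h4).1 h3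

end Data

end Pool.Agent.MP971469
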