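import Pool.Agent.Lib.MP_971469_al.L04_Isotypic

/-! L07: the degrees of a `T`-stable Lie algebra form a subgroup of the Galois group. -/

namespace Pool.Agent.MP971469

namespace Data

variable {p r : ℕ} [Fact p.Prime] {E : Type} [Field E] [Finite E] [Algebra (ZMod p) E]

/-- product of two homogeneous terms. -/
private theorem L07_mul (σ τ : Gal(E/ZMod p)) (a b : E) :
    (mE p a * gE p σ) * (mE p b * gE p τ) = mE p (a * σ b) * gE p (σ * τ) := by
  calc (mE p a * gE p σ) * (mE p b * gE p τ) = mE p a * (gE p σ * mE p b) * gE p τ := by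
        simp only [mul_assoc]
    _ = mE p (a * σ b) * gE p (σ * τ) := by
        rw [gE_mul_mE, map_mul, map_mul]
        simp only [mul_assoc]

/-- bracket of two homogeneous terms. -/
private theorem L07_br (S : Data p r E) (σ τ : Gal(E/ZMod p)) (a b : E) :
    (mE p a * gE p σ) * (mE p b * gE p τ) - (mE p b * gE p τ) * (mE p a * gE p σ) =
      mE p (a * σ b - b * τ a) * gE p (σ * τ) := by
  rw [L07_mul, L07_mul, S.gal_comm τ σ, map_sub, sub_mul]

/-- The coefficient at `σ τ` of the bracket of `dd σ 1` and `dd τ b` is `σ b - b` or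
`2 (σ b - b)`. Here `σ, τ ≠ 1` and `σ τ ≠ 1`. Proof: with `ξ = σ`, `η = b τ` (as endomorphisms),
`dd σ 1 = ξ - ξ*`, `dd τ b = η - η*`, the bracket is `[ξ,η] - [ξ,η*] - [ξ*,η] + [ξ*,η*]` with terms
homogeneous of degrees `στ, στ⁻¹, σ⁻¹τ, σ⁻¹τ⁻¹`; `[ξ,η]` has coefficient `σ b - b` at `στ`.
At most one of the other degrees equals `στ`: `στ⁻¹ = στ` iff `τ = bar`, then `η* = -η`;
`σ⁻¹τ = στ` iff `σ = bar`, then `ξ* = -ξ`; `σ⁻¹τ⁻¹ = στ` iff `στ = bar`, and then
`[ξ*,η*] = -[ξ,η]* = [ξ,η]`. In each of these cases the coefficient doubles. -/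
theorem coef_bracket (S : Data p r E) (σ τ : Gal(E/ZMod p)) (hσ : σ ≠ 1) (hτ : τ ≠ 1)
    (hst : σ * τ ≠ 1) (b : E) :
    coef (S.dd σ 1 * S.dd τ b - S.dd τ b * S.dd σ 1) (σ * τ) = σ b - b ∨
      coef (S.dd σ 1 * S.dd τ b - S.dd τ b * S.dd σ 1) (σ * τ) = 2 * (σ b - b) := by
  classical
  obtain ⟨s, hs⟩ : ∃ s : E, s = S.sgn σ := ⟨_, rfl⟩
  obtain ⟨b', hb'⟩ : ∃ b' : E, b' = S.sgn τ * τ⁻¹ (S.bar b) := ⟨_, rfl⟩
  have d1 : S.dd σ 1 = mE p 1 * gE p σ - mE p s * gE p σ⁻¹ := by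
    unfold dd
    rw [S.adj_mE_gE, map_one S.bar, map_one σ⁻¹, mul_one (S.sgn σ), hs]
  have d2 : S.dd τ b = mE p b * gE p τ - mE p b' * gE p τ⁻¹ := by
    unfold dd
    rw [S.adj_mE_gE, hb']
  have hts : τ s = s := by rw [hs, S.gal_sgn]
  have hts' : τ⁻¹ s = s := by rw [hs, S.gal_sgn]
  have key : S.dd σ 1 * S.dd τ b - S.dd τ b * S.dd σ 1 =
      mE p (σ b - b) * gE p (σ * τ) - mE p (σ b' - b') * gE p (σ * τ⁻¹)
        - mE p (s * (σ⁻¹ b - b)) * gE p (σ⁻¹ * τ)
        + mE p (s * (σ⁻¹ b' - b')) * gE p (σ⁻¹ * τ⁻¹) := by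
    have e1 := L07_br S σ τ 1 b
    have e2 := L07_br S σ τ⁻¹ 1 b'
    have e3 := L07_br S σ⁻¹ τ s b
    have e4 := L07_br S σ⁻¹ τ⁻¹ s b'
    rw [map_one τ, mul_one b, one_mul (σ b)] at e1
    rw [map_one τ⁻¹, mul_one b', one_mul (σ b')] at e2
    rw [hts, mul_comm b s, ← mul_sub] at e3
    rw [hts', mul_comm b' s, ← mul_sub] at e4
    rw [← e1, ← e2, ← e3, ← e4, d1, d2]
    noncomm_ring
  have hco : coef (S.dd σ 1 * S.dd τ b - S.dd τ b * S.dd σ 1) (σ * τ) =
      (σ b - b) - (if σ * τ = σ * τ⁻¹ then σ b' - b' else 0)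
        - (if σ * τ = σ⁻¹ * τ then s * (σ⁻¹ b - b) else 0)
        + (if σ * τ = σ⁻¹ * τ⁻¹ then s * (σ⁻¹ b' - b') else 0) := by
    rw [key, coef_add, coef_sub, coef_sub, coef_single, coef_single, coef_single, coef_single,
      if_pos rfl]
  rw [hco]
  by_cases hA : σ * τ = σ * τ⁻¹
  · -- `τ = bar`
    right
    have h1 : τ = τ⁻¹ := mul_left_cancel hA
    have h2 : τ * τ = 1 := by
      nth_rewrite 2 [h1]
      exact mul_inv_cancel τ
    have h3 := S.eq_bar_of_sq τ h2 hτ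
    have h4 : b' = -b := by
      rw [hb', h3, S.sgn_bar, S.bar_inv, S.bar_bar]
      ring
    have hB : ¬ σ * τ = σ⁻¹ * τ := by
      intro h5
      have h6 : σ = σ⁻¹ := mul_right_cancel h5
      have h7 : σ * σ = 1 := by
        nth_rewrite 2 [h6]
        exact mul_inv_cancel σ
      have h8 := S.eq_bar_of_sq σ h7 hσ
      apply hst
      rw [h8, h3, S.bar_mul_bar]
    have hC : ¬ σ * τ = σ⁻¹ * τ⁻¹ := by
      intro h5
      apply hB
      rw [h5, ← h1]
    rw [if_pos hA, if_neg hB, if_neg hC, h4, map_neg]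
    ring
  · rw [if_neg hA]
    by_cases hB : σ * τ = σ⁻¹ * τ
    · -- `σ = bar`
      right
      have h6 : σ = σ⁻¹ := mul_right_cancel hB
      have h7 : σ * σ = 1 := by
        nth_rewrite 2 [h6]
        exact mul_inv_cancel σ
      have h8 := S.eq_bar_of_sq σ h7 hσ
      have hC : ¬ σ * τ = σ⁻¹ * τ⁻¹ := by
        intro h5
        apply hA
        nth_rewrite 2 [h6]
        exact h5
      have h9 : s = -1 := by rw [hs, h8, S.sgn_bar]
      rw [if_pos hB, if_neg hC, h9, ← h6]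
      ring
    · rw [if_neg hB]
      by_cases hC : σ * τ = σ⁻¹ * τ⁻¹
      · -- `σ τ = bar`
        right
        have h1 : (σ * τ) * (σ * τ) = 1 := by
          nth_rewrite 2 [hC]
          rw [S.gal_comm σ τ]
          calc τ * σ * (σ⁻¹ * τ⁻¹) = τ * (σ * σ⁻¹) * τ⁻¹ := by simp only [mul_assoc]
            _ = 1 := by rw [mul_inv_cancel, mul_one, mul_inv_cancel]
        have h2 := S.eq_bar_of_sq (σ * τ) h1 hst
        have h3 : s * S.sgn τ = -1 := by
          rw [hs, ← S.sgn_mul, h2, S.sgn_bar]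
        -- `τ⁻¹ (bar b) = σ b`
        have h4 : τ⁻¹ (S.bar b) = σ b := by
          rw [← h2, AlgEquiv.mul_apply, S.gal_apply_comm σ τ b]
          change (τ⁻¹ * τ) (σ b) = σ b
          rw [inv_mul_cancel]
          rfl
        have h5 : σ⁻¹ (σ b) = b := by
          change (σ⁻¹ * σ) b = b
          rw [inv_mul_cancel]
          rfl
        have h6 : σ⁻¹ b' = S.sgn τ * b := by
          rw [hb', map_mul, S.gal_sgn, h4, h5]
        rw [if_pos hC, h6, hb', h4]
        linear_combination (b - σ b) * h3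
      · left
        rw [if_neg hC]
        ring

/-- Proof: choose `b` with `σ b ≠ b`; by `coef_bracket` the bracket has a nonzero coefficient at
`σ τ`; `isotypic`. -/
theorem dd_mul_mem (S : Data p r E) (N : Submodule (ZMod p) (AE p E)) (hN : N ≤ S.skew)
    (hT : ∀ g ∈ S.T, ∀ X ∈ N, cj g X ∈ N) (hbr : ∀ X ∈ N, ∀ Y ∈ N, X * Y - Y * X ∈ N)
    (σ τ : Gal(E/ZMod p)) (hσ : σ ≠ 1) (hτ : τ ≠ 1) (hst : σ * τ ≠ 1)
    (h1 : ∀ a, S.dd σ a ∈ N) (h2 : ∀ a, S.dd τ a ∈ N) : ∀ a, S.dd (σ * τ) a ∈ N := by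
  intro a
  obtain ⟨b, hb⟩ : ∃ b : E, σ b ≠ b := by
    by_contra h
    push Not at h
    apply hσ
    ext x
    exact h x
  have h3 := hbr _ (h1 1) _ (h2 b)
  refine S.isotypic N hN hT _ h3 (σ * τ) hst ?_ a
  rcases S.coef_bracket σ τ hσ hτ hst b with h | h
  · rw [h]
    exact sub_ne_zero.2 hb
  · rw [h]
    exact mul_ne_zero S.two_ne' (sub_ne_zero.2 hb)

/-- Proof: `dd_mul_mem` and `dd_inv`. -/
theorem exists_H (S : Data p r E) (N : Submodule (ZMod p) (AE p E)) (hN : N ≤ S.skew)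
    (hT : ∀ g ∈ S.T, ∀ X ∈ N, cj g X ∈ N) (hbr : ∀ X ∈ N, ∀ Y ∈ N, X * Y - Y * X ∈ N) :
    ∃ H : Subgroup Gal(E/ZMod p), ∀ σ, σ ∈ H ↔ (σ = 1 ∨ ∀ a, S.dd σ a ∈ N) := by
  refine ⟨{ carrier := {σ | σ = 1 ∨ ∀ a, S.dd σ a ∈ N}
            mul_mem' := ?_
            one_mem' := Or.inl rfl
            inv_mem' := ?_ }, fun σ => Iff.rfl⟩
  · rintro σ τ (h | h) (h' | h')
    · left
      rw [h, h', one_mul]
    · right
      rw [h, one_mul]
      exact h'
    · right
      rw [h', mul_one]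
      exact h
    · by_cases hσ : σ = 1
      · right
        rw [hσ, one_mul]
        exact h'
      · by_cases hτ : τ = 1
        · right
          rw [hτ, mul_one]
          exact h
        · by_cases hst : σ * τ = 1
          · exact Or.inl hst
          · exact Or.inr (S.dd_mul_mem N hN hT hbr σ τ hσ hτ hst h h')
  · rintro σ (h | h)
    · left
      rw [h, inv_one]
    · right
      intro a
      rw [S.dd_inv]
      exact neg_mem (h _)

end Data

end Pool.Agent.MP971469
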