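import Pool.Agent.Lib.MP_971469_al.L06_Nrm

/-! L08: the three cases. -/

namespace Pool.Agent.MP971469

namespace Data

variable {p r : ℕ} [Fact p.Prime] {E : Type} [Field E] [Finite E] [Algebra (ZMod p) E]

/-- Case 1. All elements of `N` commute with `J` (`comm_J_iff`). For `a ∈ E⁻`: `cj g⁻¹ (mE a) ∈ N`
commutes with `J`, so `mE a` commutes with `cj g J`. By `eq_mE_of_comm_em` `cj g J = mE z`; it is skew,
so `bar z = -z`, and `z² = j²`, so `z = ±j`. -/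
theorem caseHJ (S : Data p r E) (N : Submodule (ZMod p) (AE p E))
    (hem : ∀ a, S.bar a = -a → mE p a ∈ N)
    (hc : ∀ X ∈ N, ∀ σ, S.sgn σ = -1 → coef X σ = 0)
    (g : (AE p E)ˣ) (hg : g ∈ S.Sp) (h2 : ∀ X ∈ N, cj g⁻¹ X ∈ N) : g ∈ S.H S.J := by
  have hJ : ∀ X ∈ N, X * S.J = S.J * X := fun X hX => (S.comm_J_iff X).2 (hc X hX)
  have h1 : ∀ a : E, S.bar a = -a → mE p a * cj g S.J = cj g S.J * mE p a := by
    intro a ha
    have h3 := hJ _ (h2 _ (hem a ha))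
    have h4 := congrArg (cj g) h3
    rwa [cj_map_mul, cj_map_mul, cj_cj_inv] at h4
  obtain ⟨z, hz⟩ : ∃ z, cj g S.J = mE p z := ⟨_, S.eq_mE_of_comm_em _ h1⟩
  have hsq : z * z = S.j * S.j := by
    apply mE_injective (p := p)
    rw [map_mul, map_mul, ← hz, ← cj_map_mul]
    change cj g (S.J * S.J) = S.J * S.J
    rw [S.J_mul_J, cj_map_smul, cj_map_one]
  rcases mul_self_eq_mul_self_iff.1 hsq with h | h
  · refine ⟨hg, Or.inl ?_⟩
    rw [h] at hz
    exact (cj_eq_iff g _ _).1 hz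
  · refine ⟨hg, Or.inr ?_⟩
    rw [h, map_neg] at hz
    have h5 := (cj_eq_iff g _ _).1 hz
    rw [h5, neg_mul]
    rfl

private theorem caseKF_aux (S : Data p r E) (N : Submodule (ZMod p) (AE p E))
    (hem : ∀ a, S.bar a = -a → mE p a ∈ N) (hb : ∀ a, S.dd S.bar a ∈ N)
    (hc : ∀ X ∈ N, ∀ σ, σ ≠ 1 → σ ≠ S.bar → coef X σ = 0)
    (g : (AE p E)ˣ) (h2 : ∀ X ∈ N, cj g⁻¹ X ∈ N) (f : E) (hf : S.bar f = f) :
    ∃ z : E, S.bar z = z ∧ cj g (mE p f) = mE p z := by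
  have h1 : ∀ X ∈ N, X * cj g (mE p f) = cj g (mE p f) * X := by
    intro X hX
    have h3 := (S.comm_F_iff _).2 (hc _ (h2 X hX)) f hf
    have h4 := congrArg (cj g) h3
    rwa [cj_map_mul, cj_map_mul, cj_cj_inv] at h4
  obtain ⟨z, hz⟩ : ∃ z, cj g (mE p f) = mE p z :=
    ⟨_, S.eq_mE_of_comm_em _ fun a ha => h1 _ (hem a ha)⟩
  refine ⟨z, ?_, hz⟩
  have h3 := h1 _ (hb 1)
  rw [hz, S.dd_bar, map_one, one_mul] at h3
  have h4 := congrArg (fun Y => coef Y S.bar) h3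
  simp only [coef_mul_mE, coef_mE_mul, coef_smul, coef_gE, if_true] at h4
  have h5 : ((2 : ZMod p) • (1 : E)) ≠ 0 := by
    intro h0
    rw [Algebra.smul_def, mul_one, map_ofNat] at h0
    exact S.two_ne' h0
  have h6 : (2 : ZMod p) • (1 : E) * (S.bar z - z) = 0 := by
    rw [mul_sub, h4]
    ring
  exact sub_eq_zero.1 ((mul_eq_zero.1 h6).resolve_left h5)

/-- Case 2. All elements of `N` commute with `F` (`comm_F_iff`). For `f ∈ F`, `Z = cj g (mE f)` commutes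
with all elements of `N`: with `mE a`, `a ∈ E⁻`, so `Z = mE z`, and with `gE bar`, so `bar z = z`. The
second condition in the definition of `KF` follows in the same way from `g⁻¹`. -/
theorem caseKF (S : Data p r E) (N : Submodule (ZMod p) (AE p E))
    (hem : ∀ a, S.bar a = -a → mE p a ∈ N) (hb : ∀ a, S.dd S.bar a ∈ N)
    (hc : ∀ X ∈ N, ∀ σ, σ ≠ 1 → σ ≠ S.bar → coef X σ = 0)
    (g : (AE p E)ˣ) (hg : g ∈ S.Sp) (h1 : ∀ X ∈ N, cj g X ∈ N) (h2 : ∀ X ∈ N, cj g⁻¹ X ∈ N) :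
    g ∈ S.KF := by
  refine ⟨hg, fun f hf => ?_, fun f' hf' => ?_⟩
  · obtain ⟨z, hz, hz2⟩ := caseKF_aux S N hem hb hc g h2 f hf
    exact ⟨z, hz, (cj_eq_iff g _ _).1 hz2⟩
  · obtain ⟨z, hz, hz2⟩ := caseKF_aux S N hem hb hc g⁻¹ (by rwa [inv_inv]) f' hf'
    refine ⟨z, hz, (cj_eq_iff g _ _).1 ?_⟩
    rw [← hz2, cj_cj_inv]

/-- Case 3. If `nrm L` contains all `dd σ a`, then `L = skew`. Proof: for `σ ≠ 1` choose `a ∈ E⁻` with
`σ a ≠ a` (`exists_em_ne`); `[dd σ 1, mE a] ∈ L` has coefficient `σ a - a` or `2 (σ a - a)` at `σ`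
(the latter for `σ = bar`), so `dd σ b ∈ L` for all `b` by `isotypic`. Also `dd 1 b ∈ L` for
`bar b = -b` (`dd_one`). Every skew `X` is `1/2 ∑ dd σ (coef X σ)` (`skew_eq_sum`), and
`bar (coef X 1) = - coef X 1` (`coef_skew`). -/
theorem caseTop (S : Data p r E) (L : Submodule (ZMod p) (AE p E)) (hL : L ≤ S.skew)
    (hT : ∀ g ∈ S.T, ∀ X ∈ L, cj g X ∈ L) (hem : ∀ a, S.bar a = -a → mE p a ∈ L)
    (htop : ∀ σ, σ ≠ 1 → ∀ a, S.dd σ a ∈ S.nrm L) : L = S.skew := by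
  have hall : ∀ σ, σ ≠ 1 → ∀ b, S.dd σ b ∈ L := by
    intro σ hσ b
    obtain ⟨a, ha, ha2⟩ := S.exists_em_ne σ hσ
    have h1 := (htop σ hσ 1).2 _ (hem a ha)
    refine S.isotypic L hL hT _ h1 σ hσ ?_ b
    have e : coef (S.dd σ 1 * mE p a - mE p a * S.dd σ 1) σ =
        coef (S.dd σ 1) σ * (σ a - a) := by
      rw [coef_sub, coef_mul_mE, coef_mE_mul]
      ring
    rw [e]
    refine mul_ne_zero ?_ (sub_ne_zero.2 ha2)
    by_cases hs : σ * σ = 1
    · rw [S.eq_bar_of_sq σ hs hσ, S.dd_bar, map_one, one_mul, coef_smul, coef_gE, if_pos rfl]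
      intro h0
      rw [Algebra.smul_def, mul_one, map_ofNat] at h0
      exact S.two_ne' h0
    · rw [S.coef_dd_self σ 1 hs]
      exact one_ne_zero
  refine le_antisymm hL fun X hX => ?_
  have h2 := S.skew_eq_sum X hX
  have h3 : ∑ σ, S.dd σ (coef X σ) ∈ L := by
    refine Submodule.sum_mem _ fun σ _ => ?_
    by_cases hσ : σ = 1
    · subst hσ
      have h4 : S.bar (coef X 1) = - coef X 1 := by
        have h5 := S.coef_skew X hX 1
        rw [S.sgn_one, one_mul, inv_one, AlgEquiv.one_apply] at h5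
        rw [← neg_eq_iff_eq_neg] at h5
        exact h5.symm
      rw [S.dd_one _ h4]
      exact Submodule.smul_mem _ _ (hem _ h4)
    · exact hall σ hσ _
  rw [← h2] at h3
  exact (Submodule.smul_mem_iff L S.two_ne).1 h3

end Data

end Pool.Agent.MP971469
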