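import Pool.Agent.Lib.MP_971469_al.L05_Tri
import Pool.Agent.Lib.MP_971469_al.L07_HSub
import Pool.Agent.Lib.MP_971469_al.L08_Cases

/-! L09: overgroups of the torus, first part. -/

set_option linter.unusedSectionVars false

namespace Pool.Agent.MP971469

namespace Data

variable {p r : ℕ} [Fact p.Prime] {E : Type} [Field E] [Finite E] [Algebra (ZMod p) E]

/-- The span of the `M`-conjugates of the multiplications by elements of `E⁻`. -/
noncomputable def LL (S : Data p r E) (M : Subgroup (AE p E)ˣ) : Submodule (ZMod p) (AE p E) :=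
  Submodule.span (ZMod p) {X | ∃ g ∈ M, ∃ a : E, S.bar a = -a ∧ X = cj g (mE p a)}

/-- Proof: let `L = LL M`; it is contained in `skew` (`cj_mem_skew`, `mE_mem_skew_iff`), stable under
conjugation by elements of `M` (in particular of `T`), and contains `E⁻`. Let `N = nrm L`: `N ≤ skew`,
contains `E⁻` (`nrm_em`), is stable under conjugation by elements of `M` (`nrm_cj`, using also the
inverses), closed under brackets. Let `H` be as in `exists_H` for `N`. If `σ ∉ H` then `coef X σ = 0`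
for all `X ∈ N` (`isotypic`). Apply `subgroup_tri`: case 1: `M ≤ H J` by `caseHJ` (an element `σ` with
`sgn σ = -1` is not in `H`); case 2: `M ≤ KF` by `caseKF`; case 3: `L = skew` by `caseTop`. -/
theorem part1 (S : Data p r E) (M : Subgroup (AE p E)ˣ) (hT : S.T ≤ M) (hM : M ≤ S.Sp) :
    S.LL M = S.skew ∨ M ≤ S.H S.J ∨ M ≤ S.KF := by
  have hL : S.LL M ≤ S.skew := by
    refine Submodule.span_le.2 ?_
    rintro X ⟨g, hg, a, ha, rfl⟩
    exact S.cj_mem_skew g (hM hg) _ ((S.mE_mem_skew_iff a).2 ha)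
  have hLM : ∀ g ∈ M, ∀ X ∈ S.LL M, cj g X ∈ S.LL M := by
    intro g hg X hX
    refine Submodule.span_induction (p := fun X _ => cj g X ∈ S.LL M) ?_ ?_ ?_ ?_ hX
    · rintro X ⟨h, hh, a, ha, rfl⟩
      exact Submodule.subset_span ⟨g * h, mul_mem hg hh, a, ha, (cj_mul g h _).symm⟩
    · rw [cj_map_zero]
      exact zero_mem _
    · intro X Y _ _ h1 h2
      rw [cj_map_add]
      exact add_mem h1 h2
    · intro c X _ h1
      rw [cj_map_smul]
      exact Submodule.smul_mem _ c h1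
  have hem : ∀ a, S.bar a = -a → mE p a ∈ S.LL M := fun a ha =>
    Submodule.subset_span ⟨1, one_mem M, a, ha, (cj_one _).symm⟩
  have hLT : ∀ g ∈ S.T, ∀ X ∈ S.LL M, cj g X ∈ S.LL M := fun g hg => hLM g (hT hg)
  -- the normalizer
  have hNem : ∀ a, S.bar a = -a → mE p a ∈ S.nrm (S.LL M) := fun a ha =>
    S.nrm_em (S.LL M) hL hLT a ha
  have hNM : ∀ g ∈ M, ∀ X ∈ S.nrm (S.LL M), cj g X ∈ S.nrm (S.LL M) := fun g hg X hX =>
    S.nrm_cj (S.LL M) g (hM hg) (hLM g hg) (hLM g⁻¹ (inv_mem hg)) X hX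
  have hNT : ∀ g ∈ S.T, ∀ X ∈ S.nrm (S.LL M), cj g X ∈ S.nrm (S.LL M) := fun g hg => hNM g (hT hg)
  obtain ⟨H, hH⟩ := S.exists_H (S.nrm (S.LL M)) (S.nrm_le _) hNT
    (fun X hX Y hY => S.nrm_bracket _ X Y hX hY)
  have hcoef : ∀ X ∈ S.nrm (S.LL M), ∀ σ, σ ≠ 1 → σ ∉ H → coef X σ = 0 := by
    intro X hX σ hσ hσH
    by_contra hc
    exact hσH ((hH σ).2 (Or.inr fun a =>
      S.isotypic (S.nrm (S.LL M)) (S.nrm_le _) hNT X hX σ hσ hc a))
  rcases S.subgroup_tri H with h | ⟨hb, h⟩ | h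
  · right; left
    intro g hg
    refine S.caseHJ (S.nrm (S.LL M)) hNem ?_ g (hM hg) (hNM g⁻¹ (inv_mem hg))
    intro X hX σ hσ
    have h2 : (1 : E) ≠ -1 := fun h2 => S.two_ne' (by linear_combination h2)
    refine hcoef X hX σ ?_ fun hσH => ?_
    · rintro rfl
      rw [S.sgn_one] at hσ
      exact h2 hσ
    · exact h2 ((h σ hσH).symm.trans hσ)
  · right; right
    intro g hg
    refine S.caseKF (S.nrm (S.LL M)) hNem ?_ ?_ g (hM hg) (hNM g hg) (hNM g⁻¹ (inv_mem hg))
    · exact ((hH S.bar).1 hb).resolve_left S.bar_ne_one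
    · intro X hX σ h1 h2
      refine hcoef X hX σ h1 fun hσH => ?_
      rcases h σ hσH with h3 | h3
      · exact h1 h3
      · exact h2 h3
  · left
    refine S.caseTop (S.LL M) hL hLT hem fun σ hσ => ?_
    exact ((hH σ).1 (by rw [h]; trivial)).resolve_left hσ

end Data

end Pool.Agent.MP971469
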