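import Pool.Agent.Lib.MP_971469_al.Defs

/-! Galois group facts for the field model. -/

set_option linter.unusedSectionVars false

namespace Pool.Agent.MP971469

namespace Data

variable {p r : ℕ} [Fact p.Prime] {E : Type} [Field E] [Finite E] [Algebra (ZMod p) E]

theorem r_pos (S : Data p r E) : 0 < r := by have := S.r_ge; omega

theorem r_odd (S : Data p r E) : Odd r := by
  rcases S.r_prime.eq_two_or_odd' with h | h
  · have := S.r_ge; omega
  · exact h

theorem p_ge (S : Data p r E) : 89 ≤ p := by have := S.r_ge; have := S.r_lt; omega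

theorem two_ne (S : Data p r E) : (2 : ZMod p) ≠ 0 := by
  have h : ((2 : ℕ) : ZMod p) ≠ 0 := by
    rw [Ne, ZMod.natCast_eq_zero_iff]
    intro h
    have := Nat.le_of_dvd (by norm_num) h
    have := S.p_ge
    omega
  exact_mod_cast h

theorem r_ne (S : Data p r E) : (r : ZMod p) ≠ 0 := by
  rw [Ne, ZMod.natCast_eq_zero_iff]
  intro h
  have := Nat.le_of_dvd S.r_pos h
  have := S.r_lt
  omega

theorem r1_ne (S : Data p r E) : (r : ZMod p) - 1 ≠ 0 := by
  have h1 := S.r_pos
  have : (r : ZMod p) - 1 = ((r - 1 : ℕ) : ZMod p) := by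
    rw [Nat.cast_sub h1, Nat.cast_one]
  rw [this, Ne, ZMod.natCast_eq_zero_iff]
  intro h
  have := S.r_ge
  have := Nat.le_of_dvd (by omega) h
  have := S.r_lt
  omega

theorem charP (_ : Data p r E) : CharP E p := charP_of_injective_algebraMap' (ZMod p) p

theorem two_ne' (S : Data p r E) : (2 : E) ≠ 0 := by
  have h := S.two_ne
  intro h2
  apply h
  apply (algebraMap (ZMod p) E).injective
  rw [map_zero, ← h2]
  exact map_ofNat _ 2

theorem finrank_E (S : Data p r E) : Module.finrank (ZMod p) E = 2 * r := by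
  have h1 := Module.natCard_eq_pow_finrank (K := ZMod p) (V := E)
  rw [S.card, Nat.card_zmod] at h1
  exact (Nat.pow_right_injective (Fact.out : p.Prime).two_le h1).symm

theorem finrank_VV (S : Data p r E) : Module.finrank (ZMod p) (VV E) = 2 * r := by
  rw [← S.finrank_E]
  exact LinearEquiv.finrank_eq (toE p)

theorem card_VV (S : Data p r E) : Nat.card (VV E) = p ^ (2 * r) := S.card

theorem bar_apply (S : Data p r E) (x : E) : S.bar x = x ^ (p ^ r) := by
  unfold bar
  rw [AlgEquiv.coe_pow, FiniteField.coe_frobeniusAlgEquivOfAlgebraic_iterate, ZMod.card]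

theorem orderOf_frob (S : Data p r E) :
    orderOf (FiniteField.frobeniusAlgEquivOfAlgebraic (ZMod p) E) = 2 * r := by
  rw [FiniteField.orderOf_frobeniusAlgEquivOfAlgebraic, S.finrank_E]

theorem bar_mul_bar (S : Data p r E) : S.bar * S.bar = 1 := by
  unfold bar
  rw [← pow_add, ← two_mul, ← S.orderOf_frob, pow_orderOf_eq_one]

theorem bar_bar (S : Data p r E) (x : E) : S.bar (S.bar x) = x := by
  have := congrArg (fun σ : Gal(E/ZMod p) => σ x) S.bar_mul_bar
  simpa using this

theorem bar_ne_one (S : Data p r E) : S.bar ≠ 1 := by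
  unfold bar
  intro h
  have h1 := orderOf_dvd_of_pow_eq_one h
  rw [S.orderOf_frob] at h1
  have := Nat.le_of_dvd S.r_pos h1
  have := S.r_pos
  omega

theorem bar_inv (S : Data p r E) : S.bar⁻¹ = S.bar :=
  inv_eq_of_mul_eq_one_left S.bar_mul_bar

theorem exists_frob_pow (S : Data p r E) (σ : Gal(E/ZMod p)) :
    ∃ k, k < 2 * r ∧ σ = FiniteField.frobeniusAlgEquivOfAlgebraic (ZMod p) E ^ k := by
  obtain ⟨n, hn⟩ := (FiniteField.bijective_frobeniusAlgEquivOfAlgebraic_pow (ZMod p) E).2 σ
  exact ⟨n, lt_of_lt_of_eq n.2 S.finrank_E, hn.symm⟩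

theorem frob_pow_apply (_ : Data p r E) (k : ℕ) (x : E) :
    (FiniteField.frobeniusAlgEquivOfAlgebraic (ZMod p) E ^ k) x = x ^ (p ^ k) := by
  rw [AlgEquiv.coe_pow, FiniteField.coe_frobeniusAlgEquivOfAlgebraic_iterate, ZMod.card]

theorem gal_comm (S : Data p r E) (σ τ : Gal(E/ZMod p)) : σ * τ = τ * σ := by
  obtain ⟨k, -, rfl⟩ := S.exists_frob_pow σ
  obtain ⟨l, -, rfl⟩ := S.exists_frob_pow τ
  rw [← pow_add, ← pow_add, add_comm]

theorem gal_apply_comm (S : Data p r E) (σ τ : Gal(E/ZMod p)) (x : E) : σ (τ x) = τ (σ x) := by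
  have := congrArg (fun σ : Gal(E/ZMod p) => σ x) (S.gal_comm σ τ)
  simpa using this

theorem card_gal (S : Data p r E) : Nat.card Gal(E/ZMod p) = 2 * r := by
  have h := Nat.card_congr (Equiv.ofBijective _
    (FiniteField.bijective_frobeniusAlgEquivOfAlgebraic_pow (ZMod p) E))
  rw [← h, Nat.card_fin, S.finrank_E]

/-- `bar` is the only element of order two. -/
theorem eq_bar_of_sq (S : Data p r E) (σ : Gal(E/ZMod p)) (h : σ * σ = 1) (h1 : σ ≠ 1) :
    σ = S.bar := by
  obtain ⟨k, hk, rfl⟩ := S.exists_frob_pow σ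
  unfold bar
  rw [← pow_add] at h
  have h2 := orderOf_dvd_of_pow_eq_one h
  rw [S.orderOf_frob] at h2
  have h3 : k ≠ 0 := by rintro rfl; simp at h1
  obtain ⟨c, hc⟩ := h2
  have hr := S.r_pos
  have : c = 1 := by
    rcases Nat.lt_or_ge c 1 with h | h
    · interval_cases c; omega
    · rcases Nat.lt_or_ge c 2 with h' | h'
      · omega
      · exfalso; nlinarith
  subst this
  congr 1
  omega

/-- `lam` is nonzero. -/
theorem lam_ne (S : Data p r E) : S.lam ≠ 0 := by
  intro h
  apply S.lam_ns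
  rw [h]
  exact ⟨0, by simp⟩

theorem j_ne (S : Data p r E) : S.j ≠ 0 := by
  intro h
  have := S.j_sq
  rw [h, mul_zero] at this
  apply S.lam_ne
  apply (algebraMap (ZMod p) E).injective
  rw [map_zero, this]

theorem gal_j (S : Data p r E) (σ : Gal(E/ZMod p)) : σ S.j = S.j ∨ σ S.j = - S.j := by
  have h : σ S.j * σ S.j = S.j * S.j := by
    rw [← map_mul, S.j_sq, AlgEquiv.commutes]
  rcases mul_self_eq_mul_self_iff.mp h with h | h
  · exact Or.inl h
  · exact Or.inr h

/-- `j` is not in the prime field. -/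
theorem j_notMem (S : Data p r E) (c : ZMod p) : S.j ≠ algebraMap (ZMod p) E c := by
  intro h
  apply S.lam_ns
  refine ⟨c, ?_⟩
  apply (algebraMap (ZMod p) E).injective
  rw [map_mul, ← h, S.j_sq]

/-- Elements fixed by the Frobenius are in the prime field. -/
theorem exists_of_frob_fix (S : Data p r E) (x : E)
    (h : FiniteField.frobeniusAlgEquivOfAlgebraic (ZMod p) E x = x) :
    ∃ c : ZMod p, algebraMap (ZMod p) E c = x := by
  have h2 : x ∈ Set.range (algebraMap (ZMod p) E) := by
    rw [IsGalois.mem_range_algebraMap_iff_fixed]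
    intro σ
    obtain ⟨k, -, rfl⟩ := S.exists_frob_pow σ
    induction k with
    | zero => simp
    | succ n ih => rw [pow_succ, AlgEquiv.mul_apply, h, ih]
  exact h2

theorem frob_j (S : Data p r E) :
    FiniteField.frobeniusAlgEquivOfAlgebraic (ZMod p) E S.j = - S.j := by
  rcases S.gal_j (FiniteField.frobeniusAlgEquivOfAlgebraic (ZMod p) E) with h | h
  · exfalso
    obtain ⟨c, hc⟩ := S.exists_of_frob_fix S.j h
    exact S.j_notMem c hc.symm
  · exact h

theorem bar_j (S : Data p r E) : S.bar S.j = - S.j := by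
  have key : ∀ k : ℕ, (FiniteField.frobeniusAlgEquivOfAlgebraic (ZMod p) E ^ k) S.j
      = (-1) ^ k * S.j := by
    intro k
    induction k with
    | zero => simp
    | succ n ih =>
      rw [pow_succ, AlgEquiv.mul_apply, S.frob_j, map_neg, ih]
      ring
  unfold bar
  rw [key, S.r_odd.neg_one_pow]
  ring

end Data

end Pool.Agent.MP971469
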