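import Pool.Agent.Lib.MP_971469_al.M01_Gal

/-! The sign character, fixed elements of `bar`. -/

set_option linter.unusedSectionVars false

namespace Pool.Agent.MP971469

namespace Data

variable {p r : ℕ} [Fact p.Prime] {E : Type} [Field E] [Finite E] [Algebra (ZMod p) E]

theorem gal_j_eq (S : Data p r E) (σ : Gal(E/ZMod p)) : σ S.j = S.sgn σ * S.j := by
  unfold sgn
  rw [div_mul_cancel₀ _ S.j_ne]

theorem sgn_eq (S : Data p r E) (σ : Gal(E/ZMod p)) : S.sgn σ = 1 ∨ S.sgn σ = -1 := by
  unfold sgn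
  rcases S.gal_j σ with h | h
  · left; rw [h, div_self S.j_ne]
  · right; rw [h, neg_div, div_self S.j_ne]

theorem gal_sgn (S : Data p r E) (τ σ : Gal(E/ZMod p)) : τ (S.sgn σ) = S.sgn σ := by
  rcases S.sgn_eq σ with h | h <;> simp [h]

theorem sgn_mul (S : Data p r E) (σ τ : Gal(E/ZMod p)) : S.sgn (σ * τ) = S.sgn σ * S.sgn τ := by
  have h1 : (σ * τ) S.j = S.sgn σ * S.sgn τ * S.j := by
    rw [AlgEquiv.mul_apply, S.gal_j_eq τ, map_mul, S.gal_sgn, S.gal_j_eq σ]
    ring
  rw [S.gal_j_eq] at h1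
  exact mul_right_cancel₀ S.j_ne h1

@[simp] theorem sgn_one (S : Data p r E) : S.sgn 1 = 1 := by
  unfold sgn
  simp [S.j_ne]

@[simp] theorem sgn_bar (S : Data p r E) : S.sgn S.bar = -1 := by
  unfold sgn
  rw [S.bar_j, neg_div, div_self S.j_ne]

theorem sgn_mul_self (S : Data p r E) (σ : Gal(E/ZMod p)) : S.sgn σ * S.sgn σ = 1 := by
  rcases S.sgn_eq σ with h | h <;> simp [h]

theorem sgn_inv (S : Data p r E) (σ : Gal(E/ZMod p)) : S.sgn σ⁻¹ = S.sgn σ := by
  have h := S.sgn_mul σ⁻¹ σ
  rw [inv_mul_cancel, S.sgn_one] at h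
  have h2 := S.sgn_mul_self σ
  have h3 : S.sgn σ ≠ 0 := by
    intro h0
    rw [h0, mul_zero] at h2
    exact zero_ne_one h2
  exact mul_right_cancel₀ h3 (h.symm.trans h2.symm)

theorem bar_inv_apply (S : Data p r E) (x : E) : S.bar⁻¹ x = S.bar x := by rw [S.bar_inv]

/-- `E⁻ = jF`. -/
theorem em_iff (S : Data p r E) (a : E) : S.bar a = -a ↔ ∃ f, S.bar f = f ∧ a = S.j * f := by
  constructor
  · intro h
    refine ⟨a / S.j, ?_, ?_⟩
    · rw [map_div₀, h, S.bar_j, neg_div_neg_eq]
    · rw [mul_div_cancel₀ _ S.j_ne]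
  · rintro ⟨f, hf, rfl⟩
    rw [map_mul, hf, S.bar_j]
    ring

/-- An element which is fixed by `bar` and negated by `bar` is zero. -/
theorem eq_zero_of_bar (S : Data p r E) (x : E) (h1 : S.bar x = x) (h2 : S.bar x = -x) : x = 0 := by
  have h : (2 : E) * x = 0 := by
    rw [two_mul]
    nth_rewrite 1 [← h1]
    rw [h2]
    ring
  rcases mul_eq_zero.mp h with h | h
  · exact absurd h S.two_ne'
  · exact h

theorem card_F (S : Data p r E) : Nat.card {f : E // S.bar f = f} = p ^ r := by
  set H : Subgroup Gal(E/ZMod p) := Subgroup.zpowers S.bar with hH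
  have h1 : Nat.card H = 2 := by
    rw [hH, Nat.card_zpowers]
    exact orderOf_eq_prime (by rw [pow_two, S.bar_mul_bar]) S.bar_ne_one
  have h2 : Module.finrank (IntermediateField.fixedField H) E = 2 := by
    rw [IntermediateField.finrank_fixedField_eq_card, h1]
  have h3 := Module.finrank_mul_finrank (ZMod p) (IntermediateField.fixedField H) E
  rw [h2, S.finrank_E] at h3
  have h4 : Module.finrank (ZMod p) (IntermediateField.fixedField H) = r := by omega
  have h5 := Module.natCard_eq_pow_finrank (K := ZMod p) (V := IntermediateField.fixedField H)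
  rw [h4, Nat.card_zmod] at h5
  rw [← h5]
  apply Nat.card_congr
  apply Equiv.subtypeEquivRight
  intro x
  rw [IntermediateField.mem_fixedField_iff]
  constructor
  · intro hx f hf
    rw [hH, Subgroup.mem_zpowers_iff] at hf
    obtain ⟨k, rfl⟩ := hf
    have h6 : S.bar ∈ MulAction.stabilizer Gal(E/ZMod p) x := by
      rw [MulAction.mem_stabilizer_iff]; exact hx
    have h7 := Subgroup.zpow_mem _ h6 k
    rw [MulAction.mem_stabilizer_iff] at h7
    exact h7
  · intro h
    exact h S.bar (Subgroup.mem_zpowers _)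

theorem card_Em (S : Data p r E) : Nat.card {a : E // S.bar a = -a} = p ^ r := by
  rw [← S.card_F]
  apply Nat.card_congr
  refine
    { toFun := fun a => ⟨a.1 / S.j, ?_⟩
      invFun := fun f => ⟨S.j * f.1, ?_⟩
      left_inv := ?_
      right_inv := ?_ }
  · rw [map_div₀, a.2, S.bar_j, neg_div_neg_eq]
  · rw [map_mul, f.2, S.bar_j]; ring
  · intro a
    ext
    simp only
    rw [mul_div_cancel₀ _ S.j_ne]
  · intro f
    ext
    simp only
    rw [mul_div_cancel_left₀ _ S.j_ne]

end Data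

end Pool.Agent.MP971469
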