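import Pool.Agent.Lib.MP_971469_al.M02_Sgn

/-! Norms `x * bar x`, the norm one group and its generator. -/

set_option linter.unusedSectionVars false

namespace Pool.Agent.MP971469

/-- In a finite cyclic group of order divisible by `n` the solutions of `x^n = 1` are the powers of
an element of order `n`. -/
theorem cyc_aux {G : Type} [Group G] [Finite G] [IsCyclic G] {n : ℕ} (hn : n ∣ Nat.card G) :
    ∃ ζ : G, orderOf ζ = n ∧ ∀ x : G, x ^ n = 1 → ∃ k : ℕ, x = ζ ^ k := by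
  classical
  have := Fintype.ofFinite G
  obtain ⟨g, hg⟩ := IsCyclic.exists_ofOrder_eq_natCard (α := G)
  have hG : 0 < Nat.card G := Nat.card_pos
  obtain ⟨m, hm⟩ := hn
  have hm0 : m ≠ 0 := by rintro rfl; omega
  have hn0 : 0 < n := by
    rcases Nat.eq_zero_or_pos n with h | h
    · subst h; omega
    · exact h
  refine ⟨g ^ m, ?_, ?_⟩
  · rw [orderOf_pow' _ hm0, hg, hm, Nat.gcd_mul_left_left, Nat.mul_div_cancel _ (Nat.pos_of_ne_zero hm0)]
  · intro x hx
    have hx' : x ∈ Subgroup.zpowers g := by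
      have : Subgroup.zpowers g = ⊤ := by
        apply Subgroup.eq_top_of_card_eq
        rw [Nat.card_zpowers, hg]
      rw [this]; trivial
    rw [← mem_powers_iff_mem_zpowers] at hx'
    obtain ⟨k, rfl⟩ := hx'
    rw [← pow_mul] at hx
    have h1 := orderOf_dvd_of_pow_eq_one hx
    rw [hg, hm] at h1
    have h2 : m ∣ k := by
      rw [mul_comm k n] at h1
      exact Nat.dvd_of_mul_dvd_mul_left hn0 h1
    obtain ⟨c, rfl⟩ := h2
    exact ⟨c, pow_mul g m c⟩

namespace Data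

variable {p r : ℕ} [Fact p.Prime] {E : Type} [Field E] [Finite E] [Algebra (ZMod p) E]

theorem card_units (S : Data p r E) : Nat.card Eˣ = (p ^ r + 1) * (p ^ r - 1) := by
  rw [Nat.card_units, S.card, two_mul, pow_add]
  have : 1 ≤ p ^ r := Nat.one_le_pow _ _ (Fact.out : p.Prime).pos
  obtain ⟨q, hq⟩ := Nat.exists_eq_add_of_le this
  rw [hq]
  have h1 : 1 + q - 1 = q := by omega
  rw [h1]
  have : (1 + q) * (1 + q) = (1 + q + 1) * q + 1 := by ring
  omega

theorem mul_bar_eq (S : Data p r E) (x : E) : x * S.bar x = x ^ (p ^ r + 1) := by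
  rw [S.bar_apply, pow_succ']

theorem bar_mul_bar_self (S : Data p r E) (x : E) : S.bar (x * S.bar x) = x * S.bar x := by
  rw [map_mul, S.bar_bar, mul_comm]

/-- The norm one group is cyclic, with a generator `ζ` of order `p^r+1`. -/
theorem exists_zeta (S : Data p r E) : ∃ ζ : E, ζ * S.bar ζ = 1 ∧ orderOf ζ = p ^ r + 1 ∧
    ∀ e : E, e * S.bar e = 1 → ∃ k : ℕ, e = ζ ^ k := by
  obtain ⟨z, hz, hz2⟩ := cyc_aux (G := Eˣ) (n := p ^ r + 1) (by rw [S.card_units]; exact dvd_mul_right _ _)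
  refine ⟨z, ?_, ?_, ?_⟩
  · rw [S.mul_bar_eq, ← hz, ← Units.val_pow_eq_pow_val, pow_orderOf_eq_one, Units.val_one]
  · rw [orderOf_units, hz]
  · intro e he
    have he0 : e ≠ 0 := by rintro rfl; simp at he
    obtain ⟨k, hk⟩ := hz2 (Units.mk0 e he0) (by
      ext
      rw [Units.val_pow_eq_pow_val, Units.val_mk0, ← S.mul_bar_eq, he, Units.val_one])
    refine ⟨k, ?_⟩
    have := congrArg Units.val hk
    simpa using this

theorem card_E1 (S : Data p r E) : Nat.card {e : E // e * S.bar e = 1} = p ^ r + 1 := by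
  obtain ⟨ζ, h1, h2, h3⟩ := S.exists_zeta
  have hpos : 0 < p ^ r + 1 := Nat.succ_pos _
  have key : Nat.card {e : E // e * S.bar e = 1} = Nat.card (Fin (p ^ r + 1)) := by
    symm
    apply Nat.card_congr
    refine Equiv.ofBijective (fun k => ⟨ζ ^ (k : ℕ), ?_⟩) ⟨?_, ?_⟩
    · rw [map_pow, ← mul_pow, h1, one_pow]
    · intro k l hkl
      simp only [Subtype.mk.injEq] at hkl
      have hz0 : ζ ≠ 0 := by rintro rfl; simp at h1
      have h4 := pow_injOn_Iio_orderOf (x := ζ)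
      rw [h2] at h4
      exact Fin.ext (h4 k.2 l.2 hkl)
    · rintro ⟨e, he⟩
      obtain ⟨k, rfl⟩ := h3 e he
      refine ⟨⟨k % (p ^ r + 1), Nat.mod_lt _ hpos⟩, ?_⟩
      ext
      simp only
      rw [← h2, pow_mod_orderOf]
  rw [key, Nat.card_fin]

/-- Surjectivity of the norm `E → F`. -/
theorem norm_surj (S : Data p r E) (f : E) (hf : S.bar f = f) (hf0 : f ≠ 0) :
    ∃ ν : E, ν ≠ 0 ∧ ν * S.bar ν = f := by
  classical
  obtain ⟨g, hg⟩ := IsCyclic.exists_ofOrder_eq_natCard (α := Eˣ)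
  have hgt : Subgroup.zpowers g = ⊤ := by
    apply Subgroup.eq_top_of_card_eq
    rw [Nat.card_zpowers, hg]
  have hx' : Units.mk0 f hf0 ∈ Subgroup.zpowers g := by rw [hgt]; trivial
  rw [← mem_powers_iff_mem_zpowers] at hx'
  obtain ⟨k, hk⟩ := hx'
  simp only at hk
  have hq : 1 ≤ p ^ r := Nat.one_le_pow _ _ (Fact.out : p.Prime).pos
  have hq2 : 0 < p ^ r - 1 := by
    have : 1 < p ^ r := Nat.one_lt_pow S.r_pos.ne' (Fact.out : p.Prime).one_lt
    omega
  have h1 : (Units.mk0 f hf0) ^ (p ^ r - 1) = 1 := by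
    ext
    rw [Units.val_pow_eq_pow_val, Units.val_mk0, Units.val_one]
    have h2 : f ^ (p ^ r - 1) * f = f := by
      rw [← pow_succ, Nat.sub_add_cancel hq, ← S.bar_apply, hf]
    exact mul_right_cancel₀ hf0 (by rw [h2, one_mul])
  rw [← hk, ← pow_mul] at h1
  have h3 := orderOf_dvd_of_pow_eq_one h1
  rw [hg, S.card_units] at h3
  have h4 : p ^ r + 1 ∣ k := Nat.dvd_of_mul_dvd_mul_right hq2 h3
  obtain ⟨c, rfl⟩ := h4
  refine ⟨((g ^ c : Eˣ) : E), Units.ne_zero _, ?_⟩
  rw [S.mul_bar_eq, ← Units.val_pow_eq_pow_val, ← pow_mul, mul_comm c, hk, Units.val_mk0]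

theorem card_norm (S : Data p r E) (f : E) (hf : S.bar f = f) (hf0 : f ≠ 0) :
    Nat.card {ν : E // ν * S.bar ν = f} = p ^ r + 1 := by
  rw [← S.card_E1]
  obtain ⟨ν, hν0, hν⟩ := S.norm_surj f hf hf0
  apply Nat.card_congr
  refine
    { toFun := fun a => ⟨a.1 / ν, ?_⟩
      invFun := fun e => ⟨ν * e.1, ?_⟩
      left_inv := ?_
      right_inv := ?_ }
  · rw [map_div₀, div_mul_div_comm, a.2, hν, div_self hf0]
  · rw [map_mul]
    calc ν * e.1 * (S.bar ν * S.bar e.1) = (ν * S.bar ν) * (e.1 * S.bar e.1) := by ring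
      _ = f := by rw [hν, e.2, mul_one]
  · intro a
    ext
    simp only
    rw [mul_div_cancel₀ _ hν0]
  · intro f
    ext
    simp only
    rw [mul_div_cancel_left₀ _ hν0]

end Data

end Pool.Agent.MP971469
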