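import Pool.Agent.Lib.MP_971469_al.M03_Norm

/-! Stabilizers in the Galois group, trace, the form `B`. -/

set_option linter.unusedSectionVars false

namespace Pool.Agent.MP971469

namespace Data

variable {p r : ℕ} [Fact p.Prime] {E : Type} [Field E] [Finite E] [Algebra (ZMod p) E]

/-- An automorphism fixing an element of `F` outside of the prime field is `1` or `bar`. -/
theorem gal_fix_F (S : Data p r E) (σ : Gal(E/ZMod p)) (f : E) (hf : S.bar f = f)
    (hnf : ∀ c : ZMod p, algebraMap (ZMod p) E c ≠ f) (h : σ f = f) : σ = 1 ∨ σ = S.bar := by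
  -- the stabilizer of `f` contains `bar`, and is not everything
  set H : Subgroup Gal(E/ZMod p) := MulAction.stabilizer Gal(E/ZMod p) f with hH
  have hb : S.bar ∈ H := by rw [hH, MulAction.mem_stabilizer_iff]; exact hf
  have hs : σ ∈ H := by rw [hH, MulAction.mem_stabilizer_iff]; exact h
  have hne : H ≠ ⊤ := by
    intro ht
    have h1 : FiniteField.frobeniusAlgEquivOfAlgebraic (ZMod p) E ∈ H := by rw [ht]; trivial
    rw [hH, MulAction.mem_stabilizer_iff] at h1
    obtain ⟨c, hc⟩ := S.exists_of_frob_fix f h1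
    exact hnf c hc
  -- order of `σ * bar`
  by_contra hcon
  push Not at hcon
  have h2 : Nat.card H ∣ 2 * r := by rw [← S.card_gal]; exact Subgroup.card_subgroup_dvd_card H
  have h3 : 2 ∣ Nat.card H := by
    have : orderOf (⟨S.bar, hb⟩ : H) = 2 := by
      rw [Subgroup.orderOf_mk]
      exact orderOf_eq_prime (by rw [pow_two, S.bar_mul_bar]) S.bar_ne_one
    rw [← this]
    exact orderOf_dvd_natCard _
  obtain ⟨m, hm⟩ := h3
  have h4 : m ∣ r := by
    rw [hm] at h2
    exact Nat.dvd_of_mul_dvd_mul_left (by norm_num) h2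
  rcases (Nat.dvd_prime S.r_prime).mp h4 with h5 | h5
  · -- H has two elements
    subst h5
    have h6 : σ * σ = 1 := by
      have h7 : (⟨σ, hs⟩ : H) ^ Nat.card H = 1 := pow_card_eq_one'
      rw [hm] at h7
      have := congrArg Subtype.val h7
      simpa [pow_two] using this
    rcases eq_or_ne σ 1 with h8 | h8
    · exact hcon.1 h8
    · exact hcon.2 (S.eq_bar_of_sq σ h6 h8)
  · apply hne
    apply Subgroup.eq_top_of_card_eq
    rw [hm, h5, S.card_gal]

/-- Every nontrivial automorphism moves an element of `E⁻`. -/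
theorem exists_em_ne (S : Data p r E) (σ : Gal(E/ZMod p)) (hσ : σ ≠ 1) :
    ∃ a : E, S.bar a = -a ∧ σ a ≠ a := by
  rcases S.gal_j σ with h | h
  · -- σ j = j, so σ ≠ bar and σ moves an element of F
    have hσb : σ ≠ S.bar := by
      rintro rfl
      rw [S.bar_j] at h
      have := S.eq_zero_of_bar S.j (by rw [S.bar_j, h]) S.bar_j
      exact S.j_ne this
    obtain ⟨f, hf1, hf2⟩ : ∃ f : E, S.bar f = f ∧ ∀ c : ZMod p, algebraMap (ZMod p) E c ≠ f := by
      by_contra hcon
      push Not at hcon
      have h1 : Nat.card {f : E // S.bar f = f} ≤ Nat.card (ZMod p) := by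
        apply Nat.card_le_card_of_surjective
          (fun c : ZMod p => (⟨algebraMap (ZMod p) E c, AlgEquiv.commutes _ _⟩ : {f : E // S.bar f = f}))
        rintro ⟨f, hf⟩
        obtain ⟨c, hc⟩ := hcon f hf
        exact ⟨c, Subtype.ext hc⟩
      rw [S.card_F, Nat.card_zmod] at h1
      have h2 : p ^ 1 < p ^ r := Nat.pow_lt_pow_right (Fact.out : p.Prime).one_lt
        (by have := S.r_ge; omega)
      rw [pow_one] at h2
      omega
    refine ⟨S.j * f, (S.em_iff _).mpr ⟨f, hf1, rfl⟩, ?_⟩
    rw [map_mul, h]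
    intro h2
    have h3 := mul_left_cancel₀ S.j_ne h2
    rcases S.gal_fix_F σ f hf1 hf2 h3 with h4 | h4
    · exact hσ h4
    · exact hσb h4
  · refine ⟨S.j, S.bar_j, ?_⟩
    rw [h]
    intro h2
    have h3 : (2 : E) * S.j = 0 := by
      rw [two_mul]
      nth_rewrite 1 [← h2]
      ring
    rcases mul_eq_zero.mp h3 with h4 | h4
    · exact S.two_ne' h4
    · exact S.j_ne h4

/-- There are elements of `F` outside of the prime field. -/
theorem exists_F_gen (S : Data p r E) :
    ∃ f : E, S.bar f = f ∧ ∀ c : ZMod p, algebraMap (ZMod p) E c ≠ f := by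
  by_contra hcon
  push Not at hcon
  have h1 : Nat.card {f : E // S.bar f = f} ≤ Nat.card (ZMod p) := by
    apply Nat.card_le_card_of_surjective
      (fun c : ZMod p => (⟨algebraMap (ZMod p) E c, AlgEquiv.commutes _ _⟩ : {f : E // S.bar f = f}))
    rintro ⟨f, hf⟩
    obtain ⟨c, hc⟩ := hcon f hf
    exact ⟨c, Subtype.ext hc⟩
  rw [S.card_F, Nat.card_zmod] at h1
  have h2 : p ^ 1 < p ^ r := Nat.pow_lt_pow_right (Fact.out : p.Prime).one_lt
    (by have := S.r_ge; omega)
  rw [pow_one] at h2
  omega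

theorem trace_gal (_ : Data p r E) (σ : Gal(E/ZMod p)) (x : E) :
    Algebra.trace (ZMod p) E (σ x) = Algebra.trace (ZMod p) E x := by
  exact Algebra.trace_eq_of_algEquiv σ x

theorem trace_nondeg (_ : Data p r E) (x : E) (h : ∀ y, Algebra.trace (ZMod p) E (x * y) = 0) :
    x = 0 := by
  have htr := (traceForm_nondegenerate (ZMod p) E).1 x
  simp_rw [Algebra.traceForm_apply] at htr
  exact htr h

theorem B_isAlt (S : Data p r E) : S.B.IsAlt := by
  intro x
  rw [S.B_apply]
  have h1 : S.bar (S.j * toE p x * S.bar (toE p x)) = - (S.j * toE p x * S.bar (toE p x)) := by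
    rw [map_mul, map_mul, S.bar_bar, S.bar_j]
    ring
  have h2 := S.trace_gal S.bar (S.j * toE p x * S.bar (toE p x))
  rw [h1, map_neg] at h2
  have h3 : (2 : ZMod p) * Algebra.trace (ZMod p) E (S.j * toE p x * S.bar (toE p x)) = 0 := by
    rw [two_mul]
    nth_rewrite 1 [← h2]
    ring
  rcases mul_eq_zero.mp h3 with h4 | h4
  · exact absurd h4 S.two_ne
  · exact h4

theorem B_nondeg (S : Data p r E) (x : VV E) (h : ∀ y, S.B x y = 0) : x = 0 := by
  have h1 : S.j * toE p x = 0 := by
    apply S.trace_nondeg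
    intro y
    have := h ((toE p).symm (S.bar y))
    rw [S.B_apply, LinearEquiv.apply_symm_apply, S.bar_bar] at this
    exact this
  rcases mul_eq_zero.mp h1 with h2 | h2
  · exact absurd h2 S.j_ne
  · exact (LinearEquiv.map_eq_zero_iff (toE p)).mp h2

theorem B_swap (S : Data p r E) (x y : VV E) : S.B x y = - S.B y x := by
  rw [← S.B_isAlt.neg_eq y x]

theorem B_nondeg' (S : Data p r E) (y : VV E) (h : ∀ x, S.B x y = 0) : y = 0 := by
  apply S.B_nondeg
  intro x
  rw [S.B_swap, h x, neg_zero]

end Data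

end Pool.Agent.MP971469
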