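import Pool.Agent.Lib.MP_971469_al.M04_Fix

/-! Every endomorphism of the `F_p`-space `E` is uniquely `∑ σ, c_σ σ` (Dedekind). -/

set_option linter.unusedSectionVars false

namespace Pool.Agent.MP971469

variable {p : ℕ} [Fact p.Prime] {E : Type} [Field E] [Finite E] [Algebra (ZMod p) E]

/-- The map `c ↦ ∑ σ, c_σ σ`. -/
noncomputable def ofCoef (p : ℕ) [Fact p.Prime] (E : Type) [Field E] [Finite E]
    [Algebra (ZMod p) E] : (Gal(E/ZMod p) → E) →ₗ[ZMod p] AE p E where
  toFun c := ∑ σ, mE p (c σ) * gE p σ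
  map_add' c d := by
    rw [← Finset.sum_add_distrib]
    apply Finset.sum_congr rfl
    intro σ _
    rw [Pi.add_apply, map_add, add_mul]
  map_smul' a c := by
    rw [RingHom.id_apply, Finset.smul_sum]
    apply Finset.sum_congr rfl
    intro σ _
    rw [Pi.smul_apply, map_smul, smul_mul_assoc]

theorem ofCoef_apply (c : Gal(E/ZMod p) → E) : ofCoef p E c = ∑ σ, mE p (c σ) * gE p σ := rfl

theorem toE_ofCoef (c : Gal(E/ZMod p) → E) (x : VV E) :
    toE p (ofCoef p E c x) = ∑ σ, c σ * σ (toE p x) := by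
  rw [ofCoef_apply, LinearMap.sum_apply, map_sum]
  rfl

theorem ofCoef_injective : Function.Injective (ofCoef p E) := by
  rw [← LinearMap.ker_eq_bot, LinearMap.ker_eq_bot']
  intro c hc
  have h1 : LinearIndependent E (fun σ : Gal(E/ZMod p) => (σ : E → E)) :=
    (linearIndependent_monoidHom E E).comp (fun σ : Gal(E/ZMod p) => ((σ : E ≃* E) : E →* E))
      (fun σ τ h => AlgEquiv.ext fun x => DFunLike.congr_fun h x)
  rw [Fintype.linearIndependent_iff] at h1
  have h2 := h1 c (by
    funext x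
    have h3 := toE_ofCoef c ((toE p).symm x)
    rw [hc] at h3
    simp only [LinearMap.zero_apply, map_zero, LinearEquiv.apply_symm_apply] at h3
    rw [Finset.sum_apply]
    simp only [Pi.smul_apply, smul_eq_mul, Pi.zero_apply]
    exact h3.symm)
  funext σ
  exact h2 σ

theorem finrank_coef : Module.finrank (ZMod p) (Gal(E/ZMod p) → E) =
    Module.finrank (ZMod p) (AE p E) := by
  rw [Module.finrank_linearMap, Module.finrank_pi_fintype]
  have h1 : Module.finrank (ZMod p) (VV E) = Module.finrank (ZMod p) E :=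
    LinearEquiv.finrank_eq (toE p)
  rw [h1]
  simp only [Finset.sum_const, Finset.card_univ, smul_eq_mul]
  congr 1
  rw [← Nat.card_eq_fintype_card]
  exact IsGalois.card_aut_eq_finrank (ZMod p) E

/-- The linear equivalence `c ↦ ∑ σ, c_σ σ`. -/
noncomputable def coefEquiv (p : ℕ) [Fact p.Prime] (E : Type) [Field E] [Finite E]
    [Algebra (ZMod p) E] : (Gal(E/ZMod p) → E) ≃ₗ[ZMod p] AE p E :=
  LinearEquiv.ofInjectiveOfFinrankEq (ofCoef p E) ofCoef_injective finrank_coef

/-- The coefficients of an endomorphism: `X = ∑ σ, (coef X σ) σ`. -/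
noncomputable def coef (X : AE p E) (σ : Gal(E/ZMod p)) : E := (coefEquiv p E).symm X σ

theorem sum_coef (X : AE p E) : ∑ σ, mE p (coef X σ) * gE p σ = X := by
  have h : ofCoef p E ((coefEquiv p E).symm X) = X := (coefEquiv p E).apply_symm_apply X
  exact h

theorem toE_apply_eq (X : AE p E) (x : VV E) : toE p (X x) = ∑ σ, coef X σ * σ (toE p x) := by
  conv_lhs => rw [← sum_coef X]
  exact toE_ofCoef _ _

theorem coef_unique (X : AE p E) (c : Gal(E/ZMod p) → E) (h : ∑ σ, mE p (c σ) * gE p σ = X) :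
    coef X = c := by
  apply ofCoef_injective
  rw [ofCoef_apply, ofCoef_apply, h, sum_coef]

theorem coef_ext {X Y : AE p E} (h : ∀ σ, coef X σ = coef Y σ) : X = Y := by
  rw [← sum_coef X, ← sum_coef Y]
  apply Finset.sum_congr rfl
  intro σ _
  rw [h σ]

theorem coef_ofCoef (c : Gal(E/ZMod p) → E) (σ : Gal(E/ZMod p)) : coef (ofCoef p E c) σ = c σ := by
  rw [coef_unique (ofCoef p E c) c rfl]

@[simp] theorem coef_zero (σ : Gal(E/ZMod p)) : coef (0 : AE p E) σ = 0 := by
  unfold coef; rw [map_zero]; rfl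

theorem coef_add (X Y : AE p E) (σ : Gal(E/ZMod p)) : coef (X + Y) σ = coef X σ + coef Y σ := by
  unfold coef; rw [map_add]; rfl

theorem coef_sub (X Y : AE p E) (σ : Gal(E/ZMod p)) : coef (X - Y) σ = coef X σ - coef Y σ := by
  unfold coef; rw [map_sub]; rfl

theorem coef_neg (X : AE p E) (σ : Gal(E/ZMod p)) : coef (-X) σ = - coef X σ := by
  unfold coef; rw [map_neg]; rfl

theorem coef_smul (c : ZMod p) (X : AE p E) (σ : Gal(E/ZMod p)) : coef (c • X) σ = c • coef X σ := by
  unfold coef; rw [map_smul]; rfl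

theorem coef_sum {ι : Type} (s : Finset ι) (X : ι → AE p E) (σ : Gal(E/ZMod p)) :
    coef (∑ i ∈ s, X i) σ = ∑ i ∈ s, coef (X i) σ := by
  classical
  induction s using Finset.induction_on with
  | empty => simp
  | insert a s ha ih => rw [Finset.sum_insert ha, Finset.sum_insert ha, coef_add, ih]

/-- `σ a = (σ a) σ` for `a` in `E`. -/
theorem gE_mul_mE (σ : Gal(E/ZMod p)) (a : E) : gE p σ * mE p a = mE p (σ a) * gE p σ := by
  apply LinearMap.ext
  intro x
  apply (toE p).injective
  simp [Module.End.mul_apply]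

open Classical in
theorem coef_single (a : E) (τ σ : Gal(E/ZMod p)) :
    coef (mE p a * gE p τ) σ = if σ = τ then a else 0 := by
  have h := coef_unique (mE p a * gE p τ) (fun σ => if σ = τ then a else 0) (by
    rw [Finset.sum_eq_single τ]
    · simp
    · intro σ _ hσ
      simp [hσ]
    · intro h; exact absurd (Finset.mem_univ _) h)
  rw [h]

theorem coef_mE_mul (a : E) (X : AE p E) (σ : Gal(E/ZMod p)) :
    coef (mE p a * X) σ = a * coef X σ := by
  have h := coef_unique (mE p a * X) (fun σ => a * coef X σ) (by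
    conv_rhs => rw [← sum_coef X]
    rw [Finset.mul_sum]
    apply Finset.sum_congr rfl
    intro σ _
    rw [map_mul, mul_assoc])
  rw [h]

theorem coef_mul_mE (X : AE p E) (a : E) (σ : Gal(E/ZMod p)) :
    coef (X * mE p a) σ = coef X σ * σ a := by
  have h := coef_unique (X * mE p a) (fun σ => coef X σ * σ a) (by
    conv_rhs => rw [← sum_coef X]
    rw [Finset.sum_mul]
    apply Finset.sum_congr rfl
    intro σ _
    rw [map_mul, mul_assoc, mul_assoc, gE_mul_mE])
  rw [h]

theorem coef_gE_mul (τ : Gal(E/ZMod p)) (X : AE p E) (σ : Gal(E/ZMod p)) :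
    coef (gE p τ * X) σ = τ (coef X (τ⁻¹ * σ)) := by
  have h := coef_unique (gE p τ * X) (fun σ => τ (coef X (τ⁻¹ * σ))) (by
    conv_rhs => rw [← sum_coef X]
    rw [Finset.mul_sum, ← Equiv.sum_comp (Equiv.mulLeft τ)]
    apply Finset.sum_congr rfl
    intro σ _
    rw [Equiv.coe_mulLeft, inv_mul_cancel_left, map_mul, ← mul_assoc, ← mul_assoc, gE_mul_mE])
  rw [h]

theorem coef_mul_gE (X : AE p E) (τ : Gal(E/ZMod p)) (σ : Gal(E/ZMod p)) :
    coef (X * gE p τ) σ = coef X (σ * τ⁻¹) := by
  have h := coef_unique (X * gE p τ) (fun σ => coef X (σ * τ⁻¹)) (by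
    conv_rhs => rw [← sum_coef X]
    rw [Finset.sum_mul, ← Equiv.sum_comp (Equiv.mulRight τ)]
    apply Finset.sum_congr rfl
    intro σ _
    rw [Equiv.coe_mulRight, mul_inv_cancel_right, map_mul, ← mul_assoc])
  rw [h]

open Classical in
theorem coef_mE (a : E) (σ : Gal(E/ZMod p)) : coef (mE p a) σ = if σ = 1 then a else 0 := by
  have := coef_single a 1 σ
  rwa [map_one, mul_one] at this

open Classical in
theorem coef_gE (τ σ : Gal(E/ZMod p)) : coef (gE p τ) σ = if σ = τ then 1 else 0 := by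
  have := coef_single 1 τ σ
  rwa [map_one, one_mul] at this

/-- Coefficients of a product. -/
theorem coef_mul (X Y : AE p E) (σ : Gal(E/ZMod p)) :
    coef (X * Y) σ = ∑ τ, coef X τ * τ (coef Y (τ⁻¹ * σ)) := by
  conv_lhs => rw [← sum_coef X]
  rw [Finset.sum_mul, coef_sum]
  apply Finset.sum_congr rfl
  intro τ _
  rw [mul_assoc, coef_mE_mul, coef_gE_mul]

theorem mE_injective : Function.Injective (mE p : E →ₐ[ZMod p] AE p E) := by
  intro a b h
  have := congrArg (fun X : AE p E => toE p (X ((toE p).symm 1))) h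
  simpa using this

/-- If `X` has only the coefficient at `1`, then `X` is a multiplication. -/
theorem eq_mE_of_coef (X : AE p E) (h : ∀ σ, σ ≠ 1 → coef X σ = 0) : X = mE p (coef X 1) := by
  classical
  apply coef_ext
  intro σ
  rw [coef_mE]
  split_ifs with h1
  · rw [h1]
  · exact h σ h1

end Pool.Agent.MP971469
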