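import Pool.Agent.Lib.MP_971469_al.M05_Coef

/-! The adjoint with respect to `B`. -/

set_option linter.unusedSectionVars false

namespace Pool.Agent.MP971469

namespace Data

variable {p r : ℕ} [Fact p.Prime] {E : Type} [Field E] [Finite E] [Algebra (ZMod p) E]

/-- The adjoint: `B (X x) y = B x (adj X y)`. -/
noncomputable def adj (S : Data p r E) (X : AE p E) : AE p E :=
  ofCoef p E (fun σ => S.sgn σ * σ (S.bar (coef X σ⁻¹)))

theorem coef_adj (S : Data p r E) (X : AE p E) (σ : Gal(E/ZMod p)) :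
    coef (S.adj X) σ = S.sgn σ * σ (S.bar (coef X σ⁻¹)) := coef_ofCoef _ _

theorem B_adj (S : Data p r E) (X : AE p E) (x y : VV E) :
    S.B (X x) y = S.B x (S.adj X y) := by
  rw [S.B_apply, S.B_apply, toE_apply_eq, toE_apply_eq]
  rw [Finset.mul_sum, Finset.sum_mul, map_sum, map_sum, Finset.mul_sum, map_sum,
    ← Equiv.sum_comp (Equiv.inv Gal(E/ZMod p))]
  apply Finset.sum_congr rfl
  intro σ _
  rw [Equiv.inv_apply]
  rw [← S.trace_gal σ, S.coef_adj]
  congr 1
  simp only [map_mul]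
  have e1 : σ (σ⁻¹ (toE p x)) = toE p x := by
    rw [← AlgEquiv.mul_apply, mul_inv_cancel, AlgEquiv.one_apply]
  rw [e1, S.gal_j_eq, S.gal_sgn, S.gal_apply_comm S.bar σ, S.gal_apply_comm S.bar σ, S.bar_bar]
  ring

theorem adj_unique (S : Data p r E) (X Y : AE p E) (h : ∀ x y, S.B (X x) y = S.B x (Y y)) :
    Y = S.adj X := by
  apply LinearMap.ext
  intro y
  rw [← sub_eq_zero]
  apply S.B_nondeg'
  intro x
  rw [map_sub, ← h, ← S.B_adj, sub_self]

theorem B_adj' (S : Data p r E) (X : AE p E) (x y : VV E) :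
    S.B x (X y) = S.B (S.adj X x) y := by
  rw [S.B_swap, S.B_adj, ← S.B_swap]

theorem adj_adj (S : Data p r E) (X : AE p E) : S.adj (S.adj X) = X := by
  symm
  apply S.adj_unique
  intro x y
  rw [← S.B_adj']

theorem adj_mul (S : Data p r E) (X Y : AE p E) : S.adj (X * Y) = S.adj Y * S.adj X := by
  symm
  apply S.adj_unique
  intro x y
  rw [Module.End.mul_apply, Module.End.mul_apply, S.B_adj, S.B_adj]

theorem adj_one (S : Data p r E) : S.adj 1 = 1 := by
  symm
  apply S.adj_unique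
  intro x y
  simp

theorem adj_add (S : Data p r E) (X Y : AE p E) : S.adj (X + Y) = S.adj X + S.adj Y := by
  symm
  apply S.adj_unique
  intro x y
  simp only [LinearMap.add_apply, map_add, S.B_adj]

theorem adj_neg (S : Data p r E) (X : AE p E) : S.adj (-X) = - S.adj X := by
  symm
  apply S.adj_unique
  intro x y
  simp only [LinearMap.neg_apply, map_neg, S.B_adj]

theorem adj_sub (S : Data p r E) (X Y : AE p E) : S.adj (X - Y) = S.adj X - S.adj Y := by
  rw [sub_eq_add_neg, S.adj_add, S.adj_neg, ← sub_eq_add_neg]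

theorem adj_smul (S : Data p r E) (c : ZMod p) (X : AE p E) : S.adj (c • X) = c • S.adj X := by
  symm
  apply S.adj_unique
  intro x y
  simp only [LinearMap.smul_apply, map_smul, S.B_adj]

theorem adj_zero (S : Data p r E) : S.adj 0 = 0 := by
  symm
  apply S.adj_unique
  intro x y
  simp

theorem adj_mE (S : Data p r E) (a : E) : S.adj (mE p a) = mE p (S.bar a) := by
  symm
  apply S.adj_unique
  intro x y
  rw [S.B_apply, S.B_apply, toE_mE, toE_mE, map_mul S.bar (S.bar a), S.bar_bar]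
  congr 1
  ring

theorem adj_J (S : Data p r E) : S.adj S.J = - S.J := by
  unfold J
  rw [S.adj_mE, S.bar_j, map_neg]

/-- `sgn` as an element of the endomorphism ring. -/
theorem adj_gE (S : Data p r E) (σ : Gal(E/ZMod p)) :
    S.adj (gE p σ) = mE p (S.sgn σ) * gE p σ⁻¹ := by
  classical
  apply coef_ext
  intro τ
  rw [S.coef_adj, coef_gE, coef_single]
  by_cases h : τ = σ⁻¹
  · subst h
    simp [S.sgn_inv]
  · rw [if_neg h, if_neg (fun h' => h (by rw [← h', inv_inv]))]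
    simp

theorem adj_bar (S : Data p r E) : S.adj (gE p S.bar) = - gE p S.bar := by
  rw [S.adj_gE, S.sgn_bar, S.bar_inv, map_neg, map_one, neg_mul, one_mul]

theorem mem_skew_iff (S : Data p r E) (X : AE p E) : X ∈ S.skew ↔ S.adj X = -X := by
  constructor
  · intro h
    have h1 : ∀ x y, S.B (X x) y = - S.B x (X y) := h
    symm
    apply S.adj_unique
    intro x y
    rw [h1, LinearMap.neg_apply, map_neg]
  · intro h x y
    rw [S.B_adj, h, LinearMap.neg_apply, map_neg]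

theorem mem_sym_iff (S : Data p r E) (X : AE p E) : X ∈ S.sym ↔ S.adj X = X := by
  constructor
  · intro h
    have h1 : ∀ x y, S.B (X x) y = S.B x (X y) := h
    symm
    apply S.adj_unique
    intro x y
    rw [h1]
  · intro h x y
    rw [S.B_adj, h]

theorem mem_Sp_iff (S : Data p r E) (g : (AE p E)ˣ) :
    g ∈ S.Sp ↔ S.adj (g : AE p E) = ((g⁻¹ : (AE p E)ˣ) : AE p E) := by
  constructor
  · intro h
    have h1 : ∀ x y, S.B ((g : AE p E) x) ((g : AE p E) y) = S.B x y := h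
    symm
    apply S.adj_unique
    intro x y
    rw [← h1 x, ← Module.End.mul_apply, g.mul_inv, Module.End.one_apply]
  · intro h x y
    rw [S.B_adj, h, ← Module.End.mul_apply, g.inv_mul, Module.End.one_apply]

/-- An endomorphism `X` with `adj X * X = 1` gives an element of `Sp`. -/
theorem exists_Sp (S : Data p r E) (X : AE p E) (h : S.adj X * X = 1) :
    ∃ g ∈ S.Sp, (g : AE p E) = X := by
  have h2 : X * S.adj X = 1 := mul_eq_one_comm.mp h
  refine ⟨⟨X, S.adj X, h2, h⟩, ?_, rfl⟩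
  rw [S.mem_Sp_iff]
  rfl

theorem adj_cj (S : Data p r E) (g : (AE p E)ˣ) (hg : g ∈ S.Sp) (X : AE p E) :
    S.adj (cj g X) = cj g (S.adj X) := by
  have h1 := (S.mem_Sp_iff g).mp hg
  have h2 : S.adj ((g⁻¹ : (AE p E)ˣ) : AE p E) = (g : AE p E) := by
    rw [← h1, S.adj_adj]
  unfold cj
  rw [S.adj_mul, S.adj_mul, h1, h2, mul_assoc]

theorem cj_mem_skew (S : Data p r E) (g : (AE p E)ˣ) (hg : g ∈ S.Sp) (X : AE p E)
    (hX : X ∈ S.skew) : cj g X ∈ S.skew := by
  rw [S.mem_skew_iff] at hX ⊢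
  rw [S.adj_cj g hg, hX, cj_map_neg]

theorem cj_mem_sym (S : Data p r E) (g : (AE p E)ˣ) (hg : g ∈ S.Sp) (X : AE p E)
    (hX : X ∈ S.sym) : cj g X ∈ S.sym := by
  rw [S.mem_sym_iff] at hX ⊢
  rw [S.adj_cj g hg, hX]

theorem J_mem_skew (S : Data p r E) : S.J ∈ S.skew := by
  rw [S.mem_skew_iff, S.adj_J]

theorem mE_mem_skew_iff (S : Data p r E) (a : E) : mE p a ∈ S.skew ↔ S.bar a = -a := by
  rw [S.mem_skew_iff, S.adj_mE, ← map_neg]
  exact ⟨fun h => mE_injective h, fun h => by rw [h]⟩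

theorem J_mul_J (S : Data p r E) : S.J * S.J = S.lam • (1 : AE p E) := by
  unfold J
  rw [← map_mul, S.j_sq, AlgHom.commutes, Algebra.algebraMap_eq_smul_one]

theorem orbJ_skew (S : Data p r E) (Y : AE p E) (hY : Y ∈ S.orbJ) : Y ∈ S.skew := by
  obtain ⟨g, hg, rfl⟩ := hY
  exact S.cj_mem_skew g hg _ S.J_mem_skew

theorem orbJ_sq (S : Data p r E) (Y : AE p E) (hY : Y ∈ S.orbJ) : Y * Y = S.lam • (1 : AE p E) := by
  obtain ⟨g, hg, rfl⟩ := hY
  rw [← cj_map_mul, S.J_mul_J, cj_map_smul, cj_map_one]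

theorem J_mem_orbJ (S : Data p r E) : S.J ∈ S.orbJ := ⟨1, one_mem _, (cj_one _).symm⟩

theorem cj_mem_orbJ (S : Data p r E) (g : (AE p E)ˣ) (hg : g ∈ S.Sp) (Y : AE p E)
    (hY : Y ∈ S.orbJ) : cj g Y ∈ S.orbJ := by
  obtain ⟨h, hh, rfl⟩ := hY
  exact ⟨g * h, mul_mem hg hh, (cj_mul _ _ _).symm⟩

/-- The group `{1,-1}` is contained in `Sp`. -/
theorem pm_le_Sp (S : Data p r E) : pm (ZMod p) (VV E) ≤ S.Sp := by
  rintro g (rfl | rfl)
  · exact one_mem _
  · intro x y
    simp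

theorem T_le_Sp (S : Data p r E) : S.T ≤ S.Sp := by
  rintro g ⟨e, he, hg⟩
  rw [S.mem_Sp_iff, hg, S.adj_mE]
  have h1 : mE p (S.bar e) * (g : AE p E) = 1 := by
    rw [hg, ← map_mul, mul_comm, he, map_one]
  calc mE p (S.bar e) = mE p (S.bar e) * ((g : AE p E) * ((g⁻¹ : (AE p E)ˣ) : AE p E)) := by
        rw [g.mul_inv, mul_one]
    _ = ((g⁻¹ : (AE p E)ˣ) : AE p E) := by rw [← mul_assoc, h1, one_mul]

theorem pm_le_T (S : Data p r E) : pm (ZMod p) (VV E) ≤ S.T := by
  rintro g (rfl | rfl)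
  · exact one_mem _
  · exact ⟨-1, by simp, by simp⟩

end Data

end Pool.Agent.MP971469
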