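import Pool.Agent.Lib.MP_971469_al.M06_Adj

/-! Skew endomorphisms in terms of coefficients; the elements `dd σ a = a σ - (a σ)*`. -/

set_option linter.unusedSectionVars false

namespace Pool.Agent.MP971469

namespace Data

variable {p r : ℕ} [Fact p.Prime] {E : Type} [Field E] [Finite E] [Algebra (ZMod p) E]

theorem coef_skew (S : Data p r E) (X : AE p E) (hX : X ∈ S.skew) (σ : Gal(E/ZMod p)) :
    coef X σ = -(S.sgn σ * σ (S.bar (coef X σ⁻¹))) := by
  rw [S.mem_skew_iff] at hX
  rw [← S.coef_adj, hX, coef_neg, neg_neg]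

theorem mem_skew_of_coef (S : Data p r E) (X : AE p E)
    (h : ∀ σ, coef X σ = -(S.sgn σ * σ (S.bar (coef X σ⁻¹)))) : X ∈ S.skew := by
  rw [S.mem_skew_iff]
  apply coef_ext
  intro σ
  rw [S.coef_adj, coef_neg, h σ, neg_neg]

theorem coef_sym (S : Data p r E) (X : AE p E) (hX : X ∈ S.sym) (σ : Gal(E/ZMod p)) :
    coef X σ = S.sgn σ * σ (S.bar (coef X σ⁻¹)) := by
  rw [S.mem_sym_iff] at hX
  rw [← S.coef_adj, hX]

/-- `dd σ a = a σ - (a σ)*`. -/
noncomputable def dd (S : Data p r E) (σ : Gal(E/ZMod p)) (a : E) : AE p E :=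
  mE p a * gE p σ - S.adj (mE p a * gE p σ)

theorem adj_mE_gE (S : Data p r E) (σ : Gal(E/ZMod p)) (a : E) :
    S.adj (mE p a * gE p σ) = mE p (S.sgn σ * σ⁻¹ (S.bar a)) * gE p σ⁻¹ := by
  rw [S.adj_mul, S.adj_gE, S.adj_mE, mul_assoc, gE_mul_mE, ← mul_assoc, ← map_mul]

theorem dd_mem_skew (S : Data p r E) (σ : Gal(E/ZMod p)) (a : E) : S.dd σ a ∈ S.skew := by
  rw [S.mem_skew_iff]
  unfold dd
  rw [S.adj_sub, S.adj_adj, neg_sub]

theorem dd_add (S : Data p r E) (σ : Gal(E/ZMod p)) (a b : E) :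
    S.dd σ (a + b) = S.dd σ a + S.dd σ b := by
  unfold dd
  rw [map_add, add_mul, S.adj_add]
  abel

theorem dd_smul (S : Data p r E) (σ : Gal(E/ZMod p)) (c : ZMod p) (a : E) :
    S.dd σ (c • a) = c • S.dd σ a := by
  unfold dd
  rw [map_smul, smul_mul_assoc, S.adj_smul, smul_sub]

theorem coef_dd (S : Data p r E) (σ τ : Gal(E/ZMod p)) (a : E) :
    coef (S.dd σ a) τ = coef (mE p a * gE p σ) τ
      - coef (mE p (S.sgn σ * σ⁻¹ (S.bar a)) * gE p σ⁻¹) τ := by
  unfold dd
  rw [coef_sub, S.adj_mE_gE]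

/-- The coefficient of `dd σ a` at `τ ∉ {σ, σ⁻¹}` is zero. -/
theorem coef_dd_ne (S : Data p r E) (σ τ : Gal(E/ZMod p)) (a : E) (h1 : τ ≠ σ) (h2 : τ ≠ σ⁻¹) :
    coef (S.dd σ a) τ = 0 := by
  rw [S.coef_dd, coef_single, coef_single, if_neg h1, if_neg h2, sub_zero]

/-- The coefficient of `dd σ a` at `σ` when `σ² ≠ 1`. -/
theorem coef_dd_self (S : Data p r E) (σ : Gal(E/ZMod p)) (a : E) (h : σ * σ ≠ 1) :
    coef (S.dd σ a) σ = a := by
  rw [S.coef_dd, coef_single, coef_single, if_pos rfl, if_neg, sub_zero]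
  intro h'
  apply h
  nth_rewrite 2 [h']
  rw [mul_inv_cancel]

theorem dd_inv (S : Data p r E) (σ : Gal(E/ZMod p)) (a : E) :
    S.dd σ⁻¹ a = - S.dd σ (S.sgn σ * σ (S.bar a)) := by
  have h1 : S.adj (mE p a * gE p σ⁻¹) = mE p (S.sgn σ * σ (S.bar a)) * gE p σ := by
    rw [S.adj_mE_gE, S.sgn_inv, inv_inv]
  have h2 : S.adj (mE p (S.sgn σ * σ (S.bar a)) * gE p σ) = mE p a * gE p σ⁻¹ := by
    rw [← h1, S.adj_adj]
  unfold dd
  rw [h1, h2]
  abel

theorem dd_one (S : Data p r E) (a : E) (ha : S.bar a = -a) :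
    S.dd 1 a = (2 : ZMod p) • mE p a := by
  unfold dd
  rw [map_one, mul_one, S.adj_mE, ha, map_neg, sub_neg_eq_add, two_smul]

theorem dd_bar (S : Data p r E) (a : E) :
    S.dd S.bar a = (2 : ZMod p) • (mE p a * gE p S.bar) := by
  unfold dd
  rw [S.adj_mE_gE, S.bar_inv, S.bar_bar, S.sgn_bar, neg_one_mul, map_neg, neg_mul, sub_neg_eq_add,
    two_smul]

/-- A skew endomorphism is half the sum of its `dd`'s. -/
theorem skew_eq_sum (S : Data p r E) (X : AE p E) (hX : X ∈ S.skew) :
    (2 : ZMod p) • X = ∑ σ, S.dd σ (coef X σ) := by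
  have h1 : ∑ σ, S.dd σ (coef X σ) = X - S.adj X := by
    unfold dd
    rw [Finset.sum_sub_distrib, sum_coef]
    congr 1
    conv_rhs => rw [← sum_coef X]
    have : ∀ s : Finset Gal(E/ZMod p), S.adj (∑ σ ∈ s, mE p (coef X σ) * gE p σ) =
        ∑ σ ∈ s, S.adj (mE p (coef X σ) * gE p σ) := by
      classical
      intro s
      induction s using Finset.induction_on with
      | empty => simp [S.adj_zero]
      | insert a s ha ih => rw [Finset.sum_insert ha, Finset.sum_insert ha, S.adj_add, ih]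
    rw [this]
  rw [h1, (S.mem_skew_iff X).mp hX, sub_neg_eq_add, two_smul]

/-- `X` commutes with all multiplications by elements of `E⁻` iff it is a multiplication. -/
theorem eq_mE_of_comm_em (S : Data p r E) (X : AE p E)
    (h : ∀ a : E, S.bar a = -a → mE p a * X = X * mE p a) : X = mE p (coef X 1) := by
  apply eq_mE_of_coef
  intro σ hσ
  obtain ⟨a, ha, ha2⟩ := S.exists_em_ne σ hσ
  have h1 := congrArg (fun Y => coef Y σ) (h a ha)
  simp only [coef_mE_mul, coef_mul_mE] at h1
  have h2 : coef X σ * (σ a - a) = 0 := by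
    rw [mul_sub, ← h1]; ring
  rcases mul_eq_zero.mp h2 with h3 | h3
  · exact h3
  · exact absurd (sub_eq_zero.mp h3) ha2

/-- `X` commutes with `J` iff its coefficients at the `σ` with `sgn σ = -1` vanish. -/
theorem comm_J_iff (S : Data p r E) (X : AE p E) :
    X * S.J = S.J * X ↔ ∀ σ, S.sgn σ = -1 → coef X σ = 0 := by
  have key : ∀ σ, coef (X * S.J) σ = S.sgn σ * S.j * coef X σ := by
    intro σ
    unfold J
    rw [coef_mul_mE, S.gal_j_eq]
    ring
  have key2 : ∀ σ, coef (S.J * X) σ = S.j * coef X σ := by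
    intro σ
    unfold J
    rw [coef_mE_mul]
  constructor
  · intro h σ hσ
    have h1 := key σ
    rw [h, key2, hσ] at h1
    have h2 : (2 : E) * (S.j * coef X σ) = 0 := by
      rw [two_mul]
      nth_rewrite 1 [h1]
      ring
    rcases mul_eq_zero.mp h2 with h3 | h3
    · exact absurd h3 S.two_ne'
    · rcases mul_eq_zero.mp h3 with h4 | h4
      · exact absurd h4 S.j_ne
      · exact h4
  · intro h
    apply coef_ext
    intro σ
    rw [key, key2]
    rcases S.sgn_eq σ with h1 | h1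
    · rw [h1]; ring
    · rw [h σ h1]; ring

/-- `X` commutes with all multiplications by elements of `F` iff it has only the coefficients at
`1` and `bar`. -/
theorem comm_F_iff (S : Data p r E) (X : AE p E) :
    (∀ f : E, S.bar f = f → X * mE p f = mE p f * X) ↔
      ∀ σ, σ ≠ 1 → σ ≠ S.bar → coef X σ = 0 := by
  constructor
  · intro h σ h1 h2
    obtain ⟨f, hf, hf2⟩ := S.exists_F_gen
    have h3 := congrArg (fun Y => coef Y σ) (h f hf)
    simp only [coef_mE_mul, coef_mul_mE] at h3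
    have h4 : coef X σ * (σ f - f) = 0 := by
      rw [mul_sub, h3]; ring
    rcases mul_eq_zero.mp h4 with h5 | h5
    · exact h5
    · exfalso
      rcases S.gal_fix_F σ f hf hf2 (sub_eq_zero.mp h5) with h6 | h6
      · exact h1 h6
      · exact h2 h6
  · intro h f hf
    apply coef_ext
    intro σ
    rw [coef_mE_mul, coef_mul_mE]
    by_cases h1 : σ = 1
    · subst h1; simp [mul_comm]
    · by_cases h2 : σ = S.bar
      · subst h2; rw [hf]; ring
      · rw [h σ h1 h2]; ring

/-- An endomorphism commuting with `F` is `x + y bar`. -/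
theorem eq_of_comm_F (S : Data p r E) (X : AE p E)
    (h : ∀ f : E, S.bar f = f → X * mE p f = mE p f * X) :
    X = mE p (coef X 1) + mE p (coef X S.bar) * gE p S.bar := by
  classical
  rw [S.comm_F_iff] at h
  apply coef_ext
  intro σ
  rw [coef_add, coef_mE, coef_single]
  by_cases h1 : σ = 1
  · subst h1
    rw [if_pos rfl, if_neg (fun h => S.bar_ne_one h.symm), add_zero]
  · by_cases h2 : σ = S.bar
    · subst h2
      rw [if_neg h1, if_pos rfl, zero_add]
    · rw [if_neg h1, if_neg h2, h σ h1 h2, add_zero]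

/-- An endomorphism commuting with one element of `F` outside of the prime field commutes with
`F`. -/
theorem comm_F_of_comm_gen (S : Data p r E) (X : AE p E) (f : E) (hf : S.bar f = f)
    (hf2 : ∀ c : ZMod p, algebraMap (ZMod p) E c ≠ f) (h : X * mE p f = mE p f * X) :
    ∀ f : E, S.bar f = f → X * mE p f = mE p f * X := by
  rw [S.comm_F_iff]
  intro σ h1 h2
  have h3 := congrArg (fun Y => coef Y σ) h
  simp only [coef_mE_mul, coef_mul_mE] at h3
  have h4 : coef X σ * (σ f - f) = 0 := by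
    rw [mul_sub, h3]; ring
  rcases mul_eq_zero.mp h4 with h5 | h5
  · exact h5
  · exfalso
    rcases S.gal_fix_F σ f hf hf2 (sub_eq_zero.mp h5) with h6 | h6
    · exact h1 h6
    · exact h2 h6

end Data

end Pool.Agent.MP971469
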