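import Pool.Agent.Lib.MP_971469_al.M07_Skew

/-! M08: cardinalities of the space of skew endomorphisms and of its intersection with the
centralizer of `J`. -/

namespace Pool.Agent.MP971469

namespace Data

variable {p r : ℕ} [Fact p.Prime] {E : Type} [Field E] [Finite E] [Algebra (ZMod p) E]

private noncomputable def fr (p : ℕ) [Fact p.Prime] (E : Type) [Field E] [Finite E]
    [Algebra (ZMod p) E] : Gal(E/ZMod p) := FiniteField.frobeniusAlgEquivOfAlgebraic (ZMod p) E

private theorem fr_order (S : Data p r E) : orderOf (fr p E) = 2 * r := S.orderOf_frob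

private theorem fr_exists (S : Data p r E) (σ : Gal(E/ZMod p)) : ∃ k, k < 2 * r ∧ σ = fr p E ^ k :=
  S.exists_frob_pow σ

private theorem fr_inj (S : Data p r E) {k l : ℕ} (hk : k < 2 * r) (hl : l < 2 * r)
    (h : fr p E ^ k = fr p E ^ l) : k = l := by
  rw [← S.fr_order] at hk hl
  exact pow_injOn_Iio_orderOf hk hl h

private theorem fr_inv (S : Data p r E) {k : ℕ} (hk : k ≤ 2 * r) :
    (fr p E ^ k)⁻¹ = fr p E ^ (2 * r - k) := by
  rw [inv_eq_iff_mul_eq_one, ← pow_add, Nat.add_sub_cancel' hk, ← S.fr_order, pow_orderOf_eq_one]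

private theorem fr_bar (S : Data p r E) : fr p E ^ r = S.bar := rfl

private theorem fr_sgn (S : Data p r E) (k : ℕ) : S.sgn (fr p E ^ k) = (-1) ^ k := by
  have h1 : S.sgn (fr p E) = -1 := by
    unfold sgn fr
    rw [S.frob_j, neg_div, div_self S.j_ne]
  induction k with
  | zero => simp
  | succ k ih => rw [pow_succ, S.sgn_mul, ih, h1, pow_succ]

/-- the value of the coefficient function at `φ ^ m` -/
private noncomputable def cval (S : Data p r E) (a : E) (b : ℕ → E) (m : ℕ) : E :=
  if m = 0 then a else if m ≤ r then b (m - 1) else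
    -(S.sgn (fr p E ^ m) * (fr p E ^ m) (S.bar (b (2 * r - m - 1))))

private theorem cval_rel (S : Data p r E) (a : E) (ha : S.bar a = -a) (b : ℕ → E) (m : ℕ)
    (hm : m < 2 * r) : S.cval a b m =
      -(S.sgn (fr p E ^ m) * (fr p E ^ m) (S.bar (S.cval a b (if m = 0 then 0 else 2 * r - m)))) := by
  have hr := S.r_pos
  by_cases h0 : m = 0
  · subst h0
    simp [cval, ha]
  · rw [if_neg h0]
    by_cases h1 : m < r
    · have e1 : S.cval a b m = b (m - 1) := by
        unfold cval
        rw [if_neg h0, if_pos h1.le]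
      have e2 : S.cval a b (2 * r - m) =
          -(S.sgn (fr p E ^ (2 * r - m)) * (fr p E ^ (2 * r - m)) (S.bar (b (m - 1)))) := by
        unfold cval
        rw [if_neg (by omega), if_neg (by omega)]
        congr 5
        omega
      rw [e1, e2]
      have e3 : fr p E ^ (2 * r - m) = (fr p E ^ m)⁻¹ := (S.fr_inv hm.le).symm
      rw [e3, S.sgn_inv]
      generalize fr p E ^ m = σ
      rw [map_neg, map_neg, mul_neg, neg_neg, map_mul, map_mul, S.gal_sgn, S.gal_sgn, ← mul_assoc,
        S.sgn_mul_self, one_mul, S.gal_apply_comm S.bar, S.bar_bar, ← AlgEquiv.mul_apply,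
        mul_inv_cancel, AlgEquiv.one_apply]
    · by_cases h2 : m = r
      · subst h2
        have e1 : S.cval a b m = b (m - 1) := by
          unfold cval
          rw [if_neg h0, if_pos le_rfl]
        rw [show 2 * m - m = m by omega, e1, S.fr_bar, S.sgn_bar, S.bar_bar]
        ring
      · have e1 : S.cval a b m =
          -(S.sgn (fr p E ^ m) * (fr p E ^ m) (S.bar (b (2 * r - m - 1)))) := by
          unfold cval
          rw [if_neg h0, if_neg (by omega)]
        have e2 : S.cval a b (2 * r - m) = b (2 * r - m - 1) := by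
          unfold cval
          rw [if_neg (by omega), if_pos (by omega)]
        rw [e1, e2]

private theorem skew_bij (S : Data p r E) : Function.Bijective
    (fun X : S.skew => ((⟨coef X.1 1, by
      have h := S.coef_skew X.1 X.2 1
      rw [inv_one, S.sgn_one, one_mul, AlgEquiv.one_apply] at h
      nth_rewrite 2 [h]
      rw [neg_neg]⟩, fun i => coef X.1 (fr p E ^ (i.1 + 1))) :
      {a : E // S.bar a = -a} × (Fin r → E))) := by
  have hr := S.r_pos
  constructor
  · rintro ⟨X, hX⟩ ⟨Y, hY⟩ h
    have h1 : coef X 1 = coef Y 1 := congrArg Subtype.val (congrArg Prod.fst h)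
    have h2 : ∀ i : Fin r, coef X (fr p E ^ (i.1 + 1)) = coef Y (fr p E ^ (i.1 + 1)) :=
      fun i => congrFun (congrArg Prod.snd h) i
    have h3 : ∀ k, k ≤ r → coef X (fr p E ^ k) = coef Y (fr p E ^ k) := by
      intro k hk
      rcases Nat.eq_zero_or_pos k with h0 | h0
      · subst h0
        rw [pow_zero]
        exact h1
      · have := h2 ⟨k - 1, by omega⟩
        rwa [show k - 1 + 1 = k by omega] at this
    apply Subtype.ext
    apply coef_ext
    intro σ
    obtain ⟨k, hk, rfl⟩ := S.fr_exists σ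
    by_cases hkr : k ≤ r
    · exact h3 k hkr
    · rw [S.coef_skew X hX, S.coef_skew Y hY, S.fr_inv hk.le, h3 (2 * r - k) (by omega)]
  · rintro ⟨⟨a, ha⟩, g⟩
    classical
    choose m hm hm2 using S.fr_exists
    set b : ℕ → E := fun k => if h : k < r then g ⟨k, h⟩ else 0 with hb
    set X : AE p E := ofCoef p E (fun σ => S.cval a b (m σ)) with hX
    have hc : ∀ σ, coef X σ = S.cval a b (m σ) := fun σ => coef_ofCoef _ σ
    have hmk : ∀ k, k < 2 * r → m (fr p E ^ k) = k := fun k hk =>
      (S.fr_inj hk (hm _) (hm2 _)).symm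
    have hXs : X ∈ S.skew := by
      apply S.mem_skew_of_coef
      intro σ
      obtain ⟨k, hk, rfl⟩ := S.fr_exists σ
      rw [hc, hc, hmk k hk]
      have hinv : m (fr p E ^ k)⁻¹ = if k = 0 then 0 else 2 * r - k := by
        by_cases h0 : k = 0
        · subst h0
          rw [if_pos rfl, pow_zero, inv_one, ← pow_zero (fr p E), hmk 0 hk]
        · rw [if_neg h0, S.fr_inv hk.le, hmk _ (by omega)]
      rw [hinv]
      exact S.cval_rel a ha b k hk
    refine ⟨⟨X, hXs⟩, ?_⟩
    apply Prod.ext
    · apply Subtype.ext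
      change coef X 1 = a
      rw [hc, ← pow_zero (fr p E), hmk 0 (by omega)]
      simp [cval]
    · funext i
      change coef X (fr p E ^ (i.1 + 1)) = g i
      have hi := i.2
      rw [hc, hmk _ (by omega)]
      unfold cval
      rw [if_neg (by omega), if_pos (by omega)]
      simp [hb]

/-- Proof: by `coef_skew`, `mem_skew_of_coef` a skew `X` is given by arbitrary coefficients with
`coef X σ⁻¹` determined by `coef X σ`: at `σ = 1` the condition is `bar c = -c` (`p^r` choices,
`card_Em`), at `σ = bar` there is no condition (`p^(2r)` choices), and the remaining `2r-2` elements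
of the cyclic group come in `r-1` pairs `{σ, σ⁻¹}` (`p^(2r)` choices each). Total exponent
`r + 2r + 2r(r-1) = 2r²+r`. (Alternatively: the map `X ↦ X - adj X` on `AE` has image `skew` and
kernel `sym`, and `sym → ...`; or count `|skew| * |sym| = |AE| = p^(4r²)` (as `X = (X+X*)/2 + (X-X*)/2`)
and find a bijection. An alternative parametrization of `Gal` is `φ^k`, `k < 2r`, with
`exists_frob_pow`: representatives `k = 0, r` and `1 ≤ k < r`.) -/
theorem card_skew (S : Data p r E) : Nat.card S.skew = p ^ (2 * r ^ 2 + r) := by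
  rw [Nat.card_congr (Equiv.ofBijective _ S.skew_bij), Nat.card_prod, S.card_Em, Nat.card_pi]
  simp only [S.card, Finset.prod_const, Finset.card_univ, Fintype.card_fin]
  rw [← pow_mul, ← pow_add]
  congr 1
  ring

theorem finrank_skew (S : Data p r E) : Module.finrank (ZMod p) S.skew = 2 * r ^ 2 + r := by
  have h1 := Module.natCard_eq_pow_finrank (K := ZMod p) (V := S.skew)
  rw [S.card_skew, Nat.card_zmod] at h1
  exact (Nat.pow_right_injective (Fact.out : p.Prime).two_le h1).symm

private theorem comm_iff (S : Data p r E) (X : AE p E) (hX : X ∈ S.skew) :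
    X * S.J = S.J * X ↔ ∀ i : Fin r, Odd (i.1 + 1) → coef X (fr p E ^ (i.1 + 1)) = 0 := by
  have hr := S.r_pos
  rw [S.comm_J_iff]
  constructor
  · intro h i hi
    apply h
    rw [S.fr_sgn, hi.neg_one_pow]
  · intro h σ hσ
    obtain ⟨k, hk, rfl⟩ := S.fr_exists σ
    rw [S.fr_sgn] at hσ
    have hodd : Odd k := by
      rcases Nat.even_or_odd k with h1 | h1
      · exfalso
        rw [h1.neg_one_pow] at hσ
        apply S.two_ne'
        have : (2 : E) = 1 + 1 := by norm_num
        rw [this]
        nth_rewrite 1 [hσ]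
        ring
      · exact h1
    have key : ∀ l, l ≤ r → Odd l → coef X (fr p E ^ l) = 0 := by
      intro l hl hlo
      have hl0 : 0 < l := hlo.pos
      have := h ⟨l - 1, by omega⟩
      rw [show ((⟨l - 1, by omega⟩ : Fin r) : ℕ) + 1 = l from by simp; omega] at this
      exact this hlo
    by_cases hkr : k ≤ r
    · exact key k hkr hodd
    · rw [S.coef_skew X hX, S.fr_inv hk.le, key (2 * r - k) (by omega)]
      · simp
      · obtain ⟨c, hc⟩ := hodd
        exact ⟨r - c - 1, by omega⟩

private theorem prod_aux (q m : ℕ) :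
    ∏ i ∈ Finset.range (2 * m + 1), (if Odd (i + 1) then 1 else q) = q ^ m := by
  induction m with
  | zero => simp
  | succ m ih =>
    rw [show 2 * (m + 1) + 1 = 2 * m + 1 + 1 + 1 by ring, Finset.prod_range_succ,
      Finset.prod_range_succ, ih]
    rw [if_neg (by rw [Nat.not_odd_iff_even]; exact ⟨m + 1, by ring⟩),
      if_pos ⟨m + 1, by ring⟩, mul_one, pow_succ]

/-- Proof: by `comm_J_iff` only the coefficients at the `r` elements `σ` with `sgn σ = 1` survive:
`σ = 1` (`p^r` choices) and `(r-1)/2` pairs `{σ, σ⁻¹}` (`p^(2r)` choices each): total exponent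
`r + r(r-1) = r²`. -/
theorem card_skew_J (S : Data p r E) :
    Nat.card {X : AE p E // X ∈ S.skew ∧ X * S.J = S.J * X} = p ^ (r ^ 2) := by
  classical
  have e1 : {X : AE p E // X ∈ S.skew ∧ X * S.J = S.J * X} ≃
      {X : S.skew // ∀ i : Fin r, Odd (i.1 + 1) → coef X.1 (fr p E ^ (i.1 + 1)) = 0} :=
    { toFun := fun X => ⟨⟨X.1, X.2.1⟩, (S.comm_iff X.1 X.2.1).1 X.2.2⟩
      invFun := fun X => ⟨X.1.1, X.1.2, (S.comm_iff X.1.1 X.1.2).2 X.2⟩
      left_inv := fun X => rfl
      right_inv := fun X => rfl }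
  have e2 : {X : S.skew // ∀ i : Fin r, Odd (i.1 + 1) → coef X.1 (fr p E ^ (i.1 + 1)) = 0} ≃
      {y : {a : E // S.bar a = -a} × (Fin r → E) // ∀ i : Fin r, Odd (i.1 + 1) → y.2 i = 0} :=
    Equiv.subtypeEquiv (Equiv.ofBijective _ S.skew_bij) (fun X => Iff.rfl)
  have e3 : {y : {a : E // S.bar a = -a} × (Fin r → E) //
      ∀ i : Fin r, Odd (i.1 + 1) → y.2 i = 0} ≃
      {a : E // S.bar a = -a} × (∀ i : Fin r, {x : E // Odd (i.1 + 1) → x = 0}) :=
    { toFun := fun y => (y.1.1, fun i => ⟨y.1.2 i, y.2 i⟩)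
      invFun := fun z => ⟨(z.1, fun i => (z.2 i).1), fun i => (z.2 i).2⟩
      left_inv := fun y => rfl
      right_inv := fun z => rfl }
  rw [Nat.card_congr (e1.trans (e2.trans e3)), Nat.card_prod, S.card_Em, Nat.card_pi]
  have h1 : ∀ i : Fin r, Nat.card {x : E // Odd (i.1 + 1) → x = 0} =
      if Odd (i.1 + 1) then 1 else p ^ (2 * r) := by
    intro i
    split_ifs with h
    · have : Unique {x : E // Odd (i.1 + 1) → x = 0} :=
        { default := ⟨0, fun _ => rfl⟩
          uniq := fun x => Subtype.ext (x.2 h) }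
      exact Nat.card_unique
    · rw [← S.card]
      exact Nat.card_congr (Equiv.subtypeUnivEquiv fun x h' => absurd h' h)
  simp only [h1]
  obtain ⟨m, hm⟩ := S.r_odd
  rw [Fin.prod_univ_eq_prod_range (fun i => if Odd (i + 1) then 1 else p ^ (2 * r)) r]
  conv_lhs => rw [show Finset.range r = Finset.range (2 * m + 1) by rw [← hm]]
  rw [prod_aux, ← pow_mul, ← pow_add]
  congr 1
  rw [hm]
  ring

end Data

end Pool.Agent.MP971469
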