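import Pool.Agent.Lib.MP_971469_al.M07_Skew

/-! O1: Cayley transform and lower bounds for orders of centralizers. -/

namespace Pool.Agent.MP971469

/-- For a subspace `W` of `End V` over `F_p`, `dim V = n`, `4 n < p`: at least half of the elements
`X` of `W` have `det (1 - X) ≠ 0`. Proof: for each `X` the polynomial `det (1 - t X)` in `t` is
nonzero (value `1` at `0`) of degree `≤ n`, so it vanishes for at most `n` values `t`. For `t ≠ 0` the
map `X ↦ t X` is a bijection of `W`, so the number `b` of `X ∈ W` with `det (1 - t X) = 0` does not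
depend on `t ≠ 0`, and `(p-1) b ≤ n |W|`. -/
theorem card_det_ne {p : ℕ} [Fact p.Prime] {V : Type} [AddCommGroup V] [Module (ZMod p) V]
    [Finite V] (hn : 4 * Module.finrank (ZMod p) V < p) (W : Submodule (ZMod p) (Module.End (ZMod p) V)) :
    Nat.card W ≤ 2 * Nat.card {X : Module.End (ZMod p) V // X ∈ W ∧ LinearMap.det (1 - X) ≠ 0} := by
  classical
  haveI : Finite (Module.End (ZMod p) V) :=
    Finite.of_injective (fun f => (f : V → V)) DFunLike.coe_injective
  haveI : Fintype (Module.End (ZMod p) V) := Fintype.ofFinite _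
  have hp2 : 2 ≤ p := (Fact.out : p.Prime).two_le
  set A : Finset (Module.End (ZMod p) V) := Finset.univ.filter (fun X => X ∈ W) with hA
  set Tt : Finset (ZMod p) := Finset.univ.filter (fun t => t ≠ 0) with hT
  have hTc : Tt.card = p - 1 := by
    rw [hT, Finset.filter_ne', Finset.card_erase_of_mem (Finset.mem_univ _), Finset.card_univ,
      ZMod.card]
  set b := (A.filter (fun X => LinearMap.det (1 - X) = 0)).card with hb
  have h1 : ∀ t ∈ Tt, (A.filter (fun X => LinearMap.det (1 - t • X) = 0)).card = b := by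
    intro t ht
    have ht0 : t ≠ 0 := (Finset.mem_filter.mp ht).2
    apply Finset.card_bij (fun X _ => t • X)
    · intro X hX
      simp only [hA, Finset.mem_filter, Finset.mem_univ, true_and] at hX ⊢
      exact ⟨W.smul_mem t hX.1, hX.2⟩
    · intro X _ Y _ h
      exact smul_right_injective _ ht0 h
    · intro Y hY
      simp only [hA, Finset.mem_filter, Finset.mem_univ, true_and] at hY
      refine ⟨t⁻¹ • Y, ?_, ?_⟩
      · simp only [hA, Finset.mem_filter, Finset.mem_univ, true_and]
        refine ⟨W.smul_mem _ hY.1, ?_⟩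
        rw [smul_smul, mul_inv_cancel₀ ht0, one_smul]
        exact hY.2
      · rw [smul_smul, mul_inv_cancel₀ ht0, one_smul]
  have h2 : ∀ X ∈ A, (Tt.filter (fun t => LinearMap.det (1 - t • X) = 0)).card ≤
      Module.finrank (ZMod p) V := by
    intro X _
    have e1 : (Tt.filter (fun t => LinearMap.det (1 - t • X) = 0)).card ≤
        (LinearMap.charpoly X).roots.toFinset.card := by
      apply Finset.card_le_card_of_injOn (fun t => t⁻¹)
      · intro t ht
        have ht' := Finset.mem_filter.mp (Finset.mem_coe.mp ht)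
        have ht0 : t ≠ 0 := (Finset.mem_filter.mp ht'.1).2
        apply Finset.mem_coe.mpr
        rw [Multiset.mem_toFinset, Polynomial.mem_roots (LinearMap.charpoly_monic X).ne_zero,
          Polynomial.IsRoot.def, LinearMap.eval_charpoly]
        have e2 : (algebraMap (ZMod p) (V →ₗ[ZMod p] V)) t⁻¹ - X = t⁻¹ • ((1 : V →ₗ[ZMod p] V) - t • X) := by
          rw [smul_sub, smul_smul, inv_mul_cancel₀ ht0, one_smul, Algebra.algebraMap_eq_smul_one]
        rw [e2, LinearMap.det_smul]
        have e3 : LinearMap.det ((1 : V →ₗ[ZMod p] V) - t • X) = 0 := ht'.2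
        rw [e3, mul_zero]
      · intro t _ t' _ h
        exact inv_injective h
    calc _ ≤ _ := e1
      _ ≤ (LinearMap.charpoly X).roots.card := Multiset.toFinset_card_le _
      _ ≤ (LinearMap.charpoly X).natDegree := Polynomial.card_roots' _
      _ = _ := LinearMap.charpoly_natDegree X
  have h3 : (p - 1) * b ≤ Module.finrank (ZMod p) V * A.card := by
    have e1 := Finset.sum_card_bipartiteAbove_eq_sum_card_bipartiteBelow
      (fun (t : ZMod p) (X : Module.End (ZMod p) V) => LinearMap.det (1 - t • X) = 0)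
      (s := Tt) (t := A)
    have e2 : ∑ t ∈ Tt, (Finset.bipartiteAbove
        (fun (t : ZMod p) (X : Module.End (ZMod p) V) => LinearMap.det (1 - t • X) = 0) A t).card =
        (p - 1) * b := by
      rw [← hTc, ← smul_eq_mul, ← Finset.sum_const]
      apply Finset.sum_congr rfl
      intro t ht
      exact h1 t ht
    rw [← e2, e1, mul_comm, ← smul_eq_mul, ← Finset.sum_const]
    apply Finset.sum_le_sum
    intro X hX
    exact h2 X hX
  have h4 : Nat.card W = A.card := by
    rw [Nat.card_eq_fintype_card, hA]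
    exact Fintype.card_subtype _
  have h5 : Nat.card {X : Module.End (ZMod p) V // X ∈ W ∧ LinearMap.det (1 - X) ≠ 0} =
      (A.filter (fun X => ¬ LinearMap.det (1 - X) = 0)).card := by
    rw [Nat.card_eq_fintype_card, Fintype.card_subtype, hA, Finset.filter_filter]
  have h6 : (A.filter (fun X => LinearMap.det (1 - X) = 0)).card +
      (A.filter (fun X => ¬ LinearMap.det (1 - X) = 0)).card = A.card :=
    Finset.card_filter_add_card_filter_not _
  rw [h4, h5]
  have h7 : 4 * b ≤ A.card := by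
    have e1 : (p - 1) * (4 * b) ≤ (p - 1) * A.card := by
      calc (p - 1) * (4 * b) = 4 * ((p - 1) * b) := by ring
        _ ≤ 4 * (Module.finrank (ZMod p) V * A.card) := Nat.mul_le_mul_left _ h3
        _ = (4 * Module.finrank (ZMod p) V) * A.card := by ring
        _ ≤ (p - 1) * A.card := Nat.mul_le_mul_right _ (by omega)
    exact Nat.le_of_mul_le_mul_left e1 (by omega)
  omega

namespace Data

variable {p r : ℕ} [Fact p.Prime] {E : Type} [Field E] [Finite E] [Algebra (ZMod p) E]

/-- Proof: if `X` is skew, commutes with `Z` and `det (1 - X) ≠ 0`, then `1 - X` is invertible,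
`g = (1 + X)(1 - X)⁻¹ ∈ Sp` (`adj g = (1 + X)⁻¹ (1 - X) = g⁻¹`; note `det (1 + X) = det (adj (1 + X)) =
det (1 - X)`, or: `1 + X = adj (1 - X)` is invertible too) and `g` commutes with `Z`. The map `X ↦ g` is
injective: `(g + 1)(1 - X) = 2`. So the number of such `X` is at most `|C Z|`; use `card_det_ne` with
`W = {X ∈ skew : X Z = Z X}`, `finrank_VV`, `r_lt`. -/
theorem card_C_ge (S : Data p r E) (Z : AE p E) :
    Nat.card {X : AE p E // X ∈ S.skew ∧ X * Z = Z * X} ≤ 2 * Nat.card (S.C Z) := by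
  classical
  haveI : Finite (AE p E) :=
    Finite.of_injective (fun f => (f : VV E → VV E)) DFunLike.coe_injective
  let W : Submodule (ZMod p) (AE p E) :=
    { carrier := {X | X ∈ S.skew ∧ X * Z = Z * X}
      add_mem' := by
        rintro a b ⟨ha, ha'⟩ ⟨hb, hb'⟩
        exact ⟨S.skew.add_mem ha hb, by rw [add_mul, mul_add, ha', hb']⟩
      zero_mem' := ⟨S.skew.zero_mem, by rw [zero_mul, mul_zero]⟩
      smul_mem' := by
        rintro c a ⟨ha, ha'⟩
        exact ⟨S.skew.smul_mem c ha, by rw [smul_mul_assoc, mul_smul_comm, ha']⟩ }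
  have hW : ∀ X, X ∈ W ↔ X ∈ S.skew ∧ X * Z = Z * X := fun X => Iff.rfl
  have h1 := card_det_ne (p := p) (V := VV E) (by
    rw [S.finrank_VV]
    have := S.r_lt
    omega) W
  have h2 : Nat.card {X : AE p E // X ∈ W ∧ LinearMap.det (1 - X) ≠ 0} ≤ Nat.card (S.C Z) := by
    have key : ∀ X : {X : AE p E // X ∈ W ∧ LinearMap.det (1 - X) ≠ 0},
        ∃ g : S.C Z, ((g : (AE p E)ˣ) : AE p E) * (1 - X.1) = 1 + X.1 := by
      rintro ⟨X, hX, hd⟩
      rw [hW] at hX
      obtain ⟨hX1, hX2⟩ := hX
      have hu : IsUnit (1 - X) := (LinearMap.isUnit_iff_isUnit_det _).mpr (isUnit_iff_ne_zero.mpr hd)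
      obtain ⟨u, hu⟩ := hu
      have hadj : S.adj X = -X := (S.mem_skew_iff X).mp hX1
      have a1 : S.adj (1 - X) = 1 + X := by rw [S.adj_sub, S.adj_one, hadj, sub_neg_eq_add]
      have a2 : S.adj (1 + X) = 1 - X := by rw [S.adj_add, S.adj_one, hadj, sub_eq_add_neg]
      have hY1 : (1 - X) * ((u⁻¹ : (AE p E)ˣ) : AE p E) = 1 := by rw [← hu, u.mul_inv]
      have hY2 : ((u⁻¹ : (AE p E)ˣ) : AE p E) * (1 - X) = 1 := by rw [← hu, u.inv_mul]
      set Y := ((u⁻¹ : (AE p E)ˣ) : AE p E) with hY
      have b1 : S.adj Y * (1 + X) = 1 := by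
        rw [← a1, ← S.adj_mul, hY1, S.adj_one]
      have hc : (1 - X) * (1 + X) = (1 + X) * (1 - X) := by noncomm_ring
      have hg : S.adj ((1 + X) * Y) * ((1 + X) * Y) = 1 := by
        rw [S.adj_mul, a2]
        calc S.adj Y * (1 - X) * ((1 + X) * Y) = S.adj Y * ((1 - X) * (1 + X)) * Y := by
              simp only [mul_assoc]
          _ = (S.adj Y * (1 + X)) * ((1 - X) * Y) := by rw [hc]; simp only [mul_assoc]
          _ = 1 := by rw [b1, hY1, one_mul]
      obtain ⟨g, hgS, hgv⟩ := S.exists_Sp _ hg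
      have hYZ : Y * Z = Z * Y := by
        have e1 : (1 - X) * Z = Z * (1 - X) := by rw [sub_mul, mul_sub, hX2, one_mul, mul_one]
        calc Y * Z = Y * Z * ((1 - X) * Y) := by rw [hY1, mul_one]
          _ = Y * (Z * (1 - X)) * Y := by simp only [mul_assoc]
          _ = Y * ((1 - X) * Z) * Y := by rw [e1]
          _ = (Y * (1 - X)) * (Z * Y) := by simp only [mul_assoc]
          _ = Z * Y := by rw [hY2, one_mul]
      refine ⟨⟨g, hgS, ?_⟩, ?_⟩
      · rw [hgv, mul_assoc, hYZ, ← mul_assoc, ← mul_assoc, add_mul, mul_add, hX2, one_mul, mul_one]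
      · show (g : AE p E) * (1 - X) = 1 + X
        rw [hgv, mul_assoc, hY2, mul_one]
    choose F hF using key
    apply Nat.card_le_card_of_injective F
    intro X X' h
    have e1 := hF X
    have e2 := hF X'
    rw [← h] at e2
    set g : AE p E := ((F X : (AE p E)ˣ) : AE p E) with hg
    have f1 : (g + 1) * (1 - X.1) = 1 + 1 := by rw [add_mul, e1, one_mul]; abel
    have f2 : (g + 1) * (1 - X'.1) = 1 + 1 := by rw [add_mul, e2, one_mul]; abel
    have h2u : (2 : ZMod p)⁻¹ • ((1 : AE p E) + 1) = 1 := by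
      rw [← two_smul (ZMod p) (1 : AE p E), smul_smul, inv_mul_cancel₀ S.two_ne, one_smul]
    have f3 : (g + 1) * ((2 : ZMod p)⁻¹ • (1 - X.1)) = 1 := by
      rw [mul_smul_comm, f1, h2u]
    have f4 : (g + 1) * ((2 : ZMod p)⁻¹ • (1 - X'.1)) = 1 := by
      rw [mul_smul_comm, f2, h2u]
    have f5 : ((2 : ZMod p)⁻¹ • (1 - X.1)) * (g + 1) = 1 := mul_eq_one_comm.mp f3
    have f6 : (2 : ZMod p)⁻¹ • (1 - X.1) = (2 : ZMod p)⁻¹ • (1 - X'.1) := by
      calc (2 : ZMod p)⁻¹ • (1 - X.1)
          = ((2 : ZMod p)⁻¹ • (1 - X.1)) * ((g + 1) * ((2 : ZMod p)⁻¹ • (1 - X'.1))) := by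
            rw [f4, mul_one]
        _ = (2 : ZMod p)⁻¹ • (1 - X'.1) := by rw [← mul_assoc, f5, one_mul]
    have f7 : 1 - X.1 = 1 - X'.1 := smul_right_injective _ (inv_ne_zero S.two_ne) f6
    apply Subtype.ext
    exact sub_right_injective f7
  have h3 : Nat.card {X : AE p E // X ∈ S.skew ∧ X * Z = Z * X} = Nat.card W := rfl
  rw [h3]
  calc Nat.card W ≤ _ := h1
    _ ≤ 2 * Nat.card (S.C Z) := Nat.mul_le_mul_left _ h2

end Data

end Pool.Agent.MP971469
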