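import Pool.Agent.Lib.MP_971469_al.M08_Card

/-! O2: upper bound for the order of the centralizer of `J`. -/

namespace Pool.Agent.MP971469

namespace Data

variable {p r : ℕ} [Fact p.Prime] {E : Type} [Field E] [Finite E] [Algebra (ZMod p) E]

/-- The elements `u = x + y j` (`x, y ∈ F_p`) with `u * bar u = 1`, i.e. `x² - lam y² = 1`: there are
at least `p` of them (exactly `p+1`): for `t ∈ F_p` take `u = (1 + t j)/(1 - t j)`, i.e.
`x = (1 + lam t²)/(1 - lam t²)`, `y = 2t/(1 - lam t²)`; these are pairwise different. -/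
theorem exists_U (S : Data p r E) : ∃ U : ZMod p → E, Function.Injective U ∧
    ∀ t, U t * S.bar (U t) = 1 ∧ ∃ x y : ZMod p, U t = algebraMap (ZMod p) E x +
      algebraMap (ZMod p) E y * S.j := by
  have hne : ∀ t : ZMod p, (1 : E) - algebraMap (ZMod p) E t * S.j ≠ 0 := by
    intro t h
    by_cases ht : t = 0
    · subst ht
      simp at h
    · apply S.j_notMem t⁻¹
      have h1 : algebraMap (ZMod p) E t * S.j = 1 := (sub_eq_zero.mp h).symm
      have ht' : algebraMap (ZMod p) E t ≠ 0 := by
        rw [Ne, FaithfulSMul.algebraMap_eq_zero_iff]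
        exact ht
      rw [map_inv₀]
      field_simp
      rw [mul_comm]
      exact h1
  have hne' : ∀ t : ZMod p, (1 : E) + algebraMap (ZMod p) E t * S.j ≠ 0 := by
    intro t h
    apply hne (-t)
    rw [map_neg, neg_mul, sub_neg_eq_add]
    exact h
  have hlam : ∀ t : ZMod p, 1 - S.lam * t ^ 2 ≠ 0 := by
    intro t h
    have h0 : ((1 : E) - algebraMap (ZMod p) E t * S.j) * (1 + algebraMap (ZMod p) E t * S.j) =
        algebraMap (ZMod p) E (1 - S.lam * t ^ 2) := by
      rw [map_sub, map_one, map_mul, map_pow, ← S.j_sq]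
      ring
    rw [h, map_zero] at h0
    exact (mul_ne_zero (hne t) (hne' t)) h0
  refine ⟨fun t => (1 + algebraMap (ZMod p) E t * S.j) / (1 - algebraMap (ZMod p) E t * S.j), ?_, ?_⟩
  · intro t s h
    simp only at h
    rw [div_eq_div_iff (hne t) (hne s)] at h
    have h1 : (2 : E) * S.j * (algebraMap (ZMod p) E t - algebraMap (ZMod p) E s) = 0 := by
      linear_combination h
    have h2 : algebraMap (ZMod p) E t - algebraMap (ZMod p) E s = 0 := by
      rcases mul_eq_zero.mp h1 with h1 | h1
      · exact absurd h1 (mul_ne_zero S.two_ne' S.j_ne)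
      · exact h1
    exact (algebraMap (ZMod p) E).injective (sub_eq_zero.mp h2)
  · intro t
    constructor
    · simp only
      rw [map_div₀, map_add, map_sub, map_one, map_mul, S.bar_j, AlgEquiv.commutes, mul_neg,
        ← sub_eq_add_neg, sub_neg_eq_add]
      rw [div_mul_div_comm, mul_comm, div_self (mul_ne_zero (hne t) (hne' t))]
    · refine ⟨(1 + S.lam * t ^ 2) / (1 - S.lam * t ^ 2), 2 * t / (1 - S.lam * t ^ 2), ?_⟩
      have hl : (1 : E) - algebraMap (ZMod p) E S.lam * (algebraMap (ZMod p) E t) ^ 2 ≠ 0 := by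
        have h := hlam t
        rw [← map_pow, ← map_mul, ← map_one (algebraMap (ZMod p) E), ← map_sub, Ne,
          FaithfulSMul.algebraMap_eq_zero_iff]
        exact h
      simp only
      rw [map_div₀, map_div₀]
      simp only [map_add, map_sub, map_mul, map_pow, map_one, map_ofNat]
      rw [div_mul_eq_mul_div, ← add_div, div_eq_div_iff (hne t) hl]
      rw [← S.j_sq]
      ring

/-- For `g` commuting with `J` there are at most `2r` values `t` with `det (1 + U(t) g) = 0`.
Proof: if `det (1 + u g) = 0`, `u = U t`, there is `v ≠ 0` with `g v = c v`, `c = -u⁻¹ ∈ F_p + F_p j`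
(multiplication by an element of `E`; `g` commutes with it), so `g^k v = c^k v`; by Cayley-Hamilton
`0 = χ_g(g) v = χ_g(c) v`, so `c` is a root in `E` of the characteristic polynomial of `g`, of degree
`2r`; distinct `t` give distinct `c`. -/
theorem card_bad_t (S : Data p r E) (U : ZMod p → E) (hU : Function.Injective U)
    (hU2 : ∀ t, U t * S.bar (U t) = 1 ∧ ∃ x y : ZMod p, U t = algebraMap (ZMod p) E x +
      algebraMap (ZMod p) E y * S.j) (g : AE p E) (hg : g * S.J = S.J * g) :
    Nat.card {t : ZMod p // LinearMap.det (1 + mE p (U t) * g) = 0} ≤ 2 * r := by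
  classical
  set χ := LinearMap.charpoly g with hχ
  set Q : Polynomial E := χ.map (algebraMap (ZMod p) E) with hQ
  have hmon : Q.Monic := (LinearMap.charpoly_monic g).map _
  have hdeg : Q.natDegree = 2 * r := by
    rw [hQ, (LinearMap.charpoly_monic g).natDegree_map, LinearMap.charpoly_natDegree, S.finrank_VV]
  have hroot : ∀ t : {t : ZMod p // LinearMap.det (1 + mE p (U t) * g) = 0},
      -S.bar (U t.1) ∈ Q.roots := by
    rintro ⟨t, ht⟩
    obtain ⟨hU1, x, y, hxy⟩ := hU2 t
    have hlt := LinearMap.bot_lt_ker_of_det_eq_zero ht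
    obtain ⟨v, hv, hv0⟩ := (Submodule.ne_bot_iff _).mp (ne_of_gt hlt)
    rw [LinearMap.mem_ker, LinearMap.add_apply, Module.End.one_apply, Module.End.mul_apply] at hv
    -- the eigenvalue
    set c : E := -S.bar (U t) with hc
    have hcU : c * U t = -1 := by
      rw [hc, neg_mul, mul_comm, hU1]
    have hgv : g v = mE p c v := by
      have h1 : mE p c (v + mE p (U t) (g v)) = 0 := by rw [hv, map_zero]
      have hneg : mE p (-1 : E) = -1 := by rw [map_neg, map_one]
      rw [map_add, ← Module.End.mul_apply, ← map_mul, hcU, hneg, LinearMap.neg_apply,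
        Module.End.one_apply] at h1
      exact (eq_of_sub_eq_zero (by rw [sub_eq_add_neg]; exact h1)).symm
    have hcx : c = algebraMap (ZMod p) E (-x) + algebraMap (ZMod p) E y * S.j := by
      rw [hc, hxy, map_add, map_mul, AlgEquiv.commutes, AlgEquiv.commutes, S.bar_j, map_neg]
      ring
    have hcm : g * mE p c = mE p c * g := by
      have e1 : mE p c = (-x) • (1 : AE p E) + y • S.J := by
        rw [hcx, map_add, map_mul, AlgHom.commutes, AlgHom.commutes, Algebra.algebraMap_eq_smul_one,
          Algebra.algebraMap_eq_smul_one, smul_mul_assoc, one_mul]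
        rfl
      rw [e1, mul_add, add_mul, mul_smul_comm, mul_smul_comm, smul_mul_assoc, smul_mul_assoc, hg,
        one_mul, mul_one]
    have hpow : ∀ k : ℕ, (g ^ k) v = mE p (c ^ k) v := by
      intro k
      induction k with
      | zero => simp
      | succ k ih =>
        rw [pow_succ', Module.End.mul_apply, ih, ← Module.End.mul_apply, map_pow]
        have hcomm : Commute g (mE p c ^ k) := (show Commute g (mE p c) from hcm).pow_right k
        rw [hcomm.eq, Module.End.mul_apply, hgv, ← Module.End.mul_apply, ← pow_succ, ← map_pow]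
    have hpoly : ∀ P : Polynomial (ZMod p), (Polynomial.aeval g P) v =
        mE p (Polynomial.aeval c P) v := by
      intro P
      induction P using Polynomial.induction_on' with
      | add P R hP hR => rw [map_add, LinearMap.add_apply, hP, hR, map_add, map_add, LinearMap.add_apply]
      | monomial n a =>
        rw [Polynomial.aeval_monomial, Polynomial.aeval_monomial, Module.End.mul_apply, hpow,
          map_mul, Module.End.mul_apply, AlgHom.commutes]
    have h0 := hpoly χ
    rw [hχ, LinearMap.aeval_self_charpoly, LinearMap.zero_apply, ← hχ] at h0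
    have h1 : Polynomial.aeval c χ * toE p v = 0 := by
      rw [← toE_mE, ← h0, map_zero]
    have h2 : Polynomial.aeval c χ = 0 := by
      rcases mul_eq_zero.mp h1 with h1 | h1
      · exact h1
      · exact absurd ((toE p).map_eq_zero_iff.mp h1) hv0
    rw [Polynomial.mem_roots hmon.ne_zero, Polynomial.IsRoot.def, hQ, Polynomial.eval_map_algebraMap]
    exact h2
  have hcard : Nat.card {t : ZMod p // LinearMap.det (1 + mE p (U t) * g) = 0} ≤
      Nat.card Q.roots.toFinset := by
    apply Nat.card_le_card_of_injective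
      (fun t => (⟨-S.bar (U t.1), Multiset.mem_toFinset.mpr (hroot t)⟩ : Q.roots.toFinset))
    intro t t' h
    have h1 : -S.bar (U t.1) = -S.bar (U t'.1) := congrArg Subtype.val h
    exact Subtype.ext (hU (S.bar.injective (neg_injective h1)))
  calc _ ≤ _ := hcard
    _ = Q.roots.toFinset.card := by rw [Nat.card_eq_fintype_card, Fintype.card_coe]
    _ ≤ Q.roots.card := Multiset.toFinset_card_le _
    _ ≤ Q.natDegree := Polynomial.card_roots' _
    _ = 2 * r := hdeg

/-- Proof: let `b = #{g ∈ C J : det (1 + g) = 0}`. For each `t`, `g ↦ U(t) g` is a bijection of `C J`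
(`mE (U t) ∈ T ≤ C J`), so `b = #{g ∈ C J : det (1 + U(t) g) = 0}`; summing over the `p` values `t`:
`p b ≤ 2r |C J|`, so `b ≤ |C J|/2` (`8r < p`). The elements with `det (1 + g) ≠ 0` inject into
`{X ∈ skew : X J = J X}` by `g ↦ (g - 1)(g + 1)⁻¹` (`card_skew_J`). So `|C J| ≤ 2 p^(r²)`. -/
theorem card_CJ_le (S : Data p r E) : Nat.card (S.C S.J) ≤ 2 * p ^ (r ^ 2) := by
  classical
  haveI : Finite (AE p E) :=
    Finite.of_injective (fun f => (f : VV E → VV E)) DFunLike.coe_injective
  haveI : Finite (AE p E)ˣ := inferInstance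
  haveI : Fintype (S.C S.J) := Fintype.ofFinite _
  obtain ⟨U, hU, hU2⟩ := S.exists_U
  set b := (Finset.univ.filter (fun g : S.C S.J =>
    LinearMap.det (1 + ((g : (AE p E)ˣ) : AE p E)) = 0)).card with hb
  -- the unit attached to t
  have hunit : ∀ t : ZMod p, ∃ u : S.C S.J, ((u : (AE p E)ˣ) : AE p E) = mE p (U t) := by
    intro t
    have h1 : S.adj (mE p (U t)) * mE p (U t) = 1 := by
      rw [S.adj_mE, ← map_mul, mul_comm, (hU2 t).1, map_one]
    obtain ⟨g, hg, hgv⟩ := S.exists_Sp _ h1
    refine ⟨⟨g, hg, ?_⟩, hgv⟩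
    rw [hgv]
    unfold J
    rw [← map_mul, ← map_mul, mul_comm]
  choose u hu using hunit
  have h1 : ∀ t ∈ (Finset.univ : Finset (ZMod p)), (Finset.univ.filter (fun g : S.C S.J =>
      LinearMap.det (1 + mE p (U t) * ((g : (AE p E)ˣ) : AE p E)) = 0)).card = b := by
    intro t _
    apply Finset.card_bij (fun g _ => u t * g)
    · intro g hg
      simp only [Finset.mem_filter, Finset.mem_univ, true_and] at hg ⊢
      rw [Subgroup.coe_mul, Units.val_mul, hu]
      exact hg
    · intro g _ g' _ h
      exact mul_left_cancel h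
    · intro g hg
      refine ⟨(u t)⁻¹ * g, ?_, by rw [mul_inv_cancel_left]⟩
      simp only [Finset.mem_filter, Finset.mem_univ, true_and] at hg ⊢
      rw [← hu, ← Units.val_mul, ← Subgroup.coe_mul, mul_inv_cancel_left]
      exact hg
  have h2 : ∀ g ∈ (Finset.univ : Finset (S.C S.J)), (Finset.univ.filter (fun t : ZMod p =>
      LinearMap.det (1 + mE p (U t) * ((g : (AE p E)ˣ) : AE p E)) = 0)).card ≤ 2 * r := by
    intro g _
    have := S.card_bad_t U hU hU2 ((g : (AE p E)ˣ) : AE p E) g.2.2
    rw [Nat.card_eq_fintype_card, Fintype.card_subtype] at this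
    exact this
  have h3 : p * b ≤ 2 * r * Nat.card (S.C S.J) := by
    have e1 := Finset.sum_card_bipartiteAbove_eq_sum_card_bipartiteBelow
      (fun (t : ZMod p) (g : S.C S.J) =>
        LinearMap.det (1 + mE p (U t) * ((g : (AE p E)ˣ) : AE p E)) = 0)
      (s := Finset.univ) (t := Finset.univ)
    have e2 : ∑ t : ZMod p, (Finset.bipartiteAbove
        (fun (t : ZMod p) (g : S.C S.J) =>
          LinearMap.det (1 + mE p (U t) * ((g : (AE p E)ˣ) : AE p E)) = 0) Finset.univ t).card =
        p * b := by
      calc _ = ∑ _t : ZMod p, b := Finset.sum_congr rfl (fun t ht => h1 t ht)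
        _ = p * b := by rw [Finset.sum_const, Finset.card_univ, ZMod.card, smul_eq_mul]
    rw [← e2, e1]
    calc _ ≤ ∑ _g : S.C S.J, 2 * r := Finset.sum_le_sum (fun g hg => h2 g hg)
      _ = 2 * r * Nat.card (S.C S.J) := by
        rw [Finset.sum_const, Finset.card_univ, smul_eq_mul, Nat.card_eq_fintype_card, mul_comm]
  have h4 : 4 * b ≤ Nat.card (S.C S.J) := by
    have hr := S.r_pos
    have e1 : (2 * r) * (4 * b) ≤ (2 * r) * Nat.card (S.C S.J) := by
      calc (2 * r) * (4 * b) = (8 * r) * b := by ring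
        _ ≤ p * b := Nat.mul_le_mul_right _ (le_of_lt S.r_lt)
        _ ≤ _ := h3
    exact Nat.le_of_mul_le_mul_left e1 (by omega)
  have h5 : (Finset.univ.filter (fun g : S.C S.J =>
      ¬ LinearMap.det (1 + ((g : (AE p E)ˣ) : AE p E)) = 0)).card ≤ p ^ (r ^ 2) := by
    rw [← S.card_skew_J]
    have key : ∀ g : {g : S.C S.J // ¬ LinearMap.det (1 + ((g : (AE p E)ˣ) : AE p E)) = 0},
        ∃ X : {X : AE p E // X ∈ S.skew ∧ X * S.J = S.J * X},
          (1 - X.1) * (1 + (((g : S.C S.J) : (AE p E)ˣ) : AE p E)) = 1 + 1 := by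
      rintro ⟨⟨g, hgS, hgJ⟩, hd⟩
      simp only at hd
      have hu : IsUnit (1 + (g : AE p E)) :=
        (LinearMap.isUnit_iff_isUnit_det _).mpr (isUnit_iff_ne_zero.mpr hd)
      obtain ⟨w, hw⟩ := hu
      have hY1 : (1 + (g : AE p E)) * ((w⁻¹ : (AE p E)ˣ) : AE p E) = 1 := by rw [← hw, w.mul_inv]
      have hY2 : ((w⁻¹ : (AE p E)ˣ) : AE p E) * (1 + (g : AE p E)) = 1 := by rw [← hw, w.inv_mul]
      set Y := ((w⁻¹ : (AE p E)ˣ) : AE p E) with hY
      have hadj := (S.mem_Sp_iff g).mp hgS
      have hgi : ((g⁻¹ : (AE p E)ˣ) : AE p E) * (g : AE p E) = 1 := g.inv_mul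
      have hgi' : (g : AE p E) * ((g⁻¹ : (AE p E)ˣ) : AE p E) = 1 := g.mul_inv
      set gi := ((g⁻¹ : (AE p E)ˣ) : AE p E) with hgi0
      set G := (g : AE p E) with hG
      have c1 : (1 + G) * (G - 1) = (G - 1) * (1 + G) := by noncomm_ring
      -- adjoint of Y
      have a1 : (1 + gi) * S.adj Y = 1 := by
        have e1 : S.adj (1 + G) = 1 + gi := by rw [S.adj_add, S.adj_one, hadj]
        rw [← e1, ← S.adj_mul, hY2, S.adj_one]
      have a2 : S.adj (G - 1) = gi - 1 := by rw [S.adj_sub, S.adj_one, hadj]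
      -- X = (G-1) Y
      have a3 : (G - 1) * Y = Y * (G - 1) := by
        calc (G - 1) * Y = Y * ((1 + G) * (G - 1)) * Y := by
              rw [← mul_assoc, hY2, one_mul]
          _ = Y * ((G - 1) * (1 + G)) * Y := by rw [c1]
          _ = Y * (G - 1) * ((1 + G) * Y) := by simp only [mul_assoc]
          _ = Y * (G - 1) := by rw [hY1, mul_one]
      have a4 : S.adj ((G - 1) * Y) = -((G - 1) * Y) := by
        rw [S.adj_mul, a2]
        -- adj Y (gi - 1): multiply by (1+gi) on the left
        have a5 : S.adj Y = G * Y := by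
          have e2 : S.adj Y * (1 + gi) = 1 := mul_eq_one_comm.mp a1
          have e3 : (1 + gi) * (G * Y) = 1 := by
            rw [← mul_assoc, add_mul, one_mul, hgi, add_comm G 1, hY1]
          calc S.adj Y = S.adj Y * ((1 + gi) * (G * Y)) := by rw [e3, mul_one]
            _ = G * Y := by rw [← mul_assoc, e2, one_mul]
        rw [a5]
        have e4 : G * Y = Y * G := by
          have : (G - 1) * Y + Y = Y * (G - 1) + Y := by rw [a3]
          rw [sub_mul, mul_sub, one_mul, mul_one, sub_add_cancel, sub_add_cancel] at this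
          exact this
        rw [e4, mul_assoc, mul_sub, hgi', mul_one, a3, ← mul_neg, neg_sub]
      have a6 : Y * S.J = S.J * Y := by
        have e1 : (1 + G) * S.J = S.J * (1 + G) := by
          rw [add_mul, mul_add, hgJ, one_mul, mul_one]
        calc Y * S.J = Y * S.J * ((1 + G) * Y) := by rw [hY1, mul_one]
          _ = Y * (S.J * (1 + G)) * Y := by simp only [mul_assoc]
          _ = Y * ((1 + G) * S.J) * Y := by rw [e1]
          _ = (Y * (1 + G)) * (S.J * Y) := by simp only [mul_assoc]
          _ = S.J * Y := by rw [hY2, one_mul]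
      refine ⟨⟨(G - 1) * Y, (S.mem_skew_iff _).mpr a4, ?_⟩, ?_⟩
      · rw [mul_assoc, a6, ← mul_assoc, ← mul_assoc, sub_mul, mul_sub, hgJ, one_mul, mul_one]
      · show (1 - (G - 1) * Y) * (1 + G) = 1 + 1
        rw [sub_mul, mul_assoc, hY2, mul_one, one_mul]
        abel
    choose F hF using key
    have h6 : Nat.card {g : S.C S.J // ¬ LinearMap.det (1 + ((g : (AE p E)ˣ) : AE p E)) = 0} ≤
        Nat.card {X : AE p E // X ∈ S.skew ∧ X * S.J = S.J * X} := by
      apply Nat.card_le_card_of_injective F
      intro g g' h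
      have e1 := hF g
      have e2 := hF g'
      rw [← h] at e2
      have h2u : (2 : ZMod p)⁻¹ • ((1 : AE p E) + 1) = 1 := by
        rw [← two_smul (ZMod p) (1 : AE p E), smul_smul, inv_mul_cancel₀ S.two_ne, one_smul]
      have f3 : ((2 : ZMod p)⁻¹ • (1 - (F g).1)) * (1 + (((g : S.C S.J) : (AE p E)ˣ) : AE p E)) =
          1 := by
        rw [smul_mul_assoc, e1, h2u]
      have f4 : ((2 : ZMod p)⁻¹ • (1 - (F g).1)) * (1 + (((g' : S.C S.J) : (AE p E)ˣ) : AE p E)) =
          1 := by
        rw [smul_mul_assoc, e2, h2u]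
      have f5 := mul_eq_one_comm.mp f3
      have f6 : 1 + (((g : S.C S.J) : (AE p E)ˣ) : AE p E) =
          1 + (((g' : S.C S.J) : (AE p E)ˣ) : AE p E) := by
        calc 1 + (((g : S.C S.J) : (AE p E)ˣ) : AE p E)
            = (1 + (((g : S.C S.J) : (AE p E)ˣ) : AE p E)) *
              (((2 : ZMod p)⁻¹ • (1 - (F g).1)) *
                (1 + (((g' : S.C S.J) : (AE p E)ˣ) : AE p E))) := by rw [f4, mul_one]
          _ = _ := by rw [← mul_assoc, f5, one_mul]
      apply Subtype.ext
      apply Subtype.ext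
      apply Units.ext
      exact add_left_cancel f6
    rw [Nat.card_eq_fintype_card, Fintype.card_subtype] at h6
    exact h6
  have h7 : (Finset.univ.filter (fun g : S.C S.J =>
      LinearMap.det (1 + ((g : (AE p E)ˣ) : AE p E)) = 0)).card +
      (Finset.univ.filter (fun g : S.C S.J =>
      ¬ LinearMap.det (1 + ((g : (AE p E)ˣ) : AE p E)) = 0)).card = Nat.card (S.C S.J) := by
    rw [Finset.card_filter_add_card_filter_not, Finset.card_univ, Nat.card_eq_fintype_card]
  omega

end Data

end Pool.Agent.MP971469
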