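import Pool.Agent.Lib.MP_971469_al.O1_Cayley
import Pool.Agent.Lib.MP_971469_al.M08_Card

/-! O3: lower bounds for the orders. -/

namespace Pool.Agent.MP971469

namespace Data

variable {p r : ℕ} [Fact p.Prime] {E : Type} [Field E] [Finite E] [Algebra (ZMod p) E]

/-- `card_C_ge` with `Z = 1` and `card_skew`. -/
theorem card_Sp_ge (S : Data p r E) : p ^ (2 * r ^ 2 + r) ≤ 2 * Nat.card S.Sp := by
  have h := S.card_C_ge 1
  have e1 : Nat.card {X : AE p E // X ∈ S.skew ∧ X * 1 = 1 * X} = Nat.card S.skew :=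
    Nat.card_congr (Equiv.subtypeEquivRight (fun X => by simp))
  have e2 : S.C 1 = S.Sp := by
    ext g
    constructor
    · intro hg
      exact hg.1
    · intro hg
      exact ⟨hg, by rw [mul_one, one_mul]⟩
  rw [e1, e2, S.card_skew] at h
  exact h

/-- `card_C_ge` with `Z = J` and `card_skew_J`. -/
theorem card_CJ_ge (S : Data p r E) : p ^ (r ^ 2) ≤ 2 * Nat.card (S.C S.J) := by
  have h := S.card_C_ge S.J
  rw [S.card_skew_J] at h
  exact h

end Data

end Pool.Agent.MP971469
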