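import Pool.Agent.Lib.MP_971469_al.M07_Skew

/-! P1: the Cayley curve `x ↦ (1 + x a)/(1 - x a)` in the torus, with polynomial numerator and
denominator. -/

set_option linter.unusedSectionVars false

namespace Pool.Agent.MP971469

namespace Data

variable {p r : ℕ} [Fact p.Prime] {E : Type} [Field E] [Finite E] [Algebra (ZMod p) E]

open Polynomial

/-- the linear factor `1 - c X` -/
private noncomputable def P1fac (c : E) : E[X] := 1 - Polynomial.C c * X

private theorem P1fac_deg (c : E) : (P1fac c).natDegree ≤ 1 := by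
  unfold P1fac
  compute_degree

private theorem P1fac_eval (c x : E) : (P1fac c).eval x = 1 - c * x := by
  unfold P1fac
  simp

private theorem P1fac_map (c : E) (τ : E →+* E) : (P1fac c).map τ = P1fac (τ c) := by
  unfold P1fac
  simp

/-- Proof: if `a = 0` take `C = 1`, `N = 1`. In general let `N = ∏_σ (1 - X σ(a))`, a polynomial of degree
`≤ 2r` with coefficients in `E` invariant under the Galois group, hence in `F_p` (as a polynomial over
`F_p` it is for instance `∏`, or the reverse of the characteristic polynomial / norm of `1 - x a`;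
`Algebra.norm_eq_prod_automorphisms`). `C = (1 + X a) ∏_{σ ≠ 1} (1 - X σ(a))` (product in `E[X]`, mapped
to `AE[X]` by `mE`), degree `≤ 2r`. `C = N (1 + X a)/(1 - X a)`, so `C = N * (1 + 2 a X + ...)`, i.e.
`C (1 - X a) = N (1 + X a)`, and comparing coefficients: `C.coeff 1 = N.coeff 1 + 2 a`. For
`x ∈ F_p`: `1 - x a ≠ 0` because `bar (1 - x a) = 1 + x a` (if `1 - x a = 0` then also `1 + x a = 0`,
`2 = 0`), so `N(x) = ∏ σ (1 - x a) ≠ 0`, and `C(x) = N(x) (1 + x a)/(1 - x a)` where
`e = (1 + x a)/(1 - x a)` satisfies `e * bar e = 1`. -/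
theorem exists_curve (S : Data p r E) (a : E) (ha : S.bar a = -a) :
    ∃ (C : (AE p E)[X]) (N : (ZMod p)[X]), C.natDegree ≤ 2 * r ∧ N.natDegree ≤ 2 * r ∧
      N.coeff 0 = 1 ∧ C.coeff 0 = 1 ∧
      C.coeff 1 = N.coeff 1 • (1 : AE p E) + (2 : ZMod p) • mE p a ∧
      ∀ x : ZMod p, N.eval x ≠ 0 ∧
        ∃ g ∈ S.T, C.eval (algebraMap (ZMod p) (AE p E) x) = N.eval x • (g : AE p E) := by
  classical
  have : Fintype Gal(E/ZMod p) := Fintype.ofFinite _
  obtain ⟨R, hR⟩ : ∃ R : E[X], R = ∏ σ ∈ (Finset.univ : Finset Gal(E/ZMod p)).erase 1, P1fac (σ a) :=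
    ⟨_, rfl⟩
  obtain ⟨P, hP⟩ : ∃ P : E[X], P = ∏ σ : Gal(E/ZMod p), P1fac (σ a) := ⟨_, rfl⟩
  have hcard : Fintype.card Gal(E/ZMod p) = 2 * r := by
    rw [← Nat.card_eq_fintype_card, S.card_gal]
  have hr := S.r_pos
  have hPR : P = P1fac a * R := by
    rw [hP, hR, ← Finset.mul_prod_erase Finset.univ _ (Finset.mem_univ (1 : Gal(E/ZMod p)))]
    rfl
  have hRdeg : R.natDegree ≤ 2 * r - 1 := by
    rw [hR]
    refine (natDegree_prod_le _ _).trans ?_
    refine (Finset.sum_le_card_nsmul _ _ 1 fun σ _ => P1fac_deg _).trans ?_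
    rw [Finset.card_erase_of_mem (Finset.mem_univ _), Finset.card_univ, hcard]
    simp
  have hR0 : R.coeff 0 = 1 := by
    rw [coeff_zero_eq_eval_zero, hR, eval_prod]
    refine Finset.prod_eq_one fun σ _ => ?_
    rw [P1fac_eval, mul_zero, sub_zero]
  -- descent
  have hPfix : ∀ τ : Gal(E/ZMod p), P.map (τ : E →+* E) = P := by
    intro τ
    rw [hP, Polynomial.map_prod]
    refine Fintype.prod_equiv (Equiv.mulLeft τ) _ _ fun σ => ?_
    rw [P1fac_map]
    rfl
  have hlift : P ∈ lifts (algebraMap (ZMod p) E) := by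
    rw [lifts_iff_coeff_lifts]
    intro n
    have h : P.coeff n ∈ Set.range (algebraMap (ZMod p) E) := by
      rw [IsGalois.mem_range_algebraMap_iff_fixed]
      intro τ
      have h1 := congrArg (fun Q : E[X] => Q.coeff n) (hPfix τ)
      simpa using h1
    exact h
  obtain ⟨N, hN⟩ := (mem_lifts _).1 hlift
  obtain ⟨CE, hCE⟩ : ∃ CE : E[X], CE = P1fac (-a) * R := ⟨_, rfl⟩
  have hdeg : ∀ c : E, (P1fac c * R).natDegree ≤ 2 * r := fun c => by
    refine natDegree_mul_le.trans ?_
    have := P1fac_deg c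
    omega
  have hc0 : ∀ c : E, (P1fac c * R).coeff 0 = 1 := fun c => by
    rw [mul_coeff_zero, hR0, mul_one, coeff_zero_eq_eval_zero, P1fac_eval, mul_zero, sub_zero]
  have hc1 : ∀ c : E, (P1fac c * R).coeff 1 = R.coeff 1 - c := fun c => by
    unfold P1fac
    rw [sub_mul, one_mul, coeff_sub, mul_assoc, coeff_C_mul, X_mul, coeff_mul_X, hR0, mul_one]
  have halg : Function.Injective (algebraMap (ZMod p) E) := (algebraMap (ZMod p) E).injective
  have hNc : ∀ n, algebraMap (ZMod p) E (N.coeff n) = P.coeff n := fun n => by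
    rw [← hN, coeff_map]
  have hNe : ∀ x : ZMod p, algebraMap (ZMod p) E (N.eval x) = P.eval (algebraMap (ZMod p) E x) := fun x => by
    rw [← hN, eval_map_algebraMap, aeval_algebraMap_apply]
    rfl
  have hmE : ∀ c : ZMod p, mE p (algebraMap (ZMod p) E c) = c • (1 : AE p E) := fun c => by
    rw [AlgHom.commutes, Algebra.algebraMap_eq_smul_one]
  refine ⟨CE.map (mE p : E →ₐ[ZMod p] AE p E).toRingHom, N, ?_, ?_, ?_, ?_, ?_, ?_⟩
  · refine natDegree_map_le.trans ?_
    rw [hCE]
    exact hdeg _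
  · rw [← natDegree_map (algebraMap (ZMod p) E), hN, hPR]
    exact hdeg _
  · apply halg
    rw [hNc, hPR, hc0, map_one]
  · rw [coeff_map, hCE, hc0]
    exact map_one (mE p : E →ₐ[ZMod p] AE p E)
  · rw [coeff_map, ← hmE, hNc, hPR, hCE, hc1, hc1]
    show mE p (R.coeff 1 - -a) = _
    rw [two_smul, ← map_add, ← map_add]
    congr 1
    ring
  · intro x
    have h2 : (2 : E) ≠ 0 := S.two_ne'
    have hx1 : S.bar (1 - a * algebraMap (ZMod p) E x) = 1 + a * algebraMap (ZMod p) E x := by
      rw [map_sub, map_one, map_mul, ha, AlgEquiv.commutes]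
      ring
    have hx0 : 1 - a * algebraMap (ZMod p) E x ≠ 0 := by
      intro h
      rw [h, map_zero] at hx1
      apply h2
      linear_combination h - hx1
    have hx2 : 1 + a * algebraMap (ZMod p) E x ≠ 0 := by
      rw [← hx1]
      exact (map_ne_zero_iff _ S.bar.injective).2 hx0
    have hx3 : S.bar (1 + a * algebraMap (ZMod p) E x) = 1 - a * algebraMap (ZMod p) E x := by
      rw [← hx1, S.bar_bar]
    have hPx : P.eval (algebraMap (ZMod p) E x) ≠ 0 := by
      rw [hP, eval_prod, Finset.prod_ne_zero_iff]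
      intro σ _
      rw [P1fac_eval]
      have h1 : (1 : E) - σ a * algebraMap (ZMod p) E x = σ (1 - a * algebraMap (ZMod p) E x) := by
        rw [map_sub, map_one, map_mul, AlgEquiv.commutes]
      rw [h1]
      exact (map_ne_zero_iff _ σ.injective).2 hx0
    refine ⟨fun h => hPx (by rw [← hNe, h, map_zero]), ?_⟩
    have he0 : (1 + a * algebraMap (ZMod p) E x) / (1 - a * algebraMap (ZMod p) E x) ≠ 0 :=
      div_ne_zero hx2 hx0
    refine ⟨Units.map ((mE p : E →ₐ[ZMod p] AE p E) : E →* AE p E) (Units.mk0 _ he0),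
      ⟨(1 + a * algebraMap (ZMod p) E x) / (1 - a * algebraMap (ZMod p) E x), ?_, rfl⟩, ?_⟩
    · rw [map_div₀, hx1, hx3, div_mul_div_comm, mul_comm, div_self (mul_ne_zero hx0 hx2)]
    · show _ = N.eval x • mE p ((1 + a * algebraMap (ZMod p) E x) / (1 - a * algebraMap (ZMod p) E x))
      rw [← map_smul, Algebra.smul_def, hNe, eval_map,
        show algebraMap (ZMod p) (AE p E) x =
          (mE p : E →ₐ[ZMod p] AE p E).toRingHom (algebraMap (ZMod p) E x) from
          ((mE p : E →ₐ[ZMod p] AE p E).commutes x).symm, eval₂_at_apply]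
      show mE p (CE.eval (algebraMap (ZMod p) E x)) = _
      congr 1
      rw [hCE, hPR, eval_mul, eval_mul, P1fac_eval, P1fac_eval]
      field_simp
      ring

end Data

end Pool.Agent.MP971469
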