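import Mathlib

/-! P2: polynomial method, three commutative lemmas. -/

namespace Pool.Agent.MP971469

open Polynomial

/-- the exponent vector of a function. -/
private noncomputable def P2_ex {d m : ℕ} (e : Fin d → Fin m) : Fin d →₀ ℕ :=
  Finsupp.equivFunOnFinite.symm fun l => (e l : ℕ)

private theorem P2_ex_apply {d m : ℕ} (e : Fin d → Fin m) (l : Fin d) : P2_ex e l = (e l : ℕ) := rfl

private theorem P2_ex_inj {d m : ℕ} : Function.Injective (P2_ex : (Fin d → Fin m) → _) := by
  intro a b h
  funext l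
  have := DFunLike.congr_fun h l
  rw [P2_ex_apply, P2_ex_apply] at this
  exact Fin.ext this

/-- Proof: linear algebra: the space of polynomials with all exponents `< m` has dimension `m^d`,
larger than the number of conditions. -/
theorem exists_vanishing {K : Type} [Field K] {d m : ℕ} {ι : Type} [Finite ι] (y : ι → Fin d → K)
    (h : Nat.card ι < m ^ d) :
    ∃ Q : MvPolynomial (Fin d) K, Q ≠ 0 ∧ (∀ l, Q.degreeOf l < m) ∧
      ∀ i, MvPolynomial.eval (y i) Q = 0 := by
  classical
  have := Fintype.ofFinite ι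
  let f : ((Fin d → Fin m) → K) →ₗ[K] (ι → K) := LinearMap.pi fun i =>
    ∑ e : Fin d → Fin m, (∏ l, y i l ^ (e l : ℕ)) • LinearMap.proj e
  have hf : ∀ c i, f c i = ∑ e : Fin d → Fin m, (∏ l, y i l ^ (e l : ℕ)) * c e := by
    intro c i
    simp [f]
  have hlt : Module.finrank K (ι → K) < Module.finrank K ((Fin d → Fin m) → K) := by
    rw [Module.finrank_pi, Module.finrank_pi, ← Nat.card_eq_fintype_card]
    simpa using h
  obtain ⟨c, hc, hc0⟩ := Submodule.exists_mem_ne_zero_of_ne_bot (LinearMap.ker_ne_bot_of_finrank_lt hlt (f := f))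
  rw [LinearMap.mem_ker] at hc
  let Q : MvPolynomial (Fin d) K := ∑ e : Fin d → Fin m, MvPolynomial.monomial (P2_ex e) (c e)
  have hcoef : ∀ e0, Q.coeff (P2_ex e0) = c e0 := by
    intro e0
    simp only [Q, MvPolynomial.coeff_sum, MvPolynomial.coeff_monomial]
    rw [Finset.sum_eq_single e0]
    · simp
    · intro b _ hb
      rw [if_neg fun h => hb (P2_ex_inj h)]
    · simp
  have hsup : ∀ s, Q.coeff s ≠ 0 → ∃ e : Fin d → Fin m, s = P2_ex e := by
    intro s hs
    by_contra hne
    push Not at hne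
    apply hs
    simp only [Q, MvPolynomial.coeff_sum, MvPolynomial.coeff_monomial]
    refine Finset.sum_eq_zero fun e _ => ?_
    rw [if_neg fun h => hne e h.symm]
  refine ⟨Q, ?_, ?_, ?_⟩
  · intro hQ
    apply hc0
    funext e0
    rw [← hcoef e0, hQ]
    simp
  · intro l
    have hm : 0 < m := by
      rcases Nat.eq_zero_or_pos m with h0 | h0
      · subst h0
        have hd : d ≠ 0 := by
          rintro rfl
          exact l.elim0
        rw [zero_pow hd] at h
        omega
      · exact h0
    rw [MvPolynomial.degreeOf_lt_iff hm]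
    intro s hs
    obtain ⟨e, rfl⟩ := hsup s (MvPolynomial.mem_support_iff.1 hs)
    rw [P2_ex_apply]
    exact (e l).2
  · intro i
    have h1 := congrFun hc i
    rw [hf] at h1
    simp only [Q, map_sum, MvPolynomial.eval_monomial]
    refine Eq.trans (Finset.sum_congr rfl fun e _ => ?_) h1
    rw [Finsupp.prod_fintype _ _ (by simp), mul_comm]
    simp only [P2_ex_apply]

private theorem P2_degreeOf_hom {σ K : Type} [CommSemiring K] {Q : MvPolynomial σ K} {m : ℕ}
    (l : σ) (h : Q.degreeOf l < m) (k : ℕ) :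
    (MvPolynomial.homogeneousComponent k Q).degreeOf l < m := by
  have hm : 0 < m := by omega
  rw [MvPolynomial.degreeOf_lt_iff hm] at h ⊢
  intro s hs
  apply h s
  rw [MvPolynomial.mem_support_iff] at hs ⊢
  rw [MvPolynomial.coeff_homogeneousComponent] at hs
  split_ifs at hs with h1
  · exact hs
  · exact absurd rfl hs

/-- Proof: let `k` be the least degree with `homogeneousComponent k Q ≠ 0`. It has all exponents
`< m ≤ p`, so it does not vanish identically on `F_p^d` (e.g.
`MvPolynomial.eq_zero_of_eval_zero_at_prod_finset` or the Schwartz-Zippel lemma, or induction). -/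
theorem exists_line {p : ℕ} [Fact p.Prime] {d m : ℕ} (hm : m ≤ p)
    (Q : MvPolynomial (Fin d) (ZMod p)) (hQ : Q ≠ 0) (hdeg : ∀ l, Q.degreeOf l < m) :
    ∃ (k : ℕ) (v : Fin d → ZMod p), (∀ i < k, MvPolynomial.homogeneousComponent i Q = 0) ∧
      MvPolynomial.eval v (MvPolynomial.homogeneousComponent k Q) ≠ 0 := by
  classical
  have hex : ∃ k, MvPolynomial.homogeneousComponent k Q ≠ 0 := by
    by_contra hne
    push Not at hne
    apply hQ
    rw [← MvPolynomial.sum_homogeneousComponent Q]
    exact Finset.sum_eq_zero fun i _ => hne i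
  refine ⟨Nat.find hex, ?_⟩
  have h1 := Nat.find_spec hex
  have h2 : ∀ i < Nat.find hex, MvPolynomial.homogeneousComponent i Q = 0 := by
    intro i hi
    have := Nat.find_min hex hi
    push Not at this
    exact this
  by_contra hne
  push Not at hne
  apply h1
  refine MvPolynomial.eq_zero_of_eval_zero_at_prod_finset _ (fun _ => Finset.univ) ?_ ?_
  · intro i
    rw [Finset.card_univ, ZMod.card]
    exact lt_of_lt_of_le (P2_degreeOf_hom i (hdeg i) _) hm
  · intro x _
    exact hne x h2

/-- Proof: `Φ = ∑_{i ≤ t} Dn^(t-i) * Q_i(P)` where `Q_i` are the homogeneous components. The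
coefficient of `X^k` in `Φ` is `Q_k(w) ≠ 0` because `P_j = w_j X + ...`, `Dn = 1 + ...`. -/
theorem exists_univ {K : Type} [Field K] {d t D k : ℕ} (Q : MvPolynomial (Fin d) K)
    (htd : Q.totalDegree ≤ t) (hlow : ∀ i < k, MvPolynomial.homogeneousComponent i Q = 0)
    (w : Fin d → K) (hw : MvPolynomial.eval w (MvPolynomial.homogeneousComponent k Q) ≠ 0)
    (P : Fin d → K[X]) (Dn : K[X]) (hP0 : ∀ j, (P j).coeff 0 = 0) (hP1 : ∀ j, (P j).coeff 1 = w j)
    (hPd : ∀ j, (P j).natDegree ≤ D) (hD0 : Dn.coeff 0 = 1) (hDd : Dn.natDegree ≤ D) :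
    ∃ Φ : K[X], Φ ≠ 0 ∧ Φ.natDegree ≤ t * D ∧ ∀ x, Dn.eval x ≠ 0 →
      Φ.eval x = (Dn.eval x) ^ t * MvPolynomial.eval (fun j => (P j).eval x / Dn.eval x) Q := by
  classical
  -- the total degree of the exponents
  have hdeg : ∀ s ∈ Q.support, ∑ j, s j ≤ t := by
    intro s hs
    have h1 := MvPolynomial.le_totalDegree hs
    rw [Finsupp.sum_fintype _ _ (by simp)] at h1
    exact h1.trans htd
  have hge : ∀ s ∈ Q.support, k ≤ ∑ j, s j := by
    intro s hs
    by_contra hlt
    push Not at hlt
    have h1 := hlow _ hlt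
    have h2 : (MvPolynomial.homogeneousComponent (∑ j, s j) Q).coeff s = 0 := by
      rw [h1]
      simp
    rw [MvPolynomial.coeff_homogeneousComponent] at h2
    rw [if_pos (by rw [Finsupp.degree_eq_sum])] at h2
    exact MvPolynomial.mem_support_iff.1 hs h2
  have hA : ∀ j, ∃ A : K[X], P j = X * A ∧ A.coeff 0 = w j := by
    intro j
    obtain ⟨A, hA⟩ := Polynomial.X_dvd_iff.2 (hP0 j)
    refine ⟨A, hA, ?_⟩
    rw [← hP1 j, hA, Polynomial.coeff_X_mul]
  choose A hPA hAw using hA
  let Φ : K[X] := ∑ s ∈ Q.support, C (Q.coeff s) * (Dn ^ (t - ∑ j, s j) * ∏ j, P j ^ s j)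
  have hcoef : Φ.coeff k = MvPolynomial.eval w (MvPolynomial.homogeneousComponent k Q) := by
    have h1 : ∀ s ∈ Q.support, (C (Q.coeff s) * (Dn ^ (t - ∑ j, s j) * ∏ j, P j ^ s j)).coeff k =
        if ∑ j, s j = k then Q.coeff s * ∏ j, w j ^ s j else 0 := by
      intro s hs
      have h2 : Dn ^ (t - ∑ j, s j) * ∏ j, P j ^ s j =
          X ^ (∑ j, s j) * (Dn ^ (t - ∑ j, s j) * ∏ j, A j ^ s j) := by
        have h3 : ∏ j, P j ^ s j = X ^ (∑ j, s j) * ∏ j, A j ^ s j := by
          rw [← Finset.prod_pow_eq_pow_sum, ← Finset.prod_mul_distrib]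
          refine Finset.prod_congr rfl fun j _ => ?_
          rw [hPA j, mul_pow]
        rw [h3]
        ring
      rw [Polynomial.coeff_C_mul, h2, Polynomial.coeff_X_pow_mul']
      have h4 := hge s hs
      split_ifs with h5 h6 h6
      · rw [h6, Nat.sub_self, Polynomial.coeff_zero_eq_eval_zero, Polynomial.eval_mul,
          Polynomial.eval_pow, ← Polynomial.coeff_zero_eq_eval_zero, hD0, one_pow, one_mul,
          Polynomial.eval_prod]
        congr 1
        refine Finset.prod_congr rfl fun j _ => ?_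
        rw [Polynomial.eval_pow, ← Polynomial.coeff_zero_eq_eval_zero, hAw]
      · omega
      · omega
      · rw [mul_zero]
    have h7 : Φ.coeff k = ∑ s ∈ Q.support,
        if ∑ j, s j = k then Q.coeff s * ∏ j, w j ^ s j else 0 := by
      simp only [Φ, Polynomial.finsetSum_coeff]
      exact Finset.sum_congr rfl h1
    rw [h7, MvPolynomial.homogeneousComponent_apply, map_sum, ← Finset.sum_filter]
    refine Finset.sum_congr ?_ ?_
    · ext s
      simp only [Finset.mem_filter, Finsupp.degree_eq_sum]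
    · intro s _
      rw [MvPolynomial.eval_monomial, Finsupp.prod_fintype _ _ (by simp)]
  refine ⟨Φ, ?_, ?_, ?_⟩
  · intro h0
    apply hw
    rw [← hcoef, h0]
    simp
  · refine Polynomial.natDegree_sum_le_of_forall_le _ _ fun s hs => ?_
    refine (Polynomial.natDegree_C_mul_le _ _).trans ?_
    refine Polynomial.natDegree_mul_le.trans ?_
    have h1 : (Dn ^ (t - ∑ j, s j)).natDegree ≤ (t - ∑ j, s j) * D :=
      Polynomial.natDegree_pow_le.trans (Nat.mul_le_mul_left _ hDd)
    have h2 : (∏ j, P j ^ s j).natDegree ≤ (∑ j, s j) * D := by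
      refine (Polynomial.natDegree_prod_le _ _).trans ?_
      rw [Finset.sum_mul]
      refine Finset.sum_le_sum fun j _ => ?_
      exact Polynomial.natDegree_pow_le.trans (Nat.mul_le_mul_left _ (hPd j))
    have h3 := hdeg s hs
    calc _ ≤ (t - ∑ j, s j) * D + (∑ j, s j) * D := Nat.add_le_add h1 h2
      _ = t * D := by rw [← Nat.add_mul, Nat.sub_add_cancel h3]
  · intro x hx
    simp only [Φ, Polynomial.eval_finsetSum]
    rw [MvPolynomial.eval_eq', Finset.mul_sum]
    refine Finset.sum_congr rfl fun s hs => ?_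
    have h3 := hdeg s hs
    rw [Polynomial.eval_C_mul, Polynomial.eval_mul, Polynomial.eval_pow, Polynomial.eval_prod]
    have h4 : ∏ j, ((P j).eval x / Dn.eval x) ^ s j =
        (∏ j, ((P j).eval x) ^ s j) / (Dn.eval x) ^ (∑ j, s j) := by
      rw [← Finset.prod_pow_eq_pow_sum, ← Finset.prod_div_distrib]
      refine Finset.prod_congr rfl fun j _ => ?_
      rw [div_pow]
    rw [h4]
    have h5 : (Dn.eval x) ^ t = (Dn.eval x) ^ (t - ∑ j, s j) * (Dn.eval x) ^ (∑ j, s j) := by
      rw [← pow_add, Nat.sub_add_cancel h3]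
    rw [h5]
    simp only [Polynomial.eval_pow]
    have h6 : (Dn.eval x) ^ (∑ j, s j) ≠ 0 := pow_ne_zero _ hx
    field_simp

end Pool.Agent.MP971469
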