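import Mathlib

/-! P3: products of polynomial curves in a noncommutative algebra. -/

namespace Pool.Agent.MP971469

open Polynomial

private theorem P3_scale {p : ℕ} [Fact p.Prime] {R : Type} [Ring R] [Algebra (ZMod p) R]
    (P : R[X]) (D : ℕ) (hP : P.natDegree ≤ D) (v : ZMod p) :
    ∃ Q : R[X], Q.natDegree ≤ D ∧ (∀ i, Q.coeff i = v ^ i • P.coeff i) ∧
      ∀ x : ZMod p, Q.eval (algebraMap (ZMod p) R x) = P.eval (algebraMap (ZMod p) R (v * x)) := by
  have hc : ∀ i, (∑ i ∈ Finset.range (D + 1), Polynomial.monomial i (v ^ i • P.coeff i)).coeff i =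
      v ^ i • P.coeff i := by
    intro i
    rw [Polynomial.finsetSum_coeff]
    simp only [Polynomial.coeff_monomial]
    rw [Finset.sum_ite_eq' (Finset.range (D + 1)) i]
    split_ifs with h
    · rfl
    · have h1 : P.coeff i = 0 := by
        refine Polynomial.coeff_eq_zero_of_natDegree_lt ?_
        simp only [Finset.mem_range, not_lt] at h
        omega
      rw [h1, smul_zero]
  have hd : (∑ i ∈ Finset.range (D + 1), Polynomial.monomial i (v ^ i • P.coeff i)).natDegree ≤ D := by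
    rw [Polynomial.natDegree_le_iff_coeff_eq_zero]
    intro i hi
    rw [hc, Polynomial.coeff_eq_zero_of_natDegree_lt (by omega), smul_zero]
  refine ⟨_, hd, hc, fun x => ?_⟩
  rw [Polynomial.eval_eq_sum_range' (Nat.lt_succ_of_le hd), Polynomial.eval_eq_sum_range'
    (Nat.lt_succ_of_le hP)]
  refine Finset.sum_congr rfl fun i _ => ?_
  rw [hc, ← map_pow, ← map_pow, mul_pow, map_mul, Algebra.smul_def, ← mul_assoc,
    Algebra.commutes]

private theorem P3_eval_mul {p : ℕ} [Fact p.Prime] {R : Type} [Ring R] [Algebra (ZMod p) R]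
    (P Q : R[X]) (x : ZMod p) :
    (P * Q).eval (algebraMap (ZMod p) R x) =
      P.eval (algebraMap (ZMod p) R x) * Q.eval (algebraMap (ZMod p) R x) := by
  unfold Polynomial.eval
  refine Polynomial.eval₂_mul_noncomm _ _ fun k => ?_
  exact (Algebra.commutes x _).symm

/-- Proof: induction on `d` (or product over `List.ofFn`): `C' = ∏_l (C l)(v_l X)` (in order),
`N' = ∏_l (N l)(v_l X)` (substitution `X ↦ v_l X`: `Polynomial.comp (C l) (C (algebraMap v_l) * X)` or
`scaleRoots`-like; coefficients get multiplied by powers of `v_l`). Evaluation at the central element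
`algebraMap x` is multiplicative (`Polynomial.eval₂_mul_noncomm` / `eval_mul_of_...`). -/
theorem exists_prod_curve {p : ℕ} [Fact p.Prime] {R : Type} [Ring R] [Algebra (ZMod p) R]
    (M : Submonoid R) {d D : ℕ} (C : Fin d → R[X]) (N : Fin d → (ZMod p)[X]) (X : Fin d → R)
    (hCd : ∀ l, (C l).natDegree ≤ D) (hNd : ∀ l, (N l).natDegree ≤ D)
    (hN0 : ∀ l, (N l).coeff 0 = 1) (hC0 : ∀ l, (C l).coeff 0 = 1)
    (hC1 : ∀ l, (C l).coeff 1 = (N l).coeff 1 • (1 : R) + X l)
    (hval : ∀ l (x : ZMod p), (N l).eval x ≠ 0 ∧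
      ∃ μ ∈ M, (C l).eval (algebraMap (ZMod p) R x) = (N l).eval x • μ)
    (v : Fin d → ZMod p) :
    ∃ (C' : R[X]) (N' : (ZMod p)[X]), C'.natDegree ≤ d * D ∧ N'.natDegree ≤ d * D ∧
      N'.coeff 0 = 1 ∧ C'.coeff 0 = 1 ∧ C'.coeff 1 = N'.coeff 1 • (1 : R) + ∑ l, v l • X l ∧
      ∀ x : ZMod p, N'.eval x ≠ 0 ∧
        ∃ μ ∈ M, C'.eval (algebraMap (ZMod p) R x) = N'.eval x • μ := by
  induction d with
  | zero =>
    refine ⟨1, 1, by simp, by simp, by simp, by simp, ?_, fun x => ⟨by simp, 1, M.one_mem, by simp⟩⟩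
    rw [Polynomial.coeff_one, Polynomial.coeff_one]
    simp
  | succ d ih =>
    obtain ⟨C0, N0, h1, h2, h3, h4, h5, h6⟩ := ih (fun l => C l.castSucc) (fun l => N l.castSucc)
      (fun l => X l.castSucc) (fun l => hCd _) (fun l => hNd _) (fun l => hN0 _) (fun l => hC0 _)
      (fun l => hC1 _) (fun l => hval _) (fun l => v l.castSucc)
    obtain ⟨Q, q1, q2, q3⟩ := P3_scale (p := p) (C (Fin.last d)) D (hCd _) (v (Fin.last d))
    obtain ⟨Nq, n1, n2, n3⟩ := P3_scale (p := p) (N (Fin.last d)) D (hNd _) (v (Fin.last d))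
    refine ⟨C0 * Q, N0 * Nq, ?_, ?_, ?_, ?_, ?_, ?_⟩
    · refine Polynomial.natDegree_mul_le.trans ?_
      rw [Nat.succ_mul]
      exact add_le_add h1 q1
    · refine Polynomial.natDegree_mul_le.trans ?_
      rw [Nat.succ_mul]
      exact add_le_add h2 n1
    · rw [Polynomial.mul_coeff_zero, h3, n2, hN0]
      simp
    · rw [Polynomial.mul_coeff_zero, h4, q2, hC0]
      simp
    · rw [Polynomial.mul_coeff_one, Polynomial.mul_coeff_one, h4, q2, q2, hC0, h5, hC1, h3, n2, n2,
        hN0, Fin.sum_univ_castSucc]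
      simp only [pow_one, pow_zero, one_mul, one_smul, mul_one, smul_add, add_smul, smul_eq_mul,
        mul_smul]
      abel
    · intro x
      obtain ⟨a1, μ0, a2, a3⟩ := h6 x
      obtain ⟨b1, μ1, b2, b3⟩ := hval (Fin.last d) (v (Fin.last d) * x)
      have hNq : Nq.eval x = (N (Fin.last d)).eval (v (Fin.last d) * x) := n3 x
      refine ⟨?_, μ0 * μ1, M.mul_mem a2 b2, ?_⟩
      · rw [Polynomial.eval_mul, hNq]
        exact mul_ne_zero a1 b1
      · rw [P3_eval_mul, a3, q3, b3, Polynomial.eval_mul, hNq, smul_mul_smul_comm]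

end Pool.Agent.MP971469
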