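import Pool.Agent.Lib.MP_971469_al.P2_Vanish
import Pool.Agent.Lib.MP_971469_al.P3_Prod

/-! P4: the polynomial method: a finite submonoid containing `d` independent curves is large. -/

namespace Pool.Agent.MP971469

open Polynomial

/-- Proof: let `e_j : R → F_p` be linear with `e_j (X l) = δ_jl` (extend a dual family). Suppose
`|M| < m^d`. By `exists_vanishing` there is `Q ≠ 0`, all exponents `< m`, vanishing at the points
`(e_j(μ) - e_j(1))_j`, `μ ∈ M`. Take `k, v` from `exists_line` (`m ≤ p` because `d*D*(d*m) < p`; the cases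
`d = 0` or `D = 0` are trivial: for `d = 0` the claim is `1 ≤ |M|`; if `D = 0` and `d > 0` the hypotheses
`natDegree ≤ 0` give `coeff 1 = 0`, so `X l = 0`, contradiction to independence), `C', N'` from
`exists_prod_curve`, and apply `exists_univ` with `t = d*m`, `w = v`, `Dn = N'`,
`P_j = (polynomial with coefficients e_j (C'.coeff i)) - e_j(1) N'`, of degree `≤ d*D`. Then `Φ(x) = 0` for
all `x ∈ F_p` because `P_j(x)/N'(x) = e_j(μ) - e_j(1)`; but `Φ ≠ 0` has degree
`≤ (d*m)*(d*D) < p`, contradiction. -/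
theorem poly_method {p : ℕ} [Fact p.Prime] {R : Type} [Ring R] [Algebra (ZMod p) R] [Finite R]
    (M : Submonoid R) {d D m : ℕ} (C : Fin d → R[X]) (N : Fin d → (ZMod p)[X]) (X : Fin d → R)
    (hX : LinearIndependent (ZMod p) X)
    (hCd : ∀ l, (C l).natDegree ≤ D) (hNd : ∀ l, (N l).natDegree ≤ D)
    (hN0 : ∀ l, (N l).coeff 0 = 1) (hC0 : ∀ l, (C l).coeff 0 = 1)
    (hC1 : ∀ l, (C l).coeff 1 = (N l).coeff 1 • (1 : R) + X l)
    (hval : ∀ l (x : ZMod p), (N l).eval x ≠ 0 ∧
      ∃ μ ∈ M, (C l).eval (algebraMap (ZMod p) R x) = (N l).eval x • μ)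
    (hdeg : d * D * (d * m) < p) (hm : m ≤ p) : m ^ d ≤ Nat.card M := by
  classical
  by_contra hlt
  rw [not_le] at hlt
  -- the dual functionals
  have hinj : Function.Injective (Fintype.linearCombination (ZMod p) X) :=
    linearIndependent_iff_injective_fintypeLinearCombination.1 hX
  obtain ⟨g, hg⟩ := LinearMap.exists_leftInverse_of_injective
    (Fintype.linearCombination (ZMod p) X) (LinearMap.ker_eq_bot.2 hinj)
  have hgX : ∀ v : Fin d → ZMod p, g (∑ l, v l • X l) = v := by
    intro v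
    have h1 := LinearMap.congr_fun hg v
    rw [LinearMap.comp_apply, Fintype.linearCombination_apply, LinearMap.id_apply] at h1
    exact h1
  obtain ⟨Q, hQ0, hQd, hQv⟩ := exists_vanishing (K := ZMod p) (ι := M)
    (fun μ j => g (μ : R) j - g 1 j) hlt
  obtain ⟨k, v, hlow, hv⟩ := exists_line hm Q hQ0 hQd
  obtain ⟨C', N', hC'd, hN'd, hN'0, hC'0, hC'1, hval'⟩ :=
    exists_prod_curve M C N X hCd hNd hN0 hC0 hC1 hval v
  set P : Fin d → (ZMod p)[X] := fun j =>
    (∑ i ∈ Finset.range (d * D + 1), Polynomial.monomial i (g (C'.coeff i) j)) -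
      Polynomial.C (g 1 j) * N' with hP
  have hcoef : ∀ j i, (P j).coeff i = g (C'.coeff i) j - g 1 j * N'.coeff i := by
    intro j i
    rw [hP]
    simp only [coeff_sub, finsetSum_coeff, coeff_monomial, coeff_C_mul]
    congr 1
    by_cases hi : i < d * D + 1
    · rw [Finset.sum_ite_eq' (Finset.range (d * D + 1)) i (fun i => g (C'.coeff i) j)]
      rw [if_pos (Finset.mem_range.2 hi)]
    · rw [Finset.sum_ite_eq' (Finset.range (d * D + 1)) i (fun i => g (C'.coeff i) j)]
      rw [if_neg (by rwa [Finset.mem_range])]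
      rw [coeff_eq_zero_of_natDegree_lt (by omega)]
      simp
  have hP0 : ∀ j, (P j).coeff 0 = 0 := by
    intro j
    rw [hcoef, hC'0, hN'0, mul_one, sub_self]
  have hP1 : ∀ j, (P j).coeff 1 = v j := by
    intro j
    rw [hcoef, hC'1, map_add, hgX, map_smul]
    simp only [Pi.add_apply, Pi.smul_apply, smul_eq_mul]
    ring
  have hPd : ∀ j, (P j).natDegree ≤ d * D := by
    intro j
    rw [natDegree_le_iff_coeff_eq_zero]
    intro i hi
    rw [hcoef, coeff_eq_zero_of_natDegree_lt (p := C') (by omega),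
      coeff_eq_zero_of_natDegree_lt (p := N') (by omega)]
    simp
  have hPe : ∀ (x : ZMod p) (μ : R), C'.eval (algebraMap (ZMod p) R x) = N'.eval x • μ →
      ∀ j, (P j).eval x = N'.eval x * (g μ j - g 1 j) := by
    intro x μ hμ j
    have h1 : C'.eval (algebraMap (ZMod p) R x) =
        ∑ i ∈ Finset.range (d * D + 1), x ^ i • C'.coeff i := by
      rw [eval_eq_sum_range' (Nat.lt_succ_of_le hC'd)]
      refine Finset.sum_congr rfl fun i _ => ?_
      rw [← map_pow, ← Algebra.commutes, ← Algebra.smul_def]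
    have h2 : g (C'.eval (algebraMap (ZMod p) R x)) j =
        ∑ i ∈ Finset.range (d * D + 1), x ^ i * g (C'.coeff i) j := by
      rw [h1, map_sum, Finset.sum_apply]
      refine Finset.sum_congr rfl fun i _ => ?_
      rw [map_smul, Pi.smul_apply, smul_eq_mul]
    rw [hμ, map_smul, Pi.smul_apply, smul_eq_mul] at h2
    rw [hP]
    simp only [eval_sub, eval_finsetSum, eval_monomial, eval_mul, eval_C]
    have h3 : ∑ i ∈ Finset.range (d * D + 1), g (C'.coeff i) j * x ^ i =
        N'.eval x * g μ j := by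
      rw [h2]
      refine Finset.sum_congr rfl fun i _ => ?_
      ring
    rw [h3]
    ring
  have htd : Q.totalDegree ≤ d * m := by
    unfold MvPolynomial.totalDegree
    refine Finset.sup_le fun s hs => ?_
    rw [Finsupp.sum_fintype _ _ (fun _ => rfl)]
    calc ∑ i, s i ≤ ∑ _i : Fin d, m := Finset.sum_le_sum fun i _ =>
          (MvPolynomial.monomial_le_degreeOf i hs).trans (hQd i).le
      _ = d * m := by simp
  obtain ⟨Φ, hΦ0, hΦd, hΦe⟩ := exists_univ (D := d * D) Q htd hlow v hv P N' hP0 hP1 hPd hN'0 hN'd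
  apply hΦ0
  refine eq_zero_of_natDegree_lt_card_of_eval_eq_zero Φ (f := (id : ZMod p → ZMod p))
    Function.injective_id ?_ ?_
  · intro x
    obtain ⟨hNx, μ, hμM, hμ⟩ := hval' x
    rw [id_eq, hΦe x hNx]
    have h1 : (fun j => (P j).eval x / N'.eval x) = fun j => g μ j - g 1 j := by
      funext j
      rw [hPe x μ hμ j, mul_div_cancel_left₀ _ hNx]
    rw [h1]
    have h2 := hQv ⟨μ, hμM⟩
    simp only at h2
    rw [h2, mul_zero]
  · rw [ZMod.card]
    calc Φ.natDegree ≤ d * m * (d * D) := hΦd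
      _ = d * D * (d * m) := by ring
      _ < p := hdeg

end Pool.Agent.MP971469
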