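import Pool.Agent.Lib.MP_971469_al.P1_Curve
import Pool.Agent.Lib.MP_971469_al.P4_Method
import Pool.Agent.Lib.MP_971469_al.L09_Part1
import Pool.Agent.Lib.MP_971469_al.M08_Card

/-! P5: an overgroup `M` of `T` with `LL M = skew` is large. -/

namespace Pool.Agent.MP971469

open Polynomial

namespace Data

variable {p r : ℕ} [Fact p.Prime] {E : Type} [Field E] [Finite E] [Algebra (ZMod p) E]

/-- Proof: `skew` has dimension `d = 2r²+r` (`finrank_skew`) and is spanned by the elements
`cj g (mE a)`, `g ∈ M`, `bar a = -a`; choose `d` linearly independent ones `cj (g_l) (mE a_l)`. Apply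
`poly_method` in `R = AE`, to the submonoid of the elements of `M` (`Submonoid.map` of `M.toSubmonoid`
under `Units.coeHom`; its cardinality is that of `M`), with the curves of `exists_curve` for `a_l`
conjugated by `g_l` (multiply the polynomial by constants on both sides), `X_l = 2 cj g_l (mE a_l)`,
`D = 2r`. -/
theorem card_M_ge (S : Data p r E) (M : Subgroup (AE p E)ˣ) (hT : S.T ≤ M) (hM : M ≤ S.Sp)
    (hL : S.LL M = S.skew) (m : ℕ)
    (h : (2 * r ^ 2 + r) * (2 * r) * ((2 * r ^ 2 + r) * m) < p) :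
    m ^ (2 * r ^ 2 + r) ≤ Nat.card M := by
  classical
  have hfinA : Finite (AE p E) :=
    Finite.of_injective (fun f : AE p E => (f : VV E → VV E)) DFunLike.coe_injective
  have hr := S.r_ge
  have hp2 : (2 : ZMod p) ≠ 0 := by
    have h1 := S.r_lt
    intro h2
    have h3 : ((2 : ℕ) : ZMod p) = 0 := by exact_mod_cast h2
    rw [ZMod.natCast_eq_zero_iff] at h3
    have h4 := Nat.le_of_dvd (by norm_num) h3
    omega
  -- independent elements
  have hspan : Module.finrank (ZMod p) (S.LL M) = 2 * r ^ 2 + r := by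
    rw [hL]
    exact S.finrank_skew
  obtain ⟨f, hfs, -, hfi⟩ := Submodule.exists_fun_fin_finrank_span_eq (ZMod p)
    {X : AE p E | ∃ g ∈ M, ∃ a : E, S.bar a = -a ∧ X = cj g (mE p a)}
  have hcard : Module.finrank (ZMod p) (Submodule.span (ZMod p)
    {X : AE p E | ∃ g ∈ M, ∃ a : E, S.bar a = -a ∧ X = cj g (mE p a)}) = 2 * r ^ 2 + r := hspan
  set X' : Fin (2 * r ^ 2 + r) → AE p E := fun l => f (Fin.cast hcard.symm l) with hX'
  have hX'i : LinearIndependent (ZMod p) X' :=
    hfi.comp _ (Fin.cast_injective hcard.symm)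
  have hX's : ∀ l, ∃ g ∈ M, ∃ a : E, S.bar a = -a ∧ X' l = cj g (mE p a) := fun l => hfs _
  choose g hgM a ha hXa using hX's
  choose C N hCd hNd hN0 hC0 hC1 hval using fun l => S.exists_curve (a l) (ha l)
  -- conjugation of polynomials
  have hcoef : ∀ l i, (Polynomial.C ((g l : AE p E)) * C l *
      Polynomial.C (((g l)⁻¹ : (AE p E)ˣ) : AE p E)).coeff i = cj (g l) ((C l).coeff i) := by
    intro l i
    rw [coeff_mul_C, coeff_C_mul]
    rfl
  set M' : Submonoid (AE p E) := Submonoid.map (Units.coeHom (AE p E)) M.toSubmonoid with hM'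
  have hcM : Nat.card M' = Nat.card M := by
    have h1 : ((M' : Set (AE p E))) = (Units.coeHom (AE p E)) '' (M : Set (AE p E)ˣ) := by
      rw [hM', Submonoid.coe_map]
      rfl
    have h2 : Nat.card ((M' : Set (AE p E))) = Nat.card (M : Set (AE p E)ˣ) := by
      rw [h1]
      exact Nat.card_image_of_injective Units.val_injective _
    exact h2
  rw [← hcM]
  have hinv : ∀ l, ((g l : AE p E)) * (((g l)⁻¹ : (AE p E)ˣ) : AE p E) = 1 := fun l => by
    rw [← Units.val_mul, mul_inv_cancel, Units.val_one]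
  refine poly_method (D := 2 * r) M' (fun l => Polynomial.C ((g l : AE p E)) * C l *
      Polynomial.C (((g l)⁻¹ : (AE p E)ˣ) : AE p E)) N (fun l => (2 : ZMod p) • X' l)
    ?_ ?_ hNd hN0 ?_ ?_ ?_ h ?_
  · have h1 := hX'i.units_smul (fun _ => Units.mk0 (2 : ZMod p) hp2)
    exact h1
  · intro l
    rw [natDegree_le_iff_coeff_eq_zero]
    intro i hi
    rw [hcoef, coeff_eq_zero_of_natDegree_lt (lt_of_le_of_lt (hCd l) hi), cj_map_zero]
  · intro l
    rw [hcoef, hC0, cj_map_one]
  · intro l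
    rw [hcoef, hC1, cj_map_add, cj_map_smul, cj_map_smul, cj_map_one, hXa]
  · intro l x
    obtain ⟨h1, t, ht, h2⟩ := hval l x
    refine ⟨h1, ((g l * t * (g l)⁻¹ : (AE p E)ˣ) : AE p E), ?_, ?_⟩
    · exact ⟨g l * t * (g l)⁻¹, M.mul_mem (M.mul_mem (hgM l) (hT ht)) (M.inv_mem (hgM l)), rfl⟩
    · have h3 : (Polynomial.C ((g l : AE p E)) * C l *
          Polynomial.C (((g l)⁻¹ : (AE p E)ˣ) : AE p E)).eval (algebraMap (ZMod p) (AE p E) x) =
          cj (g l) ((C l).eval (algebraMap (ZMod p) (AE p E) x)) := by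
        have hdeg : (Polynomial.C ((g l : AE p E)) * C l *
            Polynomial.C (((g l)⁻¹ : (AE p E)ˣ) : AE p E)).natDegree < 2 * r + 1 := by
          rw [Nat.lt_succ_iff, natDegree_le_iff_coeff_eq_zero]
          intro i hi
          rw [hcoef, coeff_eq_zero_of_natDegree_lt (lt_of_le_of_lt (hCd l) hi), cj_map_zero]
        rw [eval_eq_sum_range' hdeg, eval_eq_sum_range' (Nat.lt_succ_of_le (hCd l))]
        unfold cj
        rw [Finset.mul_sum, Finset.sum_mul]
        refine Finset.sum_congr rfl fun i _ => ?_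
        rw [hcoef]
        unfold cj
        rw [← map_pow]
        have h4 := Algebra.commutes (x ^ i) (((g l)⁻¹ : (AE p E)ˣ) : AE p E)
        rw [mul_assoc, ← h4]
        simp only [mul_assoc]
      rw [h3, h2, cj_map_smul]
      rfl
  · have h1 : 1 ≤ 2 * r ^ 2 + r := by omega
    have h2 : 1 ≤ (2 * r ^ 2 + r) * (2 * r) * (2 * r ^ 2 + r) :=
      Nat.one_le_iff_ne_zero.2 (by positivity)
    have h3 : m ≤ (2 * r ^ 2 + r) * (2 * r) * ((2 * r ^ 2 + r) * m) := by
      calc m = 1 * m := (one_mul m).symm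
        _ ≤ ((2 * r ^ 2 + r) * (2 * r) * (2 * r ^ 2 + r)) * m := Nat.mul_le_mul_right m h2
        _ = (2 * r ^ 2 + r) * (2 * r) * ((2 * r ^ 2 + r) * m) := by ring
    exact (h3.trans_lt h).le

end Data

end Pool.Agent.MP971469
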