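import Pool.Agent.Lib.MP_971469_al.S1_Basic

/-! S7: upper bound for the order of the symplectic group. -/

namespace Pool.Agent.MP971469

/-- Proof: fix a basis `b` of `V` (indexed by `Fin n`). `g ∈ Sp` is determined by the tuple
`(g b_0, ..., g b_{n-1})`. Let `S_k` be the set of linearly independent `k`-tuples `w` with
`B (w_i) (w_l) = B (b_i) (b_l)` for all `i, l < k`. Given the first `k` entries of an element of
`S_{k+1}`, the last one lies in a coset of the subspace orthogonal to the `k` independent
vectors, of dimension `n - k` (nondegeneracy), so `|S_{k+1}| ≤ |S_k| |K|^{n-k}`, and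
`|S_n| ≤ |K|^{n + (n-1) + ... + 1} = |K|^{n(n+1)/2}`. -/
theorem card_SpGroup_le {K V : Type} [Field K] [Finite K] [AddCommGroup V] [Module K V]
    [FiniteDimensional K V] {B : LinearMap.BilinForm K V} (hB : B.IsAlt)
    (hn : ∀ x, (∀ y, B x y = 0) → x = 0) :
    Nat.card (SpGroup B) ≤
      Nat.card K ^ (Module.finrank K V * (Module.finrank K V + 1) / 2) := by
  classical
  have hnd : B.Nondegenerate := by
    refine ⟨fun x hx => hn x hx, fun x hx => hn x fun y => ?_⟩
    rw [B_swap hB, hx y, neg_zero]
  have hV : Finite V := Module.finite_of_finite K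
  have hE : Finite (Module.End K V) :=
    Finite.of_injective (fun f : Module.End K V => (f : V → V)) DFunLike.coe_injective
  have hU : Finite (Module.End K V)ˣ :=
    Finite.of_injective (fun g : (Module.End K V)ˣ => (g : Module.End K V)) fun a b h => Units.ext h
  obtain ⟨n, hnd'⟩ : ∃ n, n = Module.finrank K V := ⟨_, rfl⟩
  obtain ⟨b⟩ : Nonempty (Module.Basis (Fin n) K V) := by
    rw [hnd']
    exact ⟨Module.finBasis K V⟩
  rw [← hnd']
  let A : ℕ → Set (Module.End K V)ˣ := fun k =>
    {g | g ∈ SpGroup B ∧ ∀ i : Fin n, (i : ℕ) < k → (g : Module.End K V) (b i) = b i}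
  have hstep : ∀ k, k < n → Nat.card (A k) ≤ Nat.card K ^ (n - k) * Nat.card (A (k + 1)) := by
    intro k hk
    let c : Fin k → V := fun i => b (Fin.castLE hk.le i)
    have hc : LinearIndependent K c :=
      b.linearIndependent.comp _ (Fin.castLE_injective hk.le)
    let U : Submodule K V := B.orthogonal (Submodule.span K (Set.range c))
    have hUmem : ∀ v, (∀ i, B (c i) v = 0) → v ∈ U := by
      intro v hv x hx
      have : Submodule.span K (Set.range c) ≤ LinearMap.ker (B.flip v) := by
        rw [Submodule.span_le]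
        rintro _ ⟨i, rfl⟩
        exact hv i
      exact this hx
    have hUcard : Nat.card U = Nat.card K ^ (n - k) := by
      rw [Module.natCard_eq_pow_finrank (K := K), LinearMap.BilinForm.finrank_orthogonal hnd,
        finrank_span_eq_card hc, Fintype.card_fin, hnd']
    let bk : V := b ⟨k, hk⟩
    have hsec : ∀ v : V, ∃ h : (Module.End K V)ˣ, (∃ g ∈ A k, (g : Module.End K V) bk = v) →
        h ∈ A k ∧ (h : Module.End K V) bk = v := by
      intro v
      by_cases hv : ∃ g ∈ A k, (g : Module.End K V) bk = v
      · obtain ⟨g, hg⟩ := hv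
        exact ⟨g, fun _ => hg⟩
      · exact ⟨1, fun h => absurd h hv⟩
    choose σ hσ using hsec
    have hσ' : ∀ g ∈ A k, σ ((g : Module.End K V) bk) ∈ A k ∧
        (σ ((g : Module.End K V) bk) : Module.End K V) bk = (g : Module.End K V) bk :=
      fun g hg => hσ _ ⟨g, hg, rfl⟩
    have hmapU : ∀ g : A k, ((g : (Module.End K V)ˣ) : Module.End K V) bk - bk ∈ U := by
      rintro ⟨g, hg⟩
      apply hUmem
      intro i
      simp only
      rw [map_sub, sub_eq_zero]
      have h1 : (g : Module.End K V) (c i) = c i := hg.2 _ i.2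
      conv_lhs => rw [← h1]
      exact hg.1 _ _
    have hmapA : ∀ g : A k, (σ (((g : (Module.End K V)ˣ) : Module.End K V) bk))⁻¹ *
        (g : (Module.End K V)ˣ) ∈ A (k + 1) := by
      rintro ⟨g, hg⟩
      obtain ⟨h1, h2⟩ := hσ' g hg
      simp only
      revert h1 h2
      generalize σ ((g : Module.End K V) bk) = s
      intro h1 h2
      refine ⟨mul_mem (inv_mem h1.1) hg.1, ?_⟩
      intro i hi
      rw [Units.val_mul, Module.End.mul_apply]
      have h3 : (g : Module.End K V) (b i) = (s : Module.End K V) (b i) := by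
        rcases Nat.lt_succ_iff_lt_or_eq.1 hi with h | h
        · rw [hg.2 i h, h1.2 i h]
        · have : b i = bk := by
            congr 1
            exact Fin.ext h
          rw [this, h2]
      rw [h3, unit_inv_apply]
    have hinj : Function.Injective (fun g : A k =>
        ((⟨_, hmapU g⟩, ⟨_, hmapA g⟩) : U × A (k + 1))) := by
      rintro ⟨g, hg⟩ ⟨g', hg'⟩ h
      simp only [Prod.mk.injEq, Subtype.mk.injEq] at h
      obtain ⟨h1, h2⟩ := h
      have h3 : (g : Module.End K V) bk = (g' : Module.End K V) bk := sub_left_injective h1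
      rw [h3] at h2
      exact Subtype.ext (mul_left_cancel h2)
    have := Nat.card_le_card_of_injective _ hinj
    rw [Nat.card_prod, hUcard] at this
    exact this
  have hall : ∀ m, m ≤ n → Nat.card (A 0) ≤
      Nat.card K ^ (∑ k ∈ Finset.range m, (n - k)) * Nat.card (A m) := by
    intro m
    induction m with
    | zero => intro _; simp
    | succ m ih =>
      intro hm
      refine (ih (by omega)).trans ?_
      rw [Finset.sum_range_succ, pow_add, mul_assoc]
      exact Nat.mul_le_mul_left _ (hstep m (by omega))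
  have hsum : ∀ m, m ≤ n → 2 * (∑ k ∈ Finset.range m, (n - k)) + m * m = m * (2 * n + 1) := by
    intro m
    induction m with
    | zero => intro _; simp
    | succ m ih =>
      intro hm
      have h1 := ih (by omega)
      rw [Finset.sum_range_succ]
      obtain ⟨t, ht⟩ : ∃ t, n = m + 1 + t := ⟨n - (m + 1), by omega⟩
      have h2 : n - m = t + 1 := by omega
      rw [h2]
      have h3 : 2 * n + 1 = 2 * m + 2 * t + 3 := by omega
      rw [h3] at h1 ⊢
      nlinarith [h1]
  have hS : ∑ k ∈ Finset.range n, (n - k) = n * (n + 1) / 2 := by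
    have h1 := hsum n le_rfl
    have h2 : n * (n + 1) = 2 * ∑ k ∈ Finset.range n, (n - k) := by nlinarith [h1]
    rw [h2]
    omega
  have hAn : Nat.card (A n) ≤ 1 := by
    have : Subsingleton (A n) := by
      refine ⟨fun g g' => ?_⟩
      obtain ⟨g, hg⟩ := g
      obtain ⟨g', hg'⟩ := g'
      refine Subtype.ext (Units.ext (b.ext fun i => ?_))
      rw [hg.2 i i.2, hg'.2 i i.2]
    exact Finite.card_le_one_iff_subsingleton.2 this
  have hA0 : Nat.card (SpGroup B) = Nat.card (A 0) := by
    have : A 0 = (SpGroup B : Set (Module.End K V)ˣ) := by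
      ext g
      constructor
      · intro hg
        exact hg.1
      · intro hg
        exact ⟨hg, fun i hi => absurd hi (by omega)⟩
    rw [this]
    rfl
  rw [hA0, ← hS]
  calc Nat.card (A 0) ≤ Nat.card K ^ (∑ k ∈ Finset.range n, (n - k)) * Nat.card (A n) :=
        hall n le_rfl
    _ ≤ Nat.card K ^ (∑ k ∈ Finset.range n, (n - k)) * 1 := Nat.mul_le_mul_left _ hAn
    _ = _ := mul_one _

end Pool.Agent.MP971469
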