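import Pool.Agent.Lib.MP_971469_al.S3_Gen

/-! S8: a subgroup of `Sp(V,B)` over `F_p` of index `< p` is everything. -/

namespace Pool.Agent.MP971469

/-- In a finite group `G` an element `t` with `t^p = 1` (`p` prime) is contained in every subgroup
`M` with `|G| < p |M|`. Proof: the cosets `t^k M`, `0 ≤ k < p`, cannot be pairwise different
(index `< p`), so `t^{k} ∈ M` for some `0 < k < p`, and `t` is a power of `t^k`. -/
theorem mem_of_index_lt {G : Type} [Group G] [Finite G] (p : ℕ) (hp : p.Prime) (H M : Subgroup G)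
    (hM : M ≤ H) (h : Nat.card H < p * Nat.card M) (t : G) (ht : t ∈ H) (htp : t ^ p = 1) :
    t ∈ M := by
  classical
  by_contra htM
  -- the map (k, m) ↦ t^k m is injective from Fin p × M to H
  have key : ∀ n : ℕ, 0 < n → n < p → t ^ n ∉ M := by
    intro n hn hnp hmem
    have hcop : Nat.Coprime n p := by
      rw [Nat.coprime_comm]
      exact (Nat.Prime.coprime_iff_not_dvd hp).2 fun hd => absurd (Nat.le_of_dvd hn hd)
        (not_le.2 hnp)
    have hord : orderOf t ∣ p := orderOf_dvd_of_pow_eq_one htp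
    have hcop' : Nat.Coprime n (orderOf t) := Nat.Coprime.coprime_dvd_right hord hcop
    obtain ⟨m, hm⟩ := exists_pow_eq_self_of_coprime hcop'
    apply htM
    rw [← hm]
    exact pow_mem hmem m
  let φ : Fin p × M → H := fun x => ⟨t ^ (x.1 : ℕ) * x.2, mul_mem (pow_mem ht _) (hM x.2.2)⟩
  have hφ : Function.Injective φ := by
    rintro ⟨k, m⟩ ⟨l, n⟩ hkl
    have e : t ^ (k : ℕ) * (m : G) = t ^ (l : ℕ) * (n : G) := congrArg Subtype.val hkl
    have hkl' : k = l := by
      by_contra hne
      have hne' : (k : ℕ) ≠ l := fun h => hne (Fin.ext h)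
      rcases Nat.lt_or_gt_of_ne hne' with hlt | hlt
      · refine key (l - k) (Nat.sub_pos_of_lt hlt)
          (lt_of_le_of_lt (Nat.sub_le _ _) l.2) ?_
        have e2 : t ^ ((l : ℕ) - k) = (m : G) * (n : G)⁻¹ := by
          have e3 : t ^ (l : ℕ) = t ^ (k : ℕ) * t ^ ((l : ℕ) - k) := by
            rw [← pow_add, Nat.add_sub_cancel' hlt.le]
          rw [e3, mul_assoc] at e
          rw [mul_left_cancel e]
          group
        rw [e2]
        exact mul_mem m.2 (inv_mem n.2)
      · refine key (k - l) (Nat.sub_pos_of_lt hlt)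
          (lt_of_le_of_lt (Nat.sub_le _ _) k.2) ?_
        have e2 : t ^ ((k : ℕ) - l) = (n : G) * (m : G)⁻¹ := by
          have e3 : t ^ (k : ℕ) = t ^ (l : ℕ) * t ^ ((k : ℕ) - l) := by
            rw [← pow_add, Nat.add_sub_cancel' hlt.le]
          rw [e3, mul_assoc] at e
          rw [← mul_left_cancel e]
          group
        rw [e2]
        exact mul_mem n.2 (inv_mem m.2)
    subst hkl'
    have : (m : G) = n := mul_left_cancel e
    exact Prod.ext rfl (Subtype.ext this)
  have hcard := Nat.card_le_card_of_injective φ hφ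
  rw [Nat.card_prod, Nat.card_fin] at hcard
  exact absurd hcard (not_le.2 h)

/-- Proof: every transvection has `t^p = 1` (`tv_pow`), so lies in `M` by `mem_of_index_lt`;
transvections generate (`TvGroup_eq`). -/
theorem eq_of_index_lt {p : ℕ} [Fact p.Prime] {V : Type} [AddCommGroup V] [Module (ZMod p) V]
    [Finite V] {B : LinearMap.BilinForm (ZMod p) V} (hB : B.IsAlt)
    (hn : ∀ x, (∀ y, B x y = 0) → x = 0) (M : Subgroup (Module.End (ZMod p) V)ˣ)
    (hM : M ≤ SpGroup B) (h : Nat.card (SpGroup B) < p * Nat.card M) : M = SpGroup B := by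
  have hfe : Finite (Module.End (ZMod p) V) :=
    Finite.of_injective (fun f : Module.End (ZMod p) V => (f : V → V)) DFunLike.coe_injective
  have hfu : Finite (Module.End (ZMod p) V)ˣ := inferInstance
  refine le_antisymm hM ?_
  rw [← TvGroup_eq hB hn]
  unfold TvGroup
  rw [Subgroup.closure_le]
  rintro t ⟨u, c, rfl⟩
  refine mem_of_index_lt p (Fact.out : p.Prime) (SpGroup B) M hM h _ (tv_mem hB u c) ?_
  rw [tv_pow, CharP.cast_eq_zero, zero_mul, tv_zero]

end Pool.Agent.MP971469
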