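import Pool.Agent.Lib.MP_971469_al.P5_CardM
import Pool.Agent.Lib.MP_971469_al.S7_Card
import Pool.Agent.Lib.MP_971469_al.S8_Index

/-! P6: the overgroup theorem. -/

namespace Pool.Agent.MP971469

namespace Data

variable {p r : ℕ} [Fact p.Prime] {E : Type} [Field E] [Finite E] [Algebra (ZMod p) E]

/-- Proof: `card_SpGroup_le` with `finrank_VV`. -/
theorem card_Sp_le (S : Data p r E) : Nat.card S.Sp ≤ p ^ (2 * r ^ 2 + r) := by
  have h := card_SpGroup_le S.B_isAlt S.B_nondeg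
  rw [S.finrank_VV, Nat.card_zmod] at h
  have h2 : 2 * r * (2 * r + 1) / 2 = 2 * r ^ 2 + r := by
    rw [show 2 * r * (2 * r + 1) = (2 * r ^ 2 + r) * 2 by ring]
    exact Nat.mul_div_cancel _ (by norm_num)
  rw [h2] at h
  exact h

/-- Pure arithmetic: with `d = 2r²+r`, `c = 2 r d²`, `(2c)^d < p`, `m = (p-1)/c`: `c m < p` and
`p^d ≤ (2c)^d m^d < p m^d`. -/
theorem exists_m (p r : ℕ) (hr : 1 ≤ r)
    (hp : (4 * r * (2 * r ^ 2 + r) ^ 2) ^ (2 * r ^ 2 + r) < p) :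
    ∃ m : ℕ, (2 * r ^ 2 + r) * (2 * r) * ((2 * r ^ 2 + r) * m) < p ∧
      p ^ (2 * r ^ 2 + r) < p * m ^ (2 * r ^ 2 + r) := by
  have hd1 : 1 ≤ 2 * r ^ 2 + r := by omega
  generalize hd : 2 * r ^ 2 + r = d at *
  have hc1 : 1 ≤ 2 * r * d ^ 2 := Nat.mul_pos (by omega) (by positivity)
  have hp2 : (2 * (2 * r * d ^ 2)) ^ d < p := by
    rwa [show 2 * (2 * r * d ^ 2) = 4 * r * d ^ 2 by ring]
  have hcp : 2 * (2 * r * d ^ 2) < p :=
    lt_of_le_of_lt (Nat.le_self_pow (by omega) _) hp2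
  generalize hc : 2 * r * d ^ 2 = c at *
  refine ⟨(p - 1) / c, ?_, ?_⟩
  · have h1 : c * ((p - 1) / c) ≤ p - 1 := Nat.mul_div_le _ _
    calc d * (2 * r) * (d * ((p - 1) / c)) = c * ((p - 1) / c) := by rw [← hc]; ring
      _ < p := by omega
  · have h1 : p - 1 < c * ((p - 1) / c + 1) := by
      have := Nat.lt_mul_div_succ (p - 1) (show 0 < c by omega)
      exact this
    have h2 : 1 ≤ (p - 1) / c := (Nat.one_le_div_iff (by omega)).2 (by omega)
    have h3 : p ≤ 2 * c * ((p - 1) / c) := by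
      have h4 : c * 1 ≤ c * ((p - 1) / c) := Nat.mul_le_mul_left c h2
      rw [mul_add, mul_one] at h1
      have h5 : 2 * c * ((p - 1) / c) = c * ((p - 1) / c) + c * ((p - 1) / c) := by ring
      omega
    calc p ^ d ≤ (2 * c * ((p - 1) / c)) ^ d := Nat.pow_le_pow_left h3 d
      _ = (2 * c) ^ d * ((p - 1) / c) ^ d := mul_pow _ _ _
      _ < p * ((p - 1) / c) ^ d := Nat.mul_lt_mul_of_pos_right hp2 (by positivity)

/-- Proof: `part1`; in the first case `card_M_ge` with `m` from `exists_m`, `card_Sp_le` and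
`eq_of_index_lt`. -/
theorem overgroup (S : Data p r E) (hp : (4 * r * (2 * r ^ 2 + r) ^ 2) ^ (2 * r ^ 2 + r) < p)
    (M : Subgroup (AE p E)ˣ) (hT : S.T ≤ M) (hM : M ≤ S.Sp) :
    M = S.Sp ∨ M ≤ S.H S.J ∨ M ≤ S.KF := by
  rcases S.part1 M hT hM with h | h
  · left
    obtain ⟨m, hm1, hm2⟩ := exists_m p r (by have := S.r_ge; omega) hp
    have h1 := S.card_M_ge M hT hM h m hm1
    have h2 : Nat.card S.Sp < p * Nat.card M :=
      calc Nat.card S.Sp ≤ p ^ (2 * r ^ 2 + r) := S.card_Sp_le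
        _ < p * m ^ (2 * r ^ 2 + r) := hm2
        _ ≤ p * Nat.card M := Nat.mul_le_mul_left p h1
    exact eq_of_index_lt S.B_isAlt S.B_nondeg M hM h2
  · exact Or.inr h

end Data

end Pool.Agent.MP971469
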