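import Pool.Agent.Lib.MP_971469_al.Defs

/-! S1: basic facts on symplectic transvections (complete). -/

set_option linter.unusedSectionVars false

namespace Pool.Agent.MP971469

section

variable {K V : Type} [Field K] [AddCommGroup V] [Module K V] {B : LinearMap.BilinForm K V}

theorem pm_le_SpGroup : pm K V ≤ SpGroup B := by
  rintro g (rfl | rfl)
  · exact one_mem _
  · intro x y
    simp

theorem SpGroup_apply {g : (Module.End K V)ˣ} (hg : g ∈ SpGroup B) (x y : V) :
    B ((g : Module.End K V) x) ((g : Module.End K V) y) = B x y := hg x y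

theorem unit_inv_apply (g : (Module.End K V)ˣ) (x : V) :
    ((g⁻¹ : (Module.End K V)ˣ) : Module.End K V) ((g : Module.End K V) x) = x := by
  rw [← Module.End.mul_apply, g.inv_mul, Module.End.one_apply]

theorem unit_apply_inv (g : (Module.End K V)ˣ) (x : V) :
    (g : Module.End K V) (((g⁻¹ : (Module.End K V)ˣ) : Module.End K V) x) = x := by
  rw [← Module.End.mul_apply, g.mul_inv, Module.End.one_apply]

theorem tv_mul (hB : B.IsAlt) (u : V) (c d : K) : tv hB u c * tv hB u d = tv hB u (c + d) := by
  ext v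
  rw [Units.val_mul, Module.End.mul_apply, tv_apply, tv_apply, tv_apply]
  simp only [map_add, LinearMap.add_apply, map_smul, LinearMap.smul_apply, smul_eq_mul, hB u]
  module

theorem tv_zero (hB : B.IsAlt) (u : V) : tv hB u 0 = 1 := by
  ext v
  rw [tv_apply]
  simp

theorem tv_inv (hB : B.IsAlt) (u : V) (c : K) : (tv hB u c)⁻¹ = tv hB u (-c) := by
  rw [inv_eq_iff_mul_eq_one, tv_mul, add_neg_cancel, tv_zero]

theorem tv_conj (hB : B.IsAlt) (g : (Module.End K V)ˣ) (hg : g ∈ SpGroup B) (u : V) (c : K) :
    g * tv hB u c * g⁻¹ = tv hB ((g : Module.End K V) u) c := by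
  ext v
  rw [Units.val_mul, Units.val_mul, Module.End.mul_apply, Module.End.mul_apply, tv_apply, tv_apply,
    map_add, map_smul, unit_apply_inv]
  congr 2
  rw [← SpGroup_apply hg _ u, unit_apply_inv]

theorem tv_smul (hB : B.IsAlt) (a : K) (u : V) (c : K) :
    tv hB (a • u) c = tv hB u (a ^ 2 * c) := by
  ext v
  rw [tv_apply, tv_apply, map_smul, smul_eq_mul, smul_smul]
  congr 2
  ring

/-- A transvection along `u` fixes the vectors orthogonal to `u`. -/
theorem tv_fix (hB : B.IsAlt) (u : V) (c : K) (v : V) (h : B v u = 0) :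
    (tv hB u c : Module.End K V) v = v := by
  rw [tv_apply, h]
  simp

theorem tv_pow (hB : B.IsAlt) (u : V) (c : K) (n : ℕ) : tv hB u c ^ n = tv hB u (n * c) := by
  induction n with
  | zero => simp [tv_zero]
  | succ n ih =>
    rw [pow_succ, ih, tv_mul]
    congr 1
    push_cast
    ring

theorem B_swap (hB : B.IsAlt) (x y : V) : B x y = - B y x := by
  rw [← hB.neg_eq y x]

/-- The subgroup generated by the transvections. -/
def TvGroup (hB : B.IsAlt) : Subgroup (Module.End K V)ˣ :=
  Subgroup.closure {g | ∃ u c, g = tv hB u c}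

theorem tv_mem_TvGroup (hB : B.IsAlt) (u : V) (c : K) : tv hB u c ∈ TvGroup hB :=
  Subgroup.subset_closure ⟨u, c, rfl⟩

theorem TvGroup_le (hB : B.IsAlt) : TvGroup hB ≤ SpGroup B := by
  unfold TvGroup
  rw [Subgroup.closure_le]
  rintro g ⟨u, c, rfl⟩
  exact tv_mem hB u c

instance pm_normal : ((pm K V).subgroupOf (SpGroup B)).Normal where
  conj_mem := by
    rintro ⟨n, hn⟩ hmem ⟨g, hg⟩
    rw [Subgroup.mem_subgroupOf] at hmem ⊢
    simp only at hmem
    rcases hmem with rfl | rfl
    · left
      simp
    · right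
      simp

end

end Pool.Agent.MP971469
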