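import Pool.Agent.Lib.MP_971469_al.S1_Basic

/-! S2: transvections act transitively on nonzero vectors. -/

namespace Pool.Agent.MP971469

private theorem tv_trans_aux {K V : Type} [Field K] [AddCommGroup V] [Module K V]
    {B : LinearMap.BilinForm K V} (hB : B.IsAlt)
    (x y : V) (h : B x y ≠ 0) : ∃ g ∈ TvGroup hB, (g : Module.End K V) x = y := by
  refine ⟨tv hB (y - x) (B x y)⁻¹, tv_mem_TvGroup hB _ _, ?_⟩
  rw [tv_apply, map_sub, hB x, sub_zero, inv_mul_cancel₀ h, one_smul, add_sub_cancel]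

/-- Proof: if `B x y ≠ 0` the transvection along `y - x` with `c = (B x y)⁻¹` maps `x` to `y`
(`B x (y-x) = B x y`). If `B x y = 0` choose `z` with `B x z ≠ 0` and `B z y ≠ 0` (choose `z₁` with
`B x z₁ ≠ 0`, `z₂` with `B z₂ y ≠ 0`; one of `z₁, z₂, z₁+z₂` works) and go through `z`. -/
theorem tv_trans {K V : Type} [Field K] [AddCommGroup V] [Module K V]
    {B : LinearMap.BilinForm K V} (hB : B.IsAlt) (hn : ∀ x, (∀ y, B x y = 0) → x = 0)
    (x y : V) (hx : x ≠ 0) (hy : y ≠ 0) : ∃ g ∈ TvGroup hB, (g : Module.End K V) x = y := by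
  have key : ∃ z, B x z ≠ 0 ∧ B z y ≠ 0 := by
    obtain ⟨z₁, h1⟩ : ∃ z, B x z ≠ 0 := by
      by_contra hcon
      push Not at hcon
      exact hx (hn x hcon)
    obtain ⟨z₂, h2⟩ : ∃ z, B z y ≠ 0 := by
      by_contra hcon
      push Not at hcon
      refine hy (hn y fun z => ?_)
      rw [B_swap hB, hcon z, neg_zero]
    by_cases h3 : B z₁ y = 0
    · by_cases h4 : B x z₂ = 0
      · refine ⟨z₁ + z₂, ?_, ?_⟩
        · rw [map_add, h4, add_zero]
          exact h1
        · rw [map_add, LinearMap.add_apply, h3, zero_add]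
          exact h2
      · exact ⟨z₂, h4, h2⟩
    · exact ⟨z₁, h1, h3⟩
  obtain ⟨z, h1, h2⟩ := key
  obtain ⟨g, hg, hgx⟩ := tv_trans_aux hB x z h1
  obtain ⟨k, hk, hkz⟩ := tv_trans_aux hB z y h2
  refine ⟨k * g, mul_mem hk hg, ?_⟩
  rw [Units.val_mul, Module.End.mul_apply, hgx, hkz]

end Pool.Agent.MP971469
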