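import Pool.Agent.Lib.MP_971469_al.S2_Trans

/-! S3: the symplectic group is generated by transvections. -/

namespace Pool.Agent.MP971469

private theorem s3_case1 {K V : Type} [Field K] [AddCommGroup V] [Module K V]
    {B : LinearMap.BilinForm K V} (hB : B.IsAlt)
    (g : (Module.End K V)ˣ) (hg : g ∈ SpGroup B) (W : Submodule K V)
    (hW : ∀ w ∈ W, (g : Module.End K V) w = w)
    (v : V) (hv : B v ((g : Module.End K V) v) ≠ 0) :
    ∃ t ∈ TvGroup hB, ∃ v : V, v ∉ W ∧ ((t * g : (Module.End K V)ˣ) : Module.End K V) v = v ∧
      ∀ w ∈ W, ((t * g : (Module.End K V)ˣ) : Module.End K V) w = w := by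
  refine ⟨tv hB ((g : Module.End K V) v - v) (-(B v ((g : Module.End K V) v))⁻¹),
    tv_mem_TvGroup hB _ _, v, ?_, ?_, ?_⟩
  · intro hvW
    rw [hW v hvW, hB v] at hv
    exact hv rfl
  · rw [Units.val_mul, Module.End.mul_apply, tv_apply, map_sub, hB, B_swap hB _ v, zero_sub, neg_neg,
      neg_mul, inv_mul_cancel₀ hv]
    module
  · intro w hw
    rw [Units.val_mul, Module.End.mul_apply, hW w hw]
    apply tv_fix
    have h1 : B w ((g : Module.End K V) v) = B w v := by
      conv_lhs => rw [← hW w hw]
      exact SpGroup_apply hg w v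
    rw [map_sub, h1, sub_self]

/-- One step. Let `g ∈ Sp`, `g ≠ 1`, and suppose that `g` fixes every vector of a subspace `W`.
Then there are `t ∈ TvGroup` and a vector `v ∉ W` such that `t * g` fixes all vectors of `W` and
fixes `v`. Proof: (1) If `B v (g v) ≠ 0` for some `v`: `t` = transvection along `g v - v` with
`t (g v) = v` (or the inverse of the one mapping `v` to `g v`); for `w ∈ W`,
`B w (g v - v) = B (g w) (g v) - B w v = 0`, so `t` fixes `W`; `v ∉ W` since `g v ≠ v`.
(2) If `B v (g v) = 0` for all `v`: choose `x` with `u := g x - x ≠ 0`; `u` is orthogonal to `W`, so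
`t₁ = tv u 1` fixes `W`, and `B v (t₁ g v) = B v (g v) + B (g v) u * B v u = B (g v) u * B v u`, which
is nonzero for some `v` (two proper subspaces do not cover `V`); apply (1) to `t₁ g`. -/
theorem step_fix {K V : Type} [Field K] [AddCommGroup V] [Module K V]
    {B : LinearMap.BilinForm K V} (hB : B.IsAlt) (hn : ∀ x, (∀ y, B x y = 0) → x = 0)
    (g : (Module.End K V)ˣ) (hg : g ∈ SpGroup B) (hg1 : g ≠ 1) (W : Submodule K V)
    (hW : ∀ w ∈ W, (g : Module.End K V) w = w) :
    ∃ t ∈ TvGroup hB, ∃ v : V, v ∉ W ∧ ((t * g : (Module.End K V)ˣ) : Module.End K V) v = v ∧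
      ∀ w ∈ W, ((t * g : (Module.End K V)ˣ) : Module.End K V) w = w := by
  by_cases h : ∃ v, B v ((g : Module.End K V) v) ≠ 0
  · obtain ⟨v, hv⟩ := h
    exact s3_case1 hB g hg W hW v hv
  · push Not at h
    obtain ⟨x, hx⟩ : ∃ x, (g : Module.End K V) x ≠ x := by
      by_contra hcon
      push Not at hcon
      apply hg1
      ext x
      exact hcon x
    set u : V := (g : Module.End K V) x - x with hu
    have hu0 : u ≠ 0 := sub_ne_zero.2 hx
    have huW : ∀ w ∈ W, B w u = 0 := by
      intro w hw
      have h1 : B w ((g : Module.End K V) x) = B w x := by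
        conv_lhs => rw [← hW w hw]
        exact SpGroup_apply hg w x
      rw [hu, map_sub, h1, sub_self]
    obtain ⟨y, hy⟩ : ∃ y, B y u ≠ 0 := by
      by_contra hcon
      push Not at hcon
      apply hu0
      apply hn
      intro y
      rw [B_swap hB, hcon y, neg_zero]
    obtain ⟨v, hv1, hv2⟩ : ∃ v, B v u ≠ 0 ∧ B ((g : Module.End K V) v) u ≠ 0 := by
      set y' : V := ((g⁻¹ : (Module.End K V)ˣ) : Module.End K V) y with hy'
      have h2 : B ((g : Module.End K V) y') u ≠ 0 := by
        rw [hy', unit_apply_inv]
        exact hy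
      by_cases h3 : B ((g : Module.End K V) y) u = 0
      · by_cases h4 : B y' u = 0
        · refine ⟨y + y', ?_, ?_⟩
          · rw [map_add, LinearMap.add_apply, h4, add_zero]
            exact hy
          · rw [map_add, map_add, LinearMap.add_apply, h3, zero_add]
            exact h2
        · exact ⟨y', h4, h2⟩
      · exact ⟨y, hy, h3⟩
    have ht1 : tv hB u 1 ∈ TvGroup hB := tv_mem_TvGroup hB _ _
    have htg : tv hB u 1 * g ∈ SpGroup B := mul_mem (TvGroup_le hB ht1) hg
    have hW' : ∀ w ∈ W, ((tv hB u 1 * g : (Module.End K V)ˣ) : Module.End K V) w = w := by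
      intro w hw
      rw [Units.val_mul, Module.End.mul_apply, hW w hw]
      exact tv_fix hB u 1 w (huW w hw)
    have hv3 : B v (((tv hB u 1 * g : (Module.End K V)ˣ) : Module.End K V) v) ≠ 0 := by
      rw [Units.val_mul, Module.End.mul_apply, tv_apply, map_add, h v, zero_add, one_mul, map_smul,
        smul_eq_mul]
      exact mul_ne_zero hv2 hv1
    obtain ⟨t, ht, v', hv', hv'', hw''⟩ := s3_case1 hB _ htg W hW' v hv3
    refine ⟨t * tv hB u 1, mul_mem ht ht1, v', hv', ?_, ?_⟩
    · rw [mul_assoc]
      exact hv''
    · intro w hw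
      rw [mul_assoc]
      exact hw'' w hw

/-- Proof: induction on the codimension of the space of vectors fixed by `g`, with `step_fix`. -/
theorem TvGroup_eq {K V : Type} [Field K] [AddCommGroup V] [Module K V] [FiniteDimensional K V]
    {B : LinearMap.BilinForm K V} (hB : B.IsAlt) (hn : ∀ x, (∀ y, B x y = 0) → x = 0) :
    TvGroup hB = SpGroup B := by
  apply le_antisymm (TvGroup_le hB)
  have key : ∀ n : ℕ, ∀ g ∈ SpGroup B, Module.finrank K V ≤
      n + Module.finrank K (LinearMap.ker ((g : Module.End K V) - 1)) → g ∈ TvGroup hB := by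
    intro n
    induction n with
    | zero =>
      intro g _ h
      have h1 : LinearMap.ker ((g : Module.End K V) - 1) = ⊤ := by
        apply Submodule.eq_top_of_finrank_eq
        apply le_antisymm (Submodule.finrank_le _)
        simpa using h
      have h2 : g = 1 := by
        ext x
        have h3 : x ∈ LinearMap.ker ((g : Module.End K V) - 1) := by
          rw [h1]
          exact Submodule.mem_top
        rw [LinearMap.mem_ker, LinearMap.sub_apply, sub_eq_zero] at h3
        exact h3
      rw [h2]
      exact one_mem _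
    | succ n ih =>
      intro g hg h
      by_cases hg1 : g = 1
      · rw [hg1]
        exact one_mem _
      · obtain ⟨t, ht, v, hv, hv1, hw⟩ := step_fix hB hn g hg hg1
          (LinearMap.ker ((g : Module.End K V) - 1)) (by
            intro w hw
            rw [LinearMap.mem_ker, LinearMap.sub_apply, sub_eq_zero] at hw
            exact hw)
        have htg : t * g ∈ SpGroup B := mul_mem (TvGroup_le hB ht) hg
        have hlt : LinearMap.ker ((g : Module.End K V) - 1) <
            LinearMap.ker (((t * g : (Module.End K V)ˣ) : Module.End K V) - 1) := by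
          refine lt_of_le_of_ne ?_ ?_
          · intro w hw'
            rw [LinearMap.mem_ker, LinearMap.sub_apply, sub_eq_zero]
            exact hw w hw'
          · intro heq
            apply hv
            rw [heq, LinearMap.mem_ker, LinearMap.sub_apply, sub_eq_zero]
            exact hv1
        have h3 := Submodule.finrank_lt_finrank_of_lt hlt
        have h4 := ih (t * g) htg (by omega)
        have h5 : g = t⁻¹ * (t * g) := by group
        rw [h5]
        exact mul_mem (inv_mem ht) h4
  intro g hg
  exact key (Module.finrank K V) g hg (by omega)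

end Pool.Agent.MP971469
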