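import Pool.Agent.Lib.MP_971469_al.S3_Gen

/-! S4: the symplectic group is perfect (if some `a ∈ K` has `a ≠ 0`, `a² ≠ 1`). -/

open scoped commutatorElement

namespace Pool.Agent.MP971469

/-- Proof: let `u ≠ 0`, `g ∈ Sp` with `g u = a • u` (transitivity, `tv_trans` and `TvGroup_le`).
Then `g * tv u c * g⁻¹ * (tv u c)⁻¹ = tv (a • u) c * tv u (-c) = tv u ((a²-1) c)`, so all
transvections are commutators; they generate (`TvGroup_eq`). -/
theorem commutator_eq_top {K V : Type} [Field K] [AddCommGroup V] [Module K V]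
    [FiniteDimensional K V] {B : LinearMap.BilinForm K V} (hB : B.IsAlt)
    (hn : ∀ x, (∀ y, B x y = 0) → x = 0) (hK : ∃ a : K, a ≠ 0 ∧ a ^ 2 ≠ 1) :
    commutator (SpGroup B) = ⊤ := by
  obtain ⟨a, ha, ha2⟩ := hK
  -- the image of the commutator subgroup in the ambient group contains all transvections
  have h1 : TvGroup hB ≤ (commutator (SpGroup B)).map (SpGroup B).subtype := by
    unfold TvGroup
    rw [Subgroup.closure_le]
    rintro t ⟨u, c, rfl⟩
    by_cases hu : u = 0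
    · have : tv hB u c = 1 := by
        ext v
        rw [tv_apply, hu, smul_zero, add_zero, Units.val_one, Module.End.one_apply]
      rw [this]
      exact one_mem _
    · obtain ⟨g, hg, hgu⟩ := tv_trans hB hn u (a • u) hu (smul_ne_zero ha hu)
      have hgS : g ∈ SpGroup B := TvGroup_le hB hg
      have ha3 : a ^ 2 - 1 ≠ 0 := sub_ne_zero.2 ha2
      have e1 : g * tv hB u ((a ^ 2 - 1)⁻¹ * c) * g⁻¹ * (tv hB u ((a ^ 2 - 1)⁻¹ * c))⁻¹ =
          tv hB u c := by
        rw [tv_conj hB g hgS, hgu, tv_smul, tv_inv, tv_mul]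
        congr 1
        have : a ^ 2 * ((a ^ 2 - 1)⁻¹ * c) + -((a ^ 2 - 1)⁻¹ * c) =
          ((a ^ 2 - 1) * (a ^ 2 - 1)⁻¹) * c := by ring
        rw [this, mul_inv_cancel₀ ha3, one_mul]
      rw [SetLike.mem_coe, Subgroup.mem_map]
      refine ⟨⁅(⟨g, hgS⟩ : SpGroup B), ⟨tv hB u ((a ^ 2 - 1)⁻¹ * c), tv_mem hB _ _⟩⁆, ?_, ?_⟩
      · rw [commutator_def]
        exact Subgroup.commutator_mem_commutator (Subgroup.mem_top _) (Subgroup.mem_top _)
      · rw [commutatorElement_def]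
        exact e1
  rw [TvGroup_eq hB hn] at h1
  rw [eq_top_iff]
  rintro ⟨g, hg⟩ -
  obtain ⟨k, hk, hkg⟩ := Subgroup.mem_map.1 (h1 hg)
  have : k = ⟨g, hg⟩ := Subtype.ext hkg
  rw [← this]
  exact hk

end Pool.Agent.MP971469
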