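import Pool.Agent.Lib.MP_971469_al.S2_Trans

/-! S5: primitivity of the symplectic group on lines, in terms of vectors. -/

namespace Pool.Agent.MP971469

private theorem S5_Block_step {K V : Type} [Field K] [AddCommGroup V] [Module K V]
    {B : LinearMap.BilinForm K V} (hB : B.IsAlt)
    (x y y' : V) (h' : B x y' = B x y) (h2 : B y y' ≠ 0) :
    ∃ g ∈ SpGroup B, (g : Module.End K V) x = x ∧ (g : Module.End K V) y = y' := by
  refine ⟨tv hB (y' - y) (B y y')⁻¹, tv_mem hB _ _, ?_, ?_⟩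
  · apply tv_fix
    rw [map_sub, h', sub_self]
  · rw [tv_apply, map_sub, hB y, sub_zero, inv_mul_cancel₀ h2, one_smul, add_sub_cancel]

/-- If `B x y ≠ 0`, then every `y'` with `B x y' = B x y` is `g y` for some `g ∈ Sp` with
`g x = x`. Proof: if `B y y' ≠ 0` use the transvection along `y' - y` (it fixes `x`). Otherwise
choose `y''` with `B x y'' = B x y`, `B y y'' ≠ 0`, `B y'' y' ≠ 0` (for instance `y'' = y + t x` when
`y' = y`...; in general take `y'' = α x + y + β z`; or note: if `B y y' = 0` then `y'' = x + y`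
satisfies `B x y'' = B x y`, `B y y'' = B y x ≠ 0`, and `B y'' y' = B x y' + B y y' = B x y ≠ 0`). -/
theorem stab_trans {K V : Type} [Field K] [AddCommGroup V] [Module K V]
    {B : LinearMap.BilinForm K V} (hB : B.IsAlt)
    (x y y' : V) (h : B x y ≠ 0) (h' : B x y' = B x y) :
    ∃ g ∈ SpGroup B, (g : Module.End K V) x = x ∧ (g : Module.End K V) y = y' := by
  by_cases h2 : B y y' = 0
  · have e1 : B x (x + y) = B x y := by rw [map_add, hB x, zero_add]
    have e2 : B y (x + y) ≠ 0 := by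
      rw [map_add, hB y, add_zero, B_swap hB]
      exact neg_ne_zero.2 h
    have e3 : B x y' = B x (x + y) := by rw [e1, h']
    have e4 : B (x + y) y' ≠ 0 := by
      rw [map_add, LinearMap.add_apply, h2, add_zero, h']
      exact h
    obtain ⟨g1, m1, a1, b1⟩ := S5_Block_step hB x y (x + y) e1 e2
    obtain ⟨g2, m2, a2, b2⟩ := S5_Block_step hB x (x + y) y' e3 e4
    refine ⟨g2 * g1, mul_mem m2 m1, ?_, ?_⟩
    · rw [Units.val_mul, Module.End.mul_apply, a1, a2]
    · rw [Units.val_mul, Module.End.mul_apply, b1, b2]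
  · exact S5_Block_step hB x y y' h' h2

/-- two nonzero vectors are simultaneously non-orthogonal to some vector -/
private theorem S5_Block_two {K V : Type} [Field K] [AddCommGroup V] [Module K V]
    {B : LinearMap.BilinForm K V} (hn : ∀ x, (∀ y, B x y = 0) → x = 0) (x w : V) (hx : x ≠ 0)
    (hw : w ≠ 0) : ∃ z, B x z ≠ 0 ∧ B w z ≠ 0 := by
  obtain ⟨z1, h1⟩ : ∃ z, B x z ≠ 0 := by
    by_contra hc
    push Not at hc
    exact hx (hn x hc)
  obtain ⟨z2, h2⟩ : ∃ z, B w z ≠ 0 := by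
    by_contra hc
    push Not at hc
    exact hw (hn w hc)
  by_cases h3 : B w z1 = 0
  · by_cases h4 : B x z2 = 0
    · refine ⟨z1 + z2, ?_, ?_⟩
      · rw [map_add, h4, add_zero]
        exact h1
      · rw [map_add, h3, zero_add]
        exact h2
    · exact ⟨z2, h4, h2⟩
  · exact ⟨z1, h1, h3⟩

/-- `x ^ ⊥` is not contained in `y ^ ⊥` -/
private theorem S5_Block_perp {K V : Type} [Field K] [AddCommGroup V] [Module K V]
    {B : LinearMap.BilinForm K V} (hn : ∀ x, (∀ y, B x y = 0) → x = 0) (x y : V) (hx : x ≠ 0)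
    (hxy : ∀ a : K, y ≠ a • x) : ∃ z, B x z = 0 ∧ B y z ≠ 0 := by
  by_contra hc
  push Not at hc
  obtain ⟨w, hw⟩ : ∃ z, B x z ≠ 0 := by
    by_contra hc
    push Not at hc
    exact hx (hn x hc)
  apply hxy (B y w / B x w)
  rw [← sub_eq_zero]
  apply hn
  intro v
  have h1 := hc (v - (B x v / B x w) • w) (by
    rw [map_sub, map_smul, smul_eq_mul, div_mul_cancel₀ _ hw, sub_self])
  rw [map_sub, map_smul, smul_eq_mul, sub_eq_zero] at h1
  rw [map_sub, LinearMap.sub_apply, map_smul, LinearMap.smul_apply, smul_eq_mul, h1]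
  field_simp
  ring

/-- A set `P` of nonzero vectors, closed under nonzero scalars, which is a block for `Sp` and
contains two non-proportional vectors, contains all nonzero vectors.
Proof. (1) `P` contains `x, y` with `B x y ≠ 0`: if `B x y = 0` for the given ones, choose `z` with
`B x z = 0`, `B y z ≠ 0` (exists because `x, y` are not proportional and `B` is nondegenerate: otherwise
`x^⊥ ⊆ y^⊥`); the transvection `t` along `z` fixes `x`, so `t P = P`, so `t y = y + c z ∈ P`, and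
`B y (y + B y z • z) = (B y z)^2 ≠ 0`. (2) If `x, y ∈ P`, `B x y ≠ 0`, then every `y'` with
`B x y' ≠ 0` is in `P`: scale `y'` so that `B x y' = B x y`, apply `stab_trans` (`g x = x ∈ P`, so
`g P = P`). (3) For `w ≠ 0` choose `y'` with `B x y' ≠ 0` and `B w y' ≠ 0`; then `y' ∈ P` by (2), and by
(2) applied to the pair `y', x` (`B y' x ≠ 0`) we get `w ∈ P`. -/
theorem block_top {K V : Type} [Field K] [AddCommGroup V] [Module K V] [FiniteDimensional K V]
    {B : LinearMap.BilinForm K V} (hB : B.IsAlt) (hn : ∀ x, (∀ y, B x y = 0) → x = 0)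
    (P : Set V) (h0 : ∀ v ∈ P, v ≠ 0) (hs : ∀ v ∈ P, ∀ a : K, a ≠ 0 → a • v ∈ P)
    (hblock : ∀ g ∈ SpGroup B, (∀ v ∈ P, (g : Module.End K V) v ∉ P) ∨
      (∀ v, v ∈ P ↔ (g : Module.End K V) v ∈ P))
    (x y : V) (hx : x ∈ P) (hy : y ∈ P) (hxy : ∀ a : K, y ≠ a • x) : ∀ v, v ≠ 0 → v ∈ P := by
  -- an element of the group which fixes a vector of `P` preserves `P`
  have fixP : ∀ g ∈ SpGroup B, ∀ a ∈ P, (g : Module.End K V) a = a → ∀ v ∈ P,
      (g : Module.End K V) v ∈ P := by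
    intro g hg a ha hga v hv
    rcases hblock g hg with h | h
    · exact absurd (by rw [hga]; exact ha) (h a ha)
    · exact (h v).1 hv
  -- step 1
  obtain ⟨y1, hy1, hxy1⟩ : ∃ y1 ∈ P, B x y1 ≠ 0 ∨ ∃ x1 ∈ P, B x1 y1 ≠ 0 := by
    by_cases h : B x y = 0
    · obtain ⟨z, hz1, hz2⟩ := S5_Block_perp hn x y (h0 x hx) hxy
      have ht := fixP (tv hB z 1) (tv_mem hB z 1) x hx (tv_fix hB z 1 x hz1) y hy
      refine ⟨_, ht, Or.inr ⟨y, hy, ?_⟩⟩
      rw [tv_apply, map_add, map_smul, hB y, zero_add, one_mul, smul_eq_mul]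
      exact mul_ne_zero hz2 hz2
    · exact ⟨y, hy, Or.inl h⟩
  obtain ⟨x1, hx1, h1⟩ : ∃ x1 ∈ P, B x1 y1 ≠ 0 := by
    rcases hxy1 with h | h
    · exact ⟨x, hx, h⟩
    · exact h
  -- step 2
  have step2 : ∀ a ∈ P, ∀ b ∈ P, B a b ≠ 0 → ∀ c, B a c ≠ 0 → c ∈ P := by
    intro a ha b hb hab c hac
    have e : B a ((B a b / B a c) • c) = B a b := by
      rw [map_smul, smul_eq_mul, div_mul_cancel₀ _ hac]
    obtain ⟨g, hg, g1, g2⟩ := stab_trans hB a b _ hab e
    have h2 := fixP g hg a ha g1 b hb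
    rw [g2] at h2
    have h3 := hs _ h2 (B a c / B a b) (div_ne_zero hac hab)
    rw [smul_smul] at h3
    have e2 : B a c / B a b * (B a b / B a c) = 1 := by field_simp
    rw [e2, one_smul] at h3
    exact h3
  -- step 3
  intro w hw
  obtain ⟨z, hz1, hz2⟩ := S5_Block_two hn x1 w (h0 x1 hx1) hw
  have hz := step2 x1 hx1 y1 hy1 h1 z hz1
  have hzx : B z x1 ≠ 0 := by
    rw [B_swap hB]
    exact neg_ne_zero.2 hz1
  have hzw : B z w ≠ 0 := by
    rw [B_swap hB]
    exact neg_ne_zero.2 hz2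
  exact step2 z hz x1 hx1 hzx w hzw

end Pool.Agent.MP971469
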