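import Pool.Agent.Lib.MP_971469_al.S4_Perfect
import Pool.Agent.Lib.MP_971469_al.S5_Block

/-! S6: normal subgroups of the symplectic group; simplicity of `Sp/{1,-1}`. -/

namespace Pool.Agent.MP971469

private theorem S6_neg_mul_self {K : Type} [Field K] {a : K} (h : a * a = 1) : a = 1 ∨ a = -1 := by
  have h1 : (a - 1) * (a + 1) = 0 := by
    ring_nf
    rw [pow_two, h]
    ring
  rcases mul_eq_zero.1 h1 with h2 | h2
  · left
    exact sub_eq_zero.1 h2
  · right
    exact eq_neg_of_add_eq_zero_left h2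

/-- an element of `Sp` which maps every vector to a multiple of it is `1` or `-1` -/
private theorem S6_scalar {K V : Type} [Field K] [AddCommGroup V] [Module K V]
    [Nontrivial V] {B : LinearMap.BilinForm K V}
    (hn : ∀ x, (∀ y, B x y = 0) → x = 0) (g : (Module.End K V)ˣ) (hg : g ∈ SpGroup B)
    (h : ∀ x : V, ∃ a : K, (g : Module.End K V) x = a • x) : g ∈ pm K V := by
  obtain ⟨x₀, hx₀⟩ := exists_ne (0 : V)
  obtain ⟨a, ha⟩ := h x₀
  -- all the scalars are equal
  have hall : ∀ x : V, (g : Module.End K V) x = a • x := by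
    intro x
    by_cases hx : ∃ c : K, x = c • x₀
    · obtain ⟨c, rfl⟩ := hx
      rw [map_smul, ha, smul_comm]
    · obtain ⟨b, hb⟩ := h x
      obtain ⟨d, hd⟩ := h (x + x₀)
      rw [map_add, ha, hb] at hd
      have h1 : (b - d) • x = (d - a) • x₀ := by
        have h2 : b • x + a • x₀ - (d • x + a • x₀) = d • (x + x₀) - (d • x + a • x₀) := by
          rw [hd]
        have h3 : (b - d) • x = b • x + a • x₀ - (d • x + a • x₀) := by module
        have h4 : d • (x + x₀) - (d • x + a • x₀) = (d - a) • x₀ := by module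
        rw [h3, h2, h4]
      by_cases hbd : b - d = 0
      · rw [hbd, zero_smul] at h1
        rcases smul_eq_zero.1 h1.symm with h5 | h5
        · rw [hb, sub_eq_zero.1 hbd, sub_eq_zero.1 h5]
        · exact absurd h5 hx₀
      · exfalso
        apply hx
        refine ⟨(b - d)⁻¹ * (d - a), ?_⟩
        rw [mul_smul, ← h1, smul_smul, inv_mul_cancel₀ hbd, one_smul]
  obtain ⟨y₀, hy₀⟩ : ∃ y, B x₀ y ≠ 0 := by
    by_contra hcon
    push Not at hcon
    exact hx₀ (hn x₀ hcon)
  have h1 := hg x₀ y₀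
  rw [hall, hall, map_smul, map_smul, LinearMap.smul_apply, smul_eq_mul, smul_eq_mul,
    ← mul_assoc] at h1
  have h2 : a * a = 1 := by
    refine mul_right_cancel₀ hy₀ ?_
    rw [h1, one_mul]
  rcases S6_neg_mul_self h2 with rfl | rfl
  · left
    ext x
    rw [hall, one_smul]
    simp
  · right
    ext x
    rw [hall]
    simp

/-- the transvections along `u` -/
private def S6_T {K V : Type} [Field K] [AddCommGroup V] [Module K V]
    {B : LinearMap.BilinForm K V} (hB : B.IsAlt) (u : V) : Subgroup (SpGroup B) where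
  carrier := {g | ∃ c, (g : (Module.End K V)ˣ) = tv hB u c}
  mul_mem' := by
    rintro a b ⟨c, hc⟩ ⟨d, hd⟩
    exact ⟨c + d, by rw [Subgroup.coe_mul, hc, hd, tv_mul]⟩
  one_mem' := ⟨0, by rw [tv_zero, Subgroup.coe_one]⟩
  inv_mem' := by
    rintro a ⟨c, hc⟩
    exact ⟨-c, by rw [Subgroup.coe_inv, hc, tv_inv]⟩

/-- Proof (Iwasawa; `MulAction.IwasawaStructure.commutator_le` in Mathlib may be used with the action
on lines, or argue directly). `Sp` acts on the set of lines `⟨v⟩`, transitively (`tv_trans`),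
primitively (`block_top`). For a line `ℓ = ⟨u⟩` let `T ℓ = {tv u c}` (independent of `u` by `tv_smul`);
it is commutative, `g (T ℓ) g⁻¹ = T (g ℓ)` (`tv_conj`), and these subgroups generate (`TvGroup_eq`).
So a normal subgroup `N` which moves some line contains `commutator Sp = ⊤`
(`commutator_eq_top`). If `N` fixes every line, then each `g ∈ N` is a scalar (`g v = a_v • v` for all
`v`, so `a_v` is constant), and a scalar in `Sp` is `1` or `-1` (`a² B x y = B x y`). -/
theorem normal_dichotomy {K V : Type} [Field K] [AddCommGroup V] [Module K V]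
    [FiniteDimensional K V] [Nontrivial V] {B : LinearMap.BilinForm K V} (hB : B.IsAlt)
    (hn : ∀ x, (∀ y, B x y = 0) → x = 0) (hK : ∃ a : K, a ≠ 0 ∧ a ^ 2 ≠ 1)
    (N : Subgroup (SpGroup B)) (hN : N.Normal) :
    N = ⊤ ∨ ∀ g ∈ N, (g : (Module.End K V)ˣ) ∈ pm K V := by
  by_cases hall : ∀ g ∈ N, (g : (Module.End K V)ˣ) ∈ pm K V
  · exact Or.inr hall
  left
  push Not at hall
  obtain ⟨g₀, hg₀, hg₀'⟩ := hall
  -- a vector not mapped to a multiple
  obtain ⟨x₀, hx₀⟩ : ∃ x₀ : V, ∀ a : K,
      ((g₀ : (Module.End K V)ˣ) : Module.End K V) x₀ ≠ a • x₀ := by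
    by_contra hcon
    push Not at hcon
    exact hg₀' (S6_scalar hn _ g₀.2 hcon)
  have hx0 : x₀ ≠ 0 := by
    rintro rfl
    exact hx₀ 0 (by simp)
  -- the orbit of the line of `x₀`
  let P : Set V := {v | v ≠ 0 ∧ ∃ n ∈ N, ∃ a : K, a ≠ 0 ∧
    ((n : (Module.End K V)ˣ) : Module.End K V) x₀ = a • v}
  have hsp : ∀ (g : (Module.End K V)ˣ) (v : V), v ≠ 0 → (g : Module.End K V) v ≠ 0 := by
    intro g v hv h
    apply hv
    rw [← unit_inv_apply g v, h, map_zero]
  have hP : ∀ v, v ≠ 0 → v ∈ P := by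
    have hxP : x₀ ∈ P := ⟨hx0, 1, one_mem _, 1, one_ne_zero, by simp⟩
    have hgP : ((g₀ : (Module.End K V)ˣ) : Module.End K V) x₀ ∈ P :=
      ⟨hsp _ _ hx0, g₀, hg₀, 1, one_ne_zero, by simp⟩
    refine block_top hB hn P (fun v hv => hv.1) ?_ ?_ x₀ _ hxP hgP hx₀
    · rintro v ⟨hv, n, hnN, a, ha, h⟩ b hb
      refine ⟨smul_ne_zero hb hv, n, hnN, a * b⁻¹, mul_ne_zero ha (inv_ne_zero hb), ?_⟩
      rw [h, smul_smul, mul_assoc, inv_mul_cancel₀ hb, mul_one]
    · intro g hg
      by_cases hex : ∃ v ∈ P, (g : Module.End K V) v ∈ P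
      · right
        obtain ⟨v, ⟨hv, n, hnN, a, ha, h⟩, ⟨hv', m, hmN, b, hb, h'⟩⟩ := hex
        -- `n x₀ = a v`, `m x₀ = b g v`
        have hgv : (g : Module.End K V) v = a⁻¹ • (g : Module.End K V)
            (((n : (Module.End K V)ˣ) : Module.End K V) x₀) := by
          rw [h, map_smul, smul_smul, inv_mul_cancel₀ ha, one_smul]
        have hgn : (g : Module.End K V) (((n : (Module.End K V)ˣ) : Module.End K V) x₀) =
            (a * b⁻¹) • ((m : (Module.End K V)ˣ) : Module.End K V) x₀ := by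
          rw [h', h, map_smul, smul_smul, mul_assoc, inv_mul_cancel₀ hb, mul_one]
        intro w
        constructor
        · rintro ⟨hw, k, hkN, c, hc, hk⟩
          refine ⟨hsp _ _ hw, (⟨g, hg⟩ * (k * n⁻¹) * (⟨g, hg⟩ : SpGroup B)⁻¹) * m,
            mul_mem (hN.conj_mem _ (mul_mem hkN (inv_mem hnN)) _) hmN,
            (a * b⁻¹)⁻¹ * c, mul_ne_zero (inv_ne_zero (mul_ne_zero ha (inv_ne_zero hb))) hc, ?_⟩
          have h1 : ((m : (Module.End K V)ˣ) : Module.End K V) x₀ =
              (a * b⁻¹)⁻¹ • (g : Module.End K V)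
                (((n : (Module.End K V)ˣ) : Module.End K V) x₀) := by
            rw [hgn, smul_smul, inv_mul_cancel₀ (mul_ne_zero ha (inv_ne_zero hb)), one_smul]
          simp only [Subgroup.coe_mul, Subgroup.coe_inv, Units.val_mul, Module.End.mul_apply]
          rw [h1, map_smul, map_smul, map_smul, map_smul, unit_inv_apply, unit_inv_apply, hk,
            map_smul, smul_smul]
        · rintro ⟨-, k, hkN, c, hc, hk⟩
          -- `k x₀ = c g w`
          have hw : w ≠ 0 := by
            rintro rfl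
            rw [map_zero, smul_zero] at hk
            exact hsp _ _ hx0 hk
          refine ⟨hw, ((⟨g, hg⟩ : SpGroup B)⁻¹ * (k * m⁻¹) * (⟨g, hg⟩ : SpGroup B)⁻¹⁻¹) * n,
            mul_mem (hN.conj_mem _ (mul_mem hkN (inv_mem hmN)) _) hnN,
            (a * b⁻¹) * c, mul_ne_zero (mul_ne_zero ha (inv_ne_zero hb)) hc, ?_⟩
          simp only [Subgroup.coe_mul, Subgroup.coe_inv, Units.val_mul, Module.End.mul_apply,
            inv_inv]
          rw [hgn, map_smul, map_smul, map_smul, unit_inv_apply, hk, map_smul, unit_inv_apply,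
            smul_smul]
      · left
        push Not at hex
        exact hex
  -- the quotient is commutative
  have hcomm : IsMulCommutative (S6_T hB x₀) := by
    refine ⟨⟨?_⟩⟩
    rintro ⟨⟨a, ha⟩, c, hc⟩ ⟨⟨b, hb⟩, d, hd⟩
    simp only at hc hd
    subst hc hd
    refine Subtype.ext (Subtype.ext ?_)
    show tv hB x₀ c * tv hB x₀ d = tv hB x₀ d * tv hB x₀ c
    rw [tv_mul, tv_mul, add_comm]
  have htop : N ⊔ S6_T hB x₀ = ⊤ := by
    have h1 : TvGroup hB ≤ (N ⊔ S6_T hB x₀).map (SpGroup B).subtype := by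
      unfold TvGroup
      rw [Subgroup.closure_le]
      rintro g ⟨u, c, rfl⟩
      by_cases hu : u = 0
      · subst hu
        have h2 : tv hB (0 : V) c = 1 := by
          ext v
          rw [tv_apply]
          simp
        rw [h2]
        exact one_mem _
      · obtain ⟨-, n, hnN, a, ha, h⟩ := hP u hu
        have h2 : u = a⁻¹ • ((n : (Module.End K V)ˣ) : Module.End K V) x₀ := by
          rw [h, smul_smul, inv_mul_cancel₀ ha, one_smul]
        have h3 : tv hB u c = (n : (Module.End K V)ˣ) * tv hB x₀ (a⁻¹ ^ 2 * c) *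
            (n : (Module.End K V)ˣ)⁻¹ := by
          rw [tv_conj hB _ n.2, h2, tv_smul]
        refine ⟨n * ⟨tv hB x₀ (a⁻¹ ^ 2 * c), tv_mem hB x₀ _⟩ * n⁻¹, ?_, ?_⟩
        · refine mul_mem (mul_mem (Subgroup.mem_sup_left hnN) (Subgroup.mem_sup_right ?_))
            (Subgroup.mem_sup_left (inv_mem hnN))
          exact ⟨_, rfl⟩
        · rw [h3]
          rfl
    rw [TvGroup_eq hB hn] at h1
    rw [eq_top_iff]
    intro g _
    obtain ⟨g', hg', h2⟩ := h1 g.2
    have h3 : g' = g := Subtype.ext h2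
    rw [← h3]
    exact hg'
  have h := hN.commutator_le_of_self_sup_commutative_eq_top htop hcomm
  rw [commutator_eq_top hB hn hK] at h
  exact top_le_iff.1 h

/-- Proof: two transvections `tv u 1`, `tv v 1` with `B u v ≠ 0` have images which do not commute:
`tv u 1 * tv v 1 * (tv u 1)⁻¹ = tv (v + B v u • u) 1`, and this is not `± tv v 1` (evaluate at
a suitable vector; note that `tv v 1 = - tv w 1` is impossible because for a nonzero vector `z`
orthogonal to `v` and `w` it would give `z = -z`; here one needs `finrank ≥ 3` and `2 ≠ 0`). -/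
theorem quot_not_comm {K V : Type} [Field K] [AddCommGroup V] [Module K V]
    [FiniteDimensional K V] (hdim : 3 ≤ Module.finrank K V) (h2 : (2 : K) ≠ 0)
    {B : LinearMap.BilinForm K V} (hB : B.IsAlt)
    (hn : ∀ x, (∀ y, B x y = 0) → x = 0) :
    ¬ ∀ a b : (SpGroup B) ⧸ (pm K V).subgroupOf (SpGroup B), a * b = b * a := by
  intro hab
  obtain ⟨u, hu⟩ : ∃ u : V, u ≠ 0 := by
    have : Nontrivial V := Module.nontrivial_of_finrank_pos (R := K) (by omega)
    exact exists_ne 0
  obtain ⟨v, huv⟩ : ∃ v, B u v ≠ 0 := by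
    by_contra hcon
    push Not at hcon
    exact hu (hn u hcon)
  have hv : v ≠ 0 := by
    rintro rfl
    exact huv (map_zero _)
  have hvu : B v u ≠ 0 := by
    rw [B_swap hB v u]
    exact neg_ne_zero.2 huv
  have h1 := hab (QuotientGroup.mk ⟨tv hB u 1, tv_mem hB u 1⟩)
    (QuotientGroup.mk ⟨tv hB v 1, tv_mem hB v 1⟩)
  rw [← QuotientGroup.mk_mul, ← QuotientGroup.mk_mul, QuotientGroup.eq,
    Subgroup.mem_subgroupOf] at h1
  have h2 : ∃ e : (Module.End K V)ˣ, (e = 1 ∨ e = -1) ∧
      tv hB v 1 * tv hB u 1 = tv hB u 1 * tv hB v 1 * e := by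
    refine ⟨_, h1, ?_⟩
    simp only [Subgroup.coe_mul, Subgroup.coe_inv]
    group
  obtain ⟨e, he, h3⟩ := h2
  rcases he with rfl | rfl
  · have h4 := congrArg (fun g : (Module.End K V)ˣ => (g : Module.End K V) v) h3
    simp only [mul_one, Units.val_mul, Module.End.mul_apply, tv_apply, map_add, map_smul,
      hB v, one_mul, zero_smul, add_zero] at h4
    have h5 : (B v u * B u v) • v = 0 := by
      have h6 : v + B v u • (u + B u v • v) - (v + B v u • u) = 0 := by
        rw [h4, sub_self]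
      rw [← h6]
      module
    rcases smul_eq_zero.1 h5 with h6 | h6
    · exact (mul_ne_zero hvu huv) h6
    · exact hv h6
  · obtain ⟨z, hz, hzu, hzv⟩ : ∃ z : V, z ≠ 0 ∧ B z u = 0 ∧ B z v = 0 := by
      let f : V →ₗ[K] K × K := (B.flip u).prod (B.flip v)
      have hf : LinearMap.ker f ≠ ⊥ := by
        refine LinearMap.ker_ne_bot_of_finrank_lt ?_
        rw [Module.finrank_prod, Module.finrank_self]
        omega
      obtain ⟨z, hz, hz0⟩ := (Submodule.ne_bot_iff _).1 hf
      rw [LinearMap.mem_ker] at hz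
      refine ⟨z, hz0, ?_, ?_⟩
      · exact congrArg Prod.fst hz
      · exact congrArg Prod.snd hz
    have h4 := congrArg (fun g : (Module.End K V)ˣ => (g : Module.End K V) z) h3
    simp only [Units.val_mul, Module.End.mul_apply, Units.val_neg, Units.val_one,
      LinearMap.neg_apply, Module.End.one_apply, map_neg] at h4
    rw [tv_fix hB u 1 z hzu, tv_fix hB v 1 z hzv, tv_fix hB u 1 z hzu] at h4
    have h5 : (2 : K) • z = 0 := by
      rw [two_smul]
      nth_rewrite 1 [h4]
      exact neg_add_cancel z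
    rcases smul_eq_zero.1 h5 with h6 | h6
    · exact h2 h6
    · exact hz h6

/-- Proof: normal subgroups of the quotient correspond to normal subgroups of `Sp` containing
`{1,-1}`; `normal_dichotomy`; nontrivial because not commutative. -/
theorem isSimple {K V : Type} [Field K] [AddCommGroup V] [Module K V]
    [FiniteDimensional K V] (hdim : 3 ≤ Module.finrank K V) (h2 : (2 : K) ≠ 0)
    {B : LinearMap.BilinForm K V} (hB : B.IsAlt)
    (hn : ∀ x, (∀ y, B x y = 0) → x = 0) (hK : ∃ a : K, a ≠ 0 ∧ a ^ 2 ≠ 1) :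
    IsSimpleGroup ((SpGroup B) ⧸ (pm K V).subgroupOf (SpGroup B)) := by
  have hVn : Nontrivial V := Module.nontrivial_of_finrank_pos (R := K) (by omega)
  have hnt : Nontrivial ((SpGroup B) ⧸ (pm K V).subgroupOf (SpGroup B)) := by
    by_contra hcon
    rw [not_nontrivial_iff_subsingleton] at hcon
    exact quot_not_comm hdim h2 hB hn fun a b => Subsingleton.elim _ _
  refine ⟨fun N' hN' => ?_⟩
  let π := QuotientGroup.mk' ((pm K V).subgroupOf (SpGroup B))
  have hπ : Function.Surjective π := QuotientGroup.mk'_surjective _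
  rcases normal_dichotomy hB hn hK (N'.comap π) (hN'.comap π) with h | h
  · right
    rw [eq_top_iff]
    intro q _
    obtain ⟨g, rfl⟩ := hπ q
    have hg : g ∈ N'.comap π := by
      rw [h]
      exact Subgroup.mem_top _
    exact hg
  · left
    rw [eq_bot_iff]
    intro q hq
    obtain ⟨g, rfl⟩ := hπ q
    have hg : (g : (Module.End K V)ˣ) ∈ pm K V := h g hq
    rw [Subgroup.mem_bot]
    exact (QuotientGroup.eq_one_iff g).2 (Subgroup.mem_subgroupOf.2 hg)

end Pool.Agent.MP971469
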