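import Pool.Agent.Lib.MP_971469_al.S2_Trans

/-! S9: reducible elements. -/

namespace Pool.Agent.MP971469

/-- A subspace `W` on which `B` is nondegenerate (`W ∩ W^⊥ = 0`) has even dimension.
Proof: the Gram matrix `A` of a basis of `W` satisfies `Aᵀ = -A`, so `det A = (-1)^n det A`; if
`n` is odd, then `2 det A = 0`, so `det A = 0`, contradiction. -/
theorem even_finrank_of_nondeg {K V : Type} [Field K] (h2 : (2 : K) ≠ 0) [AddCommGroup V]
    [Module K V] [FiniteDimensional K V] {B : LinearMap.BilinForm K V} (hB : B.IsAlt)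
    (W : Submodule K V) (hW : ∀ x ∈ W, (∀ y ∈ W, B x y = 0) → x = 0) :
    Even (Module.finrank K W) := by
  by_contra hodd
  rw [Nat.not_even_iff_odd] at hodd
  set n := Module.finrank K W with hn
  let b : Module.Basis (Fin n) K W := Module.finBasis K W
  let A : Matrix (Fin n) (Fin n) K := Matrix.of fun i j => B (b i : V) (b j : V)
  have hAT : A.transpose = -A := by
    ext i j
    simp only [A, Matrix.transpose_apply, Matrix.of_apply, Matrix.neg_apply]
    exact B_swap hB _ _
  have hdet : A.det = 0 := by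
    have h1 : A.det = -A.det := by
      conv_lhs => rw [← Matrix.det_transpose, hAT, Matrix.det_neg, Fintype.card_fin, hodd.neg_one_pow,
        neg_one_mul]
    have h3 : (2 : K) * A.det = 0 := by linear_combination h1
    exact (mul_eq_zero.mp h3).resolve_left h2
  obtain ⟨v, hv0, hv⟩ := Matrix.exists_mulVec_eq_zero_iff.mpr hdet
  let x : W := ∑ i, v i • b i
  have hxv : (x : V) = ∑ i, v i • (b i : V) := by
    simp [x]
  have hBx : ∀ i, B (b i : V) (x : V) = 0 := by
    intro i
    have := congrFun hv i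
    simp only [Matrix.mulVec, dotProduct, A, Matrix.of_apply, Pi.zero_apply] at this
    rw [hxv, map_sum]
    rw [← this]
    refine Finset.sum_congr rfl fun j _ => ?_
    rw [map_smul, smul_eq_mul, mul_comm]
  have hx0 : (x : V) = 0 := by
    apply hW x x.2
    intro y hy
    rw [B_swap hB]
    rw [neg_eq_zero]
    have hy' : y = ∑ i, (b.repr ⟨y, hy⟩ i) • (b i : V) := by
      have h5 := congrArg (W.subtype : W → V) (b.sum_repr ⟨y, hy⟩)
      rw [map_sum] at h5
      exact h5.symm
    rw [hy', map_sum, LinearMap.sum_apply]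
    refine Finset.sum_eq_zero fun i _ => ?_
    rw [map_smul, LinearMap.smul_apply, hBx, smul_zero]
  have hx0' : x = 0 := Subtype.ext hx0
  apply hv0
  funext i
  have h6 := (Fintype.linearIndependent_iff.mp b.linearIndependent) v hx0' i
  simpa using h6

/-- If `V = U ⊕ U'` with `U, U'` totally isotropic, then there is `x ∈ Sp` which is `c` on `U` and
`c⁻¹` on `U'`. -/
theorem exists_diag {K V : Type} [Field K] [AddCommGroup V] [Module K V]
    {B : LinearMap.BilinForm K V} (U U' : Submodule K V)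
    (hUU' : IsCompl U U') (hU : ∀ x ∈ U, ∀ y ∈ U, B x y = 0) (hU' : ∀ x ∈ U', ∀ y ∈ U', B x y = 0)
    (c : K) (hc : c ≠ 0) : ∃ x ∈ SpGroup B, (∀ u ∈ U, (x : Module.End K V) u = c • u) ∧
      ∀ u ∈ U', (x : Module.End K V) u = c⁻¹ • u := by
  obtain ⟨P, hP1, hP2, hP3, hP4⟩ : ∃ P : Module.End K V, (∀ v, P v ∈ U) ∧ (∀ v, v - P v ∈ U') ∧
      (∀ u ∈ U, P u = u) ∧ (∀ u ∈ U', P u = 0) := by
    refine ⟨U.subtype.comp (Submodule.projectionOnto U U' hUU'), ?_, ?_, ?_, ?_⟩
    · intro v
      simp
    · intro v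
      have h1 : Submodule.projectionOnto U U' hUU'
          (v - U.subtype (Submodule.projectionOnto U U' hUU' v)) = 0 := by
        rw [map_sub, sub_eq_zero, Submodule.subtype_apply]
        exact (Submodule.projectionOnto_apply_left hUU' _).symm
      have h2 := (Submodule.projectionOnto_apply_eq_zero_iff hUU').mp h1
      simpa using h2
    · intro u hu
      have := Submodule.projectionOnto_apply_left hUU' ⟨u, hu⟩
      simp only [LinearMap.comp_apply]
      simp only at this
      rw [this]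
      rfl
    · intro u hu
      simp only [LinearMap.comp_apply]
      rw [(Submodule.projectionOnto_apply_eq_zero_iff hUU').mpr hu]
      simp
  have hPP : P * P = P := by
    ext v
    exact hP3 _ (hP1 v)
  have hmul : ∀ a d : K, a * d = 1 →
      (a • P + d • (1 - P)) * (d • P + a • (1 - P)) = (1 : Module.End K V) := by
    intro a d had
    have h3 : P * (1 - P) = 0 := by rw [mul_sub, hPP, mul_one, sub_self]
    have h4 : (1 - P) * P = 0 := by rw [sub_mul, hPP, one_mul, sub_self]
    have h5 : (1 - P) * (1 - P) = 1 - P := by rw [mul_sub, h4, mul_one, sub_zero]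
    rw [add_mul, mul_add, mul_add]
    simp only [smul_mul_smul_comm, hPP, h3, h4, h5, smul_zero, add_zero, zero_add]
    rw [had, mul_comm d a, had, one_smul, one_smul]
    abel
  let x : (Module.End K V)ˣ :=
    ⟨c • P + c⁻¹ • (1 - P), c⁻¹ • P + c • (1 - P), hmul c c⁻¹ (mul_inv_cancel₀ hc),
      hmul c⁻¹ c (inv_mul_cancel₀ hc)⟩
  have hx : ∀ v, (x : Module.End K V) v = c • P v + c⁻¹ • (v - P v) := by
    intro v
    simp [x]
  refine ⟨x, ?_, ?_, ?_⟩
  · intro v w
    rw [hx, hx]
    have e1 := hU _ (hP1 v) _ (hP1 w)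
    have e2 := hU' _ (hP2 v) _ (hP2 w)
    have e3 : B v w = B (P v) (P w) + B (P v) (w - P w) + B (v - P v) (P w) +
        B (v - P v) (w - P w) := by
      simp only [map_sub, LinearMap.sub_apply]
      ring
    rw [e3, e1, e2]
    simp only [map_add, LinearMap.add_apply, map_smul, LinearMap.smul_apply, smul_eq_mul, e1, e2]
    field_simp
    ring
  · intro u hu
    rw [hx, hP3 u hu]
    simp
  · intro u hu
    rw [hx, hP4 u hu]
    simp

private theorem s9_tv_not_pm {K V : Type} [Field K] (h2 : (2 : K) ≠ 0) [AddCommGroup V] [Module K V]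
    {B : LinearMap.BilinForm K V} (hB : B.IsAlt)
    (hn : ∀ x, (∀ y, B x y = 0) → x = 0) (v : V) (hv : v ≠ 0) : tv hB v 1 ∉ pm K V := by
  rintro (h | h)
  · apply hv
    apply hn
    intro y
    have h1 : (tv hB v 1 : Module.End K V) y = y := by rw [h]; simp
    rw [tv_apply, one_mul] at h1
    have h3 : (B y v) • v = 0 := by
      have := congrArg (fun z => z - y) h1
      simpa using this
    rcases smul_eq_zero.mp h3 with h4 | h4
    · rw [B_swap hB, h4, neg_zero]
    · exact absurd h4 hv
  · have h1 : (tv hB v 1 : Module.End K V) v = -v := by rw [h]; simp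
    rw [tv_fix hB v 1 v (hB v)] at h1
    apply hv
    have h3 : (2 : K) • v = 0 := by
      rw [two_smul]
      nth_rewrite 1 [h1]
      simp
    exact (smul_eq_zero.mp h3).resolve_left h2

private theorem s9_tv_pres {K V : Type} [Field K] [AddCommGroup V] [Module K V]
    {B : LinearMap.BilinForm K V} (hB : B.IsAlt) (U : Submodule K V) (v : V) (hv : v ∈ U) :
    ∀ w ∈ U, (tv hB v 1 : Module.End K V) w ∈ U := by
  intro w hw
  rw [tv_apply]
  exact U.add_mem hw (U.smul_mem _ hv)

private theorem s9_map_eq {K V : Type} [Field K] [AddCommGroup V] [Module K V]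
    [FiniteDimensional K V] (U : Submodule K V) (s : (Module.End K V)ˣ)
    (h : ∀ w ∈ U, (s : Module.End K V) w ∈ U) : U.map (s : Module.End K V) = U := by
  have hinj : Function.Injective (s : Module.End K V) := by
    intro x y hxy
    have := congrArg ((s⁻¹ : (Module.End K V)ˣ) : Module.End K V) hxy
    rwa [unit_inv_apply, unit_inv_apply] at this
  apply Submodule.eq_of_le_of_finrank_eq
  · rw [Submodule.map_le_iff_le_comap]
    intro w hw
    exact h w hw
  · exact (Submodule.equivMapOfInjective _ hinj U).finrank_eq.symm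

/-- A common element for two subspaces: Let `dim V = 2r`, `r` odd, `s ∈ Sp` with a proper nonzero
invariant subspace, `g ∈ Sp`. Then there are a proper nonzero `s`-invariant subspace `U` and
`x ∈ Sp`, `x ≠ ±1`, such that `x` preserves `U` and `g U`.
Proof: let `U` be a minimal nonzero `s`-invariant subspace (of minimal dimension), `U ≠ V`, and
`U' = g U`. (a) `dim U > r`: `U ∩ U'` contains `v ≠ 0`; `x = tv v 1` preserves `U` and `U'`.
(b) `dim U < r`: `U^⊥ ∩ U'^⊥` contains `v ≠ 0`; `x = tv v 1` fixes `U` and `U'` pointwise.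
(c) `dim U = r`: `U ∩ U^⊥` is `s`-invariant, so it is `0` or `U`; it is not `0` by
`even_finrank_of_nondeg`; so `U` is totally isotropic, and so is `U'`. If `U ∩ U'` contains `v ≠ 0` use
`tv v 1` again. If `U ∩ U' = 0`, then `V = U ⊕ U'` and `exists_diag` with `a` from `hK` gives `x`.
(`tv v 1 ≠ ±1` for `v ≠ 0`: it is not `1` by nondegeneracy, and not `-1` since it fixes `v` and `2 ≠ 0`.) -/
theorem exists_common {K V : Type} [Field K] (h2 : (2 : K) ≠ 0) [AddCommGroup V] [Module K V]
    [FiniteDimensional K V] {B : LinearMap.BilinForm K V} (hB : B.IsAlt)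
    (hn : ∀ x, (∀ y, B x y = 0) → x = 0) (hK : ∃ a : K, a ≠ 0 ∧ a ^ 2 ≠ 1) (r : ℕ) (hr : Odd r)
    (hdim : Module.finrank K V = 2 * r) (s g : (Module.End K V)ˣ) (hs : s ∈ SpGroup B)
    (hg : g ∈ SpGroup B) (W : Submodule K V) (hW0 : W ≠ ⊥) (hW1 : W ≠ ⊤)
    (hsW : ∀ w ∈ W, (s : Module.End K V) w ∈ W) :
    ∃ U : Submodule K V, U ≠ ⊥ ∧ U ≠ ⊤ ∧ (∀ w ∈ U, (s : Module.End K V) w ∈ U) ∧
      ∃ x ∈ SpGroup B, x ∉ pm K V ∧ (∀ w ∈ U, (x : Module.End K V) w ∈ U) ∧
        ∀ w ∈ U.map (g : Module.End K V), (x : Module.End K V) w ∈ U.map (g : Module.End K V) := by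
  classical
  have hex : ∃ n : ℕ, ∃ U : Submodule K V, U ≠ ⊥ ∧ U ≠ ⊤ ∧ (∀ w ∈ U, (s : Module.End K V) w ∈ U) ∧
      Module.finrank K U = n := ⟨_, W, hW0, hW1, hsW, rfl⟩
  obtain ⟨U, hU0, hU1, hsU, hUn⟩ := Nat.find_spec hex
  have hmin : ∀ R : Submodule K V, R ≤ U → R ≠ ⊥ → (∀ w ∈ R, (s : Module.End K V) w ∈ R) →
      R = U := by
    intro R hRU hR0 hsR
    have hR1 : R ≠ ⊤ := by
      rintro rfl
      exact hU1 (top_le_iff.mp hRU)
    have h1 := Nat.find_min' hex ⟨R, hR0, hR1, hsR, rfl⟩
    rw [← hUn] at h1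
    exact Submodule.eq_of_le_of_finrank_le hRU h1
  refine ⟨U, hU0, hU1, hsU, ?_⟩
  have hginj : Function.Injective (g : Module.End K V) := by
    intro x y hxy
    have := congrArg ((g⁻¹ : (Module.End K V)ˣ) : Module.End K V) hxy
    rwa [unit_inv_apply, unit_inv_apply] at this
  have hfr : Module.finrank K (U.map (g : Module.End K V)) = Module.finrank K U :=
    (Submodule.equivMapOfInjective _ hginj U).finrank_eq.symm
  set U' := U.map (g : Module.End K V) with hU'def
  have hsum := Submodule.finrank_sup_add_finrank_inf_eq U U'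
  have hle := Submodule.finrank_le (U ⊔ U')
  -- the case of a common vector
  by_cases hint : U ⊓ U' = ⊥
  swap
  · obtain ⟨v, hv, hv0⟩ := (Submodule.ne_bot_iff _).mp hint
    exact ⟨tv hB v 1, tv_mem hB v 1, s9_tv_not_pm h2 hB hn v hv0, s9_tv_pres hB U v hv.1,
      s9_tv_pres hB U' v hv.2⟩
  rw [hint, finrank_bot, add_zero, hfr] at hsum
  rw [hsum, hdim] at hle
  have hler : Module.finrank K U ≤ r := by omega
  rcases lt_or_eq_of_le hler with hlt | heq
  · -- case (b)
    obtain ⟨v, hv0, hv⟩ : ∃ v : V, v ≠ 0 ∧ ∀ w ∈ U ⊔ U', B v w = 0 := by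
      let f : V →ₗ[K] Module.Dual K ((U ⊔ U' : Submodule K V)) :=
        (LinearMap.lcomp K K (U ⊔ U' : Submodule K V).subtype).comp B
      have hker : LinearMap.ker f ≠ ⊥ := by
        apply LinearMap.ker_ne_bot_of_finrank_lt
        rw [Subspace.dual_finrank_eq, hsum, hdim]
        omega
      obtain ⟨v, hv, hv0⟩ := (Submodule.ne_bot_iff _).mp hker
      refine ⟨v, hv0, fun w hw => ?_⟩
      have h1 : f v = 0 := hv
      have h3 := LinearMap.congr_fun h1 ⟨w, hw⟩
      simpa [f] using h3
    refine ⟨tv hB v 1, tv_mem hB v 1, s9_tv_not_pm h2 hB hn v hv0, ?_, ?_⟩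
    · intro w hw
      rw [tv_fix hB v 1 w (by rw [B_swap hB, hv w (Submodule.mem_sup_left hw), neg_zero])]
      exact hw
    · intro w hw
      rw [tv_fix hB v 1 w (by rw [B_swap hB, hv w (Submodule.mem_sup_right hw), neg_zero])]
      exact hw
  · -- case (c)
    have hmapU : U.map (s : Module.End K V) = U := s9_map_eq U s hsU
    let R : Submodule K V :=
      { carrier := {x | x ∈ U ∧ ∀ y ∈ U, B x y = 0}
        add_mem' := by
          rintro a b ⟨ha, ha'⟩ ⟨hb, hb'⟩
          refine ⟨U.add_mem ha hb, fun y hy => ?_⟩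
          rw [map_add, LinearMap.add_apply, ha' y hy, hb' y hy, add_zero]
        zero_mem' := by
          refine ⟨U.zero_mem, fun y _ => ?_⟩
          simp
        smul_mem' := by
          rintro c a ⟨ha, ha'⟩
          refine ⟨U.smul_mem c ha, fun y hy => ?_⟩
          rw [map_smul, LinearMap.smul_apply, ha' y hy, smul_zero] }
    have hRU : R ≤ U := fun x hx => hx.1
    have hsR : ∀ w ∈ R, (s : Module.End K V) w ∈ R := by
      rintro w ⟨hw, hw'⟩
      refine ⟨hsU w hw, fun y hy => ?_⟩
      rw [← hmapU] at hy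
      obtain ⟨y', hy', rfl⟩ := hy
      rw [SpGroup_apply hs]
      exact hw' y' hy'
    have hR0 : R ≠ ⊥ := by
      intro hR
      have h1 : Even (Module.finrank K U) := by
        apply even_finrank_of_nondeg h2 hB
        intro x hx hx'
        have : x ∈ R := ⟨hx, hx'⟩
        rw [hR] at this
        exact (Submodule.mem_bot K).mp this
      rw [heq] at h1
      exact (Nat.not_even_iff_odd.mpr hr) h1
    have hRU' := hmin R hRU hR0 hsR
    have hiso : ∀ x ∈ U, ∀ y ∈ U, B x y = 0 := by
      intro x hx y hy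
      rw [← hRU'] at hx
      exact hx.2 y hy
    have hiso' : ∀ x ∈ U', ∀ y ∈ U', B x y = 0 := by
      rintro _ ⟨x, hx, rfl⟩ _ ⟨y, hy, rfl⟩
      rw [SpGroup_apply hg]
      exact hiso x hx y hy
    have hcompl : IsCompl U U' := by
      refine ⟨disjoint_iff.mpr hint, codisjoint_iff.mpr ?_⟩
      apply Submodule.eq_top_of_finrank_eq
      rw [hsum, hdim, heq]
      ring
    obtain ⟨a, ha0, ha1⟩ := hK
    obtain ⟨x, hx, hxU, hxU'⟩ := exists_diag (B := B) U U' hcompl hiso hiso' a ha0
    refine ⟨x, hx, ?_, ?_, ?_⟩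
    · obtain ⟨u, hu, hu0⟩ := (Submodule.ne_bot_iff _).mp hU0
      rintro (h | h)
      · have h1 := hxU u hu
        rw [h, Units.val_one, Module.End.one_apply] at h1
        have h3 : (a - 1) • u = 0 := by
          rw [sub_smul, ← h1, one_smul, sub_self]
        have h4 := (smul_eq_zero.mp h3).resolve_right hu0
        apply ha1
        linear_combination (a + 1) * h4
      · have h1 := hxU u hu
        rw [h, Units.val_neg, Units.val_one, LinearMap.neg_apply, Module.End.one_apply] at h1
        have h3 : (a + 1) • u = 0 := by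
          rw [add_smul, ← h1, one_smul]
          simp
        have h4 := (smul_eq_zero.mp h3).resolve_right hu0
        apply ha1
        linear_combination (a - 1) * h4
    · intro w hw
      rw [hxU w hw]
      exact U.smul_mem _ hw
    · intro w hw
      rw [hxU' w hw]
      exact U'.smul_mem _ hw

/-- The stabilizer of a subspace. -/
private def s9Stab {K V : Type} [Field K] [AddCommGroup V] [Module K V] (U : Submodule K V) :
    Subgroup (Module.End K V)ˣ where
  carrier := {h | ∀ w, (h : Module.End K V) w ∈ U ↔ w ∈ U}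
  mul_mem' := by
    intro a b ha hb w
    rw [Units.val_mul, Module.End.mul_apply, ha, hb]
  one_mem' := by intro w; simp
  inv_mem' := by
    intro a ha w
    rw [← ha, unit_apply_inv]

private theorem s9_mem_stab {K V : Type} [Field K] [AddCommGroup V] [Module K V]
    [FiniteDimensional K V] (U : Submodule K V) (s : (Module.End K V)ˣ)
    (h : ∀ w ∈ U, (s : Module.End K V) w ∈ U) : s ∈ s9Stab U := by
  intro w
  refine ⟨fun hw => ?_, h w⟩
  rw [← s9_map_eq U s h] at hw
  obtain ⟨w', hw', hww'⟩ := hw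
  have h1 := congrArg ((s⁻¹ : (Module.End K V)ˣ) : Module.End K V) hww'
  rw [unit_inv_apply, unit_inv_apply] at h1
  rwa [← h1]

private theorem s9_not_gen {K V : Type} [Field K] [AddCommGroup V]
    [Module K V] [FiniteDimensional K V] {B : LinearMap.BilinForm K V} (hB : B.IsAlt)
    (hn : ∀ x, (∀ y, B x y = 0) → x = 0) (U : Submodule K V) (hU0 : U ≠ ⊥) (hU1 : U ≠ ⊤)
    (x s : (Module.End K V)ˣ) (hx : ∀ w ∈ U, (x : Module.End K V) w ∈ U)
    (hs : ∀ w ∈ U, (s : Module.End K V) w ∈ U)
    (h : Subgroup.closure {x, s} ⊔ pm K V = SpGroup B) : False := by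
  have hle : Subgroup.closure {x, s} ⊔ pm K V ≤ s9Stab U := by
    refine sup_le ?_ ?_
    · rw [Subgroup.closure_le]
      rintro y (rfl | rfl)
      · exact s9_mem_stab U _ hx
      · exact s9_mem_stab U _ hs
    · rintro y (rfl | rfl)
      · exact one_mem _
      · intro w
        simp
  rw [h] at hle
  obtain ⟨u, hu, hu0⟩ := (Submodule.ne_bot_iff _).mp hU0
  obtain ⟨y, -, hy⟩ := SetLike.exists_of_lt (lt_top_iff_ne_top.mpr hU1)
  have hy0 : y ≠ 0 := by
    rintro rfl
    exact hy U.zero_mem
  obtain ⟨k, hk, hky⟩ := tv_trans hB hn u y hu0 hy0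
  have h1 := hle (TvGroup_le hB hk)
  exact hy (hky ▸ (h1 u).mpr hu)

/-- Proof: take `U, x` from `exists_common`. `closure {x,s} ⊔ pm` preserves `U` (finite group or
finite dimension: the stabilizer of `U` is a subgroup, since `g U ⊆ U` implies `g U = U`), but `Sp` is
transitive on nonzero vectors (`tv_trans`, `TvGroup_le`), so it does not preserve `U`. Similarly
`closure {x, g s g⁻¹} ⊔ pm` preserves `g U`. So `Dom` fails. -/
theorem not_dom_of_reducible {K V : Type} [Field K] (h2 : (2 : K) ≠ 0) [AddCommGroup V]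
    [Module K V] [FiniteDimensional K V] {B : LinearMap.BilinForm K V} (hB : B.IsAlt)
    (hn : ∀ x, (∀ y, B x y = 0) → x = 0) (hK : ∃ a : K, a ≠ 0 ∧ a ^ 2 ≠ 1) (r : ℕ) (hr : Odd r)
    (hdim : Module.finrank K V = 2 * r) (s g : (Module.End K V)ˣ) (hs : s ∈ SpGroup B)
    (hg : g ∈ SpGroup B) (W : Submodule K V) (hW0 : W ≠ ⊥) (hW1 : W ≠ ⊤)
    (hsW : ∀ w ∈ W, (s : Module.End K V) w ∈ W) : ¬ Dom (SpGroup B) (pm K V) s g := by
  rintro ⟨-, hdom⟩
  obtain ⟨U, hU0, hU1, hsU, x, hx, hxpm, hxU, hxU'⟩ :=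
    exists_common h2 hB hn hK r hr hdim s g hs hg W hW0 hW1 hsW
  rcases hdom x hx hxpm with h | h
  · exact s9_not_gen hB hn U hU0 hU1 x s hxU hsU h
  · have hginj : Function.Injective (g : Module.End K V) := by
      intro x y hxy
      have := congrArg ((g⁻¹ : (Module.End K V)ˣ) : Module.End K V) hxy
      rwa [unit_inv_apply, unit_inv_apply] at this
    refine s9_not_gen hB hn (U.map (g : Module.End K V)) ?_ ?_ x (g * s * g⁻¹) hxU' ?_ h
    · intro h0
      apply hU0
      apply Submodule.map_injective_of_injective hginj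
      rw [h0, Submodule.map_bot]
    · intro h0
      apply hU1
      apply Submodule.eq_top_of_finrank_eq
      rw [(Submodule.equivMapOfInjective _ hginj U).finrank_eq, h0, finrank_top]
    · rintro _ ⟨w, hw, rfl⟩
      rw [Units.val_mul, Units.val_mul, Module.End.mul_apply, Module.End.mul_apply, unit_inv_apply]
      exact ⟨_, hsU w hw, rfl⟩

end Pool.Agent.MP971469
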