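import Pool.Agent.Lib.MP_971469_al.Z8_Gam

/-! Z9: the number of `g` with irreducible `z`. -/

namespace Pool.Agent.MP971469

namespace Data

variable {p r : ℕ} [Fact p.Prime] {E : Type} [Field E] [Finite E] [Algebra (ZMod p) E]

/-- For a predicate on `orbJ`, the number of `g ∈ Sp` is `|C J|` times the number of `Y`: the fibres of
`g ↦ cj g J` are the cosets of `C J`. -/
theorem card_g_eq (S : Data p r E) (P : AE p E → Prop) :
    Nat.card {g : (AE p E)ˣ // g ∈ S.Sp ∧ P (cj g S.J)} =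
      Nat.card (S.C S.J) * Nat.card {Y : AE p E // Y ∈ S.orbJ ∧ P Y} := by
  classical
  have hch : ∀ Y : {Y : AE p E // Y ∈ S.orbJ ∧ P Y}, ∃ g : (AE p E)ˣ, g ∈ S.Sp ∧ cj g S.J = Y := by
    rintro ⟨Y, ⟨g, hg, hY⟩, -⟩
    exact ⟨g, hg, hY.symm⟩
  choose w hw1 hw2 using hch
  have hC : ∀ g : (AE p E)ˣ, g ∈ S.C S.J ↔ g ∈ S.Sp ∧ cj g S.J = S.J := by
    intro g
    rw [cj_eq_iff]
    exact Iff.rfl
  rw [← Nat.card_prod]
  refine Nat.card_congr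
    { toFun := fun g => (⟨(w ⟨cj g.1 S.J, ⟨g.1, g.2.1, rfl⟩, g.2.2⟩)⁻¹ * g.1, ?_⟩,
        ⟨cj g.1 S.J, ⟨g.1, g.2.1, rfl⟩, g.2.2⟩)
      invFun := fun x => ⟨w x.2 * x.1.1, ?_, ?_⟩
      left_inv := ?_
      right_inv := ?_ }
  · rw [hC]
    refine ⟨mul_mem (inv_mem (hw1 _)) g.2.1, ?_⟩
    have h1 := hw2 ⟨cj g.1 S.J, ⟨g.1, g.2.1, rfl⟩, g.2.2⟩
    rw [cj_mul]
    have h2 : cj g.1 S.J = cj (w ⟨cj g.1 S.J, ⟨g.1, g.2.1, rfl⟩, g.2.2⟩) S.J := h1.symm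
    exact (congrArg (cj (w ⟨cj g.1 S.J, ⟨g.1, g.2.1, rfl⟩, g.2.2⟩)⁻¹) h2).trans
      (cj_inv_cj _ _)
  · exact mul_mem (hw1 _) ((hC _).1 x.1.2).1
  · rw [cj_mul, ((hC _).1 x.1.2).2, hw2]
    exact x.2.2.2
  · rintro ⟨g, hg1, hg2⟩
    apply Subtype.ext
    show w _ * ((w _)⁻¹ * g) = g
    rw [mul_inv_cancel_left]
  · rintro ⟨⟨c, hc⟩, ⟨Y, hY1, hY2⟩⟩
    have hcY : cj (w ⟨Y, hY1, hY2⟩ * c) S.J = Y := by
      rw [cj_mul, ((hC c).1 hc).2, hw2]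
    have e : ∀ (Y' : AE p E) (h : Y' = Y) (h1 : Y' ∈ S.orbJ ∧ P Y'),
        w ⟨Y', h1⟩ = w ⟨Y, hY1, hY2⟩ := by
      rintro Y' rfl h1
      rfl
    refine Prod.ext (Subtype.ext ?_) (Subtype.ext hcY)
    show (w _)⁻¹ * (w _ * c) = c
    rw [e _ hcY, inv_mul_cancel_left]

/-- Proof: let `𝒴` be the set of `Y ∈ orbJ` with irreducible `zz Y` of degree `r`. The map
`(ψ, N) ↦ cj ψ N` from `C J × NN` hits every `Y ∈ 𝒴` (`normal_form`), and if `(ψ, N)` is in the fibre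
over `Y`, so is `(ψ γ⁻¹, cj γ N)` for all `γ ∈ Γ`; these are different. So
`|𝒴| * |Γ| ≤ |C J| * |NN|`. Combine with `card_g_eq`, `card_Gam`, `card_NN_le`. -/
theorem card_irr (S : Data p r E) :
    Nat.card {g : (AE p E)ˣ // g ∈ S.Sp ∧
      (Irreducible (minpoly (ZMod p) (S.zz (cj g S.J))) ∧
        (minpoly (ZMod p) (S.zz (cj g S.J))).natDegree = r)} * (r * (p ^ r + 1)) ≤
      Nat.card (S.C S.J) ^ 2 * (p ^ r * (p ^ r + 1)) := by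
  classical
  have : Finite (AE p E) := DFunLike.finite _
  rw [card_g_eq S (fun Y => Irreducible (minpoly (ZMod p) (S.zz Y)) ∧
    (minpoly (ZMod p) (S.zz Y)).natDegree = r)]
  have key : Nat.card {Y : AE p E // Y ∈ S.orbJ ∧ (Irreducible (minpoly (ZMod p) (S.zz Y)) ∧
      (minpoly (ZMod p) (S.zz Y)).natDegree = r)} * Nat.card S.Gam ≤
      Nat.card (S.C S.J) * Nat.card S.NN := by
    rw [← Nat.card_prod, ← Nat.card_prod]
    have hch : ∀ Y : {Y : AE p E // Y ∈ S.orbJ ∧ (Irreducible (minpoly (ZMod p) (S.zz Y)) ∧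
        (minpoly (ZMod p) (S.zz Y)).natDegree = r)}, ∃ (ψ : (AE p E)ˣ) (N : AE p E),
        ψ ∈ S.C S.J ∧ N ∈ S.NN ∧ (Y : AE p E) = cj ψ N := by
      rintro ⟨Y, h1, h2, h3⟩
      obtain ⟨ψ, hψ, N, hN, h⟩ := S.normal_form Y h1 h2 h3
      exact ⟨ψ, N, hψ, hN, h⟩
    choose ψ N hψ hN hY using hch
    refine Nat.card_le_card_of_injective
      (fun x => ((⟨ψ x.1 * (x.2 : (AE p E)ˣ)⁻¹, mul_mem (hψ x.1)
        (inv_mem (S.Gam_sub _ x.2.2))⟩, ⟨cj (x.2 : (AE p E)ˣ) (N x.1),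
        S.Gam_NN _ x.2.2 _ (hN x.1)⟩) : (S.C S.J) × S.NN)) ?_
    rintro ⟨Y, γ⟩ ⟨Y', γ'⟩ h
    have h1 : ψ Y * (γ : (AE p E)ˣ)⁻¹ = ψ Y' * (γ' : (AE p E)ˣ)⁻¹ :=
      congrArg Subtype.val (congrArg Prod.fst h)
    have h2 : cj (γ : (AE p E)ˣ) (N Y) = cj (γ' : (AE p E)ˣ) (N Y') :=
      congrArg Subtype.val (congrArg Prod.snd h)
    have e : ∀ (Y) (γ : (AE p E)ˣ), cj (ψ Y * γ⁻¹) (cj γ (N Y)) = (Y : AE p E) := by
      intro Y γ
      rw [← cj_mul, inv_mul_cancel_right, hY]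
    have hYY : Y = Y' := by
      apply Subtype.ext
      rw [← e Y γ, ← e Y' γ', h1, h2]
    subst hYY
    have h3 : (γ : (AE p E)ˣ) = γ' := inv_injective (mul_left_cancel h1)
    exact Prod.ext rfl (Subtype.ext h3)
  rw [S.card_Gam] at key
  calc Nat.card (S.C S.J) * Nat.card {Y : AE p E // Y ∈ S.orbJ ∧
        (Irreducible (minpoly (ZMod p) (S.zz Y)) ∧
          (minpoly (ZMod p) (S.zz Y)).natDegree = r)} * (r * (p ^ r + 1))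
      = Nat.card (S.C S.J) * (Nat.card {Y : AE p E // Y ∈ S.orbJ ∧
        (Irreducible (minpoly (ZMod p) (S.zz Y)) ∧
          (minpoly (ZMod p) (S.zz Y)).natDegree = r)} * (r * (p ^ r + 1))) := by rw [mul_assoc]
    _ ≤ Nat.card (S.C S.J) * (Nat.card (S.C S.J) * Nat.card S.NN) := Nat.mul_le_mul_left _ key
    _ ≤ Nat.card (S.C S.J) * (Nat.card (S.C S.J) * (p ^ r * (p ^ r + 1))) :=
        Nat.mul_le_mul_left _ (Nat.mul_le_mul_left _ S.card_NN_le)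
    _ = Nat.card (S.C S.J) ^ 2 * (p ^ r * (p ^ r + 1)) := by ring

end Data

end Pool.Agent.MP971469
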