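import Pool.Agent.Lib.MP_971469_al.Z5_CountR
import Pool.Agent.Lib.MP_971469_al.Z9_CountIrr
import Pool.Agent.Lib.MP_971469_al.O2_CJUpper
import Pool.Agent.Lib.MP_971469_al.O3_Bounds

/-! U1: few pairs have trivial common centralizer. -/

namespace Pool.Agent.MP971469

namespace Data

variable {p r : ℕ} [Fact p.Prime] {E : Type} [Field E] [Finite E] [Algebra (ZMod p) E]

private theorem u1_card_or {α : Type} [Finite α] {P P1 P2 : α → Prop}
    (h : ∀ a, P a → P1 a ∨ P2 a) :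
    Nat.card {a // P a} ≤ Nat.card {a // P1 a} + Nat.card {a // P2 a} := by
  classical
  rw [← Nat.card_sum]
  refine Nat.card_le_card_of_injective
    (fun a : {a // P a} => if h1 : P1 a.1 then (Sum.inl ⟨a.1, h1⟩ : {a // P1 a} ⊕ {a // P2 a})
      else Sum.inr ⟨a.1, (h a.1 a.2).resolve_left h1⟩) ?_
  rintro ⟨a, ha⟩ ⟨b, hb⟩ hab
  apply Subtype.ext
  simp only at hab
  split_ifs at hab with h1 h2
  · exact congrArg (fun x : {a // P1 a} => x.1) (Sum.inl.inj hab)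
  · exact congrArg (fun x : {a // P2 a} => x.1) (Sum.inr.inj hab)

/-- Proof: by `good_imp` such a `g` is counted in `card_irr` or `card_RR`. With
`|C J| ≤ 2 p^(r²)` (`card_CJ_le`) and `|Sp| ≥ p^(2r²+r)/2` (`card_Sp_ge`):
`|C J|² p^r / r ≤ 4 p^(2r²+r)/r ≤ (8/r) |Sp|`. -/
theorem card_good_le (S : Data p r E) :
    (Nat.card {g : (AE p E)ˣ // g ∈ S.Sp ∧ S.C S.J ⊓ S.C (cj g S.J) ≤ pm (ZMod p) (VV E)} : ℝ) ≤
      (8 / (r : ℝ) + 6 / (p : ℝ)) * Nat.card S.Sp := by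
  have hfin : Finite (AE p E) := DFunLike.finite _
  have h1 := u1_card_or (α := (AE p E)ˣ)
    (P := fun g => g ∈ S.Sp ∧ S.C S.J ⊓ S.C (cj g S.J) ≤ pm (ZMod p) (VV E))
    (P1 := fun g => g ∈ S.Sp ∧ (Irreducible (minpoly (ZMod p) (S.zz (cj g S.J))) ∧
        (minpoly (ZMod p) (S.zz (cj g S.J))).natDegree = r))
    (P2 := fun g => g ∈ S.Sp ∧ S.RR (cj g S.J) = 0) (by
      rintro g ⟨hg, hC⟩
      rcases S.good_imp (cj g S.J) ⟨g, hg, rfl⟩ hC with h | h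
      · exact Or.inl ⟨hg, h⟩
      · exact Or.inr ⟨hg, h⟩)
  have h2 := S.card_irr
  have h3 := S.card_RR
  have h4 := S.card_CJ_le
  have h5 := S.card_Sp_ge
  have hp0 : 0 < p := (Fact.out : p.Prime).pos
  have hr0 : 0 < r := by have := S.r_ge; omega
  set N := Nat.card {g : (AE p E)ˣ // g ∈ S.Sp ∧ S.C S.J ⊓ S.C (cj g S.J) ≤ pm (ZMod p) (VV E)}
  set N1 := Nat.card {g : (AE p E)ˣ // g ∈ S.Sp ∧
      (Irreducible (minpoly (ZMod p) (S.zz (cj g S.J))) ∧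
        (minpoly (ZMod p) (S.zz (cj g S.J))).natDegree = r)}
  set N2 := Nat.card {g : (AE p E)ˣ // g ∈ S.Sp ∧ S.RR (cj g S.J) = 0}
  set c := Nat.card (S.C S.J)
  set s := Nat.card S.Sp
  have h6 : N1 * r ≤ 8 * s := by
    have h7 : N1 * r * (p ^ r + 1) ≤ c ^ 2 * p ^ r * (p ^ r + 1) := by
      calc N1 * r * (p ^ r + 1) = N1 * (r * (p ^ r + 1)) := by ring
        _ ≤ c ^ 2 * (p ^ r * (p ^ r + 1)) := h2
        _ = c ^ 2 * p ^ r * (p ^ r + 1) := by ring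
    have h8 : N1 * r ≤ c ^ 2 * p ^ r := Nat.le_of_mul_le_mul_right h7 (by positivity)
    calc N1 * r ≤ c ^ 2 * p ^ r := h8
      _ ≤ (2 * p ^ (r ^ 2)) ^ 2 * p ^ r := by gcongr
      _ = 4 * p ^ (2 * r ^ 2 + r) := by ring
      _ ≤ 4 * (2 * s) := by gcongr
      _ = 8 * s := by ring
  have hr' : (0 : ℝ) < r := by exact_mod_cast hr0
  have hp' : (0 : ℝ) < p := by exact_mod_cast hp0
  have e1 : (N1 : ℝ) * r ≤ 8 * s := by exact_mod_cast h6
  have e2 : (p : ℝ) * N2 ≤ 6 * s := by exact_mod_cast h3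
  have e3 : (N1 : ℝ) ≤ 8 / r * s := by
    rw [div_mul_eq_mul_div, le_div_iff₀ hr']
    exact e1
  have e4 : (N2 : ℝ) ≤ 6 / p * s := by
    rw [div_mul_eq_mul_div, le_div_iff₀ hp']
    linarith
  have e5 : (N : ℝ) ≤ N1 + N2 := by exact_mod_cast h1
  calc (N : ℝ) ≤ N1 + N2 := e5
    _ ≤ 8 / r * s + 6 / p * s := add_le_add e3 e4
    _ = (8 / (r : ℝ) + 6 / (p : ℝ)) * s := by ring

end Data

end Pool.Agent.MP971469
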