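import Pool.Agent.Lib.MP_971469_al.Z4_RPoly

/-! U2: domination for elements of the torus. -/

namespace Pool.Agent.MP971469

namespace Data

variable {p r : ℕ} [Fact p.Prime] {E : Type} [Field E] [Finite E] [Algebra (ZMod p) E]

/-- `H J ≠ Sp`. Proof: the transvection `t = 1 + N`, `N v = B v u • u`, `u = one'`. If `t J = J t`,
then `N J = J N`, applied to `u`: `B (J u) u • u = 0`, contradiction to `mu_ne`. If `t J = -J t`:
`2 J = - N J - J N`, applied to `u`: `2 J u = - B (J u) u • u`, so `j ∈ F_p`, contradiction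
(`j_notMem`). -/
theorem HJ_ne (S : Data p r E) : S.H S.J ≠ S.Sp := by
  intro hHJ
  have ht : tv S.B_isAlt S.one' 1 ∈ S.H S.J := by rw [hHJ]; exact tv_mem S.B_isAlt S.one' 1
  have hu : toE p S.one' = 1 := LinearEquiv.apply_symm_apply _ _
  have hu0 : S.one' ≠ 0 := by
    intro h0
    rw [h0, map_zero] at hu
    exact zero_ne_one hu
  have h1 : (tv S.B_isAlt S.one' 1 : AE p E) (S.J S.one') =
      S.J S.one' + (S.B (S.J S.one') S.one') • S.one' := by
    rw [tv_apply, one_mul]
  have h2 : (tv S.B_isAlt S.one' 1 : AE p E) S.one' = S.one' := by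
    rw [tv_apply, S.B_isAlt S.one', mul_zero, zero_smul, add_zero]
  obtain ⟨-, h3 | h3⟩ := ht
  · have h4 := congrArg (fun X : AE p E => X S.one') h3
    simp only [Module.End.mul_apply] at h4
    rw [h1, h2] at h4
    have h5 : (S.B (S.J S.one') S.one') • S.one' = 0 := by
      have := h4
      rwa [add_eq_left] at this
    rcases smul_eq_zero.1 h5 with h6 | h6
    · exact S.mu_ne h6
    · exact hu0 h6
  · have h4 := congrArg (fun X : AE p E => X S.one') h3
    simp only [Module.End.mul_apply, LinearMap.neg_apply] at h4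
    rw [h1, h2] at h4
    have h5 := congrArg (toE p) h4
    rw [map_add, map_neg, LinearEquiv.map_smul, hu, Algebra.smul_def, mul_one] at h5
    have h6 : toE p (S.J S.one') = S.j := by
      show toE p (mE p S.j S.one') = S.j
      rw [toE_mE, hu, mul_one]
    rw [h6] at h5
    have h7 : (2 : E) * S.j = algebraMap (ZMod p) E (- S.B (S.J S.one') S.one') := by
      rw [map_neg]; linear_combination h5
    apply S.j_notMem (2⁻¹ * - S.B (S.J S.one') S.one')
    rw [map_mul, ← h7, map_inv₀, map_ofNat, ← mul_assoc, inv_mul_cancel₀ S.two_ne', one_mul]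

/-- Proof: let `x ∈ C J ⊓ C (cj g J)`, `x ≠ ±1`. `s ∈ T` commutes with `J`, so `closure {x, s} ⊔ pm` is
contained in `H J ≠ Sp`. `g s g⁻¹` commutes with `cj g J`, so `closure {x, g s g⁻¹} ⊔ pm` is
contained in `H (cj g J)`, the conjugate of `H J` by `g`, which is not `Sp`. -/
theorem good_of_dom_T (S : Data p r E) (s g : (AE p E)ˣ) (hs : s ∈ S.T) (hg : g ∈ S.Sp)
    (h : Dom S.Sp (pm (ZMod p) (VV E)) s g) :
    S.C S.J ⊓ S.C (cj g S.J) ≤ pm (ZMod p) (VV E) := by
  rintro x ⟨hx1, hx2⟩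
  by_contra hxpm
  have hpm : ∀ X : AE p E, pm (ZMod p) (VV E) ≤ S.H X := by
    intro X z hz
    refine ⟨S.pm_le_Sp hz, Or.inl ?_⟩
    rcases hz with rfl | rfl
    · simp
    · simp
  have hsSp : s ∈ S.Sp := S.T_le_Sp hs
  obtain ⟨e, -, he⟩ := hs
  have hsJ : (s : AE p E) * S.J = S.J * s := by
    rw [he]
    show mE p e * mE p S.j = mE p S.j * mE p e
    rw [← map_mul, ← map_mul, mul_comm]
  rcases h.2 x hx1.1 hxpm with h1 | h1
  · apply S.HJ_ne
    apply le_antisymm
    · intro y hy; exact hy.1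
    · rw [← h1]
      apply sup_le _ (hpm _)
      rw [Subgroup.closure_le]
      rintro y (rfl | rfl)
      · exact ⟨hx1.1, Or.inl hx1.2⟩
      · exact ⟨hsSp, Or.inl hsJ⟩
  · have h2 : S.Sp ≤ S.H (cj g S.J) := by
      rw [← h1]
      apply sup_le _ (hpm _)
      rw [Subgroup.closure_le]
      rintro y (rfl | rfl)
      · exact ⟨hx2.1, Or.inl hx2.2⟩
      · refine ⟨S.Sp.mul_mem (S.Sp.mul_mem hg hsSp) (S.Sp.inv_mem hg), Or.inl ?_⟩
        have h3 : ((g * s * g⁻¹ : (AE p E)ˣ) : AE p E) = cj g (s : AE p E) := by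
          simp [cj]
        rw [h3, ← cj_map_mul, ← cj_map_mul, hsJ]
    apply S.HJ_ne
    apply le_antisymm
    · intro y hy; exact hy.1
    · intro y hy
      obtain ⟨-, h4⟩ := h2 (S.Sp.mul_mem (S.Sp.mul_mem hg hy) (S.Sp.inv_mem hg))
      have h3 : ((g * y * g⁻¹ : (AE p E)ˣ) : AE p E) = cj g (y : AE p E) := by
        simp [cj]
      rw [h3, ← cj_map_mul, ← cj_map_mul, ← cj_map_neg] at h4
      exact ⟨hy, h4.imp (fun h => cj_injective g h) (fun h => cj_injective g h)⟩

end Data

end Pool.Agent.MP971469
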