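import Pool.Agent.Lib.MP_971469_al.Z6_Transport

/-! U3: irreducible elements are conjugate into the torus. -/

namespace Pool.Agent.MP971469

namespace Data

variable {p r : ℕ} [Fact p.Prime] {E : Type} [Field E] [Finite E] [Algebra (ZMod p) E]

private theorem U3_Irred_nontriv (S : Data p r E) : Nontrivial (VV E) := by
  have h := S.finrank_VV
  have h2 := S.r_pos
  exact Module.nontrivial_of_finrank_pos (R := ZMod p) (by omega)

/-- a polynomial in `s` with a nonzero kernel vanishes -/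
private theorem U3_Irred_zero (s : AE p E)
    (hirr : ∀ W : Submodule (ZMod p) (VV E), (∀ w ∈ W, s w ∈ W) → W = ⊥ ∨ W = ⊤)
    (g : Polynomial (ZMod p)) (v : VV E) (hv : v ≠ 0) (h : Polynomial.aeval s g v = 0) :
    Polynomial.aeval s g = 0 := by
  have hc : Polynomial.aeval s g * s = s * Polynomial.aeval s g := by
    have h1 : Polynomial.aeval s (g * Polynomial.X) = Polynomial.aeval s (Polynomial.X * g) := by
      rw [mul_comm]
    rw [map_mul, map_mul, Polynomial.aeval_X] at h1
    exact h1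
  rcases hirr (LinearMap.ker (Polynomial.aeval s g)) (fun w hw => by
    rw [LinearMap.mem_ker] at hw ⊢
    rw [← Module.End.mul_apply, hc, Module.End.mul_apply, hw, map_zero]) with h1 | h1
  · exfalso
    apply hv
    have h2 : v ∈ LinearMap.ker (Polynomial.aeval s g) := by
      rw [LinearMap.mem_ker]
      exact h
    rw [h1] at h2
    exact (Submodule.mem_bot _).1 h2
  · rw [LinearMap.ker_eq_top] at h1
    exact h1

/-- Proof: `A = F_p[s]` (the subalgebra generated by `s`) is a field by Schur's lemma (kernels and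
images of polynomials in `s` are invariant subspaces) and `V` is one-dimensional over it, so it has
`p^(2r)` elements and there is an isomorphism of `E` with `A`, i.e. an algebra homomorphism
`ρ : E → AE` with `s = ρ(e)`. -/
theorem exists_rho (S : Data p r E) (s : AE p E)
    (hirr : ∀ W : Submodule (ZMod p) (VV E), (∀ w ∈ W, s w ∈ W) → W = ⊥ ∨ W = ⊤) :
    ∃ (ρ : E →ₐ[ZMod p] AE p E) (e : E), s = ρ e ∧ ∀ a, ∃ f : Polynomial (ZMod p),
      ρ a = Polynomial.aeval s f := by
  have := U3_Irred_nontriv S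
  obtain ⟨v, hv⟩ := exists_ne (0 : VV E)
  set I : Ideal (Polynomial (ZMod p)) := RingHom.ker (Polynomial.aeval s :
    Polynomial (ZMod p) →ₐ[ZMod p] AE p E) with hI
  have hmem : ∀ g : Polynomial (ZMod p), g ∈ I ↔ Polynomial.aeval s g = 0 := fun g => RingHom.mem_ker
  have hmem' : ∀ g : Polynomial (ZMod p), Polynomial.aeval s g v = 0 → g ∈ I := fun g hg =>
    (hmem g).2 (U3_Irred_zero s hirr g v hv hg)
  have hprime : I.IsPrime := by
    refine ⟨?_, ?_⟩
    · rw [Ideal.ne_top_iff_one, hmem, map_one]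
      exact one_ne_zero
    · intro g h hgh
      by_cases hh : h ∈ I
      · exact Or.inr hh
      · left
        apply (hmem g).2
        have h1 : Polynomial.aeval s h v ≠ 0 := fun h0 => hh (hmem' h h0)
        apply U3_Irred_zero s hirr g _ h1
        rw [← Module.End.mul_apply, ← map_mul, (hmem _).1 hgh, LinearMap.zero_apply]
  have hbot : I ≠ ⊥ := by
    intro h0
    have h1 : minpoly (ZMod p) s ∈ I := (hmem _).2 (minpoly.aeval _ _)
    rw [h0, Ideal.mem_bot] at h1
    exact minpoly.ne_zero (Algebra.IsIntegral.isIntegral s) h1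
  have hp0 := hprime
  have hmax : I.IsMaximal := IsPrime.to_maximal_ideal hbot
  let fQ : Field (Polynomial (ZMod p) ⧸ I) := Ideal.Quotient.field I
  set κ : (Polynomial (ZMod p) ⧸ I) →ₐ[ZMod p] AE p E :=
    Ideal.kerLiftAlg (Polynomial.aeval s : Polynomial (ZMod p) →ₐ[ZMod p] AE p E) with hκ
  have hκmk : ∀ g : Polynomial (ZMod p), κ (Ideal.Quotient.mk I g) = Polynomial.aeval s g :=
    fun g => rfl
  -- the bijection with `V`
  let φ : (Polynomial (ZMod p) ⧸ I) → VV E := fun q => κ q v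
  have hinj : Function.Injective φ := by
    intro q q' h
    obtain ⟨g, rfl⟩ := Ideal.Quotient.mk_surjective q
    obtain ⟨g', rfl⟩ := Ideal.Quotient.mk_surjective q'
    rw [Ideal.Quotient.eq]
    apply hmem'
    have h1 : Polynomial.aeval s g v = Polynomial.aeval s g' v := h
    rw [map_sub, LinearMap.sub_apply, h1, sub_self]
  have hsurj : Function.Surjective φ := by
    let ψ : Polynomial (ZMod p) →ₗ[ZMod p] VV E :=
      (LinearMap.applyₗ v).comp (Polynomial.aeval s :
        Polynomial (ZMod p) →ₐ[ZMod p] AE p E).toLinearMap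
    have hψ : ∀ g, ψ g = Polynomial.aeval s g v := fun g => rfl
    have hr : LinearMap.range ψ = ⊤ := by
      rcases hirr (LinearMap.range ψ) (fun w hw => by
        obtain ⟨g, rfl⟩ := LinearMap.mem_range.1 hw
        refine LinearMap.mem_range.2 ⟨Polynomial.X * g, ?_⟩
        rw [hψ, hψ, map_mul, Polynomial.aeval_X, Module.End.mul_apply]) with h1 | h1
      · exfalso
        apply hv
        have h2 : v ∈ LinearMap.range ψ := LinearMap.mem_range.2 ⟨1, by
          rw [hψ, map_one, Module.End.one_apply]⟩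
        rw [h1] at h2
        exact (Submodule.mem_bot _).1 h2
      · exact h1
    intro w
    obtain ⟨g, hg⟩ := LinearMap.range_eq_top.1 hr w
    exact ⟨Ideal.Quotient.mk I g, hg⟩
  have hbij : Function.Bijective φ := ⟨hinj, hsurj⟩
  have : Finite (Polynomial (ZMod p) ⧸ I) := Finite.of_injective φ hinj
  have hcard : Nat.card E = Nat.card (Polynomial (ZMod p) ⧸ I) := by
    rw [S.card, Nat.card_eq_of_bijective φ hbij, S.card_VV]
  let := Fintype.ofFinite E
  let := Fintype.ofFinite (Polynomial (ZMod p) ⧸ I)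
  have hcard' : Fintype.card E = Fintype.card (Polynomial (ZMod p) ⧸ I) := by
    rw [← Nat.card_eq_fintype_card, ← Nat.card_eq_fintype_card, hcard]
  let ε : E ≃ₐ[ZMod p] (Polynomial (ZMod p) ⧸ I) := FiniteField.algEquivOfCardEq p hcard'
  refine ⟨κ.comp (ε : E →ₐ[ZMod p] (Polynomial (ZMod p) ⧸ I)),
    ε.symm (Ideal.Quotient.mk I Polynomial.X), ?_, ?_⟩
  · show s = κ (ε (ε.symm (Ideal.Quotient.mk I Polynomial.X)))
    rw [ε.apply_symm_apply, hκmk, Polynomial.aeval_X]
  · intro a
    obtain ⟨g, hg⟩ := Ideal.Quotient.mk_surjective (ε a)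
    refine ⟨g, ?_⟩
    show κ (ε a) = _
    rw [← hg, hκmk]

private theorem U3_Irred_inj (S : Data p r E) (ρ : E →ₐ[ZMod p] AE p E) : Function.Injective ρ := by
  have := U3_Irred_nontriv S
  exact (ρ : E →+* AE p E).injective

/-- the automorphism induced by the adjoint -/
private theorem U3_Irred_tau (S : Data p r E) (s : (AE p E)ˣ) (hs : s ∈ S.Sp)
    (ρ : E →ₐ[ZMod p] AE p E) (e : E) (he : (s : AE p E) = ρ e)
    (hρ : ∀ a, ∃ f : Polynomial (ZMod p), ρ a = Polynomial.aeval (s : AE p E) f) :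
    ∃ τ : Gal(E/ZMod p), τ * τ = 1 ∧ (∀ a, S.adj (ρ a) = ρ (τ a)) ∧ e * τ e = 1 := by
  have := U3_Irred_nontriv S
  have hinj := U3_Irred_inj S ρ
  have hadj : S.adj (s : AE p E) = ((s⁻¹ : (AE p E)ˣ) : AE p E) := (S.mem_Sp_iff s).1 hs
  have he0 : e ≠ 0 := by
    rintro rfl
    rw [map_zero] at he
    exact s.ne_zero he
  have hinv : ((s⁻¹ : (AE p E)ˣ) : AE p E) = ρ e⁻¹ := by
    have h1 : (s : AE p E) * ρ e⁻¹ = 1 := by
      rw [he, ← map_mul, mul_inv_cancel₀ he0, map_one]
    calc ((s⁻¹ : (AE p E)ˣ) : AE p E) = ((s⁻¹ : (AE p E)ˣ) : AE p E) * ((s : AE p E) * ρ e⁻¹) := by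
          rw [h1, mul_one]
      _ = ρ e⁻¹ := by rw [← mul_assoc, s.inv_mul, one_mul]
  -- adjoint of polynomials
  have hpow : ∀ n : ℕ, S.adj ((s : AE p E) ^ n) = (ρ e⁻¹) ^ n := by
    intro n
    induction n with
    | zero => rw [pow_zero, pow_zero, S.adj_one]
    | succ n ih => rw [pow_succ, S.adj_mul, ih, hadj, hinv, pow_succ']
  have hpoly : ∀ f : Polynomial (ZMod p), S.adj (Polynomial.aeval (s : AE p E) f) =
      Polynomial.aeval (ρ e⁻¹) f := by
    intro f
    induction f using Polynomial.induction_on' with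
    | add f g hf hg => rw [map_add, S.adj_add, hf, hg, map_add]
    | monomial n c =>
      rw [Polynomial.aeval_monomial, Polynomial.aeval_monomial, ← Algebra.smul_def,
        ← Algebra.smul_def, S.adj_smul, hpow]
  have hex : ∀ a : E, ∃ b : E, S.adj (ρ a) = ρ b := by
    intro a
    obtain ⟨f, hf⟩ := hρ a
    refine ⟨Polynomial.aeval e⁻¹ f, ?_⟩
    rw [hf, hpoly, Polynomial.aeval_algHom_apply]
  choose τ hτ using hex
  have hτadd : ∀ a b, τ (a + b) = τ a + τ b := by
    intro a b
    apply hinj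
    rw [map_add, ← hτ, ← hτ, ← hτ, map_add, S.adj_add]
  have hτmul : ∀ a b, τ (a * b) = τ a * τ b := by
    intro a b
    apply hinj
    rw [map_mul, ← hτ, ← hτ, ← hτ, mul_comm a b, map_mul, S.adj_mul]
  have hτalg : ∀ c : ZMod p, τ (algebraMap (ZMod p) E c) = algebraMap (ZMod p) E c := by
    intro c
    apply hinj
    rw [← hτ, AlgHom.commutes, Algebra.algebraMap_eq_smul_one, S.adj_smul, S.adj_one]
  have hτ1 : τ 1 = 1 := by
    have := hτalg 1
    rwa [map_one] at this
  have hτ0 : τ 0 = 0 := by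
    have := hτalg 0
    rwa [map_zero] at this
  have hττ : ∀ a, τ (τ a) = a := by
    intro a
    apply hinj
    rw [← hτ, ← hτ, S.adj_adj]
  let τ' : E →ₐ[ZMod p] E :=
    { toFun := τ
      map_one' := hτ1
      map_mul' := hτmul
      map_zero' := hτ0
      map_add' := hτadd
      commutes' := hτalg }
  let τe : Gal(E/ZMod p) := AlgEquiv.ofAlgHom τ' τ' (AlgHom.ext hττ) (AlgHom.ext hττ)
  refine ⟨τe, ?_, fun a => hτ a, ?_⟩
  · ext a
    exact hττ a
  · have h1 : τ e = e⁻¹ := by
      apply hinj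
      rw [← hτ, ← he, hadj, hinv]
    show e * τ e = 1
    rw [h1, mul_inv_cancel₀ he0]

/-- Proof: take `ρ, e` from `exists_rho` and `θ` with `ρ a = cj θ (mE a)` from `exists_theta`. The image
`F_p[s]` of `ρ` is stable under the adjoint because `adj s = s⁻¹` is a polynomial in `s`; so there is an
automorphism `τ` of `E` with `adj (ρ a) = ρ (τ a)`, `τ² = 1` (`adj_adj`). `τ ≠ 1`: `τ e = e⁻¹`, and if
`e² = 1` then `s = ±1`, which has invariant lines, contradiction (dimension `2r > 1`). So `τ = bar`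
(`eq_bar_of_sq`), and `e * bar e = 1`. The hypothesis of `transport` holds for `θ`, so
`ψ = θ ν⁻¹ ∈ Sp`, and `s = cj θ (mE e) = cj ψ (mE e)`. -/
theorem irred_conj (S : Data p r E) (s : (AE p E)ˣ) (hs : s ∈ S.Sp)
    (hirr : ∀ W : Submodule (ZMod p) (VV E),
      (∀ w ∈ W, (s : AE p E) w ∈ W) → W = ⊥ ∨ W = ⊤) :
    ∃ h ∈ S.Sp, ∃ t ∈ S.T, s = h * t * h⁻¹ := by
  have := U3_Irred_nontriv S
  obtain ⟨ρ, e, he, hρ⟩ := exists_rho S s hirr
  obtain ⟨τ, hττ, hτ, hτe⟩ := U3_Irred_tau S s hs ρ e he hρ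
  obtain ⟨θ, hθ⟩ := exists_theta S ρ
  -- `τ ≠ 1`
  have hτ1 : τ ≠ 1 := by
    rintro rfl
    have h1 : e * e = 1 := hτe
    have h2 : ∃ c : ZMod p, (s : AE p E) = c • (1 : AE p E) := by
      rcases mul_self_eq_one_iff.1 h1 with h3 | h3
      · refine ⟨1, ?_⟩
        rw [he, h3, map_one, one_smul]
      · refine ⟨-1, ?_⟩
        rw [he, h3, map_neg, map_one, neg_smul, one_smul]
    obtain ⟨c, hc⟩ := h2
    obtain ⟨v, hv⟩ := exists_ne (0 : VV E)
    rcases hirr (Submodule.span (ZMod p) {v}) (fun w hw => by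
      rw [hc, LinearMap.smul_apply, Module.End.one_apply]
      exact Submodule.smul_mem _ _ hw) with h | h
    · rw [Submodule.span_singleton_eq_bot] at h
      exact hv h
    · have h4 := finrank_span_singleton (K := ZMod p) hv
      rw [h, finrank_top, S.finrank_VV] at h4
      omega
  have hτb : τ = S.bar := S.eq_bar_of_sq τ hττ hτ1
  subst hτb
  -- `θ` intertwines
  have hθ' : ∀ (a : E) (x : VV E), (θ : AE p E) (mE p a x) = ρ a ((θ : AE p E) x) := by
    intro a x
    have h1 := (cj_eq_iff θ (mE p a) (ρ a)).1 (hθ a).symm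
    rw [← Module.End.mul_apply, h1, Module.End.mul_apply]
  obtain ⟨ν, g, hν, hg, hgθ⟩ := S.transport θ (fun a x y => by
    rw [hθ', hθ', S.B_adj, hτ])
  have he0 : e ≠ 0 := by
    rintro rfl
    rw [zero_mul] at hτe
    exact zero_ne_one hτe
  let t : (AE p E)ˣ := Units.map (mE p : E →ₐ[ZMod p] AE p E).toRingHom.toMonoidHom (Units.mk0 e he0)
  have ht : (t : AE p E) = mE p e := rfl
  refine ⟨g, hg, t, ⟨e, hτe, ht⟩, ?_⟩
  rw [eq_mul_inv_iff_mul_eq]
  ext1
  rw [Units.val_mul, Units.val_mul, hgθ, ht, he]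
  have h1 := (cj_eq_iff θ (mE p e) (ρ e)).1 (hθ e).symm
  rw [← mul_assoc, ← h1, mul_assoc, mul_assoc, ← map_mul, ← map_mul, mul_comm e]

end Data

end Pool.Agent.MP971469
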