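import Pool.Agent.Lib.MP_971469_al.U1_GoodLe
import Pool.Agent.Lib.MP_971469_al.U2_Torus
import Pool.Agent.Lib.MP_971469_al.U3_Irred
import Pool.Agent.Lib.MP_971469_al.S9_Red

/-! U4: the upper bound for every `s`. -/

namespace Pool.Agent.MP971469

namespace Data

variable {p r : ℕ} [Fact p.Prime] {E : Type} [Field E] [Finite E] [Algebra (ZMod p) E]

/-- `Dom` is invariant under simultaneous conjugation. -/
theorem dom_conj {U : Type} [Group U] (H Z : Subgroup U) (hZ : ∀ h ∈ H, ∀ z ∈ Z, h * z * h⁻¹ ∈ Z)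
    (hZH : Z ≤ H) (s g h : U) (hh : h ∈ H) (hd : Dom H Z (h * s * h⁻¹) (h * g * h⁻¹)) :
    Dom H Z s g := by
  obtain ⟨hs, hd⟩ := hd
  set φ : U →* U := (MulAut.conj h).toMonoidHom with hφ
  have hφa : ∀ x, φ x = h * x * h⁻¹ := fun x => rfl
  have hinj : Function.Injective φ := (MulAut.conj h).injective
  have hmapH : H.map φ = H := by
    ext x
    constructor
    · rintro ⟨y, hy, rfl⟩
      rw [hφa]
      exact H.mul_mem (H.mul_mem hh hy) (H.inv_mem hh)
    · intro hx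
      refine ⟨h⁻¹ * x * h, H.mul_mem (H.mul_mem (H.inv_mem hh) hx) hh, ?_⟩
      rw [hφa]; group
  have hmapZ : Z.map φ = Z := by
    ext x
    constructor
    · rintro ⟨y, hy, rfl⟩
      rw [hφa]
      exact hZ h hh y hy
    · intro hx
      refine ⟨h⁻¹ * x * h, ?_, ?_⟩
      · have := hZ h⁻¹ (H.inv_mem hh) x hx
        rwa [inv_inv] at this
      · rw [hφa]; group
  have key : ∀ x y, Subgroup.closure {h * x * h⁻¹, h * y * h⁻¹} ⊔ Z = H →
      Subgroup.closure {x, y} ⊔ Z = H := by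
    intro x y hxy
    apply Subgroup.map_injective hinj
    rw [Subgroup.map_sup, MonoidHom.map_closure, hmapZ, hmapH, Set.image_pair]
    exact hxy
  refine ⟨fun h1 => hs (hZ h hh s h1), fun x hx hxZ => ?_⟩
  have h1 : h * x * h⁻¹ ∈ H := H.mul_mem (H.mul_mem hh hx) (H.inv_mem hh)
  have h2 : h * x * h⁻¹ ∉ Z := by
    intro h3
    apply hxZ
    have := hZ h⁻¹ (H.inv_mem hh) _ h3
    have h4 : h⁻¹ * (h * x * h⁻¹) * h⁻¹⁻¹ = x := by group
    rwa [h4] at this
  rcases hd _ h1 h2 with h3 | h3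
  · exact Or.inl (key _ _ h3)
  · refine Or.inr (key _ _ ?_)
    have h4 : h * g * h⁻¹ * (h * s * h⁻¹) * (h * g * h⁻¹)⁻¹ = h * (g * s * g⁻¹) * h⁻¹ := by group
    rwa [h4] at h3

/-- Proof: if `s` has a proper nonzero invariant subspace there is no `g` with `Dom`
(`not_dom_of_reducible`, with `a = 2` for `hK`, `finrank_VV`, `r_odd`). Otherwise `s = h t h⁻¹` with
`t ∈ T` (`irred_conj`); by `dom_conj` `g ↦ h⁻¹ g h` maps `{g : Dom s g}` injectively to
`{g : Dom t g}`, which is contained in the set of `card_good_le` by `good_of_dom_T`. -/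
theorem upper (S : Data p r E) (s : (AE p E)ˣ) (hs : s ∈ S.Sp) :
    (Nat.card {g : (AE p E)ˣ // g ∈ S.Sp ∧ Dom S.Sp (pm (ZMod p) (VV E)) s g} : ℝ) ≤
      (8 / (r : ℝ) + 6 / (p : ℝ)) * Nat.card S.Sp := by
  have hpmconj : ∀ h ∈ S.Sp, ∀ z ∈ pm (ZMod p) (VV E), h * z * h⁻¹ ∈ pm (ZMod p) (VV E) := by
    rintro h _ z (rfl | rfl)
    · left; group
    · right; rw [mul_neg_one, neg_mul, mul_inv_cancel]
  by_cases hirr : ∀ W : Submodule (ZMod p) (VV E),
      (∀ w ∈ W, (s : AE p E) w ∈ W) → W = ⊥ ∨ W = ⊤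
  · obtain ⟨h, hh, t, ht, hst⟩ := irred_conj S s hs hirr
    refine le_trans ?_ (card_good_le S)
    have hf0 : Finite (AE p E) := DFunLike.finite (AE p E)
    have hf : Finite (AE p E)ˣ := Finite.of_injective Units.val Units.val_injective
    refine Nat.cast_le.2 ?_
    refine Nat.card_le_card_of_injective
      (fun g : {g : (AE p E)ˣ // g ∈ S.Sp ∧ Dom S.Sp (pm (ZMod p) (VV E)) s g} =>
        (⟨h⁻¹ * g.1 * h, S.Sp.mul_mem (S.Sp.mul_mem (S.Sp.inv_mem hh) g.2.1) hh, ?_⟩ :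
          {g : (AE p E)ˣ // g ∈ S.Sp ∧
            S.C S.J ⊓ S.C (cj g S.J) ≤ pm (ZMod p) (VV E)})) ?_
    · apply good_of_dom_T S t (h⁻¹ * g.1 * h) ht
        (S.Sp.mul_mem (S.Sp.mul_mem (S.Sp.inv_mem hh) g.2.1) hh)
      apply dom_conj S.Sp (pm (ZMod p) (VV E)) hpmconj S.pm_le_Sp t _ h hh
      rw [← hst]
      have h4 : h * (h⁻¹ * g.1 * h) * h⁻¹ = g.1 := by group
      rw [h4]
      exact g.2.2
    · intro g1 g2 h12
      have h5 := congrArg Subtype.val h12
      apply Subtype.ext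
      simpa using h5
  · push Not at hirr
    obtain ⟨W, hW, hW0, hW1⟩ := hirr
    have hK : ∃ a : ZMod p, a ≠ 0 ∧ a ^ 2 ≠ 1 := by
      refine ⟨2, S.two_ne, ?_⟩
      intro h
      have h3 : ((3 : ℕ) : ZMod p) = 0 := by
        have : (4 : ZMod p) = 1 := by
          calc (4 : ZMod p) = 2 ^ 2 := by norm_num
            _ = 1 := h
        calc ((3 : ℕ) : ZMod p) = 4 - 1 := by norm_num
          _ = 0 := by rw [this, sub_self]
      rw [ZMod.natCast_eq_zero_iff] at h3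
      have h4 := Nat.le_of_dvd (by norm_num) h3
      have := S.p_ge
      omega
    have hempty : IsEmpty {g : (AE p E)ˣ // g ∈ S.Sp ∧
        Dom S.Sp (pm (ZMod p) (VV E)) s g} := by
      constructor
      rintro ⟨g, hg, hd⟩
      exact not_dom_of_reducible S.two_ne S.B_isAlt S.B_nondeg hK r S.r_odd S.finrank_VV s g hs hg
        W hW0 hW1 hW hd
    rw [Nat.card_of_isEmpty, Nat.cast_zero]
    positivity

end Data

end Pool.Agent.MP971469
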