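import Pool.Agent.Lib.MP_971469_al.Defs

/-! W1: existence of the data. -/

namespace Pool.Agent.MP971469

/-- Proof: `E = GaloisField p (2r)`; a nonsquare `lam` of `F_p` exists (`p` odd,
`FiniteField.exists_nonsquare`); it is a square in `E` because the quadratic extension
`F_p(√lam) = F_{p²}` embeds in `E` (`2 ∣ 2r`), or: `lam^((p^(2r)-1)/2) = (lam^(p-1))^(...) = 1`
(`FiniteField.isSquare_iff`), as `(p-1) ∣ (p^(2r)-1)/2`. -/
theorem exists_data (p r : ℕ) [Fact p.Prime] (hr : r.Prime) (hr2 : 11 ≤ r) (hp : p % 4 = 1)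
    (hpr : 8 * r < p) :
    Nonempty (Data p r (GaloisField p (2 * r))) := by
  classical
  have hpp : p.Prime := Fact.out
  have h2 : ringChar (ZMod p) ≠ 2 := by
    rw [ZMod.ringChar_zmod_n]
    omega
  obtain ⟨lam, hlam⟩ := FiniteField.exists_nonsquare h2
  have hlam0 : lam ≠ 0 := by
    rintro rfl
    exact hlam ⟨0, by simp⟩
  have hcard : Nat.card (GaloisField p (2 * r)) = p ^ (2 * r) :=
    GaloisField.card p (2 * r) (by omega)
  have : Fintype (GaloisField p (2 * r)) := Fintype.ofFinite _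
  have hcard' : Fintype.card (GaloisField p (2 * r)) = p ^ (2 * r) := by
    rw [← Nat.card_eq_fintype_card, hcard]
  have h3 : ringChar (GaloisField p (2 * r)) ≠ 2 := by
    rw [ringChar.eq (GaloisField p (2 * r)) p]
    omega
  have hsq : IsSquare (algebraMap (ZMod p) (GaloisField p (2 * r)) lam) := by
    rw [FiniteField.isSquare_iff h3 (by
      rw [Ne, FaithfulSMul.algebraMap_eq_zero_iff]
      exact hlam0)]
    obtain ⟨m, hm⟩ : ∃ m, p = 4 * m + 1 := ⟨p / 4, by omega⟩
    have hd : p ^ 2 - 1 ∣ p ^ (2 * r) - 1 := by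
      rw [pow_mul]
      exact Nat.sub_one_dvd_pow_sub_one _ _
    obtain ⟨c, hc⟩ := hd
    have hp2 : p ^ 2 - 1 = 2 * ((p - 1) * (2 * m + 1)) := by
      rw [hm]
      have : (4 * m + 1) ^ 2 = 2 * ((4 * m + 1 - 1) * (2 * m + 1)) + 1 := by
        rw [Nat.add_sub_cancel]
        ring
      omega
    have hpos : 1 ≤ p ^ (2 * r) := Nat.one_le_pow _ _ hpp.pos
    have hN : p ^ (2 * r) = 2 * ((p - 1) * ((2 * m + 1) * c)) + 1 := by
      have : p ^ (2 * r) - 1 = 2 * ((p - 1) * ((2 * m + 1) * c)) := by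
        rw [hc, hp2]
        ring
      omega
    have hdiv : Fintype.card (GaloisField p (2 * r)) / 2 = (p - 1) * ((2 * m + 1) * c) := by
      rw [hcard', hN]
      omega
    rw [hdiv, pow_mul, ← map_pow, ZMod.pow_card_sub_one_eq_one hlam0, map_one, one_pow]
  obtain ⟨j, hj⟩ := hsq
  exact ⟨⟨hr, hr2, hp, hpr, hcard, lam, hlam, j, hj.symm⟩⟩

end Pool.Agent.MP971469
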