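import Pool.Agent.Lib.MP_971469_al.X13_Exists
import Pool.Agent.Lib.MP_971469_al.P6_Over

/-! X14: existence of a dominating pair. -/

namespace Pool.Agent.MP971469

namespace Data

variable {p r : ℕ} [Fact p.Prime] {E : Type} [Field E] [Finite E] [Algebra (ZMod p) E]

/-- Proof: let `s` be multiplication by the generator `ζ` of `E¹` (`exists_zeta`), `g` from
`exists_good_g`. `s ∉ pm` because its order is `p^r+1 > 2`. Let `x ∈ Sp`, `x ∉ pm`.
`closure {x, s}` contains `T` (every element of `T` is a power of `s`), and `pm ≤ T`. By `overgroup` either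
`closure {x, s} = Sp` (then `closure {x,s} ⊔ pm = Sp`), or `x ∈ H J` or `x ∈ KF`. Similarly
`closure {g⁻¹ x g, s}` (the conjugate of `closure {x, g s g⁻¹}`) is `Sp`, or `g⁻¹ x g ∈ H J` or
`g⁻¹ x g ∈ KF`. If neither closure is `Sp`, then `x ∈ pm` by the choice of `g`, contradiction. -/
theorem exists_dom (S : Data p r E) (hp : 1000 * r ^ 2 * 2 ^ r < p)
    (hp' : (4 * r * (2 * r ^ 2 + r) ^ 2) ^ (2 * r ^ 2 + r) < p) :
    ∃ s ∈ S.Sp, ∃ g ∈ S.Sp, Dom S.Sp (pm (ZMod p) (VV E)) s g := by
  obtain ⟨ζ, h1, h2, h3⟩ := S.exists_zeta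
  obtain ⟨g, hg, hgood⟩ := S.exists_good_g hp
  -- the unit of multiplication by ζ
  have hs1 : mE p ζ * mE p (S.bar ζ) = (1 : AE p E) := by rw [← map_mul, h1, map_one]
  have hs2 : mE p (S.bar ζ) * mE p ζ = (1 : AE p E) := by rw [← map_mul, mul_comm, h1, map_one]
  set s : (AE p E)ˣ := ⟨mE p ζ, mE p (S.bar ζ), hs1, hs2⟩ with hs
  have hsval : (s : AE p E) = mE p ζ := rfl
  have hsT : s ∈ S.T := ⟨ζ, h1, rfl⟩
  have hsSp : s ∈ S.Sp := S.T_le_Sp hsT
  have hT : ∀ t ∈ S.T, ∃ k : ℕ, t = s ^ k := by
    rintro t ⟨e, he, ht⟩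
    obtain ⟨k, rfl⟩ := h3 e he
    refine ⟨k, ?_⟩
    ext1
    rw [ht, Units.val_pow_eq_pow_val, hsval, map_pow]
  have hspm : s ∉ pm (ZMod p) (VV E) := by
    intro h
    have hζ : ζ = 1 ∨ ζ = -1 := by
      rcases h with h | h
      · left
        apply mE_injective (p := p)
        rw [← hsval, h, map_one, Units.val_one]
      · right
        apply mE_injective (p := p)
        rw [← hsval, h, map_neg, map_one, Units.val_neg, Units.val_one]
    have h4 : ζ ^ 2 = 1 := by
      rcases hζ with h | h <;> rw [h] <;> ring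
    have h5 := orderOf_dvd_of_pow_eq_one h4
    rw [h2] at h5
    have h6 := Nat.le_of_dvd (by norm_num) h5
    have h7 : p ^ 1 ≤ p ^ r := Nat.pow_le_pow_right (Fact.out : p.Prime).pos S.r_pos
    have := S.p_ge
    rw [pow_one] at h7
    omega
  -- the overgroup theorem for closure {x, s}
  have key : ∀ x ∈ S.Sp, Subgroup.closure {x, s} = S.Sp ∨ (x ∈ S.H S.J ∨ x ∈ S.KF) := by
    intro x hx
    have hsM : s ∈ Subgroup.closure {x, s} := Subgroup.subset_closure (by simp)
    have hxM : x ∈ Subgroup.closure {x, s} := Subgroup.subset_closure (by simp)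
    have hTM : S.T ≤ Subgroup.closure {x, s} := by
      intro t ht
      obtain ⟨k, rfl⟩ := hT t ht
      exact pow_mem hsM k
    have hM : Subgroup.closure {x, s} ≤ S.Sp := by
      rw [Subgroup.closure_le]
      rintro y (rfl | rfl)
      · exact hx
      · exact hsSp
    rcases S.overgroup hp' _ hTM hM with h | h | h
    · exact Or.inl h
    · exact Or.inr (Or.inl (h hxM))
    · exact Or.inr (Or.inr (h hxM))
  refine ⟨s, hsSp, g, hg, hspm, ?_⟩
  intro x hx hxpm
  by_contra hcon
  push Not at hcon
  obtain ⟨hc1, hc2⟩ := hcon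
  apply hxpm
  apply hgood x
  · rcases key x hx with h | h
    · exfalso
      apply hc1
      rw [h]
      exact sup_eq_left.mpr S.pm_le_Sp
    · exact h
  · have hx' : g⁻¹ * x * g ∈ S.Sp := mul_mem (mul_mem (inv_mem hg) hx) hg
    rcases key _ hx' with h | h
    · exfalso
      apply hc2
      -- closure {x, g s g⁻¹} contains g * closure {g⁻¹ x g, s} * g⁻¹ = Sp
      have hle : S.Sp ≤ Subgroup.closure {x, g * s * g⁻¹} := by
        intro y hy
        have hy' : g⁻¹ * y * g ∈ Subgroup.closure {g⁻¹ * x * g, s} := by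
          rw [h]
          exact mul_mem (mul_mem (inv_mem hg) hy) hg
        have h6 : Subgroup.closure {g⁻¹ * x * g, s} ≤
            (Subgroup.closure {x, g * s * g⁻¹}).comap (MulAut.conj g).toMonoidHom := by
          rw [Subgroup.closure_le]
          rintro z (rfl | rfl)
          · rw [SetLike.mem_coe, Subgroup.mem_comap]
            have : (MulAut.conj g).toMonoidHom (g⁻¹ * x * g) = x := by
              simp [mul_assoc]
            rw [this]
            exact Subgroup.subset_closure (by simp)
          · rw [SetLike.mem_coe, Subgroup.mem_comap]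
            exact Subgroup.subset_closure (by simp)
        have h7 := h6 hy'
        rw [Subgroup.mem_comap] at h7
        have : (MulAut.conj g).toMonoidHom (g⁻¹ * y * g) = y := by
          simp [mul_assoc]
        rwa [this] at h7
      apply le_antisymm
      · apply sup_le _ S.pm_le_Sp
        rw [Subgroup.closure_le]
        rintro y (rfl | rfl)
        · exact hx
        · exact mul_mem (mul_mem hg hsSp) (inv_mem hg)
      · exact le_sup_of_le_left hle
    · exact h

end Data

end Pool.Agent.MP971469
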