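import Pool.Agent.Lib.MP_971469_al.G6_QuotFinal
import Pool.Agent.Lib.MP_971469_al.S6_Simple
import Pool.Agent.Lib.MP_971469_al.U4_Upper
import Pool.Agent.Lib.MP_971469_al.X14_Dom
import Pool.Agent.Lib.MP_971469_al.W1_Data

/-! W2: the main theorem. -/

namespace Pool.Agent.MP971469

namespace Data

variable {p r : ℕ} [Fact p.Prime] {E : Type} [Field E] [Finite E] [Algebra (ZMod p) E]

private theorem W2_hK (S : Data p r E) : ∃ a : ZMod p, a ≠ 0 ∧ a ^ 2 ≠ 1 := by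
  refine ⟨2, S.two_ne, ?_⟩
  intro h
  have h3 : ((3 : ℕ) : ZMod p) = 0 := by
    have : ((3 : ℕ) : ZMod p) = (2 : ZMod p) ^ 2 - 1 := by norm_num
    rw [this, h, sub_self]
  rw [ZMod.natCast_eq_zero_iff] at h3
  have := Nat.le_of_dvd (by norm_num) h3
  have := S.p_ge
  omega

/-- The statement for one group `Sp/{1,-1}`; proof: `isSimple`, `quot_not_comm` (`finrank_VV`,
`two_ne`, `a = 2`), `exists_dom` and `quot_pos`, `upper` and `quot_Pmax_le`. -/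
theorem main_one (S : Data p r E) (hp : 1000 * r ^ 2 * 2 ^ r < p)
    (hp' : (4 * r * (2 * r ^ 2 + r) ^ 2) ^ (2 * r ^ 2 + r) < p) :
    IsSimpleGroup ((SpGroup S.B) ⧸ (pm (ZMod p) (VV E)).subgroupOf (SpGroup S.B)) ∧
    (¬ ∀ a b : (SpGroup S.B) ⧸ (pm (ZMod p) (VV E)).subgroupOf (SpGroup S.B), a * b = b * a) ∧
    gammaU ((SpGroup S.B) ⧸ (pm (ZMod p) (VV E)).subgroupOf (SpGroup S.B)) = 2 ∧
    0 < Pmax ((SpGroup S.B) ⧸ (pm (ZMod p) (VV E)).subgroupOf (SpGroup S.B)) 2 ∧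
    Pmax ((SpGroup S.B) ⧸ (pm (ZMod p) (VV E)).subgroupOf (SpGroup S.B)) 2 ≤ 8 / (r : ℝ) + 6 / (p : ℝ) := by
  have hdim : 3 ≤ Module.finrank (ZMod p) (VV E) := by
    rw [S.finrank_VV]
    have := S.r_ge
    omega
  have hB := S.B_isAlt
  have hn : ∀ x, (∀ y, S.B x y = 0) → x = 0 := S.B_nondeg
  have hsimple := isSimple hdim S.two_ne hB hn (W2_hK S)
  have hnc := quot_not_comm hdim S.two_ne hB hn
  obtain ⟨s, hs, g, hg, hdom⟩ := S.exists_dom hp hp'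
  obtain ⟨h1, h2⟩ := quot_pos (SpGroup S.B) (pm (ZMod p) (VV E)) S.pm_le_Sp s g hs hg hdom hnc
  refine ⟨hsimple, hnc, h1, h2, ?_⟩
  exact quot_Pmax_le (SpGroup S.B) (pm (ZMod p) (VV E)) S.pm_le_Sp _ (fun s hs => S.upper s hs)

end Data

/-- Proof: choose a prime `r ≥ 11`, `r > 16/ε`, then a prime `p ≡ 1 mod 4`
(`Nat.exists_prime_gt_modEq_one`) larger than all bounds and than `12/ε`; `exists_data`, `main_one`. -/
theorem main_theorem (ε : ℝ) (hε : 0 < ε) :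
    ∃ (G : Type) (_ : Group G) (_ : Finite G), IsSimpleGroup G ∧ (¬ ∀ a b : G, a * b = b * a) ∧
      gammaU G = 2 ∧ 0 < Pmax G 2 ∧ Pmax G 2 < ε := by
  obtain ⟨r, hr1, hr⟩ := Nat.exists_infinite_primes (11 + ⌈16 / ε⌉₊ + 1)
  have hr11 : 11 ≤ r := by omega
  have hrε : 16 / ε < r := by
    have h1 : 16 / ε ≤ (⌈16 / ε⌉₊ : ℝ) := Nat.le_ceil _
    have h2 : ((11 + ⌈16 / ε⌉₊ + 1 : ℕ) : ℝ) ≤ r := by exact_mod_cast hr1
    push_cast at h2
    linarith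
  obtain ⟨p, hp, hp1, hp2⟩ := Nat.exists_prime_gt_modEq_one (k := 4)
    (8 * r + 1000 * r ^ 2 * 2 ^ r + (4 * r * (2 * r ^ 2 + r) ^ 2) ^ (2 * r ^ 2 + r) + ⌈12 / ε⌉₊)
    (by norm_num)
  have : Fact p.Prime := ⟨hp⟩
  have hp4 : p % 4 = 1 := hp2
  have hpε : 12 / ε < p := by
    have h1 : 12 / ε ≤ (⌈12 / ε⌉₊ : ℝ) := Nat.le_ceil _
    have h2 : (⌈12 / ε⌉₊ : ℝ) < p := by
      have : ⌈12 / ε⌉₊ < p := by omega
      exact_mod_cast this
    linarith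
  obtain ⟨S⟩ := exists_data p r hr hr11 hp4 (by omega)
  obtain ⟨h1, h2, h3, h4, h5⟩ := S.main_one (by omega) (by omega)
  refine ⟨(SpGroup S.B) ⧸ (pm (ZMod p) (VV (GaloisField p (2 * r)))).subgroupOf (SpGroup S.B),
    inferInstance, inferInstance, h1, h2, h3, h4, lt_of_le_of_lt h5 ?_⟩
  have hr0 : (0 : ℝ) < r := by exact_mod_cast hr.pos
  have hp0 : (0 : ℝ) < p := by exact_mod_cast hp.pos
  have e1 : 8 / (r : ℝ) < ε / 2 := by
    rw [div_lt_iff₀ hr0]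
    rw [div_lt_iff₀ hε] at hrε
    linarith
  have e2 : 6 / (p : ℝ) < ε / 2 := by
    rw [div_lt_iff₀ hp0]
    rw [div_lt_iff₀ hε] at hpε
    linarith
  linarith

end Pool.Agent.MP971469
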