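import Pool.Agent.Lib.MP_971469_al.M07_Skew

/-! X01: all the elements `a j + b bar` with `a ∈ F`, `b * bar b = lam (1 - a²)` are conjugate to `J`. -/

namespace Pool.Agent.MP971469

namespace Data

variable {p r : ℕ} [Fact p.Prime] {E : Type} [Field E] [Finite E] [Algebra (ZMod p) E]

private theorem X01_mul (S : Data p r E) (a b c d : E) :
    (mE p a + mE p b * gE p S.bar) * (mE p c + mE p d * gE p S.bar) =
      mE p (a * c + b * S.bar d) + mE p (a * d + b * S.bar c) * gE p S.bar := by
  have h1 : gE p S.bar * mE p c = mE p (S.bar c) * gE p S.bar := gE_mul_mE _ _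
  have h2 : gE p S.bar * mE p d = mE p (S.bar d) * gE p S.bar := gE_mul_mE _ _
  have h3 : gE p S.bar * gE p S.bar = 1 := by rw [← map_mul, S.bar_mul_bar, map_one]
  calc (mE p a + mE p b * gE p S.bar) * (mE p c + mE p d * gE p S.bar)
      = mE p a * mE p c + mE p a * mE p d * gE p S.bar + mE p b * (gE p S.bar * mE p c) +
          mE p b * (gE p S.bar * mE p d) * gE p S.bar := by noncomm_ring
    _ = mE p a * mE p c + mE p a * mE p d * gE p S.bar + mE p b * (mE p (S.bar c) * gE p S.bar) +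
          mE p b * mE p (S.bar d) * (gE p S.bar * gE p S.bar) := by rw [h1, h2]; noncomm_ring
    _ = mE p (a * c + b * S.bar d) + mE p (a * d + b * S.bar c) * gE p S.bar := by
        rw [h3]
        simp only [map_add, map_mul]
        noncomm_ring

private theorem X01_adj (S : Data p r E) (a b : E) :
    S.adj (mE p a + mE p b * gE p S.bar) = mE p (S.bar a) + mE p (-b) * gE p S.bar := by
  rw [S.adj_add, S.adj_mE, S.adj_mE_gE, S.sgn_bar, S.bar_inv, S.bar_bar, neg_one_mul]

private theorem X01_conj (S : Data p r E) (x y : E) (h : x * S.bar x - y * S.bar y = 1) :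
    mE p ((x * S.bar x + y * S.bar y) * S.j) + mE p (-(2 * S.j * x * y)) * gE p S.bar ∈ S.orbJ := by
  have h1 : S.adj (mE p x + mE p y * gE p S.bar) * (mE p x + mE p y * gE p S.bar) = 1 := by
    rw [X01_adj, X01_mul]
    have e1 : S.bar x * x + -y * S.bar y = 1 := by rw [← h]; ring
    have e2 : S.bar x * y + -y * S.bar x = 0 := by ring
    rw [e1, e2, map_one, map_zero, zero_mul, add_zero]
  obtain ⟨g, hg, hgX⟩ := S.exists_Sp _ h1
  refine ⟨g, hg, ?_⟩
  have h2 : ((g⁻¹ : (AE p E)ˣ) : AE p E) = mE p (S.bar x) + mE p (-y) * gE p S.bar := by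
    rw [← (S.mem_Sp_iff g).mp hg, hgX, X01_adj]
  unfold cj
  rw [h2, hgX]
  have h3 : S.J = mE p S.j + mE p 0 * gE p S.bar := by
    unfold J
    rw [map_zero, zero_mul, add_zero]
  rw [h3, X01_mul, X01_mul]
  congr 2
  · simp only [map_zero, map_neg, S.bar_j, S.bar_bar]; ring
  · congr 1
    simp only [map_zero, map_neg, S.bar_j, S.bar_bar]; ring

/-- Proof: for `h = x + y bar` (`x, y ∈ E`): `adj h = bar(x) - y bar`, `h * adj h = x bar x - y bar y`
(the cross terms cancel), and `h J (adj h) = j (x bar x + y bar y) - 2 j x y bar`. If `a ≠ -1`: choose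
`x` with `x bar x = (a+1)/2` (`norm_surj`; `(a+1)/2 ∈ F`, nonzero) and `y = - b/(2 j x)`; then
`y bar y = b bar b/(-4 lam x bar x) = (a-1)/2` (note `j * bar j = -lam`), so `h adj h = 1`, `h ∈ Sp`
(`exists_Sp` gives `adj X * X = 1`, equivalent to `X * adj X = 1`), and `cj h J = a j + b bar`.
If `a = -1`: `b bar b = 0`, `b = 0`; choose `y` with `y bar y = -1` (`norm_surj`), `h = y bar`. -/
theorem conj_J (S : Data p r E) (a b : E) (ha : S.bar a = a)
    (hb : b * S.bar b = algebraMap (ZMod p) E S.lam * (1 - a ^ 2)) :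
    mE p (a * S.j) + mE p b * gE p S.bar ∈ S.orbJ := by
  have h2 := S.two_ne'
  have hj := S.j_ne
  by_cases ha1 : a = -1
  · have hb0 : b = 0 := by
      rw [ha1] at hb
      have h3 : b * S.bar b = 0 := by rw [hb]; ring
      rcases mul_eq_zero.mp h3 with h4 | h4
      · exact h4
      · exact (map_eq_zero S.bar).mp h4
    obtain ⟨y, hy0, hy⟩ := S.norm_surj (-1) (by rw [map_neg, map_one]) (neg_ne_zero.mpr one_ne_zero)
    have h3 := X01_conj S 0 y (by rw [hy]; ring)
    have e1 : (0 * S.bar 0 + y * S.bar y) * S.j = a * S.j := by rw [hy, ha1]; ring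
    have e2 : -(2 * S.j * 0 * y) = b := by rw [hb0]; ring
    rw [e1, e2] at h3
    exact h3
  · have ha2 : a + 1 ≠ 0 := fun h => ha1 (eq_neg_of_add_eq_zero_left h)
    have hf : S.bar ((a + 1) / 2) = (a + 1) / 2 := by
      rw [map_div₀, map_add, ha, map_one, map_ofNat]
    obtain ⟨x, hx0, hx⟩ := S.norm_surj ((a + 1) / 2) hf (div_ne_zero ha2 h2)
    have hbx : S.bar x ≠ 0 := (map_ne_zero S.bar).mpr hx0
    have hyy : (-b / (2 * S.j * x)) * S.bar (-b / (2 * S.j * x)) = (a - 1) / 2 := by
      rw [map_div₀, map_neg, map_mul, map_mul, S.bar_j, map_ofNat]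
      have h4 : (4 : E) ≠ 0 := by
        have : (4 : E) = 2 * 2 := by norm_num
        rw [this]; exact mul_ne_zero h2 h2
      have e1 : -b / (2 * S.j * x) * (-S.bar b / (2 * -S.j * S.bar x)) =
          -(b * S.bar b) / (4 * (S.j * S.j) * (x * S.bar x)) := by
        rw [div_mul_div_comm, div_eq_div_iff (by
            exact mul_ne_zero (mul_ne_zero (mul_ne_zero h2 hj) hx0)
              (mul_ne_zero (mul_ne_zero h2 (neg_ne_zero.mpr hj)) hbx))
          (mul_ne_zero (mul_ne_zero h4 (mul_ne_zero hj hj)) (mul_ne_zero hx0 hbx))]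
        ring
      have hl : algebraMap (ZMod p) E S.lam ≠ 0 := by
        rw [← S.j_sq]; exact mul_ne_zero hj hj
      rw [e1, hb, hx, S.j_sq]
      field_simp
      ring
    have h3 := X01_conj S x (-b / (2 * S.j * x)) (by rw [hx, hyy]; field_simp; ring)
    have e1 : (x * S.bar x + -b / (2 * S.j * x) * S.bar (-b / (2 * S.j * x))) * S.j = a * S.j := by
      rw [hx, hyy]; field_simp; ring
    have e2 : -(2 * S.j * x * (-b / (2 * S.j * x))) = b := by
      field_simp
    rw [e1, e2] at h3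
    exact h3

/-- Conversely a skew endomorphism commuting with `F` with square `lam` is of this form
(`eq_of_comm_F`, `coef_skew`, `em_iff`). -/
theorem form_of_comm_F (S : Data p r E) (Y : AE p E) (hY : Y ∈ S.skew)
    (hY2 : Y * Y = S.lam • (1 : AE p E))
    (hF : ∀ f : E, S.bar f = f → Y * mE p f = mE p f * Y) :
    ∃ a b : E, S.bar a = a ∧ b * S.bar b = algebraMap (ZMod p) E S.lam * (1 - a ^ 2) ∧
      Y = mE p (a * S.j) + mE p b * gE p S.bar := by
  classical
  have h1 := S.eq_of_comm_F Y hF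
  have h2 := S.coef_skew Y hY 1
  rw [S.sgn_one, one_mul, inv_one] at h2
  have h3 : S.bar (coef Y 1) = - coef Y 1 := by
    have : coef Y 1 = - S.bar (coef Y 1) := h2
    rw [eq_neg_iff_add_eq_zero, add_comm, ← eq_neg_iff_add_eq_zero]
    exact this
  obtain ⟨f, hf, hcf⟩ := (S.em_iff _).mp h3
  refine ⟨f, coef Y S.bar, hf, ?_, ?_⟩
  · have h4 : (mE p (coef Y 1) + mE p (coef Y S.bar) * gE p S.bar) *
        (mE p (coef Y 1) + mE p (coef Y S.bar) * gE p S.bar) = S.lam • (1 : AE p E) := by
      rw [← h1]; exact hY2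
    rw [X01_mul] at h4
    have h5 := congrArg (fun Z => coef Z 1) h4
    simp only [coef_add, coef_mE, coef_single, if_true, coef_smul] at h5
    rw [if_neg (fun h => S.bar_ne_one h.symm), add_zero] at h5
    have h6 : coef (1 : AE p E) (1 : Gal(E/ZMod p)) = 1 := by
      rw [← map_one (mE p : E →ₐ[ZMod p] AE p E), coef_mE, if_pos rfl]
    rw [h6, Algebra.smul_def, mul_one, hcf] at h5
    have h7 : coef Y S.bar * S.bar (coef Y S.bar) =
        algebraMap (ZMod p) E S.lam - (S.j * S.j) * f ^ 2 := by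
      rw [← h5]; ring
    rw [h7, S.j_sq]; ring
  · have h8 : f * S.j = coef Y 1 := by rw [hcf, mul_comm]
    rw [h8]
    exact h1

/-- So a skew endomorphism commuting with `F` with square `lam` is in `orbJ`. -/
theorem mem_orbJ_of_comm_F (S : Data p r E) (Y : AE p E) (hY : Y ∈ S.skew)
    (hY2 : Y * Y = S.lam • (1 : AE p E))
    (hF : ∀ f : E, S.bar f = f → Y * mE p f = mE p f * Y) : Y ∈ S.orbJ := by
  obtain ⟨a, b, ha, hb, h⟩ := S.form_of_comm_F Y hY hY2 hF
  rw [h]
  exact S.conj_J a b ha hb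

end Data

end Pool.Agent.MP971469
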