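import Pool.Agent.Lib.MP_971469_al.Z7_Normal

/-! X02: pairs with `H J ∩ H Y = ±1`. -/

namespace Pool.Agent.MP971469

namespace Data

variable {p r : ℕ} [Fact p.Prime] {E : Type} [Field E] [Finite E] [Algebra (ZMod p) E]

/-- The good normal forms: `1 - a²` is not a square in `F`. -/
def NG (S : Data p r E) : Set (AE p E) :=
  {Y | ∃ a b : E, S.bar a = a ∧ (∀ c : ZMod p, algebraMap (ZMod p) E c ≠ a) ∧
    (∀ x : E, S.bar x = x → x ^ 2 ≠ 1 - a ^ 2) ∧
    b * S.bar b = algebraMap (ZMod p) E S.lam * (1 - a ^ 2) ∧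
    Y = mE p (a * S.j) + mE p b * gE p S.bar}

private theorem X02_pp {R : Type} [Ring R] {h J Y : R} (h1 : h * J = J * h) (h2 : h * Y = Y * h) :
    h * (J * Y + Y * J) = (J * Y + Y * J) * h := by
  linear_combination (norm := noncomm_ring) h1 * Y + J * h2 + h2 * J + Y * h1

private theorem X02_pm {R : Type} [Ring R] {h J Y : R} (h1 : h * J = J * h)
    (h2 : h * Y = -(Y * h)) : h * (J * Y + Y * J) = -((J * Y + Y * J) * h) := by
  linear_combination (norm := noncomm_ring) h1 * Y + J * h2 + h2 * J - Y * h1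

private theorem X02_mp {R : Type} [Ring R] {h J Y : R} (h1 : h * J = -(J * h))
    (h2 : h * Y = Y * h) : h * (J * Y + Y * J) = -((J * Y + Y * J) * h) := by
  linear_combination (norm := noncomm_ring) h1 * Y - J * h2 + h2 * J + Y * h1

private theorem X02_mm {R : Type} [Ring R] {h J Y : R} (h1 : h * J = -(J * h))
    (h2 : h * Y = -(Y * h)) : h * (J * Y + Y * J) = (J * Y + Y * J) * h := by
  linear_combination (norm := noncomm_ring) h1 * Y - J * h2 + h2 * J - Y * h1

open Polynomial in
private theorem X02_semi (a : E) (h : AE p E) (hh : h * mE p a = mE p (-a) * h)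
    (f : (ZMod p)[X]) : h * aeval (mE p a) f = aeval (mE p (-a)) f * h := by
  induction f using Polynomial.induction_on' with
  | add f g hf hg => rw [map_add, map_add, mul_add, add_mul, hf, hg]
  | monomial n c =>
    rw [aeval_monomial, aeval_monomial]
    have h1 : h * (mE p a) ^ n = (mE p (-a)) ^ n * h :=
      SemiconjBy.pow_right (a := h) (x := mE p a) (y := mE p (-a)) hh n
    rw [← mul_assoc, ← Algebra.commutes, mul_assoc, h1, ← mul_assoc]

open Polynomial in
private theorem X02_gal (a : E) (h : (AE p E)ˣ)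
    (hh : (h : AE p E) * mE p a = - (mE p a * h)) : ∃ σ : Gal(E/ZMod p), σ a = -a := by
  have hh2 : (h : AE p E) * mE p a = mE p (-a) * h := by rw [hh, map_neg, neg_mul]
  have h1 := X02_semi a (h : AE p E) hh2 (minpoly (ZMod p) a)
  rw [aeval_algHom_apply, aeval_algHom_apply, minpoly.aeval, map_zero, mul_zero] at h1
  have h2 : mE p (aeval (-a) (minpoly (ZMod p) a)) = 0 := by
    calc mE p (aeval (-a) (minpoly (ZMod p) a))
        = mE p (aeval (-a) (minpoly (ZMod p) a)) * ((h : AE p E) * ((h⁻¹ : (AE p E)ˣ) : AE p E)) := by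
          rw [h.mul_inv, mul_one]
      _ = 0 := by rw [← mul_assoc, ← h1, zero_mul]
  have h3 : aeval (-a) (minpoly (ZMod p) a) = 0 := by
    apply mE_injective (p := p)
    rw [h2, map_zero]
  have hint : IsIntegral (ZMod p) a := Algebra.IsIntegral.isIntegral a
  have h4 : minpoly (ZMod p) a = minpoly (ZMod p) (-a) :=
    minpoly.eq_of_irreducible_of_monic (minpoly.irreducible hint) h3 (minpoly.monic hint)
  obtain ⟨σ, hσ⟩ := (Normal.minpoly_eq_iff_mem_orbit (F := ZMod p) E).1 h4.symm
  exact ⟨σ, hσ⟩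

private theorem X02_coefY (S : Data p r E) (a b : E) :
    coef (mE p a + mE p b * gE p S.bar) 1 = a ∧
      coef (mE p a + mE p b * gE p S.bar) S.bar = b := by
  classical
  constructor
  · rw [coef_add, coef_mE, coef_single, if_pos rfl, if_neg (fun h => S.bar_ne_one h.symm), add_zero]
  · rw [coef_add, coef_mE, coef_single, if_neg S.bar_ne_one, if_pos rfl, zero_add]

private theorem X02_zz (S : Data p r E) (a b : E) :
    S.J * (mE p (a * S.j) + mE p b * gE p S.bar) + (mE p (a * S.j) + mE p b * gE p S.bar) * S.J =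
      mE p (algebraMap (ZMod p) E (2 * S.lam) * a) := by
  unfold J
  have h1 : mE p b * gE p S.bar * mE p S.j = - (mE p S.j * (mE p b * gE p S.bar)) := by
    rw [mul_assoc, gE_mul_mE, S.bar_j, map_neg, neg_mul, mul_neg, ← mul_assoc, ← mul_assoc,
      ← map_mul, ← map_mul, mul_comm]
  rw [mul_add, add_mul, h1, ← map_mul, ← map_mul]
  have h2 : S.j * (a * S.j) = algebraMap (ZMod p) E S.lam * a := by
    rw [← S.j_sq]; ring
  have h3 : a * S.j * S.j = algebraMap (ZMod p) E S.lam * a := by
    rw [← S.j_sq]; ring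
  have h4 : algebraMap (ZMod p) E (2 * S.lam) * a =
      algebraMap (ZMod p) E S.lam * a + algebraMap (ZMod p) E S.lam * a := by
    rw [map_mul, map_ofNat]
    ring
  rw [h2, h3, h4, map_add]
  abel

/-- An element `a ∈ F` outside of the prime field is not conjugated to `-a` by a unit of `AE`.
Proof: otherwise `a` and `-a` have the same minimal polynomial over `F_p`, so `-a = σ a` for some
`σ ∈ Gal`; `σ² a = a`, so `σ² = 1` or `σ² = bar` (`gal_fix_F`); `σ^2 = bar` implies `σ^4 = 1`, but
`4 ∤ 2r`, so `σ² = 1` (an element of order 4 cannot exist), `σ ∈ {1, bar}` (`eq_bar_of_sq`), so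
`σ a = a`, `2 a = 0`, `a = 0`, contradiction. -/
theorem not_conj_neg (S : Data p r E) (a : E) (ha : S.bar a = a)
    (ha2 : ∀ c : ZMod p, algebraMap (ZMod p) E c ≠ a) (h : (AE p E)ˣ) :
    (h : AE p E) * mE p a ≠ - (mE p a * h) := by
  intro hh
  obtain ⟨σ, hσ⟩ := X02_gal a h hh
  have h1 : (σ * σ) a = a := by
    rw [AlgEquiv.mul_apply, hσ, map_neg, hσ, neg_neg]
  have h2 : σ a = a := by
    rcases S.gal_fix_F (σ * σ) a ha ha2 h1 with h3 | h3
    · by_cases h4 : σ = 1
      · rw [h4, AlgEquiv.one_apply]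
      · rw [S.eq_bar_of_sq σ h3 h4]
        exact ha
    · exfalso
      have h4 : orderOf σ = 2 ^ (1 + 1) := by
        apply orderOf_eq_prime_pow
        · rw [pow_one, pow_two, h3]
          exact S.bar_ne_one
        · have : σ ^ 2 ^ (1 + 1) = (σ * σ) * (σ * σ) := by
            rw [show 2 ^ (1 + 1) = 4 by norm_num, ← pow_two, ← pow_two, ← pow_mul]
          rw [this, h3, S.bar_mul_bar]
      have h5 := orderOf_dvd_natCard σ
      rw [h4, S.card_gal] at h5
      have h6 := S.r_odd
      obtain ⟨k, hk⟩ := h6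
      obtain ⟨l, hl⟩ := h5
      omega
  rw [hσ] at h2
  have h3 : (2 : E) * a = 0 := by
    rw [two_mul]
    nth_rewrite 1 [← h2]
    ring
  rcases mul_eq_zero.mp h3 with h4 | h4
  · exact S.two_ne' h4
  · exact ha2 0 (by rw [map_zero, h4])

/-- Proof: let `h ∈ H J ∩ H Y`. `zz Y = mE (2 lam a)`; `h zz h⁻¹ = ± zz`; the sign `-` is excluded by
`not_conj_neg` (for `2 lam a`), so `h` commutes with `J` and `Y` or anticommutes with both, and `h`
commutes with `F` (`comm_F_of_comm_gen`), `h = x + y bar` (`eq_of_comm_F`). If it commutes with `J` then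
`y = 0` (`comm_J_iff`), `h = mE x`, and commuting with `b bar` (`b ≠ 0` as `1 - a² ≠ 0`) gives `bar x = x`,
`adj h * h = 1` gives `x² = 1`. If it anticommutes with `J`, then `x = 0`, `h = y bar`, `adj h h = 1` gives
`y bar y = -1`, and anticommuting with `Y` gives `y bar b + b bar y = 0`, so `w = y bar b ∈ E⁻`,
`w = j f`, `f ∈ F`, `w² = -w bar w = -(y bar y)(b bar b) = lam (1 - a²)`, so `f² = 1 - a²`,
contradiction. -/
theorem good_pair (S : Data p r E) (Y : AE p E) (hY : Y ∈ S.NG) :
    S.H S.J ⊓ S.H Y ≤ pm (ZMod p) (VV E) := by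
  obtain ⟨a, b, ha, ha2, ha3, hb, rfl⟩ := hY
  rintro h ⟨⟨hSp, hJ⟩, -, hY⟩
  have hb0 : b ≠ 0 := by
    rintro rfl
    rw [zero_mul] at hb
    rcases mul_eq_zero.mp hb.symm with h1 | h1
    · exact S.lam_ne ((algebraMap (ZMod p) E).injective (by rw [h1, map_zero]))
    · exact ha3 0 (map_zero _) (by rw [h1]; ring)
  have hc : (2 * S.lam : ZMod p) ≠ 0 := mul_ne_zero S.two_ne S.lam_ne
  have hz1 : S.bar (algebraMap (ZMod p) E (2 * S.lam) * a) = algebraMap (ZMod p) E (2 * S.lam) * a := by
    rw [map_mul, ha, AlgEquiv.commutes]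
  have hz2 : ∀ c : ZMod p, algebraMap (ZMod p) E c ≠ algebraMap (ZMod p) E (2 * S.lam) * a := by
    intro c h1
    apply ha2 ((2 * S.lam)⁻¹ * c)
    rw [map_mul, h1, ← mul_assoc, ← map_mul, inv_mul_cancel₀ hc, map_one, one_mul]
  have hzz := S.X02_zz a b
  have hno := S.not_conj_neg _ hz1 hz2 h
  obtain ⟨cY1, cY2⟩ := S.X02_coefY (a * S.j) b
  set Y := mE p (a * S.j) + mE p b * gE p S.bar with hYd
  rw [← hzz] at hno
  have hadj : S.adj (h : AE p E) * h = 1 := by
    rw [(S.mem_Sp_iff h).mp hSp, h.inv_mul]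
  -- the signs agree
  have hs : ((h : AE p E) * S.J = S.J * h ∧ (h : AE p E) * Y = Y * h) ∨
      ((h : AE p E) * S.J = -(S.J * h) ∧ (h : AE p E) * Y = -(Y * h)) := by
    rcases hJ with h1 | h1 <;> rcases hY with h2 | h2
    · exact Or.inl ⟨h1, h2⟩
    · exact absurd (X02_pm h1 h2) hno
    · exact absurd (X02_mp h1 h2) hno
    · exact Or.inr ⟨h1, h2⟩
  have hcomm : (h : AE p E) * mE p (algebraMap (ZMod p) E (2 * S.lam) * a) =
      mE p (algebraMap (ZMod p) E (2 * S.lam) * a) * h := by
    rw [← hzz]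
    rcases hs with ⟨h1, h2⟩ | ⟨h1, h2⟩
    · exact X02_pp h1 h2
    · exact X02_mm h1 h2
  have hF := S.comm_F_of_comm_gen (h : AE p E) _ hz1 hz2 hcomm
  have hxy := S.eq_of_comm_F (h : AE p E) hF
  set x := coef (h : AE p E) 1 with hx
  set y := coef (h : AE p E) S.bar with hy
  rcases hs with ⟨h1, h2⟩ | ⟨h1, h2⟩
  · -- commuting case
    have hy0 : y = 0 := (S.comm_J_iff (h : AE p E)).1 h1 S.bar S.sgn_bar
    rw [hy0, map_zero, zero_mul, add_zero] at hxy
    rw [hxy] at h2 hadj
    have h3 := congrArg (fun X => coef X S.bar) h2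
    simp only [coef_mE_mul, coef_mul_mE, cY2] at h3
    have h4 : S.bar x = x := by
      apply mul_left_cancel₀ hb0
      rw [← h3, mul_comm]
    rw [S.adj_mE, h4, ← map_mul] at hadj
    have h5 : x * x = 1 := mE_injective (p := p) (by rw [hadj, map_one])
    rcases mul_self_eq_one_iff.mp h5 with h6 | h6
    · left
      apply Units.ext
      rw [hxy, h6, map_one, Units.val_one]
    · right
      apply Units.ext
      rw [hxy, h6, map_neg, map_one, Units.val_neg, Units.val_one]
  · -- anticommuting case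
    exfalso
    have hx0 : x = 0 := by
      have h3 := congrArg (fun X => coef X 1) h1
      unfold J at h3
      simp only [coef_neg, coef_mE_mul, coef_mul_mE, AlgEquiv.one_apply, ← hx] at h3
      have h4 : (2 : E) * (x * S.j) = 0 := by
        rw [two_mul]
        nth_rewrite 1 [h3]
        ring
      rcases mul_eq_zero.mp h4 with h5 | h5
      · exact absurd h5 S.two_ne'
      · rcases mul_eq_zero.mp h5 with h6 | h6
        · exact h6
        · exact absurd h6 S.j_ne
    rw [hx0, map_zero, zero_add] at hxy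
    rw [hxy, S.adj_mE_gE] at hadj
    rw [hxy] at h2
    have h3 : y * S.bar y = -1 := by
      have e := congrArg (fun X => coef X 1) hadj
      simp only [mul_assoc, coef_mE_mul, coef_gE_mul, S.bar_inv, S.bar_bar, S.sgn_bar, inv_one,
        mul_one] at e
      classical
      have e1 : coef (1 : AE p E) 1 = 1 := by
        have := coef_mE (p := p) (1 : E) 1
        rwa [map_one, if_pos rfl] at this
      rw [e1, coef_gE, if_pos rfl, mul_one] at e
      linear_combination -e
    have h4 : y * S.bar b = -(b * S.bar y) := by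
      have e := congrArg (fun X => coef X 1) h2
      simp only [coef_neg, mul_assoc, coef_mE_mul, coef_gE_mul, mul_one, S.bar_inv, cY2] at e
      rw [← mul_assoc, coef_mul_gE, coef_mul_mE, one_mul, S.bar_inv, cY2] at e
      exact e
    have h5 : S.bar (y * S.bar b) = -(y * S.bar b) := by
      rw [map_mul, S.bar_bar, h4, neg_neg, mul_comm]
    obtain ⟨f, hf, hf2⟩ := (S.em_iff _).1 h5
    apply ha3 f hf
    have h6 : (y * S.bar b) * S.bar (y * S.bar b) = -(algebraMap (ZMod p) E S.lam * (1 - a ^ 2)) := by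
      rw [map_mul, S.bar_bar, ← hb]
      linear_combination (S.bar b * b) * h3
    rw [h5, hf2] at h6
    have hl : algebraMap (ZMod p) E S.lam ≠ 0 := fun h0 =>
      S.lam_ne ((algebraMap (ZMod p) E).injective (by rw [h0, map_zero]))
    apply mul_left_cancel₀ hl
    have h7 := S.j_sq
    linear_combination -h6 - f ^ 2 * h7

end Data

end Pool.Agent.MP971469
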