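import Pool.Agent.Lib.MP_971469_al.X02_GoodPair

/-! X03: the number of good normal forms. -/

namespace Pool.Agent.MP971469

namespace Data

variable {p r : ℕ} [Fact p.Prime] {E : Type} [Field E] [Finite E] [Algebra (ZMod p) E]

private theorem X03_nonsq (S : Data p r E) (u : E) (hu : u * S.bar u = 1) (h1 : u ≠ 1)
    (h2 : u ≠ -1) (x : E) (hx : S.bar x = x) : x ^ 2 ≠ 1 - ((u + S.bar u) / 2) ^ 2 := by
  intro h
  have h20 := S.two_ne'
  have h4 : (4 : E) ≠ 0 := by
    have : (4 : E) = 2 * 2 := by norm_num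
    rw [this]; exact mul_ne_zero h20 h20
  set w : E := (u - S.bar u) / 2 with hw
  have hbw : S.bar w = -w := by
    rw [hw, map_div₀, map_sub, S.bar_bar, map_ofNat]
    ring
  have hw0 : w ≠ 0 := by
    intro h0
    have h3 : u = S.bar u := by
      rcases div_eq_zero_iff.mp h0 with h5 | h5
      · exact sub_eq_zero.mp h5
      · exact absurd h5 h20
    have h5 : (u - 1) * (u + 1) = 0 := by
      rw [← h3] at hu
      rw [← sub_eq_zero] at hu
      rw [← hu]; ring
    rcases mul_eq_zero.mp h5 with h6 | h6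
    · exact h1 (sub_eq_zero.mp h6)
    · exact h2 (eq_neg_of_add_eq_zero_left h6)
  have hxw : x ^ 2 = - w ^ 2 := by
    rw [h, hw]
    have h6 : 1 - ((u + S.bar u) / 2) ^ 2 = (4 * 1 - (u + S.bar u) ^ 2) / 4 := by
      have : (2 : E) ^ 2 = 4 := by norm_num
      rw [div_pow, this]
      field_simp
    have h7 : -((u - S.bar u) / 2) ^ 2 = (-(u - S.bar u) ^ 2) / 4 := by
      have : (2 : E) ^ 2 = 4 := by norm_num
      rw [div_pow, this]
      ring
    rw [h6, h7, ← hu]
    congr 1
    ring
  obtain ⟨f, hf, hwf⟩ := (S.em_iff w).mp hbw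
  have hf0 : f ≠ 0 := by
    rintro rfl
    rw [mul_zero] at hwf
    exact hw0 hwf
  have hsq : IsSquare (-1 : ZMod p) := by
    rw [ZMod.exists_sq_eq_neg_one_iff]
    have := S.p_mod
    omega
  obtain ⟨i, hi⟩ := hsq
  have hi' : algebraMap (ZMod p) E i * algebraMap (ZMod p) E i = -1 := by
    rw [← map_mul, ← hi, map_neg, map_one]
  have hi0 : algebraMap (ZMod p) E i ≠ 0 := by
    intro h0
    rw [h0, mul_zero] at hi'
    exact one_ne_zero (neg_eq_zero.mp hi'.symm)
  -- `y = x / (f i)` has `y² = lam` and lies in `F`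
  set y : E := x * algebraMap (ZMod p) E i / f with hy
  have hby : S.bar y = y := by
    rw [hy, map_div₀, map_mul, hx, hf, AlgEquiv.commutes]
  have hy2 : y * y = S.j * S.j := by
    have h8 : y * y = (x ^ 2) * (algebraMap (ZMod p) E i * algebraMap (ZMod p) E i) / (f * f) := by
      rw [hy]; field_simp
    rw [h8, hxw, hi', hwf]
    field_simp
  rcases mul_self_eq_mul_self_iff.mp hy2 with h9 | h9
  · rw [h9, S.bar_j] at hby
    have h10 := S.eq_zero_of_bar S.j (by rw [S.bar_j]; exact hby) S.bar_j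
    exact S.j_ne h10
  · have h11 : S.bar S.j = S.j := by
      rw [h9, map_neg] at hby
      exact neg_injective hby
    exact S.j_ne (S.eq_zero_of_bar S.j h11 S.bar_j)

/-- Proof: for `u ∈ E` with `u * bar u = 1`, `u ≠ ±1`, put `a = (u + bar u)/2 ∈ F`. Then
`1 - a² = -((u - bar u)/2)²`, `(u - bar u)/2 = j f` with `f ∈ F`, `f ≠ 0`, so `1 - a² = - lam f²`, which is
not a square in `F`: `-1` is a square in `F_p` (`p ≡ 1 mod 4`) and `lam` is not a square in `F`
(`x² = lam` with `x ∈ F` would give `x = ±j`, but `bar j = -j`). Each `a` comes from at most two `u`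
(`u² - 2 a u + 1 = 0`), there are `p^r + 1 - 2` values `u` (`card_E1`), and at most `p` values `a` in
the prime field. -/
theorem card_good_a (S : Data p r E) :
    p ^ r ≤ 2 * Nat.card {a : E // S.bar a = a ∧ (∀ c : ZMod p, algebraMap (ZMod p) E c ≠ a) ∧
      ∀ x : E, S.bar x = x → x ^ 2 ≠ 1 - a ^ 2} + 2 * p + 1 := by
  classical
  haveI : Fintype E := Fintype.ofFinite E
  set Af : Finset E := Finset.univ.filter (fun a => S.bar a = a ∧
    (∀ c : ZMod p, algebraMap (ZMod p) E c ≠ a) ∧ ∀ x : E, S.bar x = x → x ^ 2 ≠ 1 - a ^ 2) with hAf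
  have hA : Nat.card {a : E // S.bar a = a ∧ (∀ c : ZMod p, algebraMap (ZMod p) E c ≠ a) ∧
      ∀ x : E, S.bar x = x → x ^ 2 ≠ 1 - a ^ 2} = Af.card := by
    rw [Nat.card_eq_fintype_card, Fintype.card_subtype]
  rw [hA]
  set U : Finset E := Finset.univ.filter (fun e => e * S.bar e = 1) with hU
  have hUc : U.card = p ^ r + 1 := by
    rw [← S.card_E1, Nat.card_eq_fintype_card, Fintype.card_subtype]
  set V : Finset E := (U.erase 1).erase (-1) with hV
  have hVc : p ^ r + 1 ≤ V.card + 2 := by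
    have h1 : U.card - 1 ≤ (U.erase 1).card := Finset.pred_card_le_card_erase
    have h2 : (U.erase 1).card - 1 ≤ V.card := Finset.pred_card_le_card_erase
    omega
  have hmemV : ∀ u ∈ V, u * S.bar u = 1 ∧ u ≠ 1 ∧ u ≠ -1 := by
    intro u hu
    rw [hV, Finset.mem_erase, Finset.mem_erase, hU, Finset.mem_filter] at hu
    exact ⟨hu.2.2.2, hu.2.1, hu.1⟩
  have h20 := S.two_ne'
  have hfib : V.card ≤ 2 * (V.image (fun u => (u + S.bar u) / 2)).card := by
    apply Finset.card_le_mul_card_image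
    intro a ha
    rw [Finset.mem_image] at ha
    obtain ⟨u0, hu0, rfl⟩ := ha
    have hsub : V.filter (fun u => (u + S.bar u) / 2 = (u0 + S.bar u0) / 2) ⊆ {u0, S.bar u0} := by
      intro u hu
      rw [Finset.mem_filter] at hu
      obtain ⟨huV, hue⟩ := hu
      have e1 : u + S.bar u = u0 + S.bar u0 := by
        rw [div_eq_div_iff h20 h20] at hue
        exact mul_right_cancel₀ h20 hue
      have a1 := (hmemV u huV).1
      have a0 := (hmemV u0 hu0).1
      have hub0 : S.bar u ≠ 0 := fun h => by rw [h, mul_zero] at a1; exact zero_ne_one a1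
      have hprod : (u - u0) * (u - S.bar u0) = 0 := by
        have : (u - u0) * (u - S.bar u0) = u * u - u * (u0 + S.bar u0) + u0 * S.bar u0 := by ring
        rw [this, ← e1, a0, ← a1]; ring
      rcases mul_eq_zero.mp hprod with h3 | h3
      · rw [sub_eq_zero.mp h3]; simp
      · rw [sub_eq_zero.mp h3]; simp
    exact (Finset.card_le_card hsub).trans Finset.card_le_two
  have himg : V.image (fun u => (u + S.bar u) / 2) ⊆
      Af ∪ (Finset.univ : Finset (ZMod p)).image (algebraMap (ZMod p) E) := by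
    intro a ha
    rw [Finset.mem_image] at ha
    obtain ⟨u, hu, rfl⟩ := ha
    obtain ⟨hu1, hu2, hu3⟩ := hmemV u hu
    rw [Finset.mem_union]
    by_cases hc : ∃ c : ZMod p, algebraMap (ZMod p) E c = (u + S.bar u) / 2
    · right
      obtain ⟨c, hc⟩ := hc
      exact Finset.mem_image.mpr ⟨c, Finset.mem_univ _, hc⟩
    · left
      push Not at hc
      rw [hAf, Finset.mem_filter]
      refine ⟨Finset.mem_univ _, ?_, hc, ?_⟩
      · rw [map_div₀, map_add, S.bar_bar, map_ofNat, add_comm]
      · intro x hx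
        exact X03_nonsq S u hu1 hu2 hu3 x hx
  have hcard := Finset.card_le_card himg
  have h5 : (Af ∪ (Finset.univ : Finset (ZMod p)).image (algebraMap (ZMod p) E)).card ≤
      Af.card + p := by
    refine (Finset.card_union_le _ _).trans ?_
    have h6 : ((Finset.univ : Finset (ZMod p)).image (algebraMap (ZMod p) E)).card ≤ p := by
      refine Finset.card_image_le.trans ?_
      rw [Finset.card_univ, ZMod.card]
    omega
  omega

/-- Each `a` gives `p^r + 1` values `b` (`card_norm`), and `(a,b)` is determined by the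
endomorphism. `p^r ≤ 3 * (p^r - 2p - 1)/2`. -/
theorem card_NG_ge (S : Data p r E) : p ^ r * (p ^ r + 1) ≤ 3 * Nat.card S.NG := by
  classical
  haveI : Fintype E := Fintype.ofFinite E
  set A : Type := {a : E // S.bar a = a ∧ (∀ c : ZMod p, algebraMap (ZMod p) E c ≠ a) ∧
      ∀ x : E, S.bar x = x → x ^ 2 ≠ 1 - a ^ 2} with hA
  have hgood : p ^ r ≤ 2 * Nat.card A + 2 * p + 1 := S.card_good_a
  have hp := S.p_ge
  have hr := S.r_ge
  have hpr : 89 * p ≤ p ^ r := by
    calc 89 * p ≤ p * p := Nat.mul_le_mul_right _ hp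
      _ = p ^ 2 := (sq p).symm
      _ ≤ p ^ r := Nat.pow_le_pow_right (by omega) (by omega)
  have h3 : p ^ r ≤ 3 * Nat.card A := by omega
  have hNGc : Nat.card A * (p ^ r + 1) ≤ Nat.card S.NG := by
    haveI : Fintype A := Fintype.ofFinite A
    let W : A → Type := fun a => {b : E // b * S.bar b = algebraMap (ZMod p) E S.lam * (1 - a.1 ^ 2)}
    have hW : ∀ a : A, Nat.card (W a) = p ^ r + 1 := by
      intro a
      apply S.card_norm
      · rw [map_mul, AlgEquiv.commutes, map_sub, map_one, map_pow, a.2.1]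
      · apply mul_ne_zero
        · rw [← S.j_sq]; exact mul_ne_zero S.j_ne S.j_ne
        · intro h0
          exact a.2.2.2 0 (map_zero _) (by rw [h0]; ring)
    have hsig : Nat.card (Sigma W) = Nat.card A * (p ^ r + 1) := by
      haveI : ∀ a, Finite (W a) := fun a => Subtype.finite
      rw [Nat.card_sigma, Finset.sum_congr rfl (fun a _ => hW a), Finset.sum_const,
        Finset.card_univ, smul_eq_mul, Nat.card_eq_fintype_card]
    rw [← hsig]
    haveI : Finite S.NG := Set.toFinite _
    refine Nat.card_le_card_of_injective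
      (fun x : Sigma W => (⟨mE p (x.1.1 * S.j) + mE p x.2.1 * gE p S.bar,
        x.1.1, x.2.1, x.1.2.1, x.1.2.2.1, x.1.2.2.2, x.2.2, rfl⟩ : S.NG)) ?_
    rintro ⟨⟨a, ha⟩, ⟨b, hb⟩⟩ ⟨⟨a', ha'⟩, ⟨b', hb'⟩⟩ h
    have h1 : mE p (a * S.j) + mE p b * gE p S.bar = mE p (a' * S.j) + mE p b' * gE p S.bar :=
      congrArg Subtype.val h
    have hne : (1 : Gal(E/ZMod p)) ≠ S.bar := fun h => S.bar_ne_one h.symm
    have h2 := congrArg (fun Z => coef Z 1) h1
    have h4 := congrArg (fun Z => coef Z S.bar) h1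
    simp only [coef_add, coef_mE, coef_single, if_true] at h2 h4
    rw [if_neg hne, if_neg hne, add_zero, add_zero] at h2
    rw [if_neg S.bar_ne_one, if_neg S.bar_ne_one, zero_add, zero_add] at h4
    have h5 : a = a' := mul_right_cancel₀ S.j_ne h2
    subst h5
    subst h4
    rfl
  calc p ^ r * (p ^ r + 1) ≤ 3 * Nat.card A * (p ^ r + 1) := Nat.mul_le_mul_right _ h3
    _ = 3 * (Nat.card A * (p ^ r + 1)) := by ring
    _ ≤ 3 * Nat.card S.NG := Nat.mul_le_mul_left _ hNGc

end Data

end Pool.Agent.MP971469
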