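import Pool.Agent.Lib.MP_971469_al.X01_ConjJ
import Pool.Agent.Lib.MP_971469_al.X03_CountA
import Pool.Agent.Lib.MP_971469_al.Z9_CountIrr
import Pool.Agent.Lib.MP_971469_al.O3_Bounds

/-! X04: lower bound for the number of `g` with `H J ∩ H (g J g⁻¹) = ±1`. -/

namespace Pool.Agent.MP971469

namespace Data

variable {p r : ℕ} [Fact p.Prime] {E : Type} [Field E] [Finite E] [Algebra (ZMod p) E]

open Polynomial in
private theorem X04_aeval_cj (g : (AE p E)ˣ) (X : AE p E) (q : (ZMod p)[X]) :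
    aeval (cj g X) q = cj g (aeval X q) := by
  have hpow : ∀ n : ℕ, (cj g X) ^ n = cj g (X ^ n) := by
    intro n
    induction n with
    | zero => rw [pow_zero, pow_zero, cj_map_one]
    | succ n ih => rw [pow_succ, pow_succ, cj_map_mul, ih]
  induction q using Polynomial.induction_on' with
  | add f g hf hg => rw [map_add, map_add, cj_map_add, hf, hg]
  | monomial n a =>
    rw [aeval_monomial, aeval_monomial, ← Algebra.smul_def, ← Algebra.smul_def, cj_map_smul, hpow]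

private theorem X04_minpoly_cj (g : (AE p E)ˣ) (X : AE p E) :
    minpoly (ZMod p) (cj g X) = minpoly (ZMod p) X := by
  apply Polynomial.eq_of_monic_of_associated
    (minpoly.monic (Algebra.IsIntegral.isIntegral _)) (minpoly.monic (Algebra.IsIntegral.isIntegral _))
  apply associated_of_dvd_dvd
  · apply minpoly.dvd
    rw [X04_aeval_cj, minpoly.aeval, cj_map_zero]
  · apply minpoly.dvd
    apply cj_injective g
    rw [← X04_aeval_cj, minpoly.aeval, cj_map_zero]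

private theorem X04_zz (S : Data p r E) (a b : E) :
    S.zz (mE p (a * S.j) + mE p b * gE p S.bar) = (2 * S.lam) • mE p a := by
  have h1 : gE p S.bar * S.J = - (S.J * gE p S.bar) := by
    unfold J
    rw [gE_mul_mE, S.bar_j, map_neg, neg_mul]
  have h2 : S.J * mE p b = mE p b * S.J := by
    unfold J
    rw [← map_mul, ← map_mul, mul_comm]
  have h3 : S.J * mE p (a * S.j) = S.lam • mE p a := by
    unfold J
    rw [← map_mul]
    have : S.j * (a * S.j) = S.lam • a := by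
      rw [Algebra.smul_def, ← S.j_sq]; ring
    rw [this, map_smul]
  have h4 : mE p (a * S.j) * S.J = S.lam • mE p a := by
    unfold J
    rw [← map_mul]
    have : (a * S.j) * S.j = S.lam • a := by
      rw [Algebra.smul_def, ← S.j_sq]; ring
    rw [this, map_smul]
  unfold zz
  rw [mul_add, add_mul, h3, h4, ← mul_assoc S.J, h2, mul_assoc (mE p b), mul_assoc (mE p b), h1,
    two_mul, add_smul, mul_neg]
  abel

/-- Proof: `zz N = mE (2 lam a)`, `zz (cj γ N) = cj γ (zz N)` since `γ` commutes with `J`; so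
`γ mE(a₁) γ⁻¹ = mE(a₂)` with `a₁, a₂ ∈ F` generating `F`. As `a₁, a₂` have the same minimal polynomial
there is `σ ∈ Gal` with `σ a₁ = a₂`; replacing `σ` by `σ bar` if necessary (`bar a₁ = a₁`) we may assume
`sgn σ = 1`. Then `c = (gE σ)⁻¹ γ` commutes with `mE a₁`, so with `F`, and with `J` (`sgn σ = 1`), so
`c = mE u` (`eq_of_comm_F`, `comm_J_iff`), and `γ = gE σ * mE u = mE (σ u) * gE σ`; `γ ∈ Sp` gives
`(σ u) * bar (σ u) = 1` (`adj_mE_gE`). -/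
theorem mem_Gam_of (S : Data p r E) (γ : (AE p E)ˣ) (hγ : γ ∈ S.C S.J) (N N' : AE p E)
    (hN : N ∈ S.NN) (hN' : N' ∈ S.NN) (h : cj γ N = N') : γ ∈ S.Gam := by
  obtain ⟨a₁, b₁, ha₁, hn₁, -, rfl⟩ := hN
  obtain ⟨a₂, b₂, ha₂, hn₂, -, rfl⟩ := hN'
  have hγJ : cj γ S.J = S.J := (cj_eq_iff _ _ _).mpr hγ.2
  have hlam : (2 * S.lam) ≠ 0 := mul_ne_zero S.two_ne S.lam_ne
  have h1 : cj γ (mE p a₁) = mE p a₂ := by
    have h2 : S.zz (cj γ (mE p (a₁ * S.j) + mE p b₁ * gE p S.bar)) =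
        cj γ (S.zz (mE p (a₁ * S.j) + mE p b₁ * gE p S.bar)) := by
      generalize mE p (a₁ * S.j) + mE p b₁ * gE p S.bar = N
      unfold zz
      rw [cj_map_add, cj_map_mul, cj_map_mul, hγJ]
    rw [h, X04_zz, X04_zz, cj_map_smul] at h2
    exact smul_right_injective (AE p E) hlam h2.symm
  have hmp : minpoly (ZMod p) a₂ = minpoly (ZMod p) a₁ := by
    rw [← minpoly.algHom_eq (mE p : E →ₐ[ZMod p] AE p E) mE_injective a₁,
      ← minpoly.algHom_eq (mE p : E →ₐ[ZMod p] AE p E) mE_injective a₂, ← h1, X04_minpoly_cj]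
  obtain ⟨σ₀, hσ₀⟩ := (Normal.minpoly_eq_iff_mem_orbit (F := ZMod p) E).mp hmp
  have hσ₀' : σ₀ a₁ = a₂ := hσ₀
  obtain ⟨σ, hσ, hs⟩ : ∃ σ : Gal(E/ZMod p), σ a₁ = a₂ ∧ S.sgn σ = 1 := by
    rcases S.sgn_eq σ₀ with h2 | h2
    · exact ⟨σ₀, hσ₀', h2⟩
    · refine ⟨σ₀ * S.bar, ?_, ?_⟩
      · rw [AlgEquiv.mul_apply, ha₁, hσ₀']
      · rw [S.sgn_mul, h2, S.sgn_bar]; ring
  have hγ1 : (γ : AE p E) * mE p a₁ = mE p a₂ * γ := (cj_eq_iff _ _ _).mp h1
  have hσi : σ⁻¹ a₂ = a₁ := by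
    rw [← hσ, ← AlgEquiv.mul_apply, inv_mul_cancel]; rfl
  have hXa : (gE p σ⁻¹ * (γ : AE p E)) * mE p a₁ = mE p a₁ * (gE p σ⁻¹ * (γ : AE p E)) := by
    rw [mul_assoc, hγ1, ← mul_assoc, gE_mul_mE, hσi, mul_assoc]
  have hXJ : (gE p σ⁻¹ * (γ : AE p E)) * S.J = S.J * (gE p σ⁻¹ * (γ : AE p E)) := by
    have h2 : gE p σ⁻¹ * S.J = S.J * gE p σ⁻¹ := by
      unfold J
      rw [gE_mul_mE, S.gal_j_eq, S.sgn_inv, hs, one_mul]
    rw [mul_assoc, hγ.2, ← mul_assoc, h2, mul_assoc]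
  have hXF := S.comm_F_of_comm_gen _ a₁ ha₁ hn₁ hXa
  have hX := S.eq_of_comm_F _ hXF
  have hX0 : coef (gE p σ⁻¹ * (γ : AE p E)) S.bar = 0 :=
    (S.comm_J_iff _).mp hXJ S.bar (S.sgn_bar)
  rw [hX0, map_zero, zero_mul, add_zero] at hX
  set u : E := coef (gE p σ⁻¹ * (γ : AE p E)) 1 with hu
  have hγu : (γ : AE p E) = mE p (σ u) * gE p σ := by
    rw [← gE_mul_mE, ← hX, ← mul_assoc, ← map_mul, mul_inv_cancel, map_one, one_mul]
  refine ⟨σ u, σ, ?_, hs, hγu⟩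
  have hadj := (S.mem_Sp_iff γ).mp hγ.1
  have h2 : S.adj (γ : AE p E) * (γ : AE p E) = 1 := by
    rw [hadj, γ.inv_mul]
  rw [hγu, S.adj_mE_gE, hs, one_mul, mul_assoc, ← mul_assoc (gE p σ⁻¹), gE_mul_mE,
    mul_assoc (mE p _) (gE p σ⁻¹) (gE p σ), ← map_mul (gE p), inv_mul_cancel, map_one, mul_one,
    ← map_mul, ← map_mul] at h2
  have h3 : σ⁻¹ (S.bar (σ u) * σ u) = 1 := by
    apply mE_injective (p := p)
    rw [h2, map_one]
  have h4 := congrArg σ h3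
  rw [← AlgEquiv.mul_apply, mul_inv_cancel, map_one] at h4
  rw [mul_comm]
  exact h4

theorem NG_sub_NN (S : Data p r E) : S.NG ⊆ S.NN := by
  rintro Y ⟨a, b, ha, ha2, -, hb, hY⟩
  exact ⟨a, b, ha, ha2, hb, hY⟩

private theorem X04_good (S : Data p r E) (ψ : (AE p E)ˣ) (hψ : ψ ∈ S.C S.J) (N : AE p E)
    (hN : N ∈ S.NG) : cj ψ N ∈ S.orbJ ∧ S.H S.J ⊓ S.H (cj ψ N) ≤ pm (ZMod p) (VV E) := by
  constructor
  · apply S.cj_mem_orbJ ψ hψ.1
    obtain ⟨a, b, ha, -, -, hb, rfl⟩ := hN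
    exact S.conj_J a b ha hb
  · rintro h ⟨⟨hS, hJ⟩, ⟨-, hY⟩⟩
    have hψ2 : (ψ : AE p E) * S.J = S.J * ψ := hψ.2
    have hψi : ((ψ⁻¹ : (AE p E)ˣ) : AE p E) * S.J = S.J * ((ψ⁻¹ : (AE p E)ˣ) : AE p E) :=
      (inv_mem hψ : ψ⁻¹ ∈ S.C S.J).2
    have hmem : ψ⁻¹ * h * ψ ∈ S.H S.J ⊓ S.H N := by
      have hSp : ψ⁻¹ * h * ψ ∈ S.Sp := mul_mem (mul_mem (inv_mem hψ.1) hS) hψ.1
      refine ⟨⟨hSp, ?_⟩, ⟨hSp, ?_⟩⟩
      · rw [Units.val_mul, Units.val_mul]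
        rcases hJ with hJ | hJ
        · left
          rw [mul_assoc, hψ2, ← mul_assoc, mul_assoc _ (h : AE p E) S.J, hJ, ← mul_assoc, hψi]
          simp only [mul_assoc]
        · right
          rw [mul_assoc, hψ2, ← mul_assoc, mul_assoc _ (h : AE p E) S.J, hJ, mul_neg, neg_mul,
            ← mul_assoc, hψi]
          simp only [mul_assoc]
      · rw [Units.val_mul, Units.val_mul]
        have e1 : (ψ : AE p E) * N = cj ψ N * ψ := by simp [cj, mul_assoc]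
        have e2 : ((ψ⁻¹ : (AE p E)ˣ) : AE p E) * cj ψ N = N * ((ψ⁻¹ : (AE p E)ˣ) : AE p E) := by
          simp [cj, ← mul_assoc]
        rcases hY with hY | hY
        · left
          rw [mul_assoc, e1, ← mul_assoc, mul_assoc _ (h : AE p E) (cj ψ N), hY, ← mul_assoc, e2]
          simp only [mul_assoc]
        · right
          rw [mul_assoc, e1, ← mul_assoc, mul_assoc _ (h : AE p E) (cj ψ N), hY, mul_neg, neg_mul,
            ← mul_assoc, e2]
          simp only [mul_assoc]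
    have h1 := S.good_pair N hN hmem
    have h2 : h = ψ * (ψ⁻¹ * h * ψ) * ψ⁻¹ := by group
    rcases h1 with h1 | h1
    · left
      rw [h2, h1]; group
    · right
      rw [h2, h1]; simp

/-- Proof: the map `(ψ, N) ↦ cj ψ N` from `C J × NG` to `{Y ∈ orbJ : H J ⊓ H Y ≤ pm}` (`conj_J`,
`good_pair`; the property is invariant under conjugation by `ψ ∈ C J` since `H J` is normalized)
has fibres of size at most `|Γ| = r (p^r+1)`: if `cj ψ N = cj ψ' N'` then `ψ'⁻¹ ψ ∈ Γ` by `mem_Gam_of`, and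
`N'` is determined by `ψ'`. Use `card_g_eq`. -/
theorem card_pairs (S : Data p r E) :
    Nat.card (S.C S.J) ^ 2 * Nat.card S.NG ≤
      Nat.card {g : (AE p E)ˣ // g ∈ S.Sp ∧ S.H S.J ⊓ S.H (cj g S.J) ≤ pm (ZMod p) (VV E)} *
        (r * (p ^ r + 1)) := by
  classical
  have hmain : Nat.card (S.C S.J) * Nat.card S.NG ≤
      Nat.card {Y : AE p E // Y ∈ S.orbJ ∧ S.H S.J ⊓ S.H Y ≤ pm (ZMod p) (VV E)} *
        (r * (p ^ r + 1)) := by
    rw [← S.card_Gam, ← Nat.card_prod, ← Nat.card_prod]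
    -- choose a preimage for every `Y` in the image
    let Φ : (S.C S.J) × S.NG → {Y : AE p E // Y ∈ S.orbJ ∧ S.H S.J ⊓ S.H Y ≤ pm (ZMod p) (VV E)} :=
      fun x => ⟨cj (x.1 : (AE p E)ˣ) (x.2 : AE p E), X04_good S x.1 x.1.2 x.2 x.2.2⟩
    have hsec : ∀ x : (S.C S.J) × S.NG, ∃ y : (S.C S.J) × S.NG, Φ y = Φ x := fun x => ⟨x, rfl⟩
    let sec : {Y : AE p E // Y ∈ S.orbJ ∧ S.H S.J ⊓ S.H Y ≤ pm (ZMod p) (VV E)} →
        (AE p E)ˣ := fun Y => if hY : ∃ y, Φ y = Y then ((Classical.choose hY).1 : (AE p E)ˣ) else 1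
    have hG : ∀ x : (S.C S.J) × S.NG, (sec (Φ x))⁻¹ * (x.1 : (AE p E)ˣ) ∈ S.Gam := by
      intro x
      have hY : ∃ y, Φ y = Φ x := ⟨x, rfl⟩
      have h1 : sec (Φ x) = ((Classical.choose hY).1 : (AE p E)ˣ) := dif_pos hY
      have h2 := Classical.choose_spec hY
      rw [h1]
      set y := Classical.choose hY with hy
      have h3 : cj (y.1 : (AE p E)ˣ) (y.2 : AE p E) = cj (x.1 : (AE p E)ˣ) (x.2 : AE p E) :=
        congrArg Subtype.val h2
      apply S.mem_Gam_of _ (mul_mem (inv_mem y.1.2) x.1.2) (x.2 : AE p E) (y.2 : AE p E)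
        (S.NG_sub_NN x.2.2) (S.NG_sub_NN y.2.2)
      rw [cj_mul, ← h3, cj_inv_cj]
    apply Nat.card_le_card_of_injective
      (fun x : (S.C S.J) × S.NG => (Φ x, (⟨(sec (Φ x))⁻¹ * (x.1 : (AE p E)ˣ), hG x⟩ : S.Gam)))
    intro x y hxy
    have h1 : Φ x = Φ y := congrArg Prod.fst hxy
    have h2 : (sec (Φ x))⁻¹ * (x.1 : (AE p E)ˣ) = (sec (Φ y))⁻¹ * (y.1 : (AE p E)ˣ) :=
      congrArg Subtype.val (congrArg Prod.snd hxy)
    rw [h1] at h2
    have h3 : (x.1 : (AE p E)ˣ) = y.1 := mul_left_cancel h2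
    have h4 : cj (x.1 : (AE p E)ˣ) (x.2 : AE p E) = cj (y.1 : (AE p E)ˣ) (y.2 : AE p E) :=
      congrArg Subtype.val h1
    rw [h3] at h4
    exact Prod.ext (Subtype.ext h3) (Subtype.ext (cj_injective _ h4))
  rw [S.card_g_eq (fun Y => S.H S.J ⊓ S.H Y ≤ pm (ZMod p) (VV E)), pow_two, mul_assoc, mul_assoc]
  exact Nat.mul_le_mul_left _ hmain

/-- Proof: `card_pairs`, `card_NG_ge`, `card_CJ_ge` (`|C J| ≥ p^(r²)/2`). -/
theorem card_HH_ge (S : Data p r E) :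
    p ^ (2 * r ^ 2 + r) ≤ 12 * r *
      Nat.card {g : (AE p E)ˣ // g ∈ S.Sp ∧ S.H S.J ⊓ S.H (cj g S.J) ≤ pm (ZMod p) (VV E)} := by
  have h1 := S.card_pairs
  have h2 := S.card_NG_ge
  have h3 := S.card_CJ_ge
  set X := Nat.card {g : (AE p E)ˣ // g ∈ S.Sp ∧
    S.H S.J ⊓ S.H (cj g S.J) ≤ pm (ZMod p) (VV E)} with hX
  set c := Nat.card (S.C S.J) with hc
  set n := Nat.card S.NG with hn
  have hpos : 0 < p ^ r + 1 := Nat.succ_pos _
  apply Nat.le_of_mul_le_mul_right _ hpos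
  calc p ^ (2 * r ^ 2 + r) * (p ^ r + 1) = p ^ (r ^ 2) * p ^ (r ^ 2) * (p ^ r * (p ^ r + 1)) := by
        ring
    _ ≤ (2 * c) * (2 * c) * (3 * n) := by gcongr
    _ = 12 * (c ^ 2 * n) := by ring
    _ ≤ 12 * (X * (r * (p ^ r + 1))) := by gcongr
    _ = 12 * r * X * (p ^ r + 1) := by ring

end Data

end Pool.Agent.MP971469
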