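import Pool.Agent.Lib.MP_971469_al.M07_Skew

/-! X05: semilinear elements. -/

namespace Pool.Agent.MP971469

namespace Data

variable {p r : ℕ} [Fact p.Prime] {E : Type} [Field E] [Finite E] [Algebra (ZMod p) E]

/-- The centralizer of `F` has `p^(4r)` elements (`eq_of_comm_F`). -/
theorem card_comm_F (S : Data p r E) :
    Nat.card {X : AE p E // ∀ f : E, S.bar f = f → X * mE p f = mE p f * X} = p ^ (4 * r) := by
  classical
  have hc : Nat.card (E × E) = p ^ (4 * r) := by
    rw [Nat.card_prod, S.card, ← pow_add]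
    congr 1
    ring
  rw [← hc]
  symm
  have hmem : ∀ ab : E × E, ∀ f : E, S.bar f = f →
      (mE p ab.1 + mE p ab.2 * gE p S.bar) * mE p f =
        mE p f * (mE p ab.1 + mE p ab.2 * gE p S.bar) := by
    intro ab f hf
    rw [add_mul, mul_add, mul_assoc, gE_mul_mE, hf, ← mul_assoc, ← mul_assoc, ← map_mul, ← map_mul,
      ← map_mul, ← map_mul, mul_comm ab.1, mul_comm ab.2]
  have hcoef : ∀ ab : E × E, coef (mE p ab.1 + mE p ab.2 * gE p S.bar) 1 = ab.1 ∧
      coef (mE p ab.1 + mE p ab.2 * gE p S.bar) S.bar = ab.2 := by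
    intro ab
    constructor
    · rw [coef_add, coef_mE, coef_single, if_pos rfl, if_neg (Ne.symm S.bar_ne_one), add_zero]
    · rw [coef_add, coef_mE, coef_single, if_neg S.bar_ne_one, if_pos rfl, zero_add]
  apply Nat.card_congr
  refine Equiv.ofBijective (fun ab => ⟨mE p ab.1 + mE p ab.2 * gE p S.bar, hmem ab⟩) ⟨?_, ?_⟩
  · intro ab cd h
    have h1 : mE p ab.1 + mE p ab.2 * gE p S.bar = mE p cd.1 + mE p cd.2 * gE p S.bar :=
      congrArg Subtype.val h
    have h2 := hcoef ab
    have h3 := hcoef cd
    rw [h1] at h2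
    exact Prod.ext (h2.1.symm.trans h3.1) (h2.2.symm.trans h3.2)
  · rintro ⟨X, hX⟩
    refine ⟨(coef X 1, coef X S.bar), ?_⟩
    apply Subtype.ext
    exact (S.eq_of_comm_F X hX).symm

/-- An element of `KF` acts on `F` as a Galois automorphism. Proof: take a generator `f₀` of `F`
(`exists_F_gen`), `y mE(f₀) = mE(f₀') y`; `f₀, f₀'` have the same minimal polynomial over `F_p`, so
`f₀' = σ f₀`; then `(gE σ)⁻¹ y` commutes with `mE f₀`, hence with `F` (`comm_F_of_comm_gen`). -/
theorem KF_struct (S : Data p r E) (y : (AE p E)ˣ) (hy : y ∈ S.KF) :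
    ∃ (σ : Gal(E/ZMod p)) (c : AE p E), (∀ f : E, S.bar f = f → c * mE p f = mE p f * c) ∧
      (y : AE p E) = gE p σ * c ∧
      ∀ f : E, S.bar f = f → (y : AE p E) * mE p f = mE p (σ f) * y := by
  obtain ⟨-, hy1, -⟩ := hy
  obtain ⟨f₀, hf₀, hgen⟩ := S.exists_F_gen
  obtain ⟨f₁, hf₁, h1⟩ := hy1 f₀ hf₀
  -- polynomials in `f₀`
  have hP : ∀ P : Polynomial (ZMod p),
      (y : AE p E) * mE p (Polynomial.aeval f₀ P) = mE p (Polynomial.aeval f₁ P) * y := by
    intro P
    induction P using Polynomial.induction_on' with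
    | add P Q hP hQ => rw [map_add, map_add, map_add, map_add, mul_add, add_mul, hP, hQ]
    | monomial n a =>
      rw [Polynomial.aeval_monomial, Polynomial.aeval_monomial, map_mul, map_mul, map_pow, map_pow,
        AlgHom.commutes, ← mul_assoc, ← Algebra.commutes a (y : AE p E), mul_assoc, mul_assoc]
      congr 1
      induction n with
      | zero => simp
      | succ n ih => rw [pow_succ, ← mul_assoc, ih, mul_assoc, h1, ← mul_assoc, ← pow_succ]
  have h2 : Polynomial.aeval f₁ (minpoly (ZMod p) f₀) = 0 := by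
    have h3 := hP (minpoly (ZMod p) f₀)
    rw [minpoly.aeval, map_zero, mul_zero] at h3
    have h4 : mE p (Polynomial.aeval f₁ (minpoly (ZMod p) f₀)) = 0 := by
      have h5 := congrArg (fun Z : AE p E => Z * ((y⁻¹ : (AE p E)ˣ) : AE p E)) h3
      simp only [zero_mul, mul_assoc, y.mul_inv, mul_one] at h5
      exact h5.symm
    apply mE_injective (p := p)
    rw [h4, map_zero]
  have h3 : ∃ σ : Gal(E/ZMod p), σ f₀ = f₁ := by
    have h4 : IsConjRoot (ZMod p) f₀ f₁ :=
      minpoly.eq_of_irreducible_of_monic (minpoly.irreducible (Algebra.IsIntegral.isIntegral f₀))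
        h2 (minpoly.monic (Algebra.IsIntegral.isIntegral f₀))
    obtain ⟨τ, hτ⟩ := isConjRoot_iff_exists_algEquiv.mp h4
    exact ⟨τ⁻¹, by rw [← hτ]; exact τ.symm_apply_apply f₁⟩
  obtain ⟨σ, hσ⟩ := h3
  have hinv : gE p σ * gE p σ⁻¹ = (1 : AE p E) := by rw [← map_mul, mul_inv_cancel, map_one]
  have hinv2 : gE p σ⁻¹ * gE p σ = (1 : AE p E) := by rw [← map_mul, inv_mul_cancel, map_one]
  have hc0 : (gE p σ⁻¹ * (y : AE p E)) * mE p f₀ = mE p f₀ * (gE p σ⁻¹ * (y : AE p E)) := by
    rw [mul_assoc, h1, ← hσ, ← mul_assoc, gE_mul_mE, mul_assoc]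
    congr 2
    exact σ.symm_apply_apply f₀
  have hc := S.comm_F_of_comm_gen (gE p σ⁻¹ * (y : AE p E)) f₀ hf₀ hgen hc0
  have hyc : (y : AE p E) = gE p σ * (gE p σ⁻¹ * (y : AE p E)) := by
    rw [← mul_assoc, hinv, one_mul]
  refine ⟨σ, gE p σ⁻¹ * (y : AE p E), hc, hyc, ?_⟩
  intro f hf
  conv_lhs => rw [hyc]
  rw [mul_assoc, hc f hf, ← mul_assoc, gE_mul_mE, mul_assoc, ← hyc]

/-- `|KF| ≤ 2r p^(4r)` by `KF_struct`, `card_comm_F`, `card_gal`. -/
theorem card_KF_le (S : Data p r E) : Nat.card S.KF ≤ 2 * r * p ^ (4 * r) := by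
  classical
  choose σ c hc hyc _ using fun y : S.KF => S.KF_struct y.1 y.2
  have h1 : Nat.card (Gal(E/ZMod p) ×
      {X : AE p E // ∀ f : E, S.bar f = f → X * mE p f = mE p f * X}) = 2 * r * p ^ (4 * r) := by
    rw [Nat.card_prod, S.card_gal, S.card_comm_F]
  rw [← h1]
  have : Finite (AE p E) := Finite.of_injective (fun X : AE p E => (X : VV E → VV E))
    (fun X Y h => LinearMap.ext (fun x => congrFun h x))
  apply Nat.card_le_card_of_injective (fun y : S.KF => (σ y, ⟨c y, hc y⟩))
  intro y z h
  have h2 : σ y = σ z := congrArg Prod.fst h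
  have h3 : c y = c z := congrArg (fun q => (q.2 : AE p E)) h
  apply Subtype.ext
  apply Units.ext
  rw [hyc y, hyc z, h2, h3]

/-- A nonzero vector of `F`-coefficients of `F_p`-independent solutions of `y X = ε X y`. -/
private theorem semi_indep (S : Data p r E) (y : (AE p E)ˣ) (σ : Gal(E/ZMod p))
    (hσ1 : σ ≠ 1) (hσb : σ ≠ S.bar)
    (hyσ : ∀ f : E, S.bar f = f → (y : AE p E) * mE p f = mE p (σ f) * y) (ε : ZMod p)
    (hε : ε = 1 ∨ ε = -1) {ι : Type} (X : ι → AE p E)
    (hX : ∀ i, (y : AE p E) * X i = ε • (X i * y)) (hli : LinearIndependent (ZMod p) X)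
    (s : Finset ι) : ∀ f : ι → E, (∀ i, S.bar (f i) = f i) → ∑ i ∈ s, mE p (f i) * X i = 0 →
      ∀ i ∈ s, f i = 0 := by
  classical
  induction s using Finset.induction_on with
  | empty => intro f _ _ i hi; simp at hi
  | insert a s has ih =>
    intro f hf h0
    by_cases hfa : f a = 0
    · rw [Finset.sum_insert has, hfa, map_zero, zero_mul, zero_add] at h0
      intro i hi
      rcases Finset.mem_insert.mp hi with rfl | hi
      · exact hfa
      · exact ih f hf h0 i hi
    · exfalso
      set g : ι → E := fun i => f i / f a with hg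
      have hgf : ∀ i, S.bar (g i) = g i := by
        intro i
        rw [hg]
        simp only [map_div₀, hf]
      have hga : g a = 1 := div_self hfa
      have hg0 : ∑ i ∈ insert a s, mE p (g i) * X i = 0 := by
        have h1 : mE p (f a)⁻¹ * ∑ i ∈ insert a s, mE p (f i) * X i = 0 := by
          rw [h0, mul_zero]
        rw [Finset.mul_sum] at h1
        rw [← h1]
        apply Finset.sum_congr rfl
        intro i _
        rw [← mul_assoc, ← map_mul]
        congr 2
        rw [hg]
        simp only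
        rw [div_eq_mul_inv, mul_comm]
      have hg1 : ∑ i ∈ insert a s, mE p (σ (g i)) * X i = 0 := by
        have h1 : (y : AE p E) * ∑ i ∈ insert a s, mE p (g i) * X i = 0 := by
          rw [hg0, mul_zero]
        rw [Finset.mul_sum] at h1
        have h2 : ε • ((∑ i ∈ insert a s, mE p (σ (g i)) * X i) * (y : AE p E)) = 0 := by
          rw [← h1, Finset.sum_mul, Finset.smul_sum]
          apply Finset.sum_congr rfl
          intro i _
          rw [← mul_assoc, hyσ _ (hgf i), mul_assoc _ (y : AE p E) (X i), hX i, mul_smul_comm,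
            mul_assoc]
        have hε0 : ε ≠ 0 := by
          rcases hε with rfl | rfl
          · exact one_ne_zero
          · exact neg_ne_zero.mpr one_ne_zero
        have h3 := (smul_eq_zero.mp h2).resolve_left hε0
        have h4 := congrArg (fun Z : AE p E => Z * ((y⁻¹ : (AE p E)ˣ) : AE p E)) h3
        simpa only [zero_mul, mul_assoc, y.mul_inv, mul_one] using h4
      have hfix : ∀ i ∈ insert a s, σ (g i) = g i := by
        have h1 : ∑ i ∈ s, mE p (σ (g i) - g i) * X i = 0 := by
          have h2 : ∑ i ∈ insert a s, mE p (σ (g i) - g i) * X i = 0 := by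
            simp only [map_sub, sub_mul, Finset.sum_sub_distrib]
            rw [hg1, hg0, sub_zero]
          rw [Finset.sum_insert has, hga, map_one, sub_self, map_zero, zero_mul, zero_add] at h2
          exact h2
        have h2 := ih (fun i => σ (g i) - g i) (by
          intro i
          rw [map_sub, S.gal_apply_comm, hgf]) h1
        intro i hi
        rcases Finset.mem_insert.mp hi with rfl | hi
        · rw [hga, map_one]
        · exact sub_eq_zero.mp (h2 i hi)
      have hc : ∀ i, ∃ c : ZMod p, i ∈ insert a s → algebraMap (ZMod p) E c = g i := by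
        intro i
        by_cases hi : i ∈ insert a s
        · by_contra hcon
          push Not at hcon
          rcases S.gal_fix_F σ (g i) (hgf i) (fun c => (hcon c).2) (hfix i hi) with h | h
          · exact hσ1 h
          · exact hσb h
        · exact ⟨0, fun h => absurd h hi⟩
      choose c hc using hc
      have h1 : ∑ i ∈ insert a s, c i • X i = 0 := by
        rw [← hg0]
        apply Finset.sum_congr rfl
        intro i hi
        rw [← hc i hi, AlgHom.commutes, Algebra.smul_def]
      have h2 := (linearIndependent_iff'.mp hli) (insert a s) c h1 a (Finset.mem_insert_self a s)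
      have h3 := hc a (Finset.mem_insert_self a s)
      rw [h2, map_zero, hga] at h3
      exact zero_ne_one h3

/-- Let `y ∈ KF` not commute with `F`. Then the space of `X` with `y X = ε X y` (`ε = ±1`) has at
most `p^(4r)` elements. Proof: `y mE(f) y⁻¹ = mE(σ f)` on `F` with `σ ∉ {1, bar}`. Let `W` be this space,
of dimension `t`, with basis `X_1, ..., X_t`. Claim: the map `F^t → AE`, `(f_i) ↦ ∑ f_i X_i` is injective,
so `p^(r t) ≤ p^(4 r²)`, `t ≤ 4r`. Suppose `∑ f_i X_i = 0`. For `c ∈ F` multiply by `c` and conjugate `k`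
times by `y`: `∑ σ^k(c f_i) X_i = 0` (the signs `ε^k` cancel). Sum over `k < 2r`:
`∑ Tr_{E/F_p}(c f_i)' X_i = 0` where `∑_{k<2r} σ^k (x)` for `x ∈ F`: `σ` restricted to `F` generates
`Gal(F/F_p)` (order `r` prime), so this sum is `Tr_{E/F_p}(x) ∈ F_p`. By independence
`Tr_{E/F_p}(c f_i) = 0` for all `c ∈ F`, also for `c ∈ E⁻` (trace of an element of `E⁻`), so
`f_i = 0` (`trace_nondeg`). (Alternatively: a minimal linear relation argument.) -/
theorem card_semi_le (S : Data p r E) (y : (AE p E)ˣ) (hy : y ∈ S.KF)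
    (hyF : ¬ ∀ f : E, S.bar f = f → (y : AE p E) * mE p f = mE p f * y) (ε : ZMod p)
    (hε : ε = 1 ∨ ε = -1) :
    Nat.card {X : AE p E // (y : AE p E) * X = ε • (X * y)} ≤ p ^ (4 * r) := by
  classical
  have : Finite (AE p E) := Finite.of_injective (fun X : AE p E => (X : VV E → VV E))
    (fun X Y h => LinearMap.ext (fun x => congrFun h x))
  obtain ⟨σ, c, -, -, hyσ⟩ := S.KF_struct y hy
  have hσ1 : σ ≠ 1 := by
    rintro rfl
    exact hyF hyσ
  have hσb : σ ≠ S.bar := by
    rintro rfl
    apply hyF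
    intro f hf
    rw [hyσ f hf, hf]
  let W : Submodule (ZMod p) (AE p E) :=
    { carrier := {X | (y : AE p E) * X = ε • (X * y)}
      add_mem' := by
        intro X Y hX hY
        simp only [Set.mem_ofPred_eq] at hX hY ⊢
        rw [mul_add, add_mul, hX, hY, smul_add]
      zero_mem' := by simp
      smul_mem' := by
        intro a X hX
        simp only [Set.mem_ofPred_eq] at hX ⊢
        rw [mul_smul_comm, hX, smul_mul_assoc, smul_comm] }
  have hW : Nat.card {X : AE p E // (y : AE p E) * X = ε • (X * y)} =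
      p ^ Module.finrank (ZMod p) W := by
    have h1 := Module.natCard_eq_pow_finrank (K := ZMod p) (V := W)
    rw [Nat.card_zmod] at h1
    exact h1
  rw [hW]
  apply Nat.pow_le_pow_right (Fact.out : p.Prime).pos
  set t := Module.finrank (ZMod p) W with ht
  let b := Module.finBasis (ZMod p) W
  have hli : LinearIndependent (ZMod p) (fun i => ((b i : W) : AE p E)) := by
    have h1 := b.linearIndependent
    exact h1.map' W.subtype (Submodule.ker_subtype W)
  have hinj : Function.Injective (fun f : Fin t → {f : E // S.bar f = f} =>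
      ∑ i, mE p (f i).1 * ((b i : W) : AE p E)) := by
    intro f g hfg
    have h1 : ∑ i, mE p ((f i).1 - (g i).1) * ((b i : W) : AE p E) = 0 := by
      simp only [map_sub, sub_mul, Finset.sum_sub_distrib]
      exact sub_eq_zero.mpr hfg
    have h2 := S.semi_indep y σ hσ1 hσb hyσ ε hε (fun i => ((b i : W) : AE p E))
      (fun i => (b i).2) hli Finset.univ (fun i => (f i).1 - (g i).1) (by
        intro i
        rw [map_sub, (f i).2, (g i).2]) h1
    funext i
    exact Subtype.ext (sub_eq_zero.mp (h2 i (Finset.mem_univ i)))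
  have hcard := Nat.card_le_card_of_injective _ hinj
  rw [Nat.card_fun, S.card_F, Nat.card_fin] at hcard
  have hAE : Nat.card (AE p E) = p ^ (2 * r * (2 * r)) := by
    have h1 := Module.natCard_eq_pow_finrank (K := ZMod p) (V := AE p E)
    rw [Nat.card_zmod, Module.finrank_linearMap, S.finrank_VV] at h1
    exact h1
  rw [hAE, ← pow_mul] at hcard
  have h3 := (Nat.pow_le_pow_iff_right (Fact.out : p.Prime).one_lt).mp hcard
  have h4 : r * t ≤ r * (4 * r) := by
    calc r * t ≤ 2 * r * (2 * r) := h3
      _ = r * (4 * r) := by ring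
  exact Nat.le_of_mul_le_mul_left h4 S.r_pos

end Data

end Pool.Agent.MP971469
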