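import Pool.Agent.Lib.MP_971469_al.X01_ConjJ

/-! X06: `y ∈ Sp` commuting with `F` and with some `Y ∈ orbJ`. -/

namespace Pool.Agent.MP971469

namespace Data

variable {p r : ℕ} [Fact p.Prime] {E : Type} [Field E] [Finite E] [Algebra (ZMod p) E]

/-- For `y ∈ Sp` commuting with `F`, `y + y⁻¹` is multiplication by an element of `F`: with
`y = x + w bar` (`eq_of_comm_F`), `y⁻¹ = adj y = bar x - w bar`. -/
theorem exists_tau (S : Data p r E) (y : (AE p E)ˣ) (hy : y ∈ S.Sp)
    (hyF : ∀ f : E, S.bar f = f → (y : AE p E) * mE p f = mE p f * y) :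
    ∃ τ : E, S.bar τ = τ ∧
      (y : AE p E) + ((y⁻¹ : (AE p E)ˣ) : AE p E) = mE p τ := by
  have h1 := S.eq_of_comm_F (y : AE p E) hyF
  have h2 : ((y⁻¹ : (AE p E)ˣ) : AE p E) =
      mE p (S.bar (coef (y : AE p E) 1)) + mE p (-(coef (y : AE p E) S.bar)) * gE p S.bar := by
    rw [← (S.mem_Sp_iff y).mp hy]
    conv_lhs => rw [h1]
    rw [S.adj_add, S.adj_mE, S.adj_mE_gE, S.sgn_bar, S.bar_inv, S.bar_bar, neg_one_mul]
  refine ⟨coef (y : AE p E) 1 + S.bar (coef (y : AE p E) 1), ?_, ?_⟩
  · rw [map_add, S.bar_bar, add_comm]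
  · refine (congrArg₂ (· + ·) h1 h2).trans ?_
    rw [map_neg, map_add, neg_mul]
    abel

private theorem X06_inv_comm (y : (AE p E)ˣ) (X : AE p E) (h : (y : AE p E) * X = X * y) :
    ((y⁻¹ : (AE p E)ˣ) : AE p E) * X = X * ((y⁻¹ : (AE p E)ˣ) : AE p E) := by
  calc ((y⁻¹ : (AE p E)ˣ) : AE p E) * X
      = ((y⁻¹ : (AE p E)ˣ) : AE p E) * (X * (y : AE p E)) * ((y⁻¹ : (AE p E)ˣ) : AE p E) := by
        rw [mul_assoc, mul_assoc, y.mul_inv, mul_one]
    _ = X * ((y⁻¹ : (AE p E)ˣ) : AE p E) := by
        rw [← h, ← mul_assoc, y.inv_mul, one_mul]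

/-- A subspace which is stable under `F`, nonzero and proper has dimension `r`. -/
private theorem X06_finrank (S : Data p r E) (U : Submodule (ZMod p) (VV E))
    (hF : ∀ f : E, S.bar f = f → ∀ u ∈ U, mE p f u ∈ U) (h0 : U ≠ ⊥) (h1 : U ≠ ⊤) :
    Module.finrank (ZMod p) U = r := by
  classical
  have hp1 : 1 < p := (Fact.out : p.Prime).one_lt
  have hpr : 0 < p ^ r := pow_pos (by omega) _
  obtain ⟨u, huU, hu0⟩ := U.exists_mem_ne_zero_of_ne_bot h0
  have hle1 : p ^ r ≤ Nat.card U := by
    rw [← S.card_F]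
    refine Nat.card_le_card_of_injective (fun f : {f : E // S.bar f = f} =>
      (⟨mE p f.1 u, hF f.1 f.2 u huU⟩ : U)) ?_
    intro f g hfg
    have h2 : mE p f.1 u = mE p g.1 u := congrArg Subtype.val hfg
    have h3 := congrArg (toE p) h2
    rw [toE_mE, toE_mE] at h3
    have hu : toE p u ≠ 0 := by
      rw [Ne, map_eq_zero_iff _ (toE p).injective]
      exact hu0
    exact Subtype.ext (mul_right_cancel₀ hu h3)
  obtain ⟨v, hv⟩ : ∃ v, v ∉ U := by
    by_contra h
    push Not at h
    exact h1 (Submodule.eq_top_iff'.mpr h)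
  have hle2 : p ^ r ≤ Nat.card (VV E ⧸ U) := by
    rw [← S.card_F]
    haveI : Finite (VV E ⧸ U) := Finite.of_surjective _ (Submodule.mkQ_surjective U)
    refine Nat.card_le_card_of_injective (fun f : {f : E // S.bar f = f} =>
      (U.mkQ (mE p f.1 v) : VV E ⧸ U)) ?_
    intro f g hfg
    have h2 : U.mkQ (mE p f.1 v) = U.mkQ (mE p g.1 v) := hfg
    rw [Submodule.mkQ_apply, Submodule.mkQ_apply, Submodule.Quotient.eq] at h2
    by_contra hne
    have hd : f.1 - g.1 ≠ 0 := fun h => hne (Subtype.ext (sub_eq_zero.mp h))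
    have h3 : mE p (f.1 - g.1) v ∈ U := by
      rw [map_sub]
      exact h2
    have h4 := hF (f.1 - g.1)⁻¹ (by rw [map_inv₀, map_sub, f.2, g.2]) _ h3
    rw [← Module.End.mul_apply, ← map_mul, inv_mul_cancel₀ hd, map_one, Module.End.one_apply] at h4
    exact hv h4
  have hmul : Nat.card (VV E) = Nat.card (VV E ⧸ U) * Nat.card U := by
    have := Submodule.card_eq_card_quotient_mul_card U
    rw [this, mul_comm]
  rw [S.card_VV] at hmul
  have hU : Nat.card U = p ^ r := by
    have h5 : p ^ (2 * r) = p ^ r * p ^ r := by rw [two_mul, pow_add]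
    rw [h5] at hmul
    apply le_antisymm _ hle1
    by_contra hlt
    push Not at hlt
    have : p ^ r * p ^ r < Nat.card (VV E ⧸ U) * Nat.card U :=
      lt_of_lt_of_le (Nat.mul_lt_mul_of_pos_left hlt hpr) (Nat.mul_le_mul_right _ hle2)
    omega
  have h6 := Module.natCard_eq_pow_finrank (K := ZMod p) (V := U)
  rw [hU, Nat.card_zmod] at h6
  exact (Nat.pow_right_injective (Fact.out : p.Prime).two_le h6).symm

/-- If `y ∈ Sp` commutes with `F`, `y ≠ ±1`, and `(y - c)(y - c⁻¹) = 0` with `c ∈ F_p`, `c ≠ 0`, then no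
`Y` with `Y² = lam` commutes with `y`. Proof: `U = ker (y - c)` is an `F`-subspace, `U ≠ 0` (else
`y = c⁻¹` scalar, `c² = 1`, `y = ±1`), `U ≠ E` (else `y = c`), so its cardinality is `p^r` (it is a proper
nonzero `F`-subspace of the two-dimensional `F`-space `E`: a nonzero vector `u ∈ U` gives `F u ⊆ U`, so
`|U| ≥ p^r`, and if `|U| > p^r` then `U` contains a second `F`-independent vector and is `E`), so its
dimension over `F_p` is `r`, odd. `Y` maps `U` to `U`, and `det (Y|U)² = lam^r`, so `lam^r`, hence `lam`,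
is a square, contradiction. -/
theorem no_comm_split (S : Data p r E) (y : (AE p E)ˣ) (hy : y ∈ S.Sp)
    (hyF : ∀ f : E, S.bar f = f → (y : AE p E) * mE p f = mE p f * y)
    (hpm : y ∉ pm (ZMod p) (VV E)) (c : ZMod p) (hc : c ≠ 0)
    (h : (y : AE p E) + ((y⁻¹ : (AE p E)ˣ) : AE p E) = (c + c⁻¹) • (1 : AE p E))
    (Y : AE p E) (hY : Y * Y = S.lam • (1 : AE p E)) (hcomm : (y : AE p E) * Y = Y * y) : False := by
  -- `y` is not a scalar
  have hns : ∀ d : ZMod p, (y : AE p E) ≠ d • (1 : AE p E) := by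
    intro d hd
    apply hpm
    have h1 : S.adj (y : AE p E) = y := by
      rw [hd, S.adj_smul, S.adj_one]
    have h2 : (y : AE p E) * y = 1 := by
      nth_rewrite 1 [← h1]
      rw [(S.mem_Sp_iff y).mp hy, y.inv_mul]
    have h3 : (d * d) • (1 : AE p E) = (1 : ZMod p) • (1 : AE p E) := by
      rw [hd, smul_mul_smul_comm, mul_one] at h2
      rw [h2, one_smul]
    have h4 : d * d = 1 := by
      have h5 := congrArg (fun Z : AE p E => toE p (Z ((toE p).symm 1))) h3
      simp only [LinearMap.smul_apply, Module.End.one_apply, map_smul, LinearEquiv.apply_symm_apply] at h5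
      rw [Algebra.smul_def, Algebra.smul_def, mul_one, mul_one] at h5
      exact (algebraMap (ZMod p) E).injective h5
    rcases mul_self_eq_one_iff.mp h4 with h6 | h6
    · left
      apply Units.ext
      rw [hd, h6, one_smul, Units.val_one]
    · right
      apply Units.ext
      rw [hd, h6, neg_smul, one_smul, Units.val_neg, Units.val_one]
  -- `(y - c⁻¹) (y - c) = 0`
  have hq : ((y : AE p E) - c • 1) * ((y : AE p E) - c⁻¹ • 1) = 0 := by
    have h1 : (y : AE p E) * y = (c + c⁻¹) • (y : AE p E) - 1 := by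
      have h2 : (y : AE p E) * ((y : AE p E) + ((y⁻¹ : (AE p E)ˣ) : AE p E)) =
          (c + c⁻¹) • (y : AE p E) := by
        rw [h, mul_smul_comm, mul_one]
      rw [mul_add, y.mul_inv] at h2
      rw [← h2, add_sub_cancel_right]
    have h3 : ((y : AE p E) - c • 1) * ((y : AE p E) - c⁻¹ • 1) =
        (y : AE p E) * y - c⁻¹ • (y : AE p E) - c • (y : AE p E) + (c * c⁻¹) • (1 : AE p E) := by
      rw [sub_mul, mul_sub, mul_sub, mul_smul_comm, mul_one, smul_mul_assoc, one_mul,
        smul_mul_smul_comm, mul_one]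
      abel
    rw [h3, h1, mul_inv_cancel₀ hc, one_smul, add_smul]
    abel
  set U : Submodule (ZMod p) (VV E) := LinearMap.ker ((y : AE p E) - c • 1) with hU
  have hmem : ∀ u : VV E, u ∈ U ↔ (y : AE p E) u = c • u := by
    intro u
    rw [hU, LinearMap.mem_ker, LinearMap.sub_apply, LinearMap.smul_apply, Module.End.one_apply,
      sub_eq_zero]
  have hfin : Module.finrank (ZMod p) U = r := by
    apply X06_finrank S U
    · intro f hf u hu
      rw [hmem] at hu ⊢
      have h1 : (y : AE p E) (mE p f u) = mE p f ((y : AE p E) u) := by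
        rw [← Module.End.mul_apply, hyF f hf, Module.End.mul_apply]
      rw [h1, hu, map_smul]
    · intro hbot
      apply hns c⁻¹
      rw [← sub_eq_zero]
      ext v
      have h1 : ((y : AE p E) - c⁻¹ • 1) v ∈ U := by
        rw [hU, LinearMap.mem_ker, ← Module.End.mul_apply, hq, LinearMap.zero_apply]
      rw [hbot, Submodule.mem_bot] at h1
      rw [h1, LinearMap.zero_apply]
    · intro htop
      apply hns c
      ext v
      have h1 : v ∈ U := by rw [htop]; trivial
      rw [hmem] at h1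
      rw [h1, LinearMap.smul_apply, Module.End.one_apply]
  have hYU : ∀ u ∈ U, Y u ∈ U := by
    intro u hu
    rw [hmem] at hu ⊢
    have h1 : (y : AE p E) (Y u) = Y ((y : AE p E) u) := by
      rw [← Module.End.mul_apply, hcomm, Module.End.mul_apply]
    rw [h1, hu, map_smul]
  set Z : U →ₗ[ZMod p] U := LinearMap.restrict Y hYU with hZ
  have hZ2 : Z * Z = S.lam • (1 : Module.End (ZMod p) U) := by
    ext u
    have h1 := congrArg (fun X : AE p E => X (u : VV E)) hY
    simp only [Module.End.mul_apply, LinearMap.smul_apply, Module.End.one_apply] at h1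
    rw [Module.End.mul_apply, LinearMap.smul_apply, Module.End.one_apply, hZ,
      LinearMap.restrict_coe_apply, LinearMap.restrict_coe_apply, h1]
    rfl
  have hdet := congrArg LinearMap.det hZ2
  rw [map_mul, LinearMap.det_smul, map_one, mul_one, hfin] at hdet
  obtain ⟨k, hk⟩ := S.r_odd
  apply S.lam_ns
  refine ⟨LinearMap.det Z / S.lam ^ k, ?_⟩
  have hl := S.lam_ne
  have hlk : S.lam ^ k ≠ 0 := pow_ne_zero _ hl
  have hr2 : S.lam ^ r = S.lam * (S.lam ^ k * S.lam ^ k) :=
    (congrArg (fun n => S.lam ^ n) hk).trans (by ring)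
  rw [div_mul_div_comm, hdet, eq_div_iff (mul_ne_zero hlk hlk), hr2]

/-- Let `y ∈ Sp` commute with `F`, `y ≠ ±1`, and let `Y ∈ orbJ` commute with `y`. Then `Y` commutes with
`F`, or `Y` commutes with some `I ∈ orbJ` which commutes with `F`. Proof: `τ` as in `exists_tau`; `Y`
commutes with `mE τ`. If `τ` is not in the prime field, `Y` commutes with `F`
(`comm_F_of_comm_gen`). If `τ = t ∈ F_p`: if `t² - 4` is a square in `F_p` then `t = c + c⁻¹`
with `c ∈ F_p`, impossible by `no_comm_split`. Otherwise `t² - 4 = lam c²` with `c ∈ F_p`, `c ≠ 0`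
(quotient of two nonsquares is a square); `I = c⁻¹ (y - y⁻¹)` is skew, commutes with `F` and with `Y`,
`I² = c⁻² (t² - 4) = lam`, so `I ∈ orbJ` by `mem_orbJ_of_comm_F`. -/
theorem comm_cases (S : Data p r E) (y : (AE p E)ˣ) (hy : y ∈ S.Sp)
    (hyF : ∀ f : E, S.bar f = f → (y : AE p E) * mE p f = mE p f * y)
    (hpm : y ∉ pm (ZMod p) (VV E)) (Y : AE p E) (hY : Y ∈ S.orbJ)
    (hcomm : (y : AE p E) * Y = Y * y) :
    (∀ f : E, S.bar f = f → Y * mE p f = mE p f * Y) ∨
      ∃ I ∈ S.orbJ, (∀ f : E, S.bar f = f → I * mE p f = mE p f * I) ∧ Y * I = I * Y := by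
  classical
  obtain ⟨τ, hτ, hyτ⟩ := S.exists_tau y hy hyF
  have hcomm' := X06_inv_comm y Y hcomm
  by_cases hprime : ∀ c : ZMod p, algebraMap (ZMod p) E c ≠ τ
  · left
    apply S.comm_F_of_comm_gen Y τ hτ hprime
    rw [← hyτ, mul_add, add_mul, hcomm, hcomm']
  · push Not at hprime
    obtain ⟨t, ht⟩ := hprime
    have hyt : (y : AE p E) + ((y⁻¹ : (AE p E)ˣ) : AE p E) = t • (1 : AE p E) := by
      rw [hyτ, ← ht, AlgHom.commutes, Algebra.algebraMap_eq_smul_one]
    have h2 := S.two_ne
    by_cases hsq : IsSquare (t ^ 2 - 4)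
    · exfalso
      obtain ⟨s, hs⟩ := hsq
      have h4 : (4 : ZMod p) ≠ 0 := by
        have : (4 : ZMod p) = 2 * 2 := by norm_num
        rw [this]; exact mul_ne_zero h2 h2
      have hprod : ((t + s) / 2) * ((t - s) / 2) = 1 := by
        have : ((t + s) / 2) * ((t - s) / 2) = (t ^ 2 - s * s) / 4 := by
          rw [div_mul_div_comm]
          congr 1
          · ring
          · norm_num
        rw [this, ← hs]
        rw [sub_sub_cancel, div_self h4]
      have hc : (t + s) / 2 ≠ 0 := fun h0 => by rw [h0, zero_mul] at hprod; exact zero_ne_one hprod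
      have hinv : ((t + s) / 2)⁻¹ = (t - s) / 2 := inv_eq_of_mul_eq_one_right hprod
      refine S.no_comm_split y hy hyF hpm ((t + s) / 2) hc ?_ Y (S.orbJ_sq Y hY) hcomm
      rw [hyt, hinv]
      congr 1
      field_simp
      ring
    · right
      -- `t² - 4 = lam c²`
      obtain ⟨c, hc⟩ : ∃ c : ZMod p, t ^ 2 - 4 = S.lam * c ^ 2 := by
        have hch2 : ringChar (ZMod p) ≠ 2 := by
          rw [ZMod.ringChar_zmod_n]
          have := S.p_ge
          omega
        have e1 : quadraticChar (ZMod p) (t ^ 2 - 4) = -1 :=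
          quadraticChar_neg_one_iff_not_isSquare.mpr hsq
        have e2 : quadraticChar (ZMod p) S.lam = -1 :=
          quadraticChar_neg_one_iff_not_isSquare.mpr S.lam_ns
        have e3 : quadraticChar (ZMod p) (S.lam * (t ^ 2 - 4)) = 1 := by
          rw [map_mul, e1, e2]; norm_num
        have hne : S.lam * (t ^ 2 - 4) ≠ 0 := by
          apply mul_ne_zero S.lam_ne
          intro h0
          apply hsq
          rw [h0]; exact ⟨0, by simp⟩
        obtain ⟨s, hs⟩ := (quadraticChar_one_iff_isSquare hne).mp e3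
        refine ⟨s / S.lam, ?_⟩
        have hl := S.lam_ne
        have : S.lam * (s / S.lam) ^ 2 = (s * s) / S.lam := by
          field_simp
        rw [this, ← hs]
        field_simp
      have hc0 : c ≠ 0 := by
        rintro rfl
        apply hsq
        rw [hc]; exact ⟨0, by simp⟩
      set y' : AE p E := ((y⁻¹ : (AE p E)ˣ) : AE p E) with hy'
      have hIF : ∀ f : E, S.bar f = f → (c⁻¹ • ((y : AE p E) - y')) * mE p f =
          mE p f * (c⁻¹ • ((y : AE p E) - y')) := by
        intro f hf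
        rw [smul_mul_assoc, mul_smul_comm, sub_mul, mul_sub, hyF f hf,
          X06_inv_comm y _ (hyF f hf)]
      have hI2 : (c⁻¹ • ((y : AE p E) - y')) * (c⁻¹ • ((y : AE p E) - y')) =
          S.lam • (1 : AE p E) := by
        rw [smul_mul_smul_comm]
        have e1 : ((y : AE p E) - y') * ((y : AE p E) - y') =
            ((y : AE p E) + y') * ((y : AE p E) + y') - (4 : ZMod p) • (1 : AE p E) := by
          have a1 : (y : AE p E) * y' = 1 := y.mul_inv
          have a2 : y' * (y : AE p E) = 1 := y.inv_mul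
          rw [sub_mul, mul_sub, mul_sub, add_mul, mul_add, mul_add, a1, a2]
          have : (4 : ZMod p) • (1 : AE p E) = 1 + 1 + 1 + 1 := by
            have : (4 : ZMod p) = 1 + 1 + 1 + 1 := by norm_num
            rw [this]
            simp only [add_smul, one_smul]
          rw [this]
          abel
        rw [e1, hyt, smul_mul_smul_comm, mul_one, ← sub_smul, smul_smul]
        congr 1
        have e2 : t * t - 4 = S.lam * c ^ 2 := by rw [← hc]; ring
        rw [e2]
        field_simp
      have hIskew : c⁻¹ • ((y : AE p E) - y') ∈ S.skew := by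
        apply Submodule.smul_mem
        rw [S.mem_skew_iff, S.adj_sub, (S.mem_Sp_iff y).mp hy, hy',
          (S.mem_Sp_iff y⁻¹).mp (inv_mem hy), inv_inv, neg_sub]
      refine ⟨c⁻¹ • ((y : AE p E) - y'), S.mem_orbJ_of_comm_F _ hIskew hI2 hIF, hIF, ?_⟩
      rw [mul_smul_comm, smul_mul_assoc, mul_sub, sub_mul, hcomm, hcomm']

end Data

end Pool.Agent.MP971469
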