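import Pool.Agent.Lib.MP_971469_al.M07_Skew

/-! X07: the number of `Y ∈ orbJ` commuting with `J`. -/

namespace Pool.Agent.MP971469

private theorem x07_quad {n a : ℕ} (hn : Odd n) (ha : a ≤ n) : a * (n - a) ≤ (n ^ 2 - 1) / 4 := by
  obtain ⟨m, rfl⟩ := hn
  have e : ((2 * m + 1) ^ 2 - 1) / 4 = m * (m + 1) := by
    have : (2 * m + 1) ^ 2 - 1 = 4 * (m * (m + 1)) := by
      have : (2 * m + 1) ^ 2 = 4 * (m * (m + 1)) + 1 := by ring
      omega
    rw [this]
    omega
  rw [e]
  obtain ⟨b, hb⟩ : ∃ b, b = 2 * m + 1 - a := ⟨_, rfl⟩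
  rw [← hb]
  have hab : a + b = 2 * m + 1 := by omega
  rcases Nat.lt_or_ge a b with h | h
  · obtain ⟨c, rfl⟩ : ∃ c, m = a + c := ⟨m - a, by omega⟩
    have hb' : b = a + 2 * c + 1 := by omega
    rw [hb']
    nlinarith
  · obtain ⟨c, rfl⟩ : ∃ c, m = b + c := ⟨m - b, by omega⟩
    have ha' : a = b + 2 * c + 1 := by omega
    rw [ha']
    nlinarith

/-- every subspace is given by a set of coordinates and a matrix -/
private theorem x07_code {k V : Type} [Field k] [AddCommGroup V] [Module k V] {n : ℕ}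
    (b : Module.Basis (Fin n) k V) (W : Submodule k V) :
    ∃ c : (Σ I : Finset (Fin n), ({i // i ∉ I} → {i // i ∈ I} → k)),
      ∀ x : V, x ∈ W ↔ ∀ i' : {i // i ∈ c.1}, b.repr x i' +
        ∑ i : {i // i ∉ c.1}, b.repr x i * c.2 i i' = 0 := by
  classical
  obtain ⟨κ, a, ha, hspan, hli⟩ := exists_linearIndependent' k (fun i => W.mkQ (b i))
  have hκ : Finite κ := Finite.of_injective a ha
  have : Fintype κ := Fintype.ofFinite κ
  have htop : ⊤ ≤ Submodule.span k (Set.range ((fun i => W.mkQ (b i)) ∘ a)) := by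
    rw [hspan]
    have h1 : Set.range (fun i => W.mkQ (b i)) = W.mkQ '' Set.range b := by
      rw [← Set.range_comp]
      rfl
    rw [h1, Submodule.span_image, b.span_eq, Submodule.map_top, Submodule.range_mkQ]
  let bq : Module.Basis κ k (V ⧸ W) := Module.Basis.mk hli htop
  have hbq : ∀ s, bq s = W.mkQ (b (a s)) := fun s => Module.Basis.mk_apply hli htop s
  let I : Finset (Fin n) := Finset.univ.filter (fun i => i ∈ Set.range a)
  have hI : ∀ i, i ∈ I ↔ i ∈ Set.range a := fun i => by simp [I]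
  have hI' : ∀ i : {i // i ∈ I}, ∃ s, a s = i := fun i => (hI i).1 i.2
  choose e he using hI'
  have hea : ∀ s (h : a s ∈ I), e ⟨a s, h⟩ = s := fun s h => ha (he ⟨a s, h⟩)
  refine ⟨⟨I, fun i i' => bq.repr (W.mkQ (b i)) (e i')⟩, fun x => ?_⟩
  have hx : W.mkQ x = ∑ i, b.repr x i • W.mkQ (b i) := by
    conv_lhs => rw [← b.sum_repr x]
    rw [map_sum]
    exact Finset.sum_congr rfl fun i _ => map_smul _ _ _
  have key : ∀ i' : {i // i ∈ I}, bq.repr (W.mkQ x) (e i') = b.repr x i' +
      ∑ i : {i // i ∉ I}, b.repr x i * bq.repr (W.mkQ (b i)) (e i') := by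
    intro i'
    have h1 : bq.repr (W.mkQ x) (e i') = ∑ i, b.repr x i * bq.repr (W.mkQ (b i)) (e i') := by
      rw [hx, map_sum, Finsupp.finsetSum_apply]
      refine Finset.sum_congr rfl fun i _ => ?_
      rw [map_smul, Finsupp.smul_apply, smul_eq_mul]
    rw [h1, ← Fintype.sum_subtype_add_sum_subtype (fun i => i ∈ I)]
    congr 1
    rw [Finset.sum_eq_single i']
    · have h2 : W.mkQ (b i') = bq (e i') := by rw [hbq, he]
      rw [h2, bq.repr_self, Finsupp.single_eq_same, mul_one]
    · intro i _ hi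
      have h2 : W.mkQ (b i) = bq (e i) := by rw [hbq, he]
      have h3 : e i ≠ e i' := by
        intro h4
        apply hi
        apply Subtype.ext
        rw [← he i, ← he i', h4]
      rw [h2, bq.repr_self, Finsupp.single_eq_of_ne (Ne.symm h3), mul_zero]
    · intro h2
      exact (h2 (@Finset.mem_univ _ (Subtype.fintype fun i => i ∈ I) i')).elim
  have h0 : x ∈ W ↔ ∀ s, bq.repr (W.mkQ x) s = 0 := by
    constructor
    · intro hxW s
      have : W.mkQ x = 0 := (Submodule.Quotient.mk_eq_zero W).2 hxW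
      rw [this, map_zero, Finsupp.zero_apply]
    · intro h
      have h2 : bq.repr (W.mkQ x) = 0 := Finsupp.ext h
      have h3 : W.mkQ x = 0 := (LinearEquiv.map_eq_zero_iff bq.repr).1 h2
      exact (Submodule.Quotient.mk_eq_zero W).1 h3
  rw [h0]
  constructor
  · intro h i'
    rw [← key i']
    exact h _
  · intro h s
    have hs : a s ∈ I := (hI _).2 ⟨s, rfl⟩
    have h1 : b.repr x (a s) + ∑ i : {i // i ∉ I}, b.repr x i *
        bq.repr (W.mkQ (b i)) (e ⟨a s, hs⟩) = 0 := h ⟨a s, hs⟩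
    have h2 := key ⟨a s, hs⟩
    rw [hea s hs] at h1 h2
    rw [h2]
    exact h1

/-- The number of subspaces of a finite vector space. Proof: for `a ≤ n` the number `N_a` of
`a`-dimensional subspaces times the number of bases of a fixed one is at most the number of
`a`-tuples: `N_a ∏_{i<a} (q^a - q^i) ≤ q^(n a)` (`card_linearIndependent` in Mathlib), and
`q^a - q^i ≥ q^a / 2`, so `N_a ≤ 2^a q^(a(n-a))`, and `a (n-a) ≤ (n²-1)/4` for odd `n`
(`a(n-a) ≤ n²/4` in general). Here `n` is odd, so `4 a (n-a) ≤ n² - 1`. -/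
theorem card_submodules_le {k V : Type} [Field k] [Finite k] [AddCommGroup V] [Module k V]
    [FiniteDimensional k V] (n : ℕ) (hn : Odd n) (hV : Module.finrank k V = n) :
    Nat.card (Submodule k V) ≤ (n + 1) * 2 ^ n * Nat.card k ^ ((n ^ 2 - 1) / 4) := by
  classical
  let b := Module.finBasisOfFinrankEq k V hV
  choose c hc using fun W : Submodule k V => x07_code b W
  have hinj : Function.Injective c := by
    intro W W' h
    ext x
    rw [hc W x, hc W' x, h]
  have : Finite V := Module.finite_of_finite k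
  have : Fintype k := Fintype.ofFinite k
  refine (Nat.card_le_card_of_injective c hinj).trans ?_
  rw [Nat.card_sigma]
  have h1 : ∀ I : Finset (Fin n), Nat.card ({i // i ∉ I} → {i // i ∈ I} → k) ≤
      Nat.card k ^ ((n ^ 2 - 1) / 4) := by
    intro I
    rw [Nat.card_fun, Nat.card_fun, ← pow_mul]
    refine Nat.pow_le_pow_right Nat.card_pos ?_
    have e1 : Nat.card {i // i ∈ I} = I.card := by simp
    have e2 : Nat.card {i // i ∉ I} = n - I.card := by
      rw [Nat.card_eq_fintype_card, Fintype.card_subtype_compl, Fintype.card_fin,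
        Fintype.card_coe]
    rw [e1, e2]
    exact x07_quad hn (by simpa using Finset.card_le_univ I)
  calc ∑ I : Finset (Fin n), Nat.card ({i // i ∉ I} → {i // i ∈ I} → k)
      ≤ ∑ _I : Finset (Fin n), Nat.card k ^ ((n ^ 2 - 1) / 4) := Finset.sum_le_sum fun I _ => h1 I
    _ = 2 ^ n * Nat.card k ^ ((n ^ 2 - 1) / 4) := by
        rw [Finset.sum_const, Finset.card_univ, Fintype.card_finset, Fintype.card_fin, smul_eq_mul]
    _ ≤ (n + 1) * 2 ^ n * Nat.card k ^ ((n ^ 2 - 1) / 4) := by
        refine Nat.mul_le_mul_right _ ?_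
        exact Nat.le_mul_of_pos_left _ (Nat.succ_pos n)

namespace Data

variable {p r : ℕ} [Fact p.Prime] {E : Type} [Field E] [Finite E] [Algebra (ZMod p) E]

/-- the field `F_p(j)` -/
private abbrev x07k (S : Data p r E) : Type := ↥(IntermediateField.adjoin (ZMod p) {S.j})

private theorem x07_finrank (S : Data p r E) : Module.finrank (ZMod p) (x07k S) = 2 := by
  have hint : IsIntegral (ZMod p) S.j := Algebra.IsIntegral.isIntegral S.j
  rw [IntermediateField.adjoin.finrank hint]
  have h1 : minpoly (ZMod p) S.j ∣ Polynomial.X ^ 2 - Polynomial.C S.lam := by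
    apply minpoly.dvd
    simp only [map_sub, map_pow, Polynomial.aeval_X, Polynomial.aeval_C]
    rw [pow_two, S.j_sq, sub_self]
  have h2 : (minpoly (ZMod p) S.j).natDegree ≤ 2 := by
    have h3 := Polynomial.natDegree_le_of_dvd h1 (Polynomial.X_pow_sub_C_ne_zero two_pos _)
    rwa [Polynomial.natDegree_X_pow_sub_C] at h3
  have h3 : 0 < (minpoly (ZMod p) S.j).natDegree := minpoly.natDegree_pos hint
  have h4 : (minpoly (ZMod p) S.j).natDegree ≠ 1 := by
    intro h5
    obtain ⟨c, hc⟩ := minpoly.natDegree_eq_one_iff.1 h5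
    exact S.j_notMem c hc.symm
  omega

private theorem x07_finrank' (S : Data p r E) : Module.finrank (x07k S) E = r := by
  have h1 := Module.finrank_mul_finrank (ZMod p) (x07k S) E
  rw [x07_finrank, S.finrank_E] at h1
  omega

private theorem x07_card (S : Data p r E) : Nat.card (x07k S) = p ^ 2 := by
  rw [Module.natCard_eq_pow_finrank (K := ZMod p), x07_finrank, Nat.card_zmod]

omit [Finite E] in
private theorem x07_comm (S : Data p r E) (Y : AE p E) (h : Y * S.J = S.J * Y) :
    ∀ c ∈ IntermediateField.adjoin (ZMod p) {S.j}, Y * mE p c = mE p c * Y := by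
  intro c hc
  induction hc using IntermediateField.adjoin_induction with
  | mem x hx =>
    rw [Set.mem_singleton_iff] at hx
    rw [hx]
    exact h
  | algebraMap x => rw [AlgHom.commutes, Algebra.commutes]
  | add x y _ _ hx hy => rw [map_add, mul_add, add_mul, hx, hy]
  | inv x _ hx =>
    by_cases h0 : x = 0
    · rw [h0, inv_zero, map_zero, mul_zero, zero_mul]
    · have h1 : mE p x⁻¹ * mE p x = 1 := by rw [← map_mul, inv_mul_cancel₀ h0, map_one]
      have h2 : mE p x * mE p x⁻¹ = 1 := by rw [← map_mul, mul_inv_cancel₀ h0, map_one]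
      calc Y * mE p x⁻¹ = (mE p x⁻¹ * mE p x) * (Y * mE p x⁻¹) := by rw [h1, one_mul]
        _ = mE p x⁻¹ * (mE p x * Y) * mE p x⁻¹ := by simp only [mul_assoc]
        _ = mE p x⁻¹ * (Y * mE p x) * mE p x⁻¹ := by rw [hx]
        _ = mE p x⁻¹ * Y * (mE p x * mE p x⁻¹) := by simp only [mul_assoc]
        _ = mE p x⁻¹ * Y := by rw [h2, mul_one]
  | mul x y _ _ hx hy => rw [map_mul, ← mul_assoc, hx, mul_assoc, hy, mul_assoc]

/-- the eigenspace `V₊` -/
private def x07V (S : Data p r E) (Y : AE p E) (h : Y * S.J = S.J * Y) :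
    Submodule (x07k S) E where
  carrier := {x | Y ((toE p).symm x) = S.J ((toE p).symm x)}
  add_mem' := by
    intro x y hx hy
    simp only [Set.mem_ofPred_eq] at hx hy ⊢
    rw [map_add, map_add, map_add, hx, hy]
  zero_mem' := by
    simp only [Set.mem_ofPred_eq]
    rw [map_zero, map_zero, map_zero]
  smul_mem' := by
    intro c x hx
    simp only [Set.mem_ofPred_eq] at hx ⊢
    have h1 : (toE p).symm (c • x) = mE p (c : E) ((toE p).symm x) := rfl
    have h2 := x07_comm S Y h c c.2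
    have h3 : S.J * mE p (c : E) = mE p (c : E) * S.J := by
      unfold J
      rw [← map_mul, ← map_mul, mul_comm]
    rw [h1, ← Module.End.mul_apply, h2, Module.End.mul_apply, hx, ← Module.End.mul_apply, ← h3,
      Module.End.mul_apply]

omit [Finite E] in
private theorem x07_mem (S : Data p r E) (Y : AE p E) (h : Y * S.J = S.J * Y) (x : VV E) :
    toE p x ∈ x07V S Y h ↔ Y x = S.J x := Iff.rfl

private theorem x07_split (S : Data p r E) (Y : AE p E) (hY : Y ∈ S.orbJ)
    (h : Y * S.J = S.J * Y) (x : VV E) :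
    ∃ a b : VV E, x = a + b ∧ Y a = S.J a ∧ Y b = - S.J b := by
  have hY2 := S.orbJ_sq Y hY
  have hJ2 := S.J_mul_J
  have hl := S.lam_ne
  have h2 := S.two_ne
  have e1 : ∀ x : VV E, Y (Y x) = S.lam • x := by
    intro x
    rw [← Module.End.mul_apply, hY2]
    simp
  have e2 : ∀ x : VV E, S.J (S.J x) = S.lam • x := by
    intro x
    rw [← Module.End.mul_apply, hJ2]
    simp
  have e3 : ∀ x : VV E, Y (S.J x) = S.J (Y x) := by
    intro x
    rw [← Module.End.mul_apply, h, Module.End.mul_apply]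
  refine ⟨(2 : ZMod p)⁻¹ • (x + S.lam⁻¹ • S.J (Y x)), (2 : ZMod p)⁻¹ • (x - S.lam⁻¹ • S.J (Y x)),
    ?_, ?_, ?_⟩
  · rw [← smul_add]
    have : x + S.lam⁻¹ • S.J (Y x) + (x - S.lam⁻¹ • S.J (Y x)) = (2 : ZMod p) • x := by
      rw [two_smul]
      abel
    rw [this, smul_smul, inv_mul_cancel₀ h2, one_smul]
  · simp only [map_smul, map_add]
    rw [e3, e1, e2, map_smul, smul_smul, smul_smul, inv_mul_cancel₀ hl, one_smul, one_smul,
      add_comm]
  · simp only [map_smul, map_sub]
    rw [e3, e1, e2, map_smul, smul_smul, smul_smul, inv_mul_cancel₀ hl, one_smul, one_smul,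
      ← smul_neg, neg_sub]

/-- `V₋` is the orthogonal complement of `V₊` -/
private theorem x07_perp (S : Data p r E) (Y : AE p E) (hY : Y ∈ S.orbJ)
    (h : Y * S.J = S.J * Y) (y : VV E) :
    Y y = - S.J y ↔ ∀ x : VV E, Y x = S.J x → S.B x y = 0 := by
  have hl := S.lam_ne
  have h2 := S.two_ne
  have hYs := S.orbJ_skew Y hY
  have hJs := S.J_mem_skew
  have e2 : ∀ x : VV E, S.J (S.J x) = S.lam • x := by
    intro x
    rw [← Module.End.mul_apply, S.J_mul_J]
    simp
  have e3 : ∀ x : VV E, Y (S.J x) = S.J (Y x) := by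
    intro x
    rw [← Module.End.mul_apply, h, Module.End.mul_apply]
  have key : ∀ x y : VV E, Y x = S.J x → Y y = - S.J y → S.B x y = 0 := by
    intro x y hx hy
    have h3 : ∀ x : VV E, Y x = S.J x → S.B (S.J x) y = 0 := by
      intro x hx
      have h4 : S.B (Y x) y = - S.B x (Y y) := hYs x y
      have h5 : S.B (S.J x) y = - S.B x (S.J y) := hJs x y
      rw [hx, hy, map_neg, neg_neg] at h4
      have h6 : (2 : ZMod p) * S.B (S.J x) y = 0 := by
        rw [two_mul]
        nth_rewrite 1 [h5]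
        rw [h4]
        ring
      exact (mul_eq_zero.1 h6).resolve_left h2
    have h7 := h3 (S.J x) (by rw [e3, hx])
    rw [e2, map_smul, LinearMap.smul_apply, smul_eq_mul] at h7
    exact (mul_eq_zero.1 h7).resolve_left hl
  constructor
  · intro hy x hx
    exact key x y hx hy
  · intro hy
    obtain ⟨a, b, rfl, ha, hb⟩ := x07_split S Y hY h y
    have ha0 : a = 0 := by
      apply S.B_nondeg' a
      intro x
      obtain ⟨c, d, rfl, hc, hd⟩ := x07_split S Y hY h x
      rw [map_add, LinearMap.add_apply]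
      have h3 : S.B c a = 0 := by
        have h4 := hy c hc
        rw [map_add, key c b hc hb, add_zero] at h4
        exact h4
      have h5 : S.B d a = 0 := by
        rw [S.B_swap, key a d ha hd, neg_zero]
      rw [h3, h5, add_zero]
    rw [ha0, zero_add]
    exact hb

/-- Proof: let `k = F_p + F_p j ⊆ E`, a subfield with `p²` elements; `E` has dimension `r` over `k`.
If `Y ∈ orbJ` commutes with `J`, then `Y` is `k`-linear, `Y² = j²`, so `E = V₊ ⊕ V₋` with
`V± = ker (Y ∓ J)`. `V₋ = V₊^⊥`: for `x ∈ V₊, y ∈ V₋`: `B (j x) y = B (Y x) y = - B x (Y y) = B x (j y) =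
- B (j x) y`, so `B (j x) y = 0` for all `x ∈ V₊`, and `j V₊ = V₊`; so `V₋ ⊆ V₊^⊥`, and `V₊ ⊆ V₋^⊥`,
dimensions `dim V₊ + dim V₋ = 2r` give equality. Hence `Y` is determined by the `k`-subspace `V₊`, and
`card_submodules_le` (with `n = r`, `|k| = p²`) gives the bound:
`(p²)^((r²-1)/4) ≤ p^((r²-1)/2)`. -/
theorem card_comm_J_le (S : Data p r E) :
    Nat.card {Y : AE p E // Y ∈ S.orbJ ∧ Y * S.J = S.J * Y} ≤
      (r + 1) * 2 ^ r * p ^ ((r ^ 2 - 1) / 2) := by
  classical
  have hfin : Finite (x07k S) := Subtype.finite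
  have h1 := card_submodules_le (k := x07k S) (V := E) r S.r_odd (x07_finrank' S)
  have hinj : Function.Injective (fun Y : {Y : AE p E // Y ∈ S.orbJ ∧ Y * S.J = S.J * Y} =>
      x07V S Y.1 Y.2.2) := by
    rintro ⟨Y, hY1, hY2⟩ ⟨Y', hY1', hY2'⟩ hV
    have hV' : x07V S Y hY2 = x07V S Y' hY2' := hV
    have hp : ∀ x : VV E, Y x = S.J x ↔ Y' x = S.J x := by
      intro x
      rw [← x07_mem S Y hY2, ← x07_mem S Y' hY2', hV']
    have hm : ∀ x : VV E, Y x = - S.J x ↔ Y' x = - S.J x := by
      intro x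
      rw [x07_perp S Y hY1 hY2, x07_perp S Y' hY1' hY2']
      simp only [hp]
    apply Subtype.ext
    refine LinearMap.ext fun x => ?_
    obtain ⟨a, b, rfl, ha, hb⟩ := x07_split S Y hY1 hY2 x
    show Y (a + b) = Y' (a + b)
    rw [map_add, map_add, ha, hb, (hp a).1 ha, (hm b).1 hb]
  refine (Nat.card_le_card_of_injective _ hinj).trans (h1.trans (le_of_eq ?_))
  rw [x07_card, ← pow_mul]
  congr 2
  obtain ⟨m, hm⟩ := S.r_odd
  have : r ^ 2 - 1 = 4 * (m * (m + 1)) := by
    have : r ^ 2 = 4 * (m * (m + 1)) + 1 := by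
      rw [hm]; ring
    omega
  rw [this]
  omega

/-- The same for every `I ∈ orbJ` (conjugate `I` to `J`). -/
theorem card_comm_I_le (S : Data p r E) (I : AE p E) (hI : I ∈ S.orbJ) :
    Nat.card {Y : AE p E // Y ∈ S.orbJ ∧ Y * I = I * Y} ≤
      (r + 1) * 2 ^ r * p ^ ((r ^ 2 - 1) / 2) := by
  classical
  have : Finite (AE p E) := DFunLike.finite _
  obtain ⟨g, hg, rfl⟩ := hI
  refine le_trans ?_ S.card_comm_J_le
  refine Nat.card_le_card_of_injective (fun Y => ⟨cj g⁻¹ Y.1,
    S.cj_mem_orbJ g⁻¹ (inv_mem hg) _ Y.2.1, ?_⟩) ?_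
  · have h1 := congrArg (cj g⁻¹) Y.2.2
    rw [cj_map_mul, cj_map_mul, cj_inv_cj] at h1
    exact h1
  · rintro ⟨Y, hY⟩ ⟨Y', hY'⟩ h
    exact Subtype.ext (cj_injective g⁻¹ (congrArg Subtype.val h))

end Data

end Pool.Agent.MP971469
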