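import Pool.Agent.Lib.MP_971469_al.X06_Comm

/-! X08: `y ∈ Sp` commuting with `F` and anticommuting with some `Y ∈ orbJ`. -/

namespace Pool.Agent.MP971469

namespace Data

variable {p r : ℕ} [Fact p.Prime] {E : Type} [Field E] [Finite E] [Algebra (ZMod p) E]

/-- An element of `Sp` commuting with `F` with `y² = 1` is `±1`. Proof: `y = x + w bar`,
`adj y = bar x - w bar = y⁻¹ = y`, so `w = -w`, `w = 0`, `bar x = x`, `x² = 1`. -/
theorem sq_one_of_comm_F (S : Data p r E) (y : (AE p E)ˣ) (hy : y ∈ S.Sp)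
    (hyF : ∀ f : E, S.bar f = f → (y : AE p E) * mE p f = mE p f * y)
    (h : (y : AE p E) * y = 1) : y ∈ pm (ZMod p) (VV E) := by
  obtain ⟨x, hx⟩ : ∃ x, x = coef (y : AE p E) 1 := ⟨_, rfl⟩
  obtain ⟨w, hw⟩ : ∃ w, w = coef (y : AE p E) S.bar := ⟨_, rfl⟩
  have hyx := S.eq_of_comm_F (y : AE p E) hyF
  rw [← hx, ← hw] at hyx
  have hyi : ((y⁻¹ : (AE p E)ˣ) : AE p E) = y := by
    have h1 : ((y⁻¹ : (AE p E)ˣ) : AE p E) * ((y : AE p E) * y) = y := by
      rw [← mul_assoc, y.inv_mul, one_mul]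
    rw [h, mul_one] at h1
    exact h1
  have h1 := (S.mem_Sp_iff y).1 hy
  rw [hyi] at h1
  have h2 := congrArg (fun X => coef X S.bar) h1
  simp only [S.coef_adj, S.bar_inv, S.sgn_bar, S.bar_bar, ← hw] at h2
  have hw0 : w = 0 := by
    have h3 : (2 : E) * w = 0 := by linear_combination -h2
    rcases mul_eq_zero.1 h3 with h4 | h4
    · exact absurd h4 S.two_ne'
    · exact h4
  rw [hw0, map_zero, zero_mul, add_zero] at hyx
  rw [hyx, ← map_mul] at h
  have h3 : x * x = 1 := by
    apply mE_injective (p := p)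
    rw [h, map_one]
  rcases mul_self_eq_one_iff.1 h3 with h4 | h4
  · left
    ext1
    rw [hyx, h4, map_one, Units.val_one]
  · right
    ext1
    rw [hyx, h4, map_neg, map_one, Units.val_neg, Units.val_one]

/-- Let `y ∈ Sp` commute with `F`, `y ≠ ±1`, `Y ∈ orbJ`, `y Y = -Y y`. Then one of the conclusions of
`comm_cases` holds or `y² = -1`. Proof: `y²` commutes with `Y` and `F`; `y² ≠ 1` by
`sq_one_of_comm_F`; if `y² ≠ -1` apply `comm_cases` to `y²`. -/
theorem anti_cases (S : Data p r E) (y : (AE p E)ˣ) (hy : y ∈ S.Sp)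
    (hyF : ∀ f : E, S.bar f = f → (y : AE p E) * mE p f = mE p f * y)
    (hpm : y ∉ pm (ZMod p) (VV E)) (Y : AE p E) (hY : Y ∈ S.orbJ)
    (hanti : (y : AE p E) * Y = - (Y * y)) :
    ((∀ f : E, S.bar f = f → Y * mE p f = mE p f * Y) ∨
      ∃ I ∈ S.orbJ, (∀ f : E, S.bar f = f → I * mE p f = mE p f * I) ∧ Y * I = I * Y) ∨
    (y : AE p E) * y = -1 := by
  by_cases h : (y : AE p E) * y = -1
  · right; exact h
  · left
    have hz : y * y ∉ pm (ZMod p) (VV E) := by
      rintro (h1 | h1)
      · apply hpm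
        apply S.sq_one_of_comm_F y hy hyF
        rw [← Units.val_mul, h1, Units.val_one]
      · apply h
        rw [← Units.val_mul, h1, Units.val_neg, Units.val_one]
    apply S.comm_cases (y * y) (mul_mem hy hy) _ hz Y hY
    · rw [Units.val_mul, mul_assoc, hanti, mul_neg, ← mul_assoc, hanti, neg_mul, neg_neg, mul_assoc]
    · intro f hf
      rw [Units.val_mul, mul_assoc, hyF f hf, ← mul_assoc, hyF f hf, mul_assoc]

/-- a totally isotropic subspace has dimension at most `r` -/
private theorem x08_iso (S : Data p r E) (W : Submodule (ZMod p) (VV E))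
    (hW : ∀ v ∈ W, ∀ w ∈ W, S.B v w = 0) : Module.finrank (ZMod p) W ≤ r := by
  have hnd : S.B.Nondegenerate :=
    ⟨fun x h => S.B_nondeg x h, fun x h => S.B_nondeg' x h⟩
  have h1 := LinearMap.BilinForm.finrank_orthogonal hnd W
  rw [S.finrank_VV] at h1
  have h2 : W ≤ S.B.orthogonal W := by
    intro v hv
    rw [LinearMap.BilinForm.mem_orthogonal_iff]
    intro w hw
    exact hW w hw v hv
  have h3 := Submodule.finrank_mono h2
  rw [h1] at h3
  omega

/-- Let `y ∈ Sp`, `y² = -1`. The number of `Y ∈ skew` with `Y² = lam`, `y Y = - Y y` is at most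
`p^(r(r+1)/2)`. Proof: let `i₀ ∈ F_p`, `i₀² = -1` (`p ≡ 1 mod 4`). `V = V₊ ⊕ V₋`,
`V± = ker (y ∓ i₀)`; both are totally isotropic (`B v w = B (y v) (y w) = i₀² B v w = - B v w`), so of
dimension `≤ r`, hence exactly `r`, if `finrank = 2r` (sum is `2r`). `Y` maps `V₊` to `V₋` and `V₋` to `V₊`.
With a basis `b_1..b_r` of `V₊`, `Y` is determined by the numbers `B (Y b_i) b_l`, `i ≤ l`: these are
symmetric in `i, l` (`Y` skew), so `Y b_i ∈ V₋` is determined modulo the vectors of `V₋` orthogonal to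
`V₊`, which are `0` (as `V₋` is isotropic); and `Y` on `V₋` is determined by `Y` on `V₊`
(`Y (Y v) = lam v`, `Y V₊ = V₋`). -/
theorem card_anti_le (S : Data p r E) (y : (AE p E)ˣ) (hy : y ∈ S.Sp)
    (h : (y : AE p E) * y = -1) :
    Nat.card {Y : AE p E // Y ∈ S.orbJ ∧ (y : AE p E) * Y = - (Y * y)} ≤
      p ^ (r * (r + 1) / 2) := by
  classical
  obtain ⟨i, hi⟩ : ∃ i : ZMod p, i * i = -1 := by
    obtain ⟨i, hi⟩ := (ZMod.exists_sq_eq_neg_one_iff (p := p)).2 (by have := S.p_mod; omega)
    exact ⟨i, hi.symm⟩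
  have hyB : ∀ v w : VV E, S.B ((y : AE p E) v) ((y : AE p E) w) = S.B v w := hy
  have hyy : ∀ v : VV E, (y : AE p E) ((y : AE p E) v) = -v := by
    intro v
    rw [← Module.End.mul_apply, h, LinearMap.neg_apply, Module.End.one_apply]
  have hiso : ∀ (c : ZMod p), c * c = -1 → ∀ v w : VV E, (y : AE p E) v = c • v →
      (y : AE p E) w = c • w → S.B v w = 0 := by
    intro c hc v w hv hw
    have h1 := hyB v w
    rw [hv, hw, map_smul, map_smul, LinearMap.smul_apply, smul_eq_mul, smul_eq_mul,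
      ← mul_assoc, hc] at h1
    have h2 : (2 : ZMod p) * S.B v w = 0 := by linear_combination -h1
    rcases mul_eq_zero.1 h2 with h3 | h3
    · exact absurd h3 S.two_ne
    · exact h3
  have hi' : (-i) * (-i) = -1 := by rw [neg_mul_neg, hi]
  let W : Submodule (ZMod p) (VV E) := LinearMap.ker ((y : AE p E) - i • (1 : AE p E))
  have hWmem : ∀ v : VV E, v ∈ W ↔ (y : AE p E) v = i • v := by
    intro v
    simp only [W]
    rw [LinearMap.mem_ker, LinearMap.sub_apply, LinearMap.smul_apply, Module.End.one_apply,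
      sub_eq_zero]
  have hWr : Module.finrank (ZMod p) W ≤ r := by
    apply x08_iso S W
    intro v hv w hw
    exact hiso i hi v w ((hWmem v).1 hv) ((hWmem w).1 hw)
  -- decomposition
  have hdec : ∀ v : VV E, ∃ a b : VV E, (y : AE p E) a = i • a ∧ (y : AE p E) b = (-i) • b ∧
      v = a + b := by
    intro v
    have h2 := S.two_ne
    refine ⟨(2 : ZMod p)⁻¹ • (v - i • (y : AE p E) v), (2 : ZMod p)⁻¹ • (v + i • (y : AE p E) v),
      ?_, ?_, ?_⟩
    · rw [map_smul, map_sub, map_smul, hyy, smul_comm i, smul_sub i, smul_smul i i, hi]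
      congr 1
      rw [smul_neg, neg_smul, one_smul]
      abel
    · rw [map_smul, map_add, map_smul, hyy, smul_comm (-i), smul_add (-i), smul_smul (-i) i,
        neg_mul, hi]
      congr 1
      rw [smul_neg, neg_smul, neg_neg, one_smul]
      abel
    · rw [← smul_add]
      have : v - i • (y : AE p E) v + (v + i • (y : AE p E) v) = (2 : ZMod p) • v := by
        rw [two_smul]; abel
      rw [this, smul_smul, inv_mul_cancel₀ h2, one_smul]
  let b := Module.finBasis (ZMod p) W
  have hsymm : ∀ Y : AE p E, Y ∈ S.orbJ → ∀ v w : VV E, S.B (Y v) w = S.B (Y w) v := by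
    intro Y hY v w
    have h1 : ∀ x y, S.B (Y x) y = - S.B x (Y y) := S.orbJ_skew Y hY
    rw [h1, S.B_swap, neg_neg]
  let Φ : {Y : AE p E // Y ∈ S.orbJ ∧ (y : AE p E) * Y = - (Y * y)} →
      (Sym2 (Fin (Module.finrank (ZMod p) W)) → ZMod p) := fun Y =>
    Sym2.lift ⟨fun k l => S.B (Y.1 (b k : VV E)) (b l : VV E), fun k l => hsymm Y.1 Y.2.1 _ _⟩
  have hΦ : ∀ Y k l, Φ Y s(k, l) = S.B (Y.1 (b k : VV E)) (b l : VV E) := fun Y k l => rfl
  have hinj : Function.Injective Φ := by
    rintro ⟨Y, hY1, hY2⟩ ⟨Z, hZ1, hZ2⟩ hYZ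
    have hkl : ∀ k l, S.B ((Y - Z) (b k : VV E)) (b l : VV E) = 0 := by
      intro k l
      have h1 := congrFun hYZ s(k, l)
      rw [hΦ, hΦ] at h1
      rw [LinearMap.sub_apply, map_sub, LinearMap.sub_apply, sub_eq_zero]
      exact h1
    have hvw : ∀ v ∈ W, ∀ w ∈ W, S.B ((Y - Z) v) w = 0 := by
      let β : W →ₗ[ZMod p] W →ₗ[ZMod p] ZMod p :=
        (S.B.compl₁₂ ((Y - Z).comp W.subtype) W.subtype)
      have hβ : β = 0 := by
        apply b.ext
        intro k
        apply b.ext
        intro l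
        exact hkl k l
      intro v hv w hw
      have h1 := LinearMap.congr_fun (LinearMap.congr_fun hβ ⟨v, hv⟩) ⟨w, hw⟩
      exact h1
    have hmap : ∀ X : AE p E, (y : AE p E) * X = -(X * y) → ∀ c : ZMod p, ∀ v : VV E,
        (y : AE p E) v = c • v → (y : AE p E) (X v) = (-c) • X v := by
      intro X hX c v hv
      have h1 := LinearMap.congr_fun hX v
      rw [Module.End.mul_apply, LinearMap.neg_apply, Module.End.mul_apply, hv, map_smul] at h1
      rw [h1, neg_smul]
    have hYZp : ∀ v ∈ W, Y v = Z v := by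
      intro v hv
      rw [← sub_eq_zero, ← LinearMap.sub_apply]
      apply S.B_nondeg
      intro u
      obtain ⟨a, c, ha, hc, rfl⟩ := hdec u
      rw [map_add, hvw v hv a ((hWmem a).2 ha), zero_add]
      apply hiso (-i) hi' _ _ _ hc
      rw [LinearMap.sub_apply, map_sub, hmap Y hY2 i v ((hWmem v).1 hv),
        hmap Z hZ2 i v ((hWmem v).1 hv), smul_sub]
    have hYZm : ∀ v : VV E, (y : AE p E) v = (-i) • v → Y v = Z v := by
      intro v hv
      have h1 : (y : AE p E) (Y v) = i • Y v := by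
        have := hmap Y hY2 (-i) v hv
        rwa [neg_neg] at this
      have h2 := S.orbJ_sq Y hY1
      have h3 := S.orbJ_sq Z hZ1
      have h4 : Y (Y v) = S.lam • v := by
        rw [← Module.End.mul_apply, h2, LinearMap.smul_apply, Module.End.one_apply]
      have h5 : Z (Y v) = S.lam • v := by
        rw [← hYZp _ ((hWmem _).2 h1), h4]
      have h6 : Z (Z (Y v)) = S.lam • Y v := by
        rw [← Module.End.mul_apply, h3, LinearMap.smul_apply, Module.End.one_apply]
      rw [h5, map_smul] at h6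
      have h7 := congrArg (fun u => S.lam⁻¹ • u) h6
      simp only [smul_smul, inv_mul_cancel₀ S.lam_ne, one_smul] at h7
      exact h7.symm
    have : Y = Z := by
      apply LinearMap.ext
      intro u
      obtain ⟨a, c, ha, hc, rfl⟩ := hdec u
      rw [map_add, map_add, hYZp a ((hWmem a).2 ha), hYZm c hc]
    subst this
    rfl
  have h1 := Nat.card_le_card_of_injective Φ hinj
  refine h1.trans ?_
  rw [Nat.card_pi, Finset.prod_const, Nat.card_zmod, Finset.card_univ, Sym2.card, Fintype.card_fin,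
    Nat.choose_two_right, Nat.add_sub_cancel]
  apply Nat.pow_le_pow_right (Fact.out : p.Prime).pos
  apply Nat.div_le_div_right
  rw [mul_comm]
  exact Nat.mul_le_mul hWr (by omega)

end Data

end Pool.Agent.MP971469
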