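import Pool.Agent.Lib.MP_971469_al.X05_Semi
import Pool.Agent.Lib.MP_971469_al.X07_C0
import Pool.Agent.Lib.MP_971469_al.X08_Anti
import Pool.Agent.Lib.MP_971469_al.Z9_CountIrr
import Pool.Agent.Lib.MP_971469_al.O2_CJUpper

/-! X09: the number of `g` with `KF ∩ H (g J g⁻¹) ≠ ±1`. -/

namespace Pool.Agent.MP971469

namespace Data

variable {p r : ℕ} [Fact p.Prime] {E : Type} [Field E] [Finite E] [Algebra (ZMod p) E]

private theorem x09_card_or {α : Type} [Finite α] {P P1 P2 : α → Prop}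
    (h : ∀ a, P a → P1 a ∨ P2 a) :
    Nat.card {a // P a} ≤ Nat.card {a // P1 a} + Nat.card {a // P2 a} := by
  classical
  rw [← Nat.card_sum]
  refine Nat.card_le_card_of_injective
    (fun a : {a // P a} => if h1 : P1 a.1 then (Sum.inl ⟨a.1, h1⟩ : {a // P1 a} ⊕ {a // P2 a})
      else Sum.inr ⟨a.1, (h a.1 a.2).resolve_left h1⟩) ?_
  rintro ⟨a, ha⟩ ⟨b, hb⟩ hab
  apply Subtype.ext
  simp only at hab
  split_ifs at hab with h1 h2
  · exact congrArg (fun x : {a // P1 a} => x.1) (Sum.inl.inj hab)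
  · exact congrArg (fun x : {a // P2 a} => x.1) (Sum.inr.inj hab)

private theorem x09_card_fib {α ι : Type} [Finite α] [Finite ι] {P : α → Prop} {Q : ι → Prop}
    {R : ι → α → Prop} {N M : ℕ} (h : ∀ a, P a → ∃ i, Q i ∧ R i a)
    (hN : Nat.card {i // Q i} ≤ N) (hM : ∀ i, Q i → Nat.card {a // R i a} ≤ M) :
    Nat.card {a // P a} ≤ N * M := by
  classical
  have : Fintype {i // Q i} := Fintype.ofFinite _
  have hch : ∀ a : {a // P a}, ∃ i, Q i ∧ R i a.1 := fun a => h a.1 a.2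
  choose w hw1 hw2 using hch
  calc Nat.card {a // P a} ≤ Nat.card (Σ i : {i // Q i}, {a // R i.1 a}) := by
        refine Nat.card_le_card_of_injective
          (fun a : {a // P a} => (⟨⟨w a, hw1 a⟩, ⟨a.1, hw2 a⟩⟩ : Σ i : {i // Q i}, {a // R i.1 a}))
          ?_
        rintro a b hab
        apply Subtype.ext
        have h1 := congrArg (fun x : Σ i : {i // Q i}, {a // R i.1 a} => (x.2 : α)) hab
        exact h1
    _ = ∑ i : {i // Q i}, Nat.card {a // R i.1 a} := Nat.card_sigma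
    _ ≤ ∑ _i : {i // Q i}, M := Finset.sum_le_sum fun i _ => hM i.1 i.2
    _ = Nat.card {i // Q i} * M := by
        rw [Finset.sum_const, smul_eq_mul, Finset.card_univ, Nat.card_eq_fintype_card]
    _ ≤ N * M := Nat.mul_le_mul_right _ hN

private theorem x09_card_mono {α : Type} [Finite α] {P P1 : α → Prop}
    (h : ∀ a, P a → P1 a) : Nat.card {a // P a} ≤ Nat.card {a // P1 a} :=
  Nat.card_le_card_of_injective (fun a : {a // P a} => (⟨a.1, h a.1 a.2⟩ : {a // P1 a}))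
    (fun a b hab => Subtype.ext (congrArg (fun x : {a // P1 a} => x.1) hab))

/-- Number of bad `Y`. Proof: let `y ∈ KF ∩ H Y`, `y ≠ ±1`. (1) If `y` does not commute with `F`: for each
of the at most `2r p^(4r)` elements `y` (`card_KF_le`) at most `2 p^(4r)` `Y`'s (`card_semi_le` with
`ε = 1, -1`). (2) If `y` commutes with `F`: by `comm_cases`, `anti_cases`: `Y` commutes with `F`
(at most `p^(4r)`, `card_comm_F`), or `Y` commutes with some `I ∈ orbJ` commuting with `F` (at most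
`p^(4r)` times the bound of `card_comm_I_le`), or `y² = -1` and `y Y = -Y y` (at most `p^(4r)` times the bound of
`card_anti_le`). -/
theorem card_badY_le (S : Data p r E) :
    Nat.card {Y : AE p E // Y ∈ S.orbJ ∧ ¬ (S.KF ⊓ S.H Y ≤ pm (ZMod p) (VV E))} ≤
      4 * r * p ^ (8 * r) + p ^ (4 * r) +
      p ^ (4 * r) * ((r + 1) * 2 ^ r * p ^ ((r ^ 2 - 1) / 2)) +
      p ^ (4 * r) * p ^ (r * (r + 1) / 2) := by
  have hfin : Finite (AE p E) := DFunLike.finite _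
  -- the four classes
  let P1 : AE p E → Prop := fun Y => ∃ y : (AE p E)ˣ, y ∈ S.KF ∧
    (¬ ∀ f : E, S.bar f = f → (y : AE p E) * mE p f = mE p f * y) ∧
    ((y : AE p E) * Y = Y * y ∨ (y : AE p E) * Y = -(Y * y))
  let P2 : AE p E → Prop := fun Y => ∀ f : E, S.bar f = f → Y * mE p f = mE p f * Y
  let P3 : AE p E → Prop := fun Y => Y ∈ S.orbJ ∧ ∃ I ∈ S.orbJ,
    (∀ f : E, S.bar f = f → I * mE p f = mE p f * I) ∧ Y * I = I * Y
  let P4 : AE p E → Prop := fun Y => Y ∈ S.orbJ ∧ ∃ y : (AE p E)ˣ, y ∈ S.Sp ∧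
    (∀ f : E, S.bar f = f → (y : AE p E) * mE p f = mE p f * y) ∧ (y : AE p E) * y = -1 ∧
    (y : AE p E) * Y = -(Y * y)
  have hcover : ∀ Y : AE p E, (Y ∈ S.orbJ ∧ ¬ (S.KF ⊓ S.H Y ≤ pm (ZMod p) (VV E))) →
      ((P1 Y ∨ P2 Y) ∨ P3 Y) ∨ P4 Y := by
    rintro Y ⟨hY, hbad⟩
    obtain ⟨y, hy, hpm⟩ := SetLike.not_le_iff_exists.1 hbad
    obtain ⟨hyK, hyH⟩ := Subgroup.mem_inf.1 hy
    have hySp : y ∈ S.Sp := hyH.1
    by_cases hF : ∀ f : E, S.bar f = f → (y : AE p E) * mE p f = mE p f * y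
    · rcases hyH.2 with hc | ha
      · rcases S.comm_cases y hySp hF hpm Y hY hc with h | h
        · exact Or.inl (Or.inl (Or.inr h))
        · exact Or.inl (Or.inr ⟨hY, h⟩)
      · rcases S.anti_cases y hySp hF hpm Y hY ha with (h | h) | h
        · exact Or.inl (Or.inl (Or.inr h))
        · exact Or.inl (Or.inr ⟨hY, h⟩)
        · exact Or.inr ⟨hY, y, hySp, hF, h, ha⟩
    · exact Or.inl (Or.inl (Or.inl ⟨y, hyK, hF, hyH.2⟩))
  have c1 : Nat.card {Y : AE p E // P1 Y} ≤ 4 * r * p ^ (8 * r) := by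
    have h := x09_card_fib (α := AE p E) (ι := (AE p E)ˣ) (P := P1)
      (Q := fun y => y ∈ S.KF ∧
        ¬ ∀ f : E, S.bar f = f → (y : AE p E) * mE p f = mE p f * y)
      (R := fun y Y => (y : AE p E) * Y = Y * y ∨ (y : AE p E) * Y = -(Y * y))
      (N := 2 * r * p ^ (4 * r)) (M := p ^ (4 * r) + p ^ (4 * r))
      (fun Y ⟨y, h1, h2, h3⟩ => ⟨y, ⟨h1, h2⟩, h3⟩)
      ((x09_card_mono (α := (AE p E)ˣ) (P1 := fun y => y ∈ S.KF) (fun y h => h.1)).trans
        S.card_KF_le)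
      (by
        rintro y ⟨hy1, hy2⟩
        refine (x09_card_or (α := AE p E) (P1 := fun Y => (y : AE p E) * Y = (1 : ZMod p) • (Y * y))
          (P2 := fun Y => (y : AE p E) * Y = (-1 : ZMod p) • (Y * y)) ?_).trans
          (add_le_add (S.card_semi_le y hy1 hy2 1 (Or.inl rfl))
            (S.card_semi_le y hy1 hy2 (-1) (Or.inr rfl)))
        rintro Y (h | h)
        · left
          rw [one_smul]
          exact h
        · right
          rw [neg_smul, one_smul]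
          exact h)
    refine h.trans (le_of_eq ?_)
    rw [show 8 * r = 4 * r + 4 * r by ring, pow_add]
    ring
  have c2 : Nat.card {Y : AE p E // P2 Y} ≤ p ^ (4 * r) := S.card_comm_F.le
  have c3 : Nat.card {Y : AE p E // P3 Y} ≤
      p ^ (4 * r) * ((r + 1) * 2 ^ r * p ^ ((r ^ 2 - 1) / 2)) := by
    exact x09_card_fib (α := AE p E) (ι := AE p E) (P := P3)
      (Q := fun I => I ∈ S.orbJ ∧ ∀ f : E, S.bar f = f → I * mE p f = mE p f * I)
      (R := fun I Y => Y ∈ S.orbJ ∧ Y * I = I * Y)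
      (fun Y ⟨hY, I, h1, h2, h3⟩ => ⟨I, ⟨h1, h2⟩, hY, h3⟩)
      ((x09_card_mono (α := AE p E) (fun I h => h.2)).trans S.card_comm_F.le)
      (fun I hI => S.card_comm_I_le I hI.1)
  have c4 : Nat.card {Y : AE p E // P4 Y} ≤ p ^ (4 * r) * p ^ (r * (r + 1) / 2) := by
    exact x09_card_fib (α := AE p E) (ι := (AE p E)ˣ) (P := P4)
      (Q := fun y => y ∈ S.Sp ∧
        (∀ f : E, S.bar f = f → (y : AE p E) * mE p f = mE p f * y) ∧ (y : AE p E) * y = -1)
      (R := fun y Y => Y ∈ S.orbJ ∧ (y : AE p E) * Y = -(Y * y))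
      (fun Y ⟨hY, y, h1, h2, h3, h4⟩ => ⟨y, ⟨h1, h2, h3⟩, hY, h4⟩)
      ((Nat.card_le_card_of_injective
        (fun y : {y : (AE p E)ˣ // y ∈ S.Sp ∧
          (∀ f : E, S.bar f = f → (y : AE p E) * mE p f = mE p f * y) ∧
          (y : AE p E) * y = -1} => (⟨(y.1 : AE p E), y.2.2.1⟩ :
            {X : AE p E // ∀ f : E, S.bar f = f → X * mE p f = mE p f * X}))
        (fun a b hab => Subtype.ext (Units.ext (congrArg Subtype.val hab)))).trans
        S.card_comm_F.le)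
      (fun y hy => S.card_anti_le y hy.1 hy.2.2)
  calc Nat.card {Y : AE p E // Y ∈ S.orbJ ∧ ¬ (S.KF ⊓ S.H Y ≤ pm (ZMod p) (VV E))}
      ≤ Nat.card {Y : AE p E // (P1 Y ∨ P2 Y) ∨ P3 Y} + Nat.card {Y : AE p E // P4 Y} :=
        x09_card_or hcover
    _ ≤ (Nat.card {Y : AE p E // P1 Y ∨ P2 Y} + Nat.card {Y : AE p E // P3 Y}) +
        Nat.card {Y : AE p E // P4 Y} := by
        gcongr
        exact x09_card_or fun _ h => h
    _ ≤ ((Nat.card {Y : AE p E // P1 Y} + Nat.card {Y : AE p E // P2 Y}) +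
        Nat.card {Y : AE p E // P3 Y}) + Nat.card {Y : AE p E // P4 Y} := by
        gcongr
        exact x09_card_or fun _ h => h
    _ ≤ _ := by
        gcongr

/-- Proof: `card_badY_le`, `card_g_eq`, `card_CJ_le`; arithmetic: every term times `2 p^(r²)` is at
most a quarter of the right side since `r ≥ 11` and `p` is larger than the constants:
`8r < 2r²...`: `8r + r² ≤ 2r² + r - 1`, `4r + (r²-1)/2 + r² ≤ 2r² + r - 1`,
`4r + r(r+1)/2 + r² ≤ 2r² + r - 1` for `r ≥ 11`. -/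
theorem card_badII_le (S : Data p r E) (hp : 1000 * r ^ 2 * 2 ^ r < p) :
    60 * r * Nat.card {g : (AE p E)ˣ // g ∈ S.Sp ∧
      ¬ (S.KF ⊓ S.H (cj g S.J) ≤ pm (ZMod p) (VV E))} < p ^ (2 * r ^ 2 + r) := by
  have hr := S.r_ge
  have hp1 : 1 ≤ p := (Fact.out : p.Prime).one_lt.le
  rw [S.card_g_eq (fun Y => ¬ (S.KF ⊓ S.H Y ≤ pm (ZMod p) (VV E)))]
  have h1 := S.card_badY_le
  have h2 := S.card_CJ_le
  set N := Nat.card {Y : AE p E // Y ∈ S.orbJ ∧ ¬ (S.KF ⊓ S.H Y ≤ pm (ZMod p) (VV E))}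
  set c := Nat.card (S.C S.J)
  have hsq : 11 * r ≤ r ^ 2 := by nlinarith
  have hK : ∀ m, m ≤ r ^ 2 + r - 1 → p ^ m ≤ p ^ (r ^ 2 + r - 1) := fun m hm =>
    Nat.pow_le_pow_right hp1 hm
  have k1 := hK (8 * r) (by omega)
  have k2 := hK (4 * r) (by omega)
  have k3 := hK (4 * r + (r ^ 2 - 1) / 2) (by omega)
  have k4 : p ^ (4 * r + r * (r + 1) / 2) ≤ p ^ (r ^ 2 + r - 1) := by
    apply hK
    have : r * (r + 1) = r ^ 2 + r := by ring
    rw [this]
    omega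
  set K := p ^ (r ^ 2 + r - 1) with hKdef
  have hKp : K * p = p ^ (r ^ 2 + r) := by
    rw [hKdef, ← pow_succ]
    congr 1
    omega
  have hKpos : 0 < K := by positivity
  have h3 : N ≤ K * (4 * r + 2 + (r + 1) * 2 ^ r) := by
    calc N ≤ 4 * r * p ^ (8 * r) + p ^ (4 * r) +
      p ^ (4 * r) * ((r + 1) * 2 ^ r * p ^ ((r ^ 2 - 1) / 2)) +
      p ^ (4 * r) * p ^ (r * (r + 1) / 2) := h1
      _ = 4 * r * p ^ (8 * r) + p ^ (4 * r) +
        (r + 1) * 2 ^ r * p ^ (4 * r + (r ^ 2 - 1) / 2) + p ^ (4 * r + r * (r + 1) / 2) := by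
        rw [pow_add, pow_add]
        ring
      _ ≤ 4 * r * K + K + (r + 1) * 2 ^ r * K + K := by gcongr
      _ = K * (4 * r + 2 + (r + 1) * 2 ^ r) := by ring
  have h4 : 120 * r * (4 * r + 2 + (r + 1) * 2 ^ r) ≤ 1000 * r ^ 2 * 2 ^ r := by
    have h5 : 1 ≤ 2 ^ r := Nat.one_le_two_pow
    have h6 : r * (4 * r + 2) ≤ 6 * r ^ 2 := by nlinarith
    have h7 : r * (r + 1) ≤ 2 * r ^ 2 := by nlinarith
    calc 120 * r * (4 * r + 2 + (r + 1) * 2 ^ r)
        = 120 * (r * (4 * r + 2)) * 1 + 120 * (r * (r + 1)) * 2 ^ r := by ring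
      _ ≤ 120 * (6 * r ^ 2) * 2 ^ r + 120 * (2 * r ^ 2) * 2 ^ r := by gcongr
      _ ≤ 1000 * r ^ 2 * 2 ^ r := by nlinarith [Nat.zero_le (r ^ 2 * 2 ^ r)]
  calc 60 * r * (c * N) ≤ 60 * r * ((2 * p ^ (r ^ 2)) * (K * (4 * r + 2 + (r + 1) * 2 ^ r))) := by
        gcongr
    _ = p ^ (r ^ 2) * K * (120 * r * (4 * r + 2 + (r + 1) * 2 ^ r)) := by ring
    _ ≤ p ^ (r ^ 2) * K * (1000 * r ^ 2 * 2 ^ r) := by gcongr
    _ < p ^ (r ^ 2) * K * p := by
        apply Nat.mul_lt_mul_of_pos_left hp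
        positivity
    _ = p ^ (2 * r ^ 2 + r) := by
        rw [mul_assoc, hKp, ← pow_add]
        congr 1
        ring

end Data

end Pool.Agent.MP971469
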