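import Pool.Agent.Lib.MP_971469_al.X09_BadII

/-! X10: the number of `g` with `H J ∩ g KF g⁻¹ ≠ ±1`. -/

namespace Pool.Agent.MP971469

namespace Data

variable {p r : ℕ} [Fact p.Prime] {E : Type} [Field E] [Finite E] [Algebra (ZMod p) E]

/-- conjugation of an element of `H X` by `h` lies in `H (cj h X)` -/
private theorem X10_BadIII_conj (S : Data p r E) {h x : (AE p E)ˣ} {X : AE p E} (hh : h ∈ S.Sp)
    (hx : x ∈ S.H X) : h * x * h⁻¹ ∈ S.H (cj h X) := by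
  obtain ⟨h1, h2⟩ := hx
  refine ⟨mul_mem (mul_mem hh h1) (inv_mem hh), ?_⟩
  have e1 : ((h * x * h⁻¹ : (AE p E)ˣ) : AE p E) * cj h X =
      (h : AE p E) * ((x : AE p E) * X) * ((h⁻¹ : (AE p E)ˣ) : AE p E) := by
    unfold cj
    simp only [Units.val_mul]
    calc (h : AE p E) * x * ((h⁻¹ : (AE p E)ˣ) : AE p E) * ((h : AE p E) * X * ((h⁻¹ : (AE p E)ˣ) : AE p E))
        = (h : AE p E) * x * (((h⁻¹ : (AE p E)ˣ) : AE p E) * (h : AE p E)) * X *
          ((h⁻¹ : (AE p E)ˣ) : AE p E) := by simp only [mul_assoc]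
      _ = (h : AE p E) * ((x : AE p E) * X) * ((h⁻¹ : (AE p E)ˣ) : AE p E) := by
          rw [h.inv_mul, mul_one]
          simp only [mul_assoc]
  have e2 : cj h X * ((h * x * h⁻¹ : (AE p E)ˣ) : AE p E) =
      (h : AE p E) * (X * (x : AE p E)) * ((h⁻¹ : (AE p E)ˣ) : AE p E) := by
    unfold cj
    simp only [Units.val_mul]
    calc (h : AE p E) * X * ((h⁻¹ : (AE p E)ˣ) : AE p E) * ((h : AE p E) * x * ((h⁻¹ : (AE p E)ˣ) : AE p E))
        = (h : AE p E) * X * (((h⁻¹ : (AE p E)ˣ) : AE p E) * (h : AE p E)) * x *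
          ((h⁻¹ : (AE p E)ˣ) : AE p E) := by simp only [mul_assoc]
      _ = (h : AE p E) * (X * (x : AE p E)) * ((h⁻¹ : (AE p E)ˣ) : AE p E) := by
          rw [h.inv_mul, mul_one]
          simp only [mul_assoc]
  rw [e1, e2]
  rcases h2 with h2 | h2
  · left
    rw [h2]
  · right
    rw [h2, mul_neg, neg_mul]

omit [Finite E] in
/-- `±1` is stable under conjugation -/
private theorem X10_BadIII_pm {h x : (AE p E)ˣ} (hx : h * x * h⁻¹ ∈ pm (ZMod p) (VV E)) :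
    x ∈ pm (ZMod p) (VV E) := by
  rcases hx with hx | hx
  · left
    have h1 : h * x = h := by
      rw [mul_inv_eq_iff_eq_mul, one_mul] at hx
      exact hx
    exact mul_eq_left.1 h1
  · right
    have h1 : h * x = -h := by
      rw [mul_inv_eq_iff_eq_mul, neg_mul, one_mul] at hx
      exact hx
    have h2 : h * x = h * (-1) := by
      rw [h1, mul_neg, mul_one]
    exact mul_left_cancel h2

/-- Proof: `g ↦ g⁻¹` maps this set bijectively to the set of `card_badII_le`: if `x ∈ H J`, `x ≠ ±1`,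
`g⁻¹ x g ∈ KF`, then with `h = g⁻¹` the element `y = h x h⁻¹` is in `KF ⊓ H (cj h J)`. -/
theorem card_badIII_le (S : Data p r E) (hp : 1000 * r ^ 2 * 2 ^ r < p) :
    60 * r * Nat.card {g : (AE p E)ˣ // g ∈ S.Sp ∧
      ∃ x ∈ S.H S.J, x ∉ pm (ZMod p) (VV E) ∧ g⁻¹ * x * g ∈ S.KF} < p ^ (2 * r ^ 2 + r) := by
  refine lt_of_le_of_lt (Nat.mul_le_mul_left _ ?_) (card_badII_le S hp)
  let f : {g : (AE p E)ˣ // g ∈ S.Sp ∧
      ∃ x ∈ S.H S.J, x ∉ pm (ZMod p) (VV E) ∧ g⁻¹ * x * g ∈ S.KF} →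
      {g : (AE p E)ˣ // g ∈ S.Sp ∧ ¬ (S.KF ⊓ S.H (cj g S.J) ≤ pm (ZMod p) (VV E))} :=
    fun g => ⟨g.1⁻¹, inv_mem g.2.1, by
      obtain ⟨x, hx, hxp, hk⟩ := g.2.2
      intro hle
      have e : (g.1⁻¹ * x * g.1 : (AE p E)ˣ) = g.1⁻¹ * x * (g.1⁻¹)⁻¹ := by rw [inv_inv]
      rw [e] at hk
      exact hxp (X10_BadIII_pm (hle ⟨hk, X10_BadIII_conj S (inv_mem g.2.1) hx⟩))⟩
  refine Nat.card_le_card_of_injective f ?_
  intro a b hab
  have h1 : a.1⁻¹ = b.1⁻¹ := congrArg Subtype.val hab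
  exact Subtype.ext (inv_injective h1)

end Data

end Pool.Agent.MP971469
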