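import Pool.Agent.Lib.MP_971469_al.M07_Skew

/-! X11: self-adjoint endomorphisms commuting with an `F`-linear non-scalar `y`. -/

namespace Pool.Agent.MP971469

namespace Data

variable {p r : ℕ} [Fact p.Prime] {E : Type} [Field E] [Finite E] [Algebra (ZMod p) E]

private theorem x11_four_ne (S : Data p r E) : (4 : E) ≠ 0 := by
  have h := S.two_ne'
  have : (4 : E) = 2 * 2 := by norm_num
  rw [this]
  exact mul_ne_zero h h

private theorem x11_mem_pm (S : Data p r E) (y : (AE p E)ˣ) (hy : y ∈ S.Sp) (x : E)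
    (hx : S.bar x = x) (h : (y : AE p E) = mE p x) : y ∈ pm (ZMod p) (VV E) := by
  have h1 := (S.mem_Sp_iff y).1 hy
  rw [h, S.adj_mE, hx] at h1
  have h2 : mE p (x * x) = (1 : AE p E) := by
    rw [map_mul]
    nth_rewrite 2 [← h]
    rw [h1, y.inv_mul]
  have h3 : x * x = 1 := by
    apply mE_injective (p := p)
    rw [h2, map_one]
  rcases mul_self_eq_one_iff.1 h3 with h4 | h4
  · left
    ext1
    rw [h, h4, map_one, Units.val_one]
  · right
    ext1
    rw [h, h4, map_neg, map_one, Units.val_neg, Units.val_one]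

/-- If `y ∈ Sp` commutes with `F`, `y ≠ ±1`, then there is a vector `e` such that `e` and `y e` are
linearly independent over `F` (i.e. span `E`). Proof: `y = x + w bar`. If `y e ∈ F e` for all `e`, then
`x + w (bar e)/e ∈ F` for all `e ≠ 0`; `e = 1` and `e = j`: `x + w, x - w ∈ F`, so `x, w ∈ F`; then with an `e`
such that `(bar e)/e ∉ F` we get `w = 0`, `y = x`, `x² = 1` (`adj y * y = 1`), `y = ±1`. Spanning: if `e, y e` are
`F`-independent the map `F × F → E` is injective, so bijective (`card_F`). -/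
theorem exists_vec (S : Data p r E) (y : (AE p E)ˣ) (hy : y ∈ S.Sp)
    (hyF : ∀ f : E, S.bar f = f → (y : AE p E) * mE p f = mE p f * y)
    (hpm : y ∉ pm (ZMod p) (VV E)) :
    ∃ e : VV E, ∀ v : VV E, ∃ f f' : E, S.bar f = f ∧ S.bar f' = f' ∧
      v = mE p f e + mE p f' ((y : AE p E) e) := by
  obtain ⟨x, hx⟩ : ∃ x, x = coef (y : AE p E) 1 := ⟨_, rfl⟩
  obtain ⟨w, hw⟩ : ∃ w, w = coef (y : AE p E) S.bar := ⟨_, rfl⟩
  have hyx := S.eq_of_comm_F (y : AE p E) hyF
  rw [← hx, ← hw] at hyx
  have hya : ∀ v : VV E, toE p ((y : AE p E) v) = x * toE p v + w * S.bar (toE p v) := by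
    intro v
    rw [hyx, LinearMap.add_apply, map_add, Module.End.mul_apply, toE_mE, toE_mE, toE_gE]
  -- an element whose image is not in `F` times it
  have key : ∃ e : E, e ≠ 0 ∧
      S.bar ((x * e + w * S.bar e) / e) ≠ (x * e + w * S.bar e) / e := by
    by_contra hcon
    push Not at hcon
    have h1 := hcon 1 one_ne_zero
    have h2 := hcon S.j S.j_ne
    rw [map_one, div_one, mul_one, mul_one, map_add] at h1
    have e2 : (x * S.j + w * S.bar S.j) / S.j = x - w := by
      rw [S.bar_j]
      field_simp [S.j_ne]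
      ring
    rw [e2, map_sub] at h2
    have hxF : S.bar x = x := by
      have h3 : (2 : E) * S.bar x = 2 * x := by linear_combination h1 + h2
      exact mul_left_cancel₀ S.two_ne' h3
    have hwF : S.bar w = w := by
      have h3 : (2 : E) * S.bar w = 2 * w := by linear_combination h1 - h2
      exact mul_left_cancel₀ S.two_ne' h3
    have hj1 : (1 : E) + S.j ≠ 0 := by
      intro h
      apply S.j_notMem (-1)
      rw [map_neg, map_one]
      linear_combination h
    have hj2 : (1 : E) - S.j ≠ 0 := by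
      intro h
      apply S.j_notMem 1
      rw [map_one]
      linear_combination -h
    have h4 := hcon (1 + S.j) hj1
    have e3 : S.bar (1 + S.j) = 1 - S.j := by
      rw [map_add, map_one, S.bar_j]; ring
    rw [map_div₀, map_add, map_mul, map_mul, S.bar_bar, e3, hxF, hwF,
      div_eq_div_iff hj2 hj1] at h4
    have h5 : w * (4 * S.j) = 0 := by linear_combination h4
    have hw0 : w = 0 := by
      rcases mul_eq_zero.1 h5 with h6 | h6
      · exact h6
      · exact absurd h6 (mul_ne_zero (x11_four_ne S) S.j_ne)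
    apply hpm
    apply x11_mem_pm S y hy x hxF
    rw [hyx, hw0, map_zero, zero_mul, add_zero]
  obtain ⟨e, he0, he⟩ := key
  refine ⟨(toE p).symm e, ?_⟩
  -- the map F × F → E
  let φ : {f : E // S.bar f = f} × {f : E // S.bar f = f} → VV E := fun z =>
    mE p z.1.1 ((toE p).symm e) + mE p z.2.1 ((y : AE p E) ((toE p).symm e))
  have hφ : ∀ z, toE p (φ z) = z.1.1 * e + z.2.1 * (x * e + w * S.bar e) := by
    intro z
    simp only [φ]
    rw [map_add, toE_mE, toE_mE, hya, LinearEquiv.apply_symm_apply]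
  have hinj : Function.Injective φ := by
    rintro ⟨⟨a, ha⟩, ⟨b, hb⟩⟩ ⟨⟨c, hc⟩, ⟨d, hd⟩⟩ h
    have h1 := congrArg (toE p) h
    rw [hφ, hφ] at h1
    simp only at h1
    have hbd : b = d := by
      by_contra hne
      have hbd' : b - d ≠ 0 := sub_ne_zero.2 hne
      apply he
      have h2 : (x * e + w * S.bar e) / e = (c - a) / (b - d) := by
        rw [div_eq_div_iff he0 hbd']
        linear_combination h1
      rw [h2, map_div₀, map_sub, map_sub, ha, hb, hc, hd]
    subst hbd
    have hac : a = c := by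
      have h2 : a * e = c * e := by linear_combination h1
      exact mul_right_cancel₀ he0 h2
    subst hac
    rfl
  have hcard : Nat.card ({f : E // S.bar f = f} × {f : E // S.bar f = f}) = Nat.card (VV E) := by
    rw [Nat.card_prod, S.card_F, S.card_VV, two_mul, pow_add]
  have hbij : Function.Bijective φ :=
    (Nat.bijective_iff_injective_and_card φ).2 ⟨hinj, hcard⟩
  intro v
  obtain ⟨z, hz⟩ := hbij.2 v
  exact ⟨z.1.1, z.2.1, z.1.2, z.2.2, hz.symm⟩

open Classical in
/-- the semilinear component -/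
private noncomputable def x11_comp (S : Data p r E) (c : AE p E) (τ : Gal(E/ZMod p)) : AE p E :=
  ofCoef p E (fun σ => if σ = τ ∨ σ = τ * S.bar then coef c σ else 0)

open Classical in
private theorem x11_coef_comp (S : Data p r E) (c : AE p E) (τ σ : Gal(E/ZMod p)) :
    coef (x11_comp S c τ) σ = if σ = τ ∨ σ = τ * S.bar then coef c σ else 0 :=
  coef_ofCoef _ _

private theorem x11_comp_sub (S : Data p r E) (c d : AE p E) (τ : Gal(E/ZMod p)) :
    x11_comp S (c - d) τ = x11_comp S c τ - x11_comp S d τ := by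
  classical
  apply coef_ext
  intro σ
  rw [coef_sub, x11_coef_comp, x11_coef_comp, x11_coef_comp, coef_sub]
  split_ifs <;> simp

private theorem x11_comp_comm (S : Data p r E) (y c : AE p E) (τ : Gal(E/ZMod p))
    (hyF : ∀ f : E, S.bar f = f → y * mE p f = mE p f * y) (h : c * y = y * c) :
    x11_comp S c τ * y = y * x11_comp S c τ := by
  classical
  have hyx := S.eq_of_comm_F y hyF
  obtain ⟨x, hx⟩ : ∃ x, x = coef y 1 := ⟨_, rfl⟩
  obtain ⟨w, hw⟩ : ∃ w, w = coef y S.bar := ⟨_, rfl⟩
  rw [← hx, ← hw] at hyx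
  have l1 : ∀ (d : AE p E) (σ : Gal(E/ZMod p)), coef (d * y) σ =
      coef d σ * σ x + coef d (σ * S.bar) * (σ * S.bar) w := by
    intro d σ
    rw [hyx, mul_add, coef_add, coef_mul_mE, ← mul_assoc, coef_mul_gE, coef_mul_mE, S.bar_inv]
  have l2 : ∀ (d : AE p E) (σ : Gal(E/ZMod p)), coef (y * d) σ =
      x * coef d σ + w * S.bar (coef d (σ * S.bar)) := by
    intro d σ
    rw [hyx, add_mul, coef_add, coef_mE_mul, mul_assoc, coef_mE_mul, coef_gE_mul, S.bar_inv,
      S.gal_comm S.bar σ]
  apply coef_ext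
  intro σ
  rw [l1, l2, x11_coef_comp, x11_coef_comp]
  have hbb : ∀ ρ : Gal(E/ZMod p), ρ * S.bar * S.bar = ρ := by
    intro ρ
    rw [mul_assoc, S.bar_mul_bar, mul_one]
  by_cases h1 : σ = τ ∨ σ = τ * S.bar
  · have h2 : σ * S.bar = τ ∨ σ * S.bar = τ * S.bar := by
      rcases h1 with h1 | h1
      · right; rw [h1]
      · left; rw [h1, hbb]
    rw [if_pos h1, if_pos h2]
    have h3 := congrArg (fun X => coef X σ) h
    simp only [l1, l2] at h3
    exact h3
  · have h2 : ¬ (σ * S.bar = τ ∨ σ * S.bar = τ * S.bar) := by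
      rintro (h2 | h2)
      · apply h1
        right
        rw [← h2, hbb]
      · apply h1
        left
        exact mul_right_cancel h2
    rw [if_neg h1, if_neg h2]
    simp

private theorem x11_comp_semi (S : Data p r E) (c : AE p E) (τ : Gal(E/ZMod p)) (f : E)
    (hf : S.bar f = f) : x11_comp S c τ * mE p f = mE p (τ f) * x11_comp S c τ := by
  classical
  apply coef_ext
  intro σ
  rw [coef_mul_mE, coef_mE_mul, x11_coef_comp]
  split_ifs with h
  · rcases h with h | h
    · rw [h]; ring
    · rw [h, AlgEquiv.mul_apply, hf]; ring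
  · simp

private theorem x11_coef_zero (S : Data p r E) (y c : AE p E) (τ : Gal(E/ZMod p))
    (hyF : ∀ f : E, S.bar f = f → y * mE p f = mE p f * y) (h : c * y = y * c)
    (e : VV E) (he : ∀ v : VV E, ∃ f f' : E, S.bar f = f ∧ S.bar f' = f' ∧
      v = mE p f e + mE p f' (y e)) (h0 : x11_comp S c τ e = 0) :
    coef c τ = 0 ∧ coef c (τ * S.bar) = 0 := by
  classical
  have h1 : x11_comp S c τ = 0 := by
    apply LinearMap.ext
    intro v
    obtain ⟨f, f', hf, hf', rfl⟩ := he v
    rw [map_add, ← Module.End.mul_apply, ← Module.End.mul_apply, x11_comp_semi S c τ f hf,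
      x11_comp_semi S c τ f' hf', Module.End.mul_apply, Module.End.mul_apply, h0,
      ← Module.End.mul_apply (x11_comp S c τ) y e, x11_comp_comm S y c τ hyF h,
      Module.End.mul_apply, h0]
    simp
  constructor
  · have h2 := x11_coef_comp S c τ τ
    rw [h1, coef_zero, if_pos (Or.inl rfl)] at h2
    exact h2.symm
  · have h2 := x11_coef_comp S c τ (τ * S.bar)
    rw [h1, coef_zero, if_pos (Or.inr rfl)] at h2
    exact h2.symm

/-- Proof: for `c ∈ AE` and `k` let `c_k = coef c σ_k σ_k + coef c (σ_k bar) (σ_k bar)` with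
`σ_k = φ^k`, `0 ≤ k < r`: the `σ_k`-semilinear component; `c = ∑_{k<r} c_k`. If `c` commutes with `y`
(commuting with `F`) then each `c_k` commutes with `y` (compare semilinear components of `c y = y c`).
So `c_k` is determined by `c_k e` with `e` from `exists_vec`: `c_k (f e + f' y e) = σ_k(f) c_k e +
σ_k(f') y (c_k e)`. If moreover `c` is self-adjoint, then `c_{r-k}` is determined by `c_k` (adjoint, for
`0 < k < r`: `adj (c_k)` has degrees `σ_k⁻¹, σ_k⁻¹ bar`, which are `σ_{r-k}` and `σ_{r-k} bar` in some order).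
So `c` is determined by `c_k e`, `0 ≤ k ≤ (r-1)/2`: at most `(p^(2r))^((r+1)/2) = p^(r²+r)`. -/
theorem card_sym_comm_le (S : Data p r E) (y : (AE p E)ˣ) (hy : y ∈ S.Sp)
    (hyF : ∀ f : E, S.bar f = f → (y : AE p E) * mE p f = mE p f * y)
    (hpm : y ∉ pm (ZMod p) (VV E)) :
    Nat.card {c : AE p E // c ∈ S.sym ∧ c * (y : AE p E) = y * c} ≤ p ^ (r ^ 2 + r) := by
  classical
  obtain ⟨e, he⟩ := S.exists_vec y hy hyF hpm
  let φ : Gal(E/ZMod p) := FiniteField.frobeniusAlgEquivOfAlgebraic (ZMod p) E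
  have hφr : φ ^ r = S.bar := rfl
  have hφ2 : φ ^ (2 * r) = 1 := by
    rw [two_mul, pow_add, hφr, S.bar_mul_bar]
  obtain ⟨m, hm⟩ := S.r_odd
  let Φ : {c : AE p E // c ∈ S.sym ∧ c * (y : AE p E) = y * c} → (Fin (m + 1) → VV E) :=
    fun c k => x11_comp S c.1 (φ ^ (k : ℕ)) e
  have hinj : Function.Injective Φ := by
    rintro ⟨c, hc1, hc2⟩ ⟨d, hd1, hd2⟩ h
    have hs : c - d ∈ S.sym := S.sym.sub_mem hc1 hd1
    have hcomm : (c - d) * (y : AE p E) = y * (c - d) := by
      rw [sub_mul, mul_sub, hc2, hd2]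
    have hz : ∀ k : ℕ, k < m + 1 → coef (c - d) (φ ^ k) = 0 ∧
        coef (c - d) (φ ^ k * S.bar) = 0 := by
      intro k hk
      apply x11_coef_zero S y (c - d) (φ ^ k) hyF hcomm e he
      have h1 := congrFun h ⟨k, hk⟩
      simp only [Φ] at h1
      rw [x11_comp_sub, LinearMap.sub_apply, h1, sub_self]
    have hinv : ∀ σ : Gal(E/ZMod p), coef (c - d) σ⁻¹ = 0 → coef (c - d) σ = 0 := by
      intro σ h1
      rw [S.coef_sym _ hs σ, h1, map_zero, map_zero, mul_zero]
    have hall : ∀ σ : Gal(E/ZMod p), coef (c - d) σ = 0 := by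
      intro σ
      obtain ⟨n, hn, hσ⟩ := S.exists_frob_pow σ
      have hσ' : σ = φ ^ n := hσ
      rw [hσ']
      have hiv : ∀ a b : ℕ, a + b = 2 * r → (φ ^ a)⁻¹ = φ ^ b := by
        intro a b hab
        rw [inv_eq_iff_mul_eq_one, ← pow_add, hab, hφ2]
      rcases Nat.lt_or_ge n (m + 1) with h1 | h1
      · exact (hz n h1).1
      · rcases Nat.lt_or_ge n r with h2 | h2
        · apply hinv
          rw [hiv n (r - n + r) (by omega), pow_add, hφr]
          exact (hz (r - n) (by omega)).2
        · rcases Nat.lt_or_ge n (r + (m + 1)) with h3 | h3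
          · obtain ⟨k, rfl⟩ := Nat.exists_eq_add_of_le h2
            rw [add_comm, pow_add, hφr]
            exact (hz k (by omega)).2
          · apply hinv
            rw [hiv n (2 * r - n) (by omega)]
            exact (hz (2 * r - n) (by omega)).1
    have : c = d := by
      apply coef_ext
      intro σ
      have h1 := hall σ
      rw [coef_sub, sub_eq_zero] at h1
      exact h1
    subst this
    rfl
  have h1 := Nat.card_le_card_of_injective Φ hinj
  refine h1.trans (le_of_eq ?_)
  rw [Nat.card_pi, Finset.prod_const, S.card_VV, Finset.card_univ, Fintype.card_fin, ← pow_mul]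
  congr 1
  rw [hm]
  ring

end Data

end Pool.Agent.MP971469
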