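import Pool.Agent.Lib.MP_971469_al.X05_Semi
import Pool.Agent.Lib.MP_971469_al.X11_SymC

/-! X12: the number of `g` with `KF ∩ g KF g⁻¹ ≠ ±1`. -/

namespace Pool.Agent.MP971469

namespace Data

/-- covering bound -/
private theorem X12_cover {α β : Type} [Finite α] [Finite β] (P : α → Prop) (R : α → β → Prop)
    (k : ℕ) (h1 : ∀ a, P a → ∃ b, R a b) (h2 : ∀ b, Nat.card {a // R a b} ≤ k) :
    Nat.card {a // P a} ≤ Nat.card β * k := by
  classical
  let _ := Fintype.ofFinite β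
  have hex : ∀ a : {a // P a}, ∃ b, R a.1 b := fun a => h1 a.1 a.2
  choose f hf using hex
  let Φ : {a // P a} → Σ b : β, {a // R a b} := fun a => ⟨f a, ⟨a.1, hf a⟩⟩
  have hΦ : Function.Injective Φ := by
    intro a a' h
    have h3 : ((Φ a).2 : α) = ((Φ a').2 : α) := by rw [h]
    exact Subtype.ext h3
  calc Nat.card {a // P a} ≤ Nat.card (Σ b : β, {a // R a b}) := Nat.card_le_card_of_injective Φ hΦ
    _ = ∑ b : β, Nat.card {a // R a b} := Nat.card_sigma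
    _ ≤ ∑ _b : β, k := Finset.sum_le_sum fun b _ => h2 b
    _ = Nat.card β * k := by
      rw [Finset.sum_const, Finset.card_univ, smul_eq_mul, Nat.card_eq_fintype_card]

private theorem X12_or {α : Type} [Finite α] (P P1 P2 : α → Prop) (h : ∀ a, P a → P1 a ∨ P2 a) :
    Nat.card {a // P a} ≤ Nat.card {a // P1 a} + Nat.card {a // P2 a} := by
  classical
  rw [← Nat.card_sum]
  let Φ : {a // P a} → {a // P1 a} ⊕ {a // P2 a} := fun a =>
    if h1 : P1 a.1 then Sum.inl ⟨a.1, h1⟩ else Sum.inr ⟨a.1, (h a.1 a.2).resolve_left h1⟩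
  refine Nat.card_le_card_of_injective Φ ?_
  intro a a' hh
  simp only [Φ] at hh
  by_cases c1 : P1 a.1 <;> by_cases c2 : P1 a'.1
  · rw [dif_pos c1, dif_pos c2] at hh
    have h2 := Sum.inl.inj hh
    exact Subtype.ext (congrArg (fun z : {a // P1 a} => z.1) h2)
  · rw [dif_pos c1, dif_neg c2] at hh
    exact absurd hh (by simp)
  · rw [dif_neg c1, dif_pos c2] at hh
    exact absurd hh (by simp)
  · rw [dif_neg c1, dif_neg c2] at hh
    have h2 := Sum.inr.inj hh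
    exact Subtype.ext (congrArg (fun z : {a // P2 a} => z.1) h2)

private theorem X12_mono {α : Type} [Finite α] (P P' : α → Prop) (h : ∀ a, P a → P' a) :
    Nat.card {a // P a} ≤ Nat.card {a // P' a} :=
  Nat.card_le_card_of_injective (fun a : {a // P a} => (⟨a.1, h a.1 a.2⟩ : {a // P' a}))
    fun a a' hh => Subtype.ext (congrArg (fun z : {a // P' a} => z.1) hh)

variable {p r : ℕ} [Fact p.Prime] {E : Type} [Field E] [Finite E] [Algebra (ZMod p) E]

private theorem X12_finite (p : ℕ) [Fact p.Prime] (E : Type) [Field E] [Finite E]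
    [Algebra (ZMod p) E] : Finite (AE p E) :=
  Finite.of_injective (fun X : AE p E => (X : VV E → VV E)) DFunLike.coe_injective

private theorem X12_finiteU (p : ℕ) [Fact p.Prime] (E : Type) [Field E] [Finite E]
    [Algebra (ZMod p) E] : Finite (AE p E)ˣ := by
  have := X12_finite p E
  exact Finite.of_injective (fun g : (AE p E)ˣ => (g : AE p E)) Units.val_injective

/-- Pairs `x, y ∈ KF`, not both commuting with `F`: the number of `g` with `g⁻¹ x g = y` is at most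
`p^(4r)`. Proof: if there is one, `g₀`, the others are `h g₀` with `h` commuting with `x`, or `g₀ h` with
`h` commuting with `y`; use `card_semi_le` (`ε = 1`) for `x` or `y`. -/
theorem card_conj_semi_le (S : Data p r E) (x y : (AE p E)ˣ) (hx : x ∈ S.KF) (hy : y ∈ S.KF)
    (h : ¬ ((∀ f : E, S.bar f = f → (x : AE p E) * mE p f = mE p f * x) ∧
      (∀ f : E, S.bar f = f → (y : AE p E) * mE p f = mE p f * y))) :
    Nat.card {g : (AE p E)ˣ // g⁻¹ * x * g = y} ≤ p ^ (4 * r) := by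
  have hfin := X12_finite p E
  have hfinU := X12_finiteU p E
  rcases isEmpty_or_nonempty {g : (AE p E)ˣ // g⁻¹ * x * g = y} with hE | ⟨⟨g₀, hg₀⟩⟩
  · rw [Nat.card_of_isEmpty]
    exact Nat.zero_le _
  · have e1 : ∀ g : (AE p E)ˣ, g⁻¹ * x * g = y → x * g = g * y := by
      intro g hg
      rw [← hg]
      group
    rw [not_and_or] at h
    rcases h with h | h
    · refine le_trans ?_ (S.card_semi_le x hx h 1 (Or.inl rfl))
      refine Nat.card_le_card_of_injective (fun g : {g : (AE p E)ˣ // g⁻¹ * x * g = y} =>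
        (⟨((g.1 * g₀⁻¹ : (AE p E)ˣ) : AE p E), ?_⟩ :
          {X : AE p E // (x : AE p E) * X = (1 : ZMod p) • (X * x)})) ?_
      · rw [one_smul, ← Units.val_mul, ← Units.val_mul]
        congr 1
        calc x * (g.1 * g₀⁻¹) = (x * g.1) * g₀⁻¹ := by group
          _ = (g.1 * y) * g₀⁻¹ := by rw [e1 g.1 g.2]
          _ = g.1 * (g₀⁻¹ * (g₀ * y) * g₀⁻¹) := by group
          _ = g.1 * (g₀⁻¹ * (x * g₀) * g₀⁻¹) := by rw [e1 g₀ hg₀]
          _ = g.1 * g₀⁻¹ * x := by group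
      · intro g g' hh
        have h1 : ((g.1 * g₀⁻¹ : (AE p E)ˣ) : AE p E) = ((g'.1 * g₀⁻¹ : (AE p E)ˣ) : AE p E) :=
          congrArg Subtype.val hh
        have h2 := Units.val_injective h1
        exact Subtype.ext (mul_right_cancel h2)
    · refine le_trans ?_ (S.card_semi_le y hy h 1 (Or.inl rfl))
      refine Nat.card_le_card_of_injective (fun g : {g : (AE p E)ˣ // g⁻¹ * x * g = y} =>
        (⟨((g₀⁻¹ * g.1 : (AE p E)ˣ) : AE p E), ?_⟩ :
          {X : AE p E // (y : AE p E) * X = (1 : ZMod p) • (X * y)})) ?_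
      · rw [one_smul, ← Units.val_mul, ← Units.val_mul]
        congr 1
        calc y * (g₀⁻¹ * g.1) = g₀⁻¹ * (g₀ * y) * (g₀⁻¹ * g.1) := by group
          _ = g₀⁻¹ * (x * g₀) * (g₀⁻¹ * g.1) := by rw [e1 g₀ hg₀]
          _ = g₀⁻¹ * (x * g.1) := by group
          _ = g₀⁻¹ * (g.1 * y) := by rw [e1 g.1 g.2]
          _ = g₀⁻¹ * g.1 * y := by group
      · intro g g' hh
        have h1 : ((g₀⁻¹ * g.1 : (AE p E)ˣ) : AE p E) = ((g₀⁻¹ * g'.1 : (AE p E)ˣ) : AE p E) :=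
          congrArg Subtype.val hh
        have h2 := Units.val_injective h1
        exact Subtype.ext (mul_left_cancel h2)

/-- For `x ∈ Sp`, `x ≠ ±1`, commuting with `F`, the number of `g ∈ Sp` such that `g⁻¹ x g` commutes with
`F` is at most `p^(r²+r) p^(4r)`. Proof: fix a generator `f₀` of `F` (`exists_F_gen`);
`c = cj g (mE f₀)` is self-adjoint (`cj_mem_sym`) and commutes with `x`: at most `p^(r²+r)` values
(`card_sym_comm_le`); the `g` with the same `c` differ by an element commuting with `mE f₀`, i.e. with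
`F`: at most `p^(4r)` (`card_comm_F`, `comm_F_of_comm_gen`). -/
theorem card_conj_lin_le (S : Data p r E) (x : (AE p E)ˣ) (hx : x ∈ S.Sp)
    (hxF : ∀ f : E, S.bar f = f → (x : AE p E) * mE p f = mE p f * x)
    (hpm : x ∉ pm (ZMod p) (VV E)) :
    Nat.card {g : (AE p E)ˣ // g ∈ S.Sp ∧ ∀ f : E, S.bar f = f →
      ((g⁻¹ * x * g : (AE p E)ˣ) : AE p E) * mE p f =
        mE p f * ((g⁻¹ * x * g : (AE p E)ˣ) : AE p E)} ≤ p ^ (r ^ 2 + r) * p ^ (4 * r) := by
  have hfin := X12_finite p E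
  have hfinU := X12_finiteU p E
  obtain ⟨f₀, hf₀, hf₀'⟩ := S.exists_F_gen
  have h1 := S.card_sym_comm_le x hx hxF hpm
  refine le_trans (X12_cover (β := {c : AE p E // c ∈ S.sym ∧ c * (x : AE p E) = x * c}) _
    (fun g c => cj g (mE p f₀) = c.1) (p ^ (4 * r)) ?_ ?_) (Nat.mul_le_mul_right _ h1)
  · rintro g ⟨hg, hgF⟩
    refine ⟨⟨cj g (mE p f₀), ?_, ?_⟩, rfl⟩
    · apply S.cj_mem_sym g hg
      rw [S.mem_sym_iff, S.adj_mE, hf₀]
    · have h2 := hgF f₀ hf₀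
      rw [Units.val_mul, Units.val_mul] at h2
      have h3 : (g : AE p E) * (((g⁻¹ : (AE p E)ˣ) : AE p E) * (x : AE p E) * (g : AE p E) * mE p f₀) *
          ((g⁻¹ : (AE p E)ˣ) : AE p E) = (g : AE p E) * (mE p f₀ * (((g⁻¹ : (AE p E)ˣ) : AE p E) *
            (x : AE p E) * (g : AE p E))) * ((g⁻¹ : (AE p E)ˣ) : AE p E) := by rw [h2]
      have h4 : (g : AE p E) * (((g⁻¹ : (AE p E)ˣ) : AE p E) * (x : AE p E) * (g : AE p E) * mE p f₀) *
          ((g⁻¹ : (AE p E)ˣ) : AE p E) = (x : AE p E) * cj g (mE p f₀) := by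
        unfold cj
        simp only [mul_assoc]
        rw [← mul_assoc (g : AE p E) ((g⁻¹ : (AE p E)ˣ) : AE p E), g.mul_inv, one_mul]
      have h5 : (g : AE p E) * (mE p f₀ * (((g⁻¹ : (AE p E)ˣ) : AE p E) *
            (x : AE p E) * (g : AE p E))) * ((g⁻¹ : (AE p E)ˣ) : AE p E) =
          cj g (mE p f₀) * (x : AE p E) := by
        unfold cj
        simp only [mul_assoc]
        rw [g.mul_inv, mul_one]
      rw [h4, h5] at h3
      exact h3.symm
  · intro c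
    rcases isEmpty_or_nonempty {g : (AE p E)ˣ // cj g (mE p f₀) = c.1} with hE | ⟨⟨g₀, hg₀⟩⟩
    · rw [Nat.card_of_isEmpty]
      exact Nat.zero_le _
    · rw [← S.card_comm_F]
      refine Nat.card_le_card_of_injective (fun g : {g : (AE p E)ˣ // cj g (mE p f₀) = c.1} =>
        (⟨((g₀⁻¹ * g.1 : (AE p E)ˣ) : AE p E), ?_⟩ :
          {X : AE p E // ∀ f : E, S.bar f = f → X * mE p f = mE p f * X})) ?_
      · apply S.comm_F_of_comm_gen _ f₀ hf₀ hf₀'
        have h2 : cj (g₀⁻¹ * g.1) (mE p f₀) = mE p f₀ := by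
          rw [cj_mul, g.2, ← hg₀, cj_inv_cj]
        exact (cj_eq_iff _ _ _).1 h2
      · intro g g' hh
        have h1 : ((g₀⁻¹ * g.1 : (AE p E)ˣ) : AE p E) = ((g₀⁻¹ * g'.1 : (AE p E)ˣ) : AE p E) :=
          congrArg Subtype.val hh
        have h2 := Units.val_injective h1
        exact Subtype.ext (mul_left_cancel h2)

/-- arithmetic -/
private theorem X12_arith (S : Data p r E) (hp : 1000 * r ^ 2 * 2 ^ r < p) :
    60 * r * ((2 * r * p ^ (4 * r)) * (2 * r * p ^ (4 * r)) * p ^ (4 * r) +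
      p ^ (4 * r) * (p ^ (r ^ 2 + r) * p ^ (4 * r))) < p ^ (2 * r ^ 2 + r) := by
  have hr := S.r_ge
  have hp0 : 0 < p := by omega
  have h2r : 1 ≤ 2 ^ r := Nat.one_le_two_pow
  have hp1 : 1000 * r ^ 2 < p := by
    calc 1000 * r ^ 2 = 1000 * r ^ 2 * 1 := by rw [mul_one]
      _ ≤ 1000 * r ^ 2 * 2 ^ r := Nat.mul_le_mul_left _ h2r
      _ < p := hp
  have hrr : r ≤ r ^ 2 := by nlinarith
  -- first term
  have e1 : 60 * r * ((2 * r * p ^ (4 * r)) * (2 * r * p ^ (4 * r)) * p ^ (4 * r)) =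
      240 * r ^ 2 * r * p ^ (12 * r) := by
    have e : p ^ (12 * r) = p ^ (4 * r) * p ^ (4 * r) * p ^ (4 * r) := by
      rw [← pow_add, ← pow_add]
      congr 1
      ring
    rw [e]
    ring
  have e2 : p ^ (4 * r) * (p ^ (r ^ 2 + r) * p ^ (4 * r)) = p ^ (r ^ 2 + 9 * r) := by
    rw [← pow_add, ← pow_add]
    congr 1
    ring
  have hexp1 : 12 * r + 2 ≤ 2 * r ^ 2 + r := by nlinarith
  have hexp2 : r ^ 2 + 9 * r + 1 ≤ 2 * r ^ 2 + r := by nlinarith
  have f1 : p ^ (12 * r + 2) ≤ p ^ (2 * r ^ 2 + r) := Nat.pow_le_pow_right hp0 hexp1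
  have f2 : p ^ (r ^ 2 + 9 * r + 1) ≤ p ^ (2 * r ^ 2 + r) := Nat.pow_le_pow_right hp0 hexp2
  have g1 : 2 * (240 * r ^ 2 * r) ≤ p ^ 2 := by
    have : 2 * (240 * r ^ 2 * r) ≤ (1000 * r ^ 2) * (1000 * r ^ 2) := by nlinarith
    calc 2 * (240 * r ^ 2 * r) ≤ (1000 * r ^ 2) * (1000 * r ^ 2) := this
      _ ≤ p * p := Nat.mul_le_mul hp1.le hp1.le
      _ = p ^ 2 := by ring
  have g2 : 2 * (60 * r) < p := by nlinarith
  have k1 : 2 * (240 * r ^ 2 * r * p ^ (12 * r)) ≤ p ^ (2 * r ^ 2 + r) := by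
    calc 2 * (240 * r ^ 2 * r * p ^ (12 * r)) = 2 * (240 * r ^ 2 * r) * p ^ (12 * r) := by ring
      _ ≤ p ^ 2 * p ^ (12 * r) := Nat.mul_le_mul_right _ g1
      _ = p ^ (12 * r + 2) := by rw [← pow_add, add_comm 2]
      _ ≤ _ := f1
  have k2 : 2 * (60 * r * p ^ (r ^ 2 + 9 * r)) < p ^ (2 * r ^ 2 + r) := by
    calc 2 * (60 * r * p ^ (r ^ 2 + 9 * r)) = 2 * (60 * r) * p ^ (r ^ 2 + 9 * r) := by ring
      _ < p * p ^ (r ^ 2 + 9 * r) := Nat.mul_lt_mul_of_pos_right g2 (Nat.pow_pos hp0)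
      _ = p ^ (r ^ 2 + 9 * r + 1) := (pow_succ' p (r ^ 2 + 9 * r)).symm
      _ ≤ _ := f2
  rw [mul_add, e1, e2]
  omega

/-- Proof: union over `x ∈ KF`, `y ∈ KF` of the sets of `card_conj_semi_le` (at most
`(2r p^(4r))² p^(4r)`) and over `x` commuting with `F` (at most `p^(4r)`) of the sets of
`card_conj_lin_le`: total `4 r² p^(12r) + p^(r²+9r)`; `12r, r²+9r ≤ 2r²+r-1` for `r ≥ 11`. -/
theorem card_badIV_le (S : Data p r E) (hp : 1000 * r ^ 2 * 2 ^ r < p) :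
    60 * r * Nat.card {g : (AE p E)ˣ // g ∈ S.Sp ∧
      ∃ x ∈ S.KF, x ∉ pm (ZMod p) (VV E) ∧ g⁻¹ * x * g ∈ S.KF} < p ^ (2 * r ^ 2 + r) := by
  have hfin := X12_finite p E
  have hfinU := X12_finiteU p E
  set CF : (AE p E)ˣ → Prop := fun x => ∀ f : E, S.bar f = f → (x : AE p E) * mE p f = mE p f * x
    with hCF
  -- the two parts
  set P1 : (AE p E)ˣ → Prop := fun g => ∃ z : S.KF × S.KF, ¬ (CF z.1.1 ∧ CF z.2.1) ∧
    g⁻¹ * z.1.1 * g = z.2.1 with hP1
  set P2 : (AE p E)ˣ → Prop := fun g => ∃ X : {X : AE p E // ∀ f : E, S.bar f = f →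
    X * mE p f = mE p f * X}, g ∈ S.Sp ∧ ∃ x : (AE p E)ˣ, (x : AE p E) = X.1 ∧ x ∈ S.Sp ∧
      x ∉ pm (ZMod p) (VV E) ∧ CF (g⁻¹ * x * g) with hP2
  have hor := X12_or (fun g : (AE p E)ˣ => g ∈ S.Sp ∧
      ∃ x ∈ S.KF, x ∉ pm (ZMod p) (VV E) ∧ g⁻¹ * x * g ∈ S.KF) P1 P2 (by
    rintro g ⟨hg, x, hx, hpm, hgx⟩
    by_cases h : CF x ∧ CF (g⁻¹ * x * g)
    · right
      exact ⟨⟨(x : AE p E), h.1⟩, hg, x, rfl, hx.1, hpm, h.2⟩
    · left
      exact ⟨(⟨x, hx⟩, ⟨g⁻¹ * x * g, hgx⟩), h, rfl⟩)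
  have b1 : Nat.card {g // P1 g} ≤ Nat.card (S.KF × S.KF) * p ^ (4 * r) := by
    refine X12_cover P1 (fun g z => ¬ (CF z.1.1 ∧ CF z.2.1) ∧ g⁻¹ * z.1.1 * g = z.2.1) _
      (fun g hg => hg) ?_
    rintro ⟨⟨x, hx⟩, ⟨y, hy⟩⟩
    by_cases h : CF x ∧ CF y
    · have hE : IsEmpty {g : (AE p E)ˣ // ¬ (CF x ∧ CF y) ∧ g⁻¹ * x * g = y} :=
        ⟨fun g => g.2.1 h⟩
      rw [Nat.card_of_isEmpty]
      exact Nat.zero_le _
    · exact le_trans (X12_mono _ (fun g : (AE p E)ˣ => g⁻¹ * x * g = y) fun g hg => hg.2)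
        (S.card_conj_semi_le x y hx hy h)
  have b2 : Nat.card {g // P2 g} ≤ Nat.card {X : AE p E // ∀ f : E, S.bar f = f →
      X * mE p f = mE p f * X} * (p ^ (r ^ 2 + r) * p ^ (4 * r)) := by
    refine X12_cover P2 _ _ (fun g hg => hg) ?_
    rintro ⟨X, hX⟩
    by_cases h : ∃ x : (AE p E)ˣ, (x : AE p E) = X ∧ x ∈ S.Sp ∧ x ∉ pm (ZMod p) (VV E)
    · obtain ⟨x, hxX, hxS, hxpm⟩ := h
      have hxF : CF x := by
        intro f hf
        rw [hxX]
        exact hX f hf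
      refine le_trans (X12_mono _ _ ?_) (S.card_conj_lin_le x hxS hxF hxpm)
      rintro g ⟨hg, x', hx', -, -, hgx⟩
      have e : x' = x := Units.val_injective (by rw [hx', hxX])
      subst e
      exact ⟨hg, hgx⟩
    · refine le_trans (le_of_eq ?_) (Nat.zero_le _)
      rw [Nat.card_eq_zero]
      left
      refine ⟨fun g => h ?_⟩
      obtain ⟨g, hg, x, h1, h2, h3, h4⟩ := g
      exact ⟨x, h1, h2, h3⟩
  rw [Nat.card_prod] at b1
  rw [S.card_comm_F] at b2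
  have b3 := S.card_KF_le
  have b4 : Nat.card S.KF * Nat.card S.KF * p ^ (4 * r) ≤
      (2 * r * p ^ (4 * r)) * (2 * r * p ^ (4 * r)) * p ^ (4 * r) :=
    Nat.mul_le_mul_right _ (Nat.mul_le_mul b3 b3)
  refine lt_of_le_of_lt (Nat.mul_le_mul_left _ (hor.trans (Nat.add_le_add (b1.trans b4) b2)))
    (X12_arith S hp)

end Data

end Pool.Agent.MP971469
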