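import Pool.Agent.Lib.MP_971469_al.X04_CountGood
import Pool.Agent.Lib.MP_971469_al.X10_BadIII
import Pool.Agent.Lib.MP_971469_al.X12_BadIV

/-! X13: existence of a good `g`. -/

namespace Pool.Agent.MP971469

namespace Data

variable {p r : ℕ} [Fact p.Prime] {E : Type} [Field E] [Finite E] [Algebra (ZMod p) E]

/-- If a set is covered by three sets, its cardinality is at most the sum. -/
private theorem X13_card_le {α : Type} [Finite α] (P A B C : α → Prop)
    (h : ∀ x, P x → A x ∨ B x ∨ C x) :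
    Nat.card {x // P x} ≤ Nat.card {x // A x} + Nat.card {x // B x} + Nat.card {x // C x} := by
  classical
  have := Fintype.ofFinite α
  simp only [Nat.card_eq_fintype_card, Fintype.card_subtype]
  calc (Finset.univ.filter P).card ≤
      ((Finset.univ.filter A ∪ Finset.univ.filter B) ∪ Finset.univ.filter C).card := by
        apply Finset.card_le_card
        intro x hx
        simp only [Finset.mem_union, Finset.mem_filter, Finset.mem_univ, true_and] at hx ⊢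
        rcases h x hx with h | h | h <;> tauto
    _ ≤ _ := (Finset.card_union_le _ _).trans (Nat.add_le_add_right (Finset.card_union_le _ _) _)

/-- Proof: `card_HH_ge` gives at least `p^(2r²+r)/(12r)` elements `g` with `H J ⊓ H (cj g J) ≤ pm`, and
the three bad sets have together less than `3 p^(2r²+r)/(60r)`. (`x ∈ H J` and `g⁻¹ x g ∈ H J` iff
`x ∈ H J ⊓ H (cj g J)`.) -/
theorem exists_good_g (S : Data p r E) (hp : 1000 * r ^ 2 * 2 ^ r < p) :
    ∃ g ∈ S.Sp, ∀ x : (AE p E)ˣ, (x ∈ S.H S.J ∨ x ∈ S.KF) →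
      (g⁻¹ * x * g ∈ S.H S.J ∨ g⁻¹ * x * g ∈ S.KF) → x ∈ pm (ZMod p) (VV E) := by
  by_contra hcon
  push Not at hcon
  have h1 := S.card_HH_ge
  have h2 := S.card_badII_le hp
  have h3 := S.card_badIII_le hp
  have h4 := S.card_badIV_le hp
  -- conjugation facts
  have conjH : ∀ (g x : (AE p E)ˣ), g ∈ S.Sp → g⁻¹ * x * g ∈ S.H S.J → x ∈ S.H (cj g S.J) := by
    rintro g x hg ⟨hx, hx'⟩
    have hxSp : x ∈ S.Sp := by
      have := mul_mem (mul_mem hg hx) (inv_mem hg)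
      simpa [mul_assoc] using this
    refine ⟨hxSp, ?_⟩
    have e1 : (x : AE p E) * cj g S.J =
        cj g (((g⁻¹ * x * g : (AE p E)ˣ) : AE p E) * S.J) := by
      simp [cj, mul_assoc]
    have e2 : cj g S.J * (x : AE p E) =
        cj g (S.J * ((g⁻¹ * x * g : (AE p E)ˣ) : AE p E)) := by
      simp [cj, mul_assoc]
    rcases hx' with hx' | hx'
    · left; rw [e1, e2, hx']
    · right; rw [e1, e2, hx', cj_map_neg]
  have hcover := X13_card_le (α := (AE p E)ˣ)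
    (fun g => g ∈ S.Sp ∧ S.H S.J ⊓ S.H (cj g S.J) ≤ pm (ZMod p) (VV E))
    (fun g => g ∈ S.Sp ∧ ¬ (S.KF ⊓ S.H (cj g S.J) ≤ pm (ZMod p) (VV E)))
    (fun g => g ∈ S.Sp ∧ ∃ x ∈ S.H S.J, x ∉ pm (ZMod p) (VV E) ∧ g⁻¹ * x * g ∈ S.KF)
    (fun g => g ∈ S.Sp ∧ ∃ x ∈ S.KF, x ∉ pm (ZMod p) (VV E) ∧ g⁻¹ * x * g ∈ S.KF) (by
      rintro g ⟨hg, hgood⟩
      obtain ⟨x, hx1, hx2, hx3⟩ := hcon g hg
      rcases hx1 with hx1 | hx1 <;> rcases hx2 with hx2 | hx2
      · exact absurd (hgood ⟨hx1, conjH g x hg hx2⟩) hx3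
      · exact Or.inr (Or.inl ⟨hg, x, hx1, hx3, hx2⟩)
      · exact Or.inl ⟨hg, fun h => hx3 (h ⟨hx1, conjH g x hg hx2⟩)⟩
      · exact Or.inr (Or.inr ⟨hg, x, hx1, hx3, hx2⟩))
  have h5 : 12 * r * Nat.card {g : (AE p E)ˣ // g ∈ S.Sp ∧
      S.H S.J ⊓ S.H (cj g S.J) ≤ pm (ZMod p) (VV E)} ≤ 12 * r * _ := Nat.mul_le_mul_left _ hcover
  nlinarith [h1, h2, h3, h4, h5]

end Data

end Pool.Agent.MP971469
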