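import Mathlib

/-! Z1: linear algebra of one endomorphism. -/

namespace Pool.Agent.MP971469

open Polynomial

/-- Proof: if the minimal polynomial `μ` is divisible by two non-associated irreducible
polynomials, write `μ = a b` with `a, b` coprime non-units; `u a + v b = 1`, then `e = u a` evaluated at
`z` is idempotent, `e ≠ 0` (else `μ ∣ u a`, with `μ = a b` and `b` coprime to `u`... so `b` is a unit) and
`e ≠ 1`. -/
theorem minpoly_primary {K V : Type} [Field K] [AddCommGroup V] [Module K V]
    [FiniteDimensional K V] [Nontrivial V] (z : Module.End K V)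
    (h : ∀ f : K[X], aeval z f * aeval z f = aeval z f → aeval z f = 0 ∨ aeval z f = 1) :
    ∃ (f : K[X]) (k : ℕ), Irreducible f ∧ f.Monic ∧ 0 < k ∧ minpoly K z = f ^ k := by
  have hint : IsIntegral K z := Algebra.IsIntegral.isIntegral z
  have hμ0 : minpoly K z ≠ 0 := minpoly.ne_zero hint
  have hμm : (minpoly K z).Monic := minpoly.monic hint
  have hμu : ¬ IsUnit (minpoly K z) := minpoly.not_isUnit K z
  obtain ⟨f, hfm, hfi, hfd⟩ := Polynomial.exists_monic_irreducible_factor (minpoly K z) hμu
  have hfin : FiniteMultiplicity f (minpoly K z) :=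
    FiniteMultiplicity.of_not_isUnit hfi.not_isUnit hμ0
  obtain ⟨b, hb, hfb⟩ := hfin.exists_eq_pow_mul_and_not_dvd
  have hk : 0 < multiplicity f (minpoly K z) := by
    rw [Nat.pos_iff_ne_zero]
    intro h0
    rw [h0, pow_zero, one_mul] at hb
    exact hfb (hb ▸ hfd)
  revert hb hk
  generalize multiplicity f (minpoly K z) = k
  intro hb hk
  have hcop : IsCoprime (f ^ k) b :=
    IsCoprime.pow_left ((Irreducible.coprime_iff_not_dvd hfi).2 hfb)
  obtain ⟨u, v, huv⟩ := hcop
  have hzero : aeval z (minpoly K z) = 0 := minpoly.aeval K z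
  have hidem : aeval z (u * f ^ k) * aeval z (u * f ^ k) = aeval z (u * f ^ k) := by
    rw [← map_mul, ← sub_eq_zero, ← map_sub]
    have : u * f ^ k * (u * f ^ k) - u * f ^ k = - (u * v) * (minpoly K z) := by
      rw [hb]
      have h1 : u * f ^ k = 1 - v * b := by rw [← huv]; ring
      calc u * f ^ k * (u * f ^ k) - u * f ^ k = - (u * f ^ k) * (1 - u * f ^ k) := by ring
        _ = - (u * f ^ k) * (v * b) := by rw [h1]; ring
        _ = _ := by ring
    rw [this, map_mul, hzero, mul_zero]
  rcases h _ hidem with h1 | h1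
  · refine ⟨f, k, hfi, hfm, hk, ?_⟩
    have h2 : minpoly K z ∣ u * f ^ k := minpoly.dvd K z h1
    have h3 : b ∣ 1 := by
      rw [← huv]
      refine dvd_add (dvd_trans ?_ h2) (dvd_mul_left _ _)
      rw [hb]
      exact dvd_mul_left _ _
    have h4 : b.Monic := by
      rw [hb] at hμm
      exact (hfm.pow k).of_mul_monic_left hμm
    have h5 : b = 1 := h4.isUnit_iff.1 (isUnit_of_dvd_one h3)
    rw [hb, h5, mul_one]
  · exfalso
    have h2 : aeval z (v * b) = 0 := by
      have h3 : v * b = 1 - u * f ^ k := by rw [← huv]; ring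
      rw [h3, map_sub, h1, map_one, sub_self]
    have h3 : f ^ k ∣ v * b := by
      refine dvd_trans ?_ (minpoly.dvd K z h2)
      rw [hb]
      exact dvd_mul_right _ _
    have h4 : f ^ k ∣ 1 := by
      rw [← huv]
      exact dvd_add (dvd_mul_left _ _) h3
    exact hfi.not_isUnit (isUnit_of_dvd_one ((dvd_pow_self f hk.ne').trans h4))

private theorem Z1_aeval_restrict {K V : Type} [Field K] [AddCommGroup V] [Module K V]
    (z : Module.End K V) (W : Submodule K V) (hW : ∀ w ∈ W, z w ∈ W) (g : K[X]) (w : W) :
    ((aeval (LinearMap.restrict z hW) g w : W) : V) = aeval z g (w : V) := by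
  induction g using Polynomial.induction_on' with
  | add p q hp hq => simp [hp, hq]
  | monomial n a =>
    have h1 : ∀ m : ℕ, (((LinearMap.restrict z hW) ^ m) w : V) = (z ^ m) (w : V) := by
      intro m
      induction m with
      | zero => simp
      | succ m ih =>
        rw [pow_succ', pow_succ', Module.End.mul_apply, Module.End.mul_apply]
        change z (((LinearMap.restrict z hW) ^ m) w : V) = _
        rw [ih]
    rw [aeval_monomial, aeval_monomial, ← Algebra.smul_def, ← Algebra.smul_def,
      LinearMap.smul_apply, LinearMap.smul_apply, Submodule.coe_smul, h1]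

private theorem Z1_comm {K V : Type} [Field K] [AddCommGroup V] [Module K V]
    (X z : Module.End K V) (h : Commute X z) (g : K[X]) : Commute X (aeval z g) := by
  induction g using Polynomial.induction_on' with
  | add p q hp hq =>
    rw [map_add]
    exact hp.add_right hq
  | monomial n a =>
    rw [aeval_monomial]
    exact (Algebra.commute_algebraMap_right a X).mul_right (h.pow_right n)

private theorem Z1_dvd_one {K V : Type} [Field K] [AddCommGroup V] [Module K V]
    [FiniteDimensional K V] (z : Module.End K V) (f : K[X]) (hf : Irreducible f)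
    (h : aeval z f = 0) : f.natDegree ∣ Module.finrank K V := by
  have : Fact (Irreducible f) := ⟨hf⟩
  let φ : AdjoinRoot f →ₐ[K] Module.End K V := Ideal.Quotient.liftₐ _ (aeval z) (by
    intro a ha
    obtain ⟨t, rfl⟩ := Ideal.mem_span_singleton.1 ha
    rw [map_mul, h, zero_mul])
  letI : Module (AdjoinRoot f) V := Module.compHom V φ.toRingHom
  have : IsScalarTower K (AdjoinRoot f) V := by
    refine ⟨fun a b v => ?_⟩
    change φ (a • b) v = a • φ b v
    rw [map_smul, LinearMap.smul_apply]
  have h1 := Module.finrank_mul_finrank K (AdjoinRoot f) V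
  have h2 : Module.finrank K (AdjoinRoot f) = f.natDegree := by
    rw [(AdjoinRoot.powerBasis hf.ne_zero).finrank, AdjoinRoot.powerBasis_dim]
  rw [h2] at h1
  exact ⟨_, h1.symm⟩

/-- Proof: induction on `k` (or on dimension): `ker f(z)` is a vector space over the field
`K[X]/(f)`, so its dimension is divisible by `deg f`; the quotient is killed by `f(z)^(k-1)`. (Or via
`Module.AEval` and the structure theorem.) -/
theorem natDegree_dvd_finrank {K V : Type} [Field K] [AddCommGroup V] [Module K V]
    [FiniteDimensional K V] (z : Module.End K V) (f : K[X]) (hf : Irreducible f) (k : ℕ)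
    (h : aeval z (f ^ k) = 0) : f.natDegree ∣ Module.finrank K V := by
  induction k generalizing V with
  | zero =>
    rw [pow_zero, map_one] at h
    have h1 : ∀ v : V, v = 0 := fun v => by
      have := LinearMap.congr_fun h v
      simpa using this
    have : Subsingleton V := ⟨fun a b => by rw [h1 a, h1 b]⟩
    rw [Module.finrank_zero_of_subsingleton]
    exact dvd_zero _
  | succ k ih =>
    have hcomm : ∀ v, z (aeval z f v) = aeval z f (z v) := by
      intro v
      have h1 : z * aeval z f = aeval z f * z := Z1_comm z z (Commute.refl z) f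
      have := LinearMap.congr_fun h1 v
      simpa using this
    have hk : ∀ w ∈ LinearMap.ker (aeval z f), z w ∈ LinearMap.ker (aeval z f) := by
      intro w hw
      rw [LinearMap.mem_ker] at hw ⊢
      rw [← hcomm, hw, map_zero]
    have hr : ∀ w ∈ LinearMap.range (aeval z f), z w ∈ LinearMap.range (aeval z f) := by
      rintro _ ⟨w, rfl⟩
      exact ⟨z w, (hcomm w).symm⟩
    have h1 : f.natDegree ∣ Module.finrank K (LinearMap.ker (aeval z f)) := by
      refine Z1_dvd_one (z.restrict hk) f hf ?_
      ext w
      rw [Z1_aeval_restrict]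
      exact w.2
    have h2 : f.natDegree ∣ Module.finrank K (LinearMap.range (aeval z f)) := by
      refine ih (z.restrict hr) ?_
      ext ⟨_, w, rfl⟩
      rw [Z1_aeval_restrict]
      change (aeval z (f ^ k)) ((aeval z f) w) = 0
      rw [← Module.End.mul_apply, ← map_mul, ← pow_succ, h]
      rfl
    rw [← LinearMap.finrank_range_add_finrank_ker (aeval z f)]
    exact dvd_add h2 h1

/-- The same for an invariant subspace `W` (restrict `z` to `W`). -/
theorem natDegree_dvd_finrank_sub {K V : Type} [Field K] [AddCommGroup V] [Module K V]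
    [FiniteDimensional K V] (z : Module.End K V) (f : K[X]) (hf : Irreducible f) (k : ℕ)
    (h : aeval z (f ^ k) = 0) (W : Submodule K V) (hW : ∀ w ∈ W, z w ∈ W) :
    f.natDegree ∣ Module.finrank K W := by
  refine natDegree_dvd_finrank (z.restrict hW) f hf k ?_
  ext w
  rw [Z1_aeval_restrict, h]
  rfl

/-- Proof: `z = c + n` with `n` nilpotent; `tr z = n c`, `tr z² = n c²` (a polynomial in a nilpotent
endomorphism without constant term is nilpotent and has trace `0`). -/
theorem trace_of_deg_one {K V : Type} [Field K] [AddCommGroup V] [Module K V]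
    [FiniteDimensional K V] (z : Module.End K V) (f : K[X]) (hf : f.natDegree = 1) (hm : f.Monic)
    (k : ℕ) (h : aeval z (f ^ k) = 0) :
    (Module.finrank K V : K) * LinearMap.trace K V (z * z) = (LinearMap.trace K V z) ^ 2 := by
  have hfe : f = X + C (f.coeff 0) := hm.eq_X_add_C hf
  obtain ⟨c, hc⟩ : ∃ c, c = f.coeff 0 := ⟨_, rfl⟩
  rw [← hc] at hfe
  have hN : aeval z f = z + algebraMap K (Module.End K V) c := by
    rw [hfe]
    simp
  have hnil : IsNilpotent (aeval z f) := ⟨k, by rw [← map_pow, h]⟩
  obtain ⟨N, hNd⟩ : ∃ N, N = aeval z f := ⟨_, rfl⟩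
  rw [← hNd] at hN hnil
  have hz : z = N - c • (1 : Module.End K V) := by
    rw [hN, Algebra.algebraMap_eq_smul_one]
    simp
  have ht0 : LinearMap.trace K V N = 0 :=
    (LinearMap.isNilpotent_trace_of_isNilpotent hnil).eq_zero
  have ht1 : LinearMap.trace K V (N * N) = 0 := by
    refine (LinearMap.isNilpotent_trace_of_isNilpotent ?_).eq_zero
    rw [← sq]
    exact hnil.pow_of_pos (by norm_num)
  have hzz : z * z = N * N - (2 * c) • N + (c * c) • (1 : Module.End K V) := by
    rw [hz]
    simp only [sub_mul, mul_sub, smul_mul_assoc, mul_smul_comm, one_mul, mul_one]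
    module
  rw [hzz, hz]
  simp only [map_sub, map_add, map_smul, ht0, ht1, LinearMap.trace_one, smul_eq_mul]
  ring

private theorem Z1_cyclic {K V : Type} [Field K] [AddCommGroup V] [Module K V]
    [FiniteDimensional K V] (z : Module.End K V) :
    ∃ v : V, ∀ g : K[X], aeval z g v = 0 → minpoly K z ∣ g := by
  classical
  have hint : IsIntegral K z := Algebra.IsIntegral.isIntegral z
  have hμ0 : minpoly K z ≠ 0 := minpoly.ne_zero hint
  have key : ∀ f : K[X], Irreducible f → f ∣ minpoly K z → ∃ (k : ℕ) (q : K[X]) (v : V),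
      minpoly K z = f ^ k * q ∧ ¬ f ∣ q ∧ aeval z (f ^ k) v = 0 ∧
      ∀ g : K[X], aeval z g v = 0 → f ^ k ∣ g := by
    intro f hfi hfd
    have hfin : FiniteMultiplicity f (minpoly K z) :=
      FiniteMultiplicity.of_not_isUnit hfi.not_isUnit hμ0
    obtain ⟨q, hq, hfq⟩ := hfin.exists_eq_pow_mul_and_not_dvd
    have hk : 0 < multiplicity f (minpoly K z) := by
      rw [Nat.pos_iff_ne_zero]
      intro h0
      rw [h0, pow_zero, one_mul] at hq
      exact hfq (hq ▸ hfd)
    revert hq hk
    generalize multiplicity f (minpoly K z) = k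
    intro hq hk
    obtain ⟨m, rfl⟩ : ∃ m, k = m + 1 := ⟨k - 1, by omega⟩
    have hne : aeval z (f ^ m * q) ≠ 0 := by
      intro h0
      have h1 : minpoly K z ∣ f ^ m * q := minpoly.dvd K z h0
      have hq0 : f ^ m * q ≠ 0 := by
        intro h2
        apply hμ0
        rw [hq, pow_succ]
        calc f ^ m * f * q = f * (f ^ m * q) := by ring
          _ = 0 := by rw [h2, mul_zero]
      have h2 : f * (f ^ m * q) ∣ 1 * (f ^ m * q) := by
        rw [one_mul]
        refine dvd_trans ?_ h1
        rw [hq, pow_succ]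
        exact ⟨1, by ring⟩
      exact hfi.not_isUnit (isUnit_of_dvd_one ((mul_dvd_mul_iff_right hq0).1 h2))
    obtain ⟨u, hu⟩ : ∃ u, aeval z (f ^ m * q) u ≠ 0 := by
      by_contra hcon
      push Not at hcon
      exact hne (LinearMap.ext fun u => by rw [hcon u]; rfl)
    refine ⟨m + 1, q, aeval z q u, hq, hfq, ?_, ?_⟩
    · rw [← Module.End.mul_apply, ← map_mul, ← hq, minpoly.aeval]
      rfl
    · intro g hg
      -- the gcd of `g` and `f ^ (m+1)`
      obtain ⟨d, hd1, hd2⟩ := (dvd_prime_pow hfi.prime (m + 1)).1 (EuclideanDomain.gcd_dvd_right g (f ^ (m + 1)))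
      have hgcd : aeval z (EuclideanDomain.gcd g (f ^ (m + 1))) (aeval z q u) = 0 := by
        rw [EuclideanDomain.gcd_eq_gcd_ab, map_add, LinearMap.add_apply, mul_comm g,
          mul_comm (f ^ (m + 1)), map_mul, map_mul, Module.End.mul_apply, Module.End.mul_apply, hg,
          map_zero, zero_add, ← Module.End.mul_apply (aeval z (f ^ (m + 1))), ← map_mul, ← hq,
          minpoly.aeval]
        simp
      rcases Nat.lt_or_ge m d with hmd | hmd
      · have : d = m + 1 := by omega
        subst this
        exact hd2.symm.dvd.trans (EuclideanDomain.gcd_dvd_left g (f ^ (m + 1)))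
      · exfalso
        apply hu
        have h1 : EuclideanDomain.gcd g (f ^ (m + 1)) ∣ f ^ m :=
          hd2.dvd.trans (pow_dvd_pow f hmd)
        obtain ⟨t, ht⟩ := h1
        rw [ht, mul_comm (EuclideanDomain.gcd g (f ^ (m + 1))) t, mul_assoc, map_mul,
          Module.End.mul_apply, map_mul, Module.End.mul_apply, hgcd, map_zero]
  obtain ⟨P, hP⟩ : ∃ P : Finset K[X],
      P = (UniqueFactorizationMonoid.normalizedFactors (minpoly K z)).toFinset := ⟨_, rfl⟩
  have hPirr : ∀ f ∈ P, Irreducible f := by
    intro f hf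
    rw [hP, Multiset.mem_toFinset] at hf
    exact UniqueFactorizationMonoid.irreducible_of_normalized_factor f hf
  have hPdvd : ∀ f ∈ P, f ∣ minpoly K z := by
    intro f hf
    rw [hP, Multiset.mem_toFinset] at hf
    exact UniqueFactorizationMonoid.dvd_of_mem_normalizedFactors hf
  have hPne : ∀ f ∈ P, ∀ g ∈ P, f ∣ g → f = g := by
    intro f hf g hg hfg
    rw [hP, Multiset.mem_toFinset] at hf hg
    have h1 := UniqueFactorizationMonoid.normalize_normalized_factor f hf
    have h2 := UniqueFactorizationMonoid.normalize_normalized_factor g hg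
    rw [← h1, ← h2]
    exact normalize_eq_normalize hfg
      ((UniqueFactorizationMonoid.irreducible_of_normalized_factor f hf).dvd_symm
        (UniqueFactorizationMonoid.irreducible_of_normalized_factor g hg) hfg)
  have key' : ∀ f : K[X], ∃ (k : ℕ) (q : K[X]) (v : V), f ∈ P →
      (minpoly K z = f ^ k * q ∧ ¬ f ∣ q ∧ aeval z (f ^ k) v = 0 ∧
      ∀ g : K[X], aeval z g v = 0 → f ^ k ∣ g) := by
    intro f
    by_cases hf : f ∈ P
    · obtain ⟨k, q, v, h⟩ := key f (hPirr f hf) (hPdvd f hf)
      exact ⟨k, q, v, fun _ => h⟩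
    · exact ⟨0, 0, 0, fun h => absurd h hf⟩
  choose k q v hkqv using key'
  have hcop : ∀ f ∈ P, ∀ g ∈ P, f ≠ g → IsCoprime (f ^ k f) (g ^ k g) := by
    intro f hf g hg hfg
    refine IsCoprime.pow ?_
    rw [Irreducible.coprime_iff_not_dvd (hPirr f hf)]
    intro h
    exact hfg (hPne f hf g hg h)
  refine ⟨∑ f ∈ P, v f, ?_⟩
  intro g hg
  -- each `f ^ k f` divides `g`
  have hdiv : ∀ f ∈ P, f ^ k f ∣ g := by
    intro f hf
    have h1 : aeval z (q f * g) (v f) = 0 := by
      have h2 : aeval z (q f) (aeval z g (∑ f ∈ P, v f)) = 0 := by rw [hg, map_zero]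
      rw [← Module.End.mul_apply, ← map_mul, map_sum, Finset.sum_eq_single f] at h2
      · exact h2
      · intro e he hef
        have h3 : e ^ k e ∣ q f := by
          have h4 : e ^ k e ∣ f ^ k f * q f := by
            rw [← (hkqv f hf).1, (hkqv e he).1]
            exact dvd_mul_right _ _
          exact (hcop e he f hf hef).dvd_of_dvd_mul_left h4
        obtain ⟨t, ht⟩ := h3
        rw [ht, mul_comm (e ^ k e) t, mul_assoc, mul_comm (e ^ k e) g, ← mul_assoc, map_mul,
          Module.End.mul_apply, (hkqv e he).2.2.1, map_zero]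
      · intro h
        exact absurd hf h
    have h2 : f ^ k f ∣ q f * g := (hkqv f hf).2.2.2 _ h1
    have h3 : IsCoprime (f ^ k f) (q f) :=
      IsCoprime.pow_left ((Irreducible.coprime_iff_not_dvd (hPirr f hf)).2 (hkqv f hf).2.1)
    exact h3.dvd_of_dvd_mul_left h2
  have hprod : ∏ f ∈ P, f ^ k f ∣ g :=
    Finset.prod_dvd_of_coprime (fun f hf e he hfe => hcop f hf e he hfe) hdiv
  refine dvd_trans ?_ hprod
  -- `minpoly` divides the product: all irreducible factors of the quotient are excluded
  have hprod2 : ∏ f ∈ P, f ^ k f ∣ minpoly K z :=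
    Finset.prod_dvd_of_coprime (fun f hf e he hfe => hcop f hf e he hfe) fun f hf => by
      rw [(hkqv f hf).1]
      exact dvd_mul_right _ _
  obtain ⟨t, ht⟩ := hprod2
  have htu : IsUnit t := by
    by_contra hnu
    have ht0 : t ≠ 0 := by
      rintro rfl
      rw [mul_zero] at ht
      exact hμ0 ht
    obtain ⟨f, hfi, hft⟩ := WfDvdMonoid.exists_irreducible_factor hnu ht0
    obtain ⟨f', hf', hff'⟩ := UniqueFactorizationMonoid.exists_mem_normalizedFactors_of_dvd hμ0 hfi
      (hft.trans (by rw [ht]; exact dvd_mul_left _ _))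
    have hfP : f' ∈ P := by rw [hP, Multiset.mem_toFinset]; exact hf'
    have hft' : f' ∣ t := hff'.symm.dvd.trans hft
    have h1 : f' ^ k f' * f' ∣ f' ^ k f' * q f' := by
      rw [← (hkqv f' hfP).1, ht]
      exact mul_dvd_mul (Finset.dvd_prod_of_mem _ hfP) hft'
    have h2 : f' ^ k f' ≠ 0 := pow_ne_zero _ (hPirr f' hfP).ne_zero
    exact (hkqv f' hfP).2.1 ((mul_dvd_mul_iff_left h2).1 h1)
  rw [ht]
  obtain ⟨w, hw⟩ := htu.exists_right_inv
  exact ⟨w, by rw [mul_assoc, hw, mul_one]⟩

/-- Commutant of a cyclic endomorphism. Proof: if the minimal polynomial has degree `dim V`, there is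
a cyclic vector `v` (structure theorem, or Mathlib); if `X z = z X` and `X v = f(z) v`, then
`X = f(z)`. -/
theorem commutant_of_cyclic {K V : Type} [Field K] [AddCommGroup V] [Module K V]
    [FiniteDimensional K V] (z : Module.End K V)
    (h : (minpoly K z).natDegree = Module.finrank K V) (X : Module.End K V) (hX : X * z = z * X) :
    ∃ f : K[X], X = aeval z f := by
  obtain ⟨v, hv⟩ := Z1_cyclic z
  have hint : IsIntegral K z := Algebra.IsIntegral.isIntegral z
  -- the map `g ↦ g(z) v` is surjective
  have hsurj : ∀ w : V, ∃ g : K[X], aeval z g v = w := by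
    let ψ : Polynomial.degreeLT K (Module.finrank K V) →ₗ[K] V :=
      ((LinearMap.applyₗ v).comp (aeval z).toLinearMap).comp (Submodule.subtype _)
    have hψ : ∀ g, ψ g = aeval z (g : K[X]) v := fun g => rfl
    have hinj : Function.Injective ψ := by
      rw [injective_iff_map_eq_zero]
      intro g hg
      rw [hψ] at hg
      have h1 := hv _ hg
      have h2 := g.2
      rw [Polynomial.mem_degreeLT] at h2
      by_contra hne
      have hne' : (g : K[X]) ≠ 0 := fun h0 => hne (Subtype.ext h0)
      have h3 := Polynomial.degree_le_of_dvd h1 hne'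
      rw [Polynomial.degree_eq_natDegree (minpoly.ne_zero hint), h] at h3
      exact absurd (lt_of_le_of_lt h3 h2) (lt_irrefl _)
    have : FiniteDimensional K (Polynomial.degreeLT K (Module.finrank K V)) :=
      Module.Finite.of_injective ψ hinj
    have hdim : Module.finrank K (Polynomial.degreeLT K (Module.finrank K V)) =
        Module.finrank K V := by
      rw [LinearEquiv.finrank_eq (Polynomial.degreeLTEquiv K (Module.finrank K V))]
      simp
    have hs := (LinearMap.injective_iff_surjective_of_finrank_eq_finrank hdim).1 hinj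
    intro w
    obtain ⟨g, hg⟩ := hs w
    exact ⟨g, by rw [← hψ, hg]⟩
  obtain ⟨f, hf⟩ := hsurj (X v)
  refine ⟨f, ?_⟩
  have hcomm : ∀ g : K[X], X * aeval z g = aeval z g * X := by
    intro g
    have hc : Commute X z := hX
    exact Z1_comm X z hc g
  ext w
  obtain ⟨g, rfl⟩ := hsurj w
  rw [← Module.End.mul_apply, hcomm, Module.End.mul_apply, ← hf, ← Module.End.mul_apply,
    ← Module.End.mul_apply, ← map_mul, ← map_mul, mul_comm]

end Pool.Agent.MP971469
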