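import Pool.Agent.Lib.MP_971469_al.S1_Basic

/-! Z2: a self-adjoint endomorphism of a symplectic space has an invariant Lagrangian subspace. -/

namespace Pool.Agent.MP971469

/-- Proof: let `W` be a `z`-invariant totally isotropic subspace of maximal dimension. If
`W ≠ W^⊥` take `v ∈ W^⊥`, `v ∉ W`. The span of all `z^i v` is totally isotropic: `B (z^i v) (z^j v) =
B v (z^(i+j) v)` by self-adjointness and `B (z^i v) (z^j v) = - B (z^j v) (z^i v) = - B v (z^(i+j) v)`, so
it is `0` (`2 ≠ 0`). It is orthogonal to `W` since `W` is invariant. So `W + span {z^i v}` is a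
larger invariant totally isotropic subspace. Hence `W = W^⊥` and `2 dim W = dim V`. -/
theorem exists_lagrangian {K V : Type} [Field K] (h2 : (2 : K) ≠ 0) [AddCommGroup V] [Module K V]
    [FiniteDimensional K V] {B : LinearMap.BilinForm K V} (hB : B.IsAlt)
    (hn : ∀ x, (∀ y, B x y = 0) → x = 0) (z : Module.End K V)
    (hz : ∀ x y, B (z x) y = B x (z y)) :
    ∃ W : Submodule K V, (∀ w ∈ W, z w ∈ W) ∧ 2 * Module.finrank K W = Module.finrank K V := by
  let P : Submodule K V → Prop := fun W => (∀ w ∈ W, z w ∈ W) ∧ ∀ x ∈ W, ∀ y ∈ W, B x y = 0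
  have hP0 : P ⊥ := by
    refine ⟨fun w hw => ?_, fun x hx y _ => ?_⟩
    · rw [Submodule.mem_bot] at hw ⊢
      rw [hw, map_zero]
    · rw [Submodule.mem_bot] at hx
      rw [hx, map_zero, LinearMap.zero_apply]
  obtain ⟨W, hWP, hWmax⟩ := (wellFounded_gt (α := Submodule K V)).has_min {W | P W} ⟨⊥, hP0⟩
  have hzi : ∀ (i : ℕ) (x y : V), B ((z ^ i) x) y = B x ((z ^ i) y) := by
    intro i
    induction i with
    | zero => intro x y; simp
    | succ i ih =>
      intro x y
      rw [pow_succ, Module.End.mul_apply, ih, hz, ← Module.End.mul_apply, ← pow_succ', pow_succ]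
  have hzv : ∀ (v : V) (i j : ℕ), B ((z ^ i) v) ((z ^ j) v) = 0 := by
    intro v i j
    have h1 : B ((z ^ i) v) ((z ^ j) v) = B v ((z ^ (i + j)) v) := by
      rw [hzi, ← Module.End.mul_apply, ← pow_add]
    have h2' : B ((z ^ j) v) ((z ^ i) v) = B v ((z ^ (i + j)) v) := by
      rw [hzi, ← Module.End.mul_apply, ← pow_add, add_comm]
    have h3 := B_swap hB ((z ^ i) v) ((z ^ j) v)
    rw [h1, h2'] at h3
    have h4 : (2 : K) * B v ((z ^ (i + j)) v) = 0 := by
      rw [two_mul]
      nth_rewrite 1 [h3]
      simp
    rw [h1]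
    exact (mul_eq_zero.1 h4).resolve_left h2
  have hnd : B.Nondegenerate := by
    refine ⟨fun x hx => hn x hx, fun x hx => hn x fun y => ?_⟩
    rw [B_swap hB, hx y, neg_zero]
  have horth : B.orthogonal W = W := by
    apply le_antisymm
    · intro v hv
      by_contra hvW
      have hv' : ∀ w ∈ W, B w v = 0 := fun w hw => hv w hw
      have hzw : ∀ (i : ℕ) (w : V), w ∈ W → (z ^ i) w ∈ W := by
        intro i
        induction i with
        | zero => intro w hw; simpa using hw
        | succ i ih =>
          intro w hw
          rw [pow_succ, Module.End.mul_apply]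
          exact ih _ (hWP.1 w hw)
      let S : Set V := (W : Set V) ∪ Set.range fun i : ℕ => (z ^ i) v
      have hS : ∀ x ∈ S, ∀ y ∈ S, B x y = 0 := by
        rintro x (hx | ⟨i, rfl⟩) y (hy | ⟨j, rfl⟩)
        · exact hWP.2 x hx y hy
        · rw [← hzi]
          exact hv' _ (hzw j x hx)
        · rw [B_swap hB, ← hzi, hv' _ (hzw i y hy), neg_zero]
        · exact hzv v i j
      have hS1 : ∀ x ∈ Submodule.span K S, ∀ y ∈ S, B x y = 0 := by
        intro x hx y hy
        have : Submodule.span K S ≤ LinearMap.ker (B.flip y) := by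
          rw [Submodule.span_le]
          intro x hx
          exact hS x hx y hy
        exact this hx
      have hS2 : ∀ x ∈ Submodule.span K S, ∀ y ∈ Submodule.span K S, B x y = 0 := by
        intro x hx y hy
        have : Submodule.span K S ≤ LinearMap.ker (B x) := by
          rw [Submodule.span_le]
          intro y hy
          exact hS1 x hx y hy
        exact this hy
      have hinv : ∀ w ∈ Submodule.span K S, z w ∈ Submodule.span K S := by
        have : Submodule.span K S ≤ (Submodule.span K S).comap z := by
          rw [Submodule.span_le]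
          rintro x (hx | ⟨i, rfl⟩)
          · exact Submodule.subset_span (Or.inl (hWP.1 x hx))
          · refine Submodule.subset_span (Or.inr ⟨i + 1, ?_⟩)
            simp only
            rw [pow_succ', Module.End.mul_apply]
        exact this
      refine hWmax (Submodule.span K S) ⟨hinv, hS2⟩ ?_
      change W < Submodule.span K S
      refine lt_of_le_of_ne (fun w hw => Submodule.subset_span (Or.inl hw)) ?_
      intro heq
      apply hvW
      rw [heq]
      exact Submodule.subset_span (Or.inr ⟨0, by simp⟩)
    · intro w hw x hx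
      exact hWP.2 x hx w hw
  refine ⟨W, hWP.1, ?_⟩
  have h1 := LinearMap.BilinForm.finrank_orthogonal hnd W
  rw [horth] at h1
  have h2 := Submodule.finrank_le W
  omega

end Pool.Agent.MP971469
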