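import Pool.Agent.Lib.MP_971469_al.M07_Skew
import Pool.Agent.Lib.MP_971469_al.Z1_LinAlg
import Pool.Agent.Lib.MP_971469_al.Z2_Lagr

/-! Z3: pairs with trivial common centralizer. -/

namespace Pool.Agent.MP971469

namespace Data

variable {p r : ℕ} [Fact p.Prime] {E : Type} [Field E] [Finite E] [Algebra (ZMod p) E]

open Polynomial

/-- `z = JY + YJ`. -/
noncomputable def zz (S : Data p r E) (Y : AE p E) : AE p E := S.J * Y + Y * S.J

/-- `R(Y) = 2r tr(z²) - (tr z)²`. -/
noncomputable def RR (S : Data p r E) (Y : AE p E) : ZMod p :=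
  2 * (r : ZMod p) * LinearMap.trace (ZMod p) (VV E) (S.zz Y * S.zz Y) -
    (LinearMap.trace (ZMod p) (VV E) (S.zz Y)) ^ 2

theorem zz_sym (S : Data p r E) (Y : AE p E) (hY : Y ∈ S.skew) : S.zz Y ∈ S.sym := by
  rw [S.mem_sym_iff]
  unfold zz
  rw [S.adj_add, S.adj_mul, S.adj_mul, S.adj_J, (S.mem_skew_iff Y).mp hY]
  simp only [neg_mul_neg]
  exact add_comm _ _

theorem zz_comm_J (S : Data p r E) (Y : AE p E) : S.zz Y * S.J = S.J * S.zz Y := by
  unfold zz
  rw [add_mul, mul_add, mul_assoc Y, S.J_mul_J, ← mul_assoc S.J S.J, S.J_mul_J, mul_assoc S.J Y,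
    mul_smul_comm, smul_mul_assoc, mul_one, one_mul]
  exact add_comm _ _

theorem zz_comm_Y (S : Data p r E) (Y : AE p E) (hY : Y * Y = S.lam • (1 : AE p E)) :
    S.zz Y * Y = Y * S.zz Y := by
  unfold zz
  rw [add_mul, mul_add, mul_assoc S.J, hY, ← mul_assoc Y Y, hY, mul_assoc Y S.J,
    mul_smul_comm, smul_mul_assoc, mul_one, one_mul]
  exact add_comm _ _

private theorem comm_aeval {R : Type} [Ring R] [Algebra (ZMod p) R] (z X : R) (h : z * X = X * z)
    (f : (ZMod p)[X]) : aeval z f * X = X * aeval z f := by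
  induction f using Polynomial.induction_on' with
  | add f g hf hg => rw [map_add, add_mul, mul_add, hf, hg]
  | monomial n a =>
    rw [aeval_monomial, mul_assoc, ((Commute.pow_left (show Commute z X from h) n)).eq,
      ← mul_assoc, ← mul_assoc, Algebra.commutes a X]

private theorem adj_aeval (S : Data p r E) (z : AE p E) (hz : S.adj z = z) (f : (ZMod p)[X]) :
    S.adj (aeval z f) = aeval z f := by
  have hpow : ∀ n : ℕ, S.adj (z ^ n) = z ^ n := by
    intro n
    induction n with
    | zero => rw [pow_zero, S.adj_one]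
    | succ n ih => rw [pow_succ, S.adj_mul, hz, ih, ← pow_succ', ← pow_succ]
  induction f using Polynomial.induction_on' with
  | add f g hf hg => rw [map_add, S.adj_add, hf, hg]
  | monomial n a =>
    rw [aeval_monomial, ← Algebra.smul_def, S.adj_smul, hpow]

/-- Proof: for an idempotent `e = aeval z f` put `h = 2e - 1`: `h² = 1`, `adj h = h` (`zz_sym`:
polynomials in a self-adjoint endomorphism are self-adjoint), so `h ∈ Sp` (`exists_Sp`), and `h`
commutes with `J` and `Y`. So `h = ±1`. -/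
theorem idem_trivial (S : Data p r E) (Y : AE p E) (hY : Y ∈ S.orbJ)
    (h : S.C S.J ⊓ S.C Y ≤ pm (ZMod p) (VV E)) (f : (ZMod p)[X])
    (he : aeval (S.zz Y) f * aeval (S.zz Y) f = aeval (S.zz Y) f) :
    aeval (S.zz Y) f = 0 ∨ aeval (S.zz Y) f = 1 := by
  have hsk : Y ∈ S.skew := S.orbJ_skew Y hY
  have hzs : S.adj (S.zz Y) = S.zz Y := (S.mem_sym_iff _).mp (S.zz_sym Y hsk)
  have hadj : S.adj (aeval (S.zz Y) f) = aeval (S.zz Y) f := adj_aeval S _ hzs f
  have hcJ := comm_aeval (S.zz Y) S.J (S.zz_comm_J Y) f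
  have hcY := comm_aeval (S.zz Y) Y (S.zz_comm_Y Y (S.orbJ_sq Y hY)) f
  set e : AE p E := aeval (S.zz Y) f with hedef
  have hsq : (e + e - 1) * (e + e - 1) = 1 := by
    have h1 : (e + e - 1) * (e + e - 1) = e * e + e * e + e * e + e * e - e - e - e - e + 1 := by
      noncomm_ring
    rw [h1, he]
    noncomm_ring
  have hadj2 : S.adj (e + e - 1) = e + e - 1 := by
    rw [S.adj_sub, S.adj_add, S.adj_one, hadj]
  obtain ⟨g, hg, hge⟩ := S.exists_Sp (e + e - 1) (by rw [hadj2, hsq])
  have hgm : g ∈ S.C S.J ⊓ S.C Y := by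
    refine ⟨⟨hg, ?_⟩, ⟨hg, ?_⟩⟩
    · rw [hge, sub_mul, add_mul, mul_sub, mul_add, hcJ, one_mul, mul_one]
    · rw [hge, sub_mul, add_mul, mul_sub, mul_add, hcY, one_mul, mul_one]
  have h2 : ∀ x y : AE p E, x + x = y + y → x = y := by
    intro x y hxy
    have h3 : (2 : ZMod p) • x = (2 : ZMod p) • y := by rw [two_smul, two_smul, hxy]
    have h4 := congrArg (fun t : AE p E => (2 : ZMod p)⁻¹ • t) h3
    simpa [smul_smul, inv_mul_cancel₀ S.two_ne] using h4
  rcases h hgm with h1 | h1
  · right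
    apply h2
    have h3 : e + e - 1 = 1 := by rw [← hge, h1]; rfl
    exact sub_eq_iff_eq_add.mp h3
  · left
    apply h2
    have h3 : e + e - 1 = -1 := by rw [← hge, h1]; rfl
    have h4 : e + e = 0 := by
      have := congrArg (fun t : AE p E => t + 1) h3
      simpa using this
    rw [h4, add_zero]

/-- Proof: by `minpoly_primary` and `idem_trivial` the minimal polynomial of `z = zz Y` is `f^k`. By
`exists_lagrangian` and `natDegree_dvd_finrank_sub` `deg f ∣ r`, so `deg f = 1` or `r` (`r` prime). If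
`deg f = 1`: `RR Y = 0` by `trace_of_deg_one`. If `deg f = r` and `k = 1` we are done. If `k ≥ 2`, then
`deg (minpoly) = k r ≥ 2r = dim`, so `= 2r` (`minpoly ∣ charpoly`), and by `commutant_of_cyclic` `J` is a
polynomial in `z`, so it is self-adjoint; but it is skew (`J_mem_skew`) and `J ≠ 0`, contradiction. -/
theorem good_imp (S : Data p r E) (Y : AE p E) (hY : Y ∈ S.orbJ)
    (h : S.C S.J ⊓ S.C Y ≤ pm (ZMod p) (VV E)) :
    (Irreducible (minpoly (ZMod p) (S.zz Y)) ∧ (minpoly (ZMod p) (S.zz Y)).natDegree = r) ∨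
      S.RR Y = 0 := by
  have hsk : Y ∈ S.skew := S.orbJ_skew Y hY
  have hzsym := S.zz_sym Y hsk
  have hzs : S.adj (S.zz Y) = S.zz Y := (S.mem_sym_iff _).mp hzsym
  have hfr := S.finrank_VV
  have hrpos := S.r_pos
  have : Nontrivial (VV E) := by
    apply Module.nontrivial_of_finrank_pos (R := ZMod p)
    rw [hfr]; omega
  obtain ⟨f, k, hf, hfm, hk, hmin⟩ := minpoly_primary (S.zz Y)
    (fun q hq => S.idem_trivial Y hY h q hq)
  have hz0 : aeval (S.zz Y) (f ^ k) = 0 := by rw [← hmin]; exact minpoly.aeval _ _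
  obtain ⟨W, hW, hWr⟩ := exists_lagrangian S.two_ne S.B_isAlt S.B_nondeg (S.zz Y) hzsym
  have hWr2 : Module.finrank (ZMod p) W = r := by omega
  have hdvd := natDegree_dvd_finrank_sub (S.zz Y) f hf k hz0 W hW
  rw [hWr2] at hdvd
  rcases (Nat.dvd_prime S.r_prime).mp hdvd with hd | hd
  · right
    have h1 := trace_of_deg_one (S.zz Y) f hd hfm k hz0
    unfold RR
    rw [← h1, hfr]
    push_cast
    ring
  · rcases Nat.lt_or_ge k 2 with hk2 | hk2
    · left
      have hk1 : k = 1 := by omega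
      rw [hmin, hk1, pow_one]
      exact ⟨hf, hd⟩
    · exfalso
      have hdeg : (minpoly (ZMod p) (S.zz Y)).natDegree = k * r := by
        rw [hmin, natDegree_pow, hd]
      have hle : (minpoly (ZMod p) (S.zz Y)).natDegree ≤ Module.finrank (ZMod p) (VV E) := by
        rw [← LinearMap.charpoly_natDegree (S.zz Y)]
        exact natDegree_le_of_dvd (LinearMap.minpoly_dvd_charpoly _)
          (LinearMap.charpoly_monic _).ne_zero
      have heq : (minpoly (ZMod p) (S.zz Y)).natDegree = Module.finrank (ZMod p) (VV E) := by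
        rw [hfr] at hle ⊢
        rw [hdeg] at hle ⊢
        nlinarith
      obtain ⟨q, hq⟩ := commutant_of_cyclic (S.zz Y) heq S.J (S.zz_comm_J Y).symm
      have h1 : S.adj S.J = S.J := by rw [hq]; exact adj_aeval S _ hzs q
      rw [S.adj_J] at h1
      have h2 : (2 : ZMod p) • S.J = 0 := by
        rw [two_smul]
        nth_rewrite 1 [← h1]
        exact neg_add_cancel _
      have h3 : S.J = 0 := by
        rcases smul_eq_zero.mp h2 with h4 | h4
        · exact absurd h4 S.two_ne
        · exact h4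
      have h4 := S.J_mul_J
      rw [h3, mul_zero] at h4
      rcases smul_eq_zero.mp h4.symm with h5 | h5
      · exact S.lam_ne h5
      · exact one_ne_zero h5

end Data

end Pool.Agent.MP971469
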