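import Pool.Agent.Lib.MP_971469_al.S1_Basic
import Pool.Agent.Lib.MP_971469_al.Z3_Good

/-! Z4: the quantity `RR` along a transvection subgroup. -/

namespace Pool.Agent.MP971469

namespace Data

variable {p r : ℕ} [Fact p.Prime] {E : Type} [Field E] [Finite E] [Algebra (ZMod p) E]

open Polynomial

/-- The vector `1 ∈ E`. -/
noncomputable def one' (_ : Data p r E) : VV E := (toE p).symm 1

/-- `μ = B (J 1) 1 = Tr (j²) = 2 r lam ≠ 0`. -/
theorem mu_ne (S : Data p r E) : S.B (S.J S.one') S.one' ≠ 0 := by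
  have h1 : S.B (S.J S.one') S.one' = 2 * (r : ZMod p) * S.lam := by
    rw [S.B_apply]
    unfold J one'
    rw [toE_mE]
    simp only [LinearEquiv.apply_symm_apply, mul_one, map_one]
    rw [S.j_sq, Algebra.trace_algebraMap, S.finrank_E]
    simp
  rw [h1]
  exact mul_ne_zero (mul_ne_zero S.two_ne S.r_ne) S.lam_ne

private theorem Z4_NXN (S : Data p r E) (X : AE p E) :
    nn S.B S.one' * X * nn S.B S.one' = S.B (X S.one') S.one' • nn S.B S.one' := by
  apply LinearMap.ext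
  intro v
  simp only [Module.End.mul_apply, nn_apply, map_smul, LinearMap.smul_apply, smul_smul]
  rw [mul_comm]

private theorem Z4_tr (S : Data p r E) (X : AE p E) :
    LinearMap.trace (ZMod p) (VV E) (X * nn S.B S.one') = S.B (X S.one') S.one' := by
  have h : X * nn S.B S.one' = (S.B.flip S.one').smulRight (X S.one') := by
    apply LinearMap.ext
    intro v
    simp [Module.End.mul_apply]
  rw [h, LinearMap.trace_smulRight]
  rfl

private theorem Z4_NN (S : Data p r E) : nn S.B S.one' * nn S.B S.one' = 0 :=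
  nn_sq S.B_isAlt S.one'

private theorem Z4_trz (S : Data p r E) :
    LinearMap.trace (ZMod p) (VV E) (S.zz (nn S.B S.one')) =
      2 * S.B (S.J S.one') S.one' := by
  unfold zz
  rw [map_add, LinearMap.trace_mul_comm _ (nn S.B S.one') S.J, Z4_tr]
  ring

private theorem Z4_trzz (S : Data p r E) :
    LinearMap.trace (ZMod p) (VV E) (S.zz (nn S.B S.one') * S.zz (nn S.B S.one')) =
      2 * (S.B (S.J S.one') S.one') ^ 2 := by
  set N := nn S.B S.one' with hN
  set μ := S.B (S.J S.one') S.one' with hμ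
  have h1 : N * S.J * N = μ • N := Z4_NXN S S.J
  have h2 : N * N = 0 := Z4_NN S
  have h3 : S.zz N * S.zz N = μ • (S.J * N) + μ • (N * S.J) := by
    unfold zz
    have e1 : (S.J * N + N * S.J) * (S.J * N + N * S.J) =
        S.J * (N * S.J * N) + S.J * (N * N) * S.J + N * (S.J * S.J) * N +
          (N * S.J * N) * S.J := by
      noncomm_ring
    rw [e1, h1, h2, S.J_mul_J]
    simp only [mul_smul_comm, smul_mul_assoc, mul_one, mul_zero, zero_mul, add_zero, h2, smul_zero]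
  rw [h3, map_add, map_smul, map_smul, LinearMap.trace_mul_comm _ N S.J]
  rw [show LinearMap.trace (ZMod p) (VV E) (S.J * N) = μ from Z4_tr S S.J]
  simp only [smul_eq_mul]
  ring

private theorem Z4_cj (S : Data p r E) (Y : AE p E) (ε : ZMod p) :
    cj (tv S.B_isAlt S.one' ε) Y = Y + ε • (nn S.B S.one' * Y - Y * nn S.B S.one') -
      (ε ^ 2 * S.B (Y S.one') S.one') • nn S.B S.one' := by
  have h1 := Z4_NXN S Y
  have h0 : cj (tv S.B_isAlt S.one' ε) Y =
      (1 + ε • nn S.B S.one') * Y * (1 - ε • nn S.B S.one') := rfl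
  rw [h0]
  have h2 : (1 + ε • nn S.B S.one') * Y * (1 - ε • nn S.B S.one') =
      Y + ε • (nn S.B S.one' * Y - Y * nn S.B S.one') -
        (ε * ε) • (nn S.B S.one' * Y * nn S.B S.one') := by
    simp only [add_mul, mul_sub, one_mul, mul_one, smul_mul_assoc, mul_smul_comm, smul_sub,
      smul_add, smul_smul]
    abel
  rw [h2, h1, smul_smul]
  congr 2
  ring

private theorem Z4_zz (S : Data p r E) (X Y Z : AE p E) (a b : ZMod p) :
    S.zz (X + a • Y - b • Z) = S.zz X + a • S.zz Y - b • S.zz Z := by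
  unfold zz
  simp only [mul_add, mul_sub, add_mul, sub_mul, smul_mul_assoc, mul_smul_comm, smul_add]
  abel

/-- Proof: let `u = one'`, `N = nn S.B u` (`N v = B v u • u`, `N² = 0`), `t_ε = 1 + ε N`,
`t_ε⁻¹ = 1 - ε N`. `Y_ε = t_ε Y t_ε⁻¹ = Y + ε (N Y - Y N) - ε² N Y N`, `N Y N = κ N` with
`κ = B (Y u) u`. So `zz Y_ε = z₀ + ε z₁ - ε² κ (J N + N J)`, and `RR Y_ε` is a polynomial in `ε` of
degree `≤ 4` with coefficient of `ε⁴` equal to
`κ² (2 r tr ((J N + N J)²) - (tr (J N + N J))²) = κ² (2 r * 2 μ² - 4 μ²) = 4 (r-1) κ² μ²`,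
because `tr (J N) = tr (N J) = μ := B (J u) u`, `tr (J N J N) = μ²`, `N² = 0`, `J² = lam`. -/
theorem RR_poly (S : Data p r E) (Y : AE p E) :
    ∃ P : (ZMod p)[X], P.natDegree ≤ 4 ∧
      P.coeff 4 = 4 * ((r : ZMod p) - 1) * (S.B (Y S.one') S.one') ^ 2 *
        (S.B (S.J S.one') S.one') ^ 2 ∧
      ∀ ε : ZMod p, P.eval ε = S.RR (cj (tv S.B_isAlt S.one' ε) Y) := by
  set N := nn S.B S.one' with hN
  set κ := S.B (Y S.one') S.one' with hκ
  set μ := S.B (S.J S.one') S.one' with hμ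
  set z0 := S.zz Y with hz0
  set z1 := S.zz (N * Y - Y * N) with hz1
  set z2 := S.zz N with hz2
  set tr := LinearMap.trace (ZMod p) (VV E) with htr
  have ht2 : tr z2 = 2 * μ := Z4_trz S
  have ht22 : tr (z2 * z2) = 2 * μ ^ 2 := Z4_trzz S
  refine ⟨Polynomial.C (2 * (r : ZMod p) * tr (z0 * z0) - tr z0 ^ 2) +
    Polynomial.C (2 * (r : ZMod p) * (tr (z0 * z1) + tr (z1 * z0)) - 2 * tr z0 * tr z1) * X +
    Polynomial.C (2 * (r : ZMod p) * (tr (z1 * z1) - κ * tr (z0 * z2) - κ * tr (z2 * z0)) -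
      (tr z1 ^ 2 - 2 * κ * tr z0 * tr z2)) * X ^ 2 +
    Polynomial.C (2 * (r : ZMod p) * (-(κ * tr (z1 * z2)) - κ * tr (z2 * z1)) +
      2 * κ * tr z1 * tr z2) * X ^ 3 +
    Polynomial.C (4 * ((r : ZMod p) - 1) * κ ^ 2 * μ ^ 2) * X ^ 4, ?_, ?_, ?_⟩
  · compute_degree
  · simp only [coeff_add, coeff_C_mul, coeff_X_pow, coeff_C, coeff_X]
    norm_num
  · intro ε
    have h1 : S.zz (cj (tv S.B_isAlt S.one' ε) Y) = z0 + ε • z1 - (ε ^ 2 * κ) • z2 := by
      rw [Z4_cj, Z4_zz]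
    unfold RR
    rw [h1]
    have h2 : (z0 + ε • z1 - (ε ^ 2 * κ) • z2) * (z0 + ε • z1 - (ε ^ 2 * κ) • z2) =
        z0 * z0 + ε • (z0 * z1) + ε • (z1 * z0) + (ε * ε) • (z1 * z1) -
        (ε ^ 2 * κ) • (z0 * z2) - (ε ^ 2 * κ) • (z2 * z0) -
        (ε * (ε ^ 2 * κ)) • (z1 * z2) - (ε * (ε ^ 2 * κ)) • (z2 * z1) +
        ((ε ^ 2 * κ) * (ε ^ 2 * κ)) • (z2 * z2) := by
      simp only [add_mul, mul_add, sub_mul, mul_sub, smul_mul_assoc, mul_smul_comm, smul_smul,
        smul_add, smul_sub]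
      rw [mul_comm (ε ^ 2 * κ) ε]
      abel
    rw [h2]
    simp only [eval_add, eval_mul, Polynomial.eval_C, eval_X, eval_pow]
    simp only [map_add, map_sub, map_smul, smul_eq_mul]
    rw [← htr, ht2, ht22]
    ring

/-- If `κ ≠ 0` at most four `ε` have `RR (Y_ε) = 0`. -/
theorem card_eps (S : Data p r E) (Y : AE p E) (hκ : S.B (Y S.one') S.one' ≠ 0) :
    Nat.card {ε : ZMod p // S.RR (cj (tv S.B_isAlt S.one' ε) Y) = 0} ≤ 4 := by
  classical
  obtain ⟨P, h1, h2, h3⟩ := S.RR_poly Y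
  have hP : P ≠ 0 := by
    rintro rfl
    rw [coeff_zero] at h2
    have h4 : (4 : ZMod p) ≠ 0 := by
      have : (4 : ZMod p) = 2 * 2 := by norm_num
      rw [this]
      exact mul_ne_zero S.two_ne S.two_ne
    exact (mul_ne_zero (mul_ne_zero (mul_ne_zero h4 S.r1_ne) (pow_ne_zero 2 hκ))
      (pow_ne_zero 2 S.mu_ne)) h2.symm
  have h5 : {ε : ZMod p | S.RR (cj (tv S.B_isAlt S.one' ε) Y) = 0} ⊆ (P.roots.toFinset : Set _) := by
    intro ε hε
    simp only [Finset.mem_coe, Multiset.mem_toFinset]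
    rw [mem_roots hP, IsRoot, h3 ε]
    exact hε
  calc Nat.card {ε : ZMod p // S.RR (cj (tv S.B_isAlt S.one' ε) Y) = 0}
      = ({ε : ZMod p | S.RR (cj (tv S.B_isAlt S.one' ε) Y) = 0}).ncard := rfl
    _ ≤ ((P.roots.toFinset : Set (ZMod p))).ncard := Set.ncard_le_ncard h5 (Finset.finite_toSet _)
    _ = P.roots.toFinset.card := Set.ncard_coe_finset _
    _ ≤ Multiset.card P.roots := P.roots.toFinset_card_le
    _ ≤ P.natDegree := card_roots' P
    _ ≤ 4 := h1

end Data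

end Pool.Agent.MP971469
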