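import Pool.Agent.Lib.MP_971469_al.Z4_RPoly
import Pool.Agent.Lib.MP_971469_al.S2_Trans

/-! Z5: most `g ∈ Sp` have `RR (g J g⁻¹) ≠ 0`. -/

namespace Pool.Agent.MP971469

private theorem z5_dc {X T : Type} [Finite X] [Finite T] (e : T → X ≃ X) (A : X → Prop) (c : ℕ)
    (h : ∀ x, Nat.card {t // A (e t x)} ≤ c) :
    Nat.card T * Nat.card {x // A x} ≤ c * Nat.card X := by
  classical
  have := Fintype.ofFinite X
  have := Fintype.ofFinite T
  have h1 : ∀ t, ((Finset.univ : Finset X).filter (fun x => A (e t x))).card =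
      Nat.card {x // A x} := by
    intro t
    rw [Nat.card_eq_fintype_card, Fintype.card_subtype]
    refine Finset.card_bij (fun x _ => e t x) ?_ ?_ ?_
    · intro x hx
      simpa using hx
    · intro x _ y _ hxy
      exact (e t).injective hxy
    · intro y hy
      refine ⟨(e t).symm y, ?_, by simp⟩
      simpa using hy
  have h2 : ∀ x, ((Finset.univ : Finset T).filter (fun t => A (e t x))).card ≤ c := by
    intro x
    have := h x
    rwa [Nat.card_eq_fintype_card, Fintype.card_subtype] at this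
  calc Nat.card T * Nat.card {x // A x}
      = ∑ t : T, ((Finset.univ : Finset X).filter (fun x => A (e t x))).card := by
        rw [Finset.sum_congr rfl (fun t _ => h1 t), Finset.sum_const, smul_eq_mul,
          Finset.card_univ, Nat.card_eq_fintype_card (α := T)]
    _ = ∑ x : X, ((Finset.univ : Finset T).filter (fun t => A (e t x))).card :=
        Finset.sum_card_bipartiteAbove_eq_sum_card_bipartiteBelow (fun t x => A (e t x))
    _ ≤ ∑ _x : X, c := Finset.sum_le_sum fun x _ => h2 x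
    _ = c * Nat.card X := by
        rw [Finset.sum_const, smul_eq_mul, Finset.card_univ, Nat.card_eq_fintype_card, mul_comm]

private theorem z5_fib {X Y : Type} [Finite X] [Finite Y] (φ : X → Y) (f : ℕ)
    (h : ∀ y, Nat.card {x // φ x = y} = f) (S : Y → Prop) :
    Nat.card {x // S (φ x)} = Nat.card {y // S y} * f := by
  classical
  have := Fintype.ofFinite X
  have := Fintype.ofFinite Y
  rw [Nat.card_eq_fintype_card, Fintype.card_subtype, Nat.card_eq_fintype_card,
    Fintype.card_subtype]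
  have hm : Set.MapsTo φ ((Finset.univ.filter (fun x => S (φ x)) : Finset X) : Set X)
      ((Finset.univ.filter S : Finset Y) : Set Y) := by
    intro x hx
    simpa using hx
  rw [Finset.card_eq_sum_card_fiberwise hm]
  refine Finset.sum_const_nat ?_
  intro y hy
  rw [← h y, Nat.card_eq_fintype_card, Fintype.card_subtype]
  congr 1
  ext x
  simp only [Finset.mem_filter, Finset.mem_univ, true_and, and_iff_right_iff_imp]
  rintro rfl
  simpa using hy

private theorem z5_pt {X : Type} [Finite X] [Zero X] (A : X → Prop) (h0 : A 0) :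
    Nat.card {x // A x} = Nat.card {x : {x : X // x ≠ 0} // A x.1} + 1 := by
  classical
  have := Fintype.ofFinite X
  have e : Nat.card {x : {x : X // x ≠ 0} // A x.1} = Nat.card {x : X // x ≠ 0 ∧ A x} :=
    Nat.card_congr (Equiv.subtypeSubtypeEquivSubtypeInter (fun x : X => x ≠ 0) A)
  rw [e, Nat.card_eq_fintype_card, Fintype.card_subtype, Nat.card_eq_fintype_card,
    Fintype.card_subtype]
  have h1 : (Finset.univ.filter A : Finset X) =
      insert 0 (Finset.univ.filter (fun x : X => x ≠ 0 ∧ A x)) := by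
    ext x
    simp only [Finset.mem_filter, Finset.mem_univ, true_and, Finset.mem_insert]
    constructor
    · intro hx
      by_cases h : x = 0
      · exact Or.inl h
      · exact Or.inr ⟨h, hx⟩
    · rintro (rfl | h)
      · exact h0
      · exact h.2
  rw [h1, Finset.card_insert_of_notMem (by simp)]

private theorem z5_quad {K : Type} [Field K] [Finite K] (a b c : K) (ha : a ≠ 0) :
    Nat.card {t : K // a * t ^ 2 + b * t + c = 0} ≤ 2 := by
  classical
  have := Fintype.ofFinite K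
  rw [Nat.card_eq_fintype_card, Fintype.card_subtype]
  set P : Polynomial K := Polynomial.C a * Polynomial.X ^ 2 + Polynomial.C b * Polynomial.X +
    Polynomial.C c with hP
  have hd : P.natDegree = 2 := Polynomial.natDegree_quadratic ha
  have hP0 : P ≠ 0 := by
    intro h
    rw [h] at hd
    simp at hd
  calc (Finset.univ.filter (fun t : K => a * t ^ 2 + b * t + c = 0)).card
      ≤ P.roots.toFinset.card := by
        refine Finset.card_le_card ?_
        intro t ht
        rw [Multiset.mem_toFinset, Polynomial.mem_roots hP0, Polynomial.IsRoot.def]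
        simpa [hP] using ht
    _ ≤ Multiset.card P.roots := Multiset.toFinset_card_le _
    _ ≤ P.natDegree := P.card_roots'
    _ = 2 := hd

namespace Data

variable {p r : ℕ} [Fact p.Prime] {E : Type} [Field E] [Finite E] [Algebra (ZMod p) E]

private theorem z5_one_ne (S : Data p r E) : S.one' ≠ 0 := by
  unfold one'
  simp

private theorem z5_finite : Finite (AE p E)ˣ := by
  have : Finite (AE p E) := by
    unfold AE Module.End
    exact DFunLike.finite _
  infer_instance

private theorem z5_kappa (S : Data p r E) (g : (AE p E)ˣ) (hg : g ∈ S.Sp) (Y : AE p E)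
    (u : VV E) :
    S.B ((cj g Y) u) u =
      S.B (Y (((g⁻¹ : (AE p E)ˣ) : AE p E) u)) (((g⁻¹ : (AE p E)ˣ) : AE p E) u) := by
  have h1 := SpGroup_apply hg (Y (((g⁻¹ : (AE p E)ˣ) : AE p E) u))
    (((g⁻¹ : (AE p E)ˣ) : AE p E) u)
  rw [unit_apply_inv] at h1
  rw [← h1]
  rfl

private theorem z5_card_sub (S : Data p r E) (A : (AE p E)ˣ → Prop) :
    Nat.card {g : (AE p E)ˣ // g ∈ S.Sp ∧ A g} = Nat.card {g : S.Sp // A g.1} :=
  (Nat.card_congr (Equiv.subtypeSubtypeEquivSubtypeInter (fun g => g ∈ S.Sp) A)).symm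

private theorem z5_lines (S : Data p r E) :
    p * Nat.card {v : VV E // S.B (S.J v) v = 0} ≤ 2 * Nat.card (VV E) := by
  have h := z5_dc (X := VV E) (T := ZMod p) (fun t => Equiv.addRight (t • S.one'))
    (fun v => S.B (S.J v) v = 0) 2 ?_
  · rwa [Nat.card_zmod] at h
  intro v
  have e : ∀ t : ZMod p, S.B (S.J ((Equiv.addRight (t • S.one')) v))
      ((Equiv.addRight (t • S.one')) v) =
      S.B (S.J S.one') S.one' * t ^ 2 + (S.B (S.J v) S.one' + S.B (S.J S.one') v) * t +
        S.B (S.J v) v := by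
    intro t
    simp only [Equiv.coe_addRight, map_add, map_smul, LinearMap.add_apply, LinearMap.smul_apply,
      smul_eq_mul]
    ring
  simp only [e]
  exact z5_quad _ _ _ S.mu_ne

/-- Proof: `B (g J g⁻¹ u) u = B (J v) v` with `v = g⁻¹ u ≠ 0`. As `g` runs over `Sp`, `v = g⁻¹ u` takes
each nonzero value equally often (transitivity, `tv_trans`, `TvGroup_le`). The number of `v ∈ E` with
`q(v) = B (J v) v = 0` is at most `2 p^(2r-1)`: on each line `v + τ u`, `τ ∈ F_p`, the function `q` is a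
polynomial of degree two with leading coefficient `q(u) ≠ 0` (`mu_ne`). One of them is `v = 0`, so
the number of nonzero ones is at most `2 p^(2r-1) - 1 ≤ (2/p)(p^(2r) - 1)`. -/
theorem card_kappa (S : Data p r E) :
    p * Nat.card {g : (AE p E)ˣ // g ∈ S.Sp ∧ S.B ((cj g S.J) S.one') S.one' = 0} ≤
      2 * Nat.card S.Sp := by
  have : Finite (AE p E)ˣ := z5_finite
  rw [z5_card_sub S (fun g => S.B ((cj g S.J) S.one') S.one' = 0)]
  have hne : ∀ g : (AE p E)ˣ, (((g⁻¹ : (AE p E)ˣ) : AE p E) S.one') ≠ 0 := by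
    intro g h
    apply z5_one_ne S
    rw [← unit_apply_inv g S.one', h, map_zero]
  let φ : S.Sp → {v : VV E // v ≠ 0} := fun g => ⟨((g.1⁻¹ : (AE p E)ˣ) : AE p E) S.one', hne g.1⟩
  have hfib : ∀ y, Nat.card {g // φ g = y} = Nat.card {g // φ g = ⟨S.one', z5_one_ne S⟩} := by
    rintro ⟨v, hv⟩
    obtain ⟨h, hh, hhv⟩ := tv_trans S.B_isAlt S.B_nondeg v S.one' hv (z5_one_ne S)
    have hh' : h ∈ S.Sp := TvGroup_le S.B_isAlt hh
    refine Nat.card_congr ((Equiv.mulRight (⟨h, hh'⟩ : S.Sp)⁻¹).subtypeEquiv ?_)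
    intro g
    have e1 : ((((Equiv.mulRight (⟨h, hh'⟩ : S.Sp)⁻¹) g).1⁻¹ : (AE p E)ˣ) : AE p E) S.one' =
        (h : AE p E) (((g.1⁻¹ : (AE p E)ˣ) : AE p E) S.one') := by
      simp only [Equiv.coe_mulRight, Subgroup.coe_mul, Subgroup.coe_inv, mul_inv_rev, inv_inv,
        Units.val_mul, Module.End.mul_apply]
    constructor
    · intro hg
      have h2 : ((g.1⁻¹ : (AE p E)ˣ) : AE p E) S.one' = v := congrArg Subtype.val hg
      apply Subtype.ext
      show ((((Equiv.mulRight (⟨h, hh'⟩ : S.Sp)⁻¹) g).1⁻¹ : (AE p E)ˣ) : AE p E) S.one' = S.one'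
      rw [e1, h2, hhv]
    · intro hg
      have h2 : ((((Equiv.mulRight (⟨h, hh'⟩ : S.Sp)⁻¹) g).1⁻¹ : (AE p E)ˣ) : AE p E) S.one' =
          S.one' := congrArg Subtype.val hg
      rw [e1] at h2
      apply Subtype.ext
      show ((g.1⁻¹ : (AE p E)ˣ) : AE p E) S.one' = v
      rw [← unit_inv_apply h (((g.1⁻¹ : (AE p E)ˣ) : AE p E) S.one'), h2, ← hhv, unit_inv_apply]
  set f := Nat.card {g // φ g = ⟨S.one', z5_one_ne S⟩} with hf
  have h1 := z5_fib φ f hfib (fun v => S.B (S.J v.1) v.1 = 0)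
  have h2 := z5_fib φ f hfib (fun _ => True)
  have h3 : Nat.card {g : S.Sp // S.B ((cj g.1 S.J) S.one') S.one' = 0} =
      Nat.card {g : S.Sp // S.B (S.J (φ g).1) (φ g).1 = 0} := by
    refine Nat.card_congr (Equiv.subtypeEquivRight fun g => ?_)
    rw [z5_kappa S g.1 g.2]
  have h4 : Nat.card {g : S.Sp // True} = Nat.card S.Sp :=
    Nat.card_congr (Equiv.subtypeUnivEquiv fun _ => trivial)
  have h5 := z5_pt (X := VV E) (fun v => S.B (S.J v) v = 0) (by simp)
  have h6 := z5_pt (X := VV E) (fun _ => True) trivial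
  have h7 : Nat.card {v : VV E // True} = Nat.card (VV E) :=
    Nat.card_congr (Equiv.subtypeUnivEquiv fun _ => trivial)
  have h8 := z5_lines S
  have hp : 2 ≤ p := (Fact.out : p.Prime).two_le
  rw [h3, h1, ← h4, h2]
  rw [h5, ← h7, h6] at h8
  have h9 : p * Nat.card {x : {x : VV E // x ≠ 0} // S.B (S.J x.1) x.1 = 0} ≤
      2 * Nat.card {x : {x : VV E // x ≠ 0} // True} := by
    nlinarith
  calc p * (Nat.card {x : {x : VV E // x ≠ 0} // S.B (S.J x.1) x.1 = 0} * f)
      = (p * Nat.card {x : {x : VV E // x ≠ 0} // S.B (S.J x.1) x.1 = 0}) * f := by ring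
    _ ≤ (2 * Nat.card {x : {x : VV E // x ≠ 0} // True}) * f := Nat.mul_le_mul_right _ h9
    _ = 2 * (Nat.card {x : {x : VV E // x ≠ 0} // True} * f) := by ring

private theorem z5_kappa_tv (S : Data p r E) (ε : ZMod p) (Y : AE p E) :
    S.B ((cj (tv S.B_isAlt S.one' ε) Y) S.one') S.one' = S.B (Y S.one') S.one' := by
  rw [z5_kappa S _ (tv_mem S.B_isAlt S.one' ε), tv_inv,
    tv_fix S.B_isAlt S.one' (-ε) S.one' (S.B_isAlt S.one')]

/-- Proof: double counting of pairs `(g, ε)`: `κ (cj t_ε Y) = κ(Y)` because `t_ε u = u` and `t_ε ∈ Sp`.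
For `g ∈ Sp` with `κ (cj g J) ≠ 0` there are at most 4 values `ε` with `RR (cj (t_ε g) J) = 0`
(`card_eps`); for each `ε` the map `g ↦ t_ε g` is a bijection of `{g ∈ Sp : κ ≠ 0}`. So
`p * #{g : κ ≠ 0, RR = 0} ≤ 4 |Sp|`. -/
theorem card_RR_kappa (S : Data p r E) :
    p * Nat.card {g : (AE p E)ˣ // g ∈ S.Sp ∧ S.B ((cj g S.J) S.one') S.one' ≠ 0 ∧
      S.RR (cj g S.J) = 0} ≤ 4 * Nat.card S.Sp := by
  have : Finite (AE p E)ˣ := z5_finite
  rw [z5_card_sub S (fun g => S.B ((cj g S.J) S.one') S.one' ≠ 0 ∧ S.RR (cj g S.J) = 0)]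
  have h := z5_dc (X := S.Sp) (T := ZMod p)
    (fun t => Equiv.mulLeft (⟨tv S.B_isAlt S.one' t, tv_mem S.B_isAlt S.one' t⟩ : S.Sp))
    (fun g => S.B ((cj g.1 S.J) S.one') S.one' ≠ 0 ∧ S.RR (cj g.1 S.J) = 0) 4 ?_
  · rwa [Nat.card_zmod] at h
  intro g
  have e : ∀ t : ZMod p, cj ((Equiv.mulLeft
      (⟨tv S.B_isAlt S.one' t, tv_mem S.B_isAlt S.one' t⟩ : S.Sp)) g).1 S.J =
      cj (tv S.B_isAlt S.one' t) (cj g.1 S.J) := by
    intro t
    simp only [Equiv.coe_mulLeft, Subgroup.coe_mul]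
    rw [cj_mul]
  simp only [e, z5_kappa_tv]
  by_cases hκ : S.B ((cj g.1 S.J) S.one') S.one' = 0
  · have : IsEmpty {t : ZMod p // S.B ((cj g.1 S.J) S.one') S.one' ≠ 0 ∧
        S.RR (cj (tv S.B_isAlt S.one' t) (cj g.1 S.J)) = 0} := ⟨fun x => x.2.1 hκ⟩
    simp
  · refine le_trans ?_ (card_eps S (cj g.1 S.J) hκ)
    exact Nat.card_le_card_of_injective
      (fun x : {t : ZMod p // S.B ((cj g.1 S.J) S.one') S.one' ≠ 0 ∧
        S.RR (cj (tv S.B_isAlt S.one' t) (cj g.1 S.J)) = 0} =>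
        (⟨x.1, x.2.2⟩ : {t : ZMod p // S.RR (cj (tv S.B_isAlt S.one' t) (cj g.1 S.J)) = 0}))
      (fun x y hxy => Subtype.ext (congrArg (fun z => z.1) hxy))

theorem card_RR (S : Data p r E) :
    p * Nat.card {g : (AE p E)ˣ // g ∈ S.Sp ∧ S.RR (cj g S.J) = 0} ≤ 6 * Nat.card S.Sp := by
  have : Finite (AE p E)ˣ := z5_finite
  have h1 := card_kappa S
  have h2 := card_RR_kappa S
  have h3 : Nat.card {g : (AE p E)ˣ // g ∈ S.Sp ∧ S.RR (cj g S.J) = 0} ≤
      Nat.card {g : (AE p E)ˣ // g ∈ S.Sp ∧ S.B ((cj g S.J) S.one') S.one' = 0} +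
      Nat.card {g : (AE p E)ˣ // g ∈ S.Sp ∧ S.B ((cj g S.J) S.one') S.one' ≠ 0 ∧
        S.RR (cj g S.J) = 0} := by
    have e1 : ∀ A : (AE p E)ˣ → Prop, Nat.card {g // A g} = Set.ncard {g | A g} := fun A => rfl
    rw [e1, e1, e1]
    refine le_trans (Set.ncard_le_ncard ?_ (Set.toFinite _)) (Set.ncard_union_le _ _)
    intro g hg
    by_cases hκ : S.B ((cj g S.J) S.one') S.one' = 0
    · exact Or.inl ⟨hg.1, hκ⟩
    · exact Or.inr ⟨hg.1, hκ, hg.2⟩
  have h4 := Nat.mul_le_mul_left p h3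
  rw [Nat.mul_add] at h4
  linarith

end Data

end Pool.Agent.MP971469
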