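import Pool.Agent.Lib.MP_971469_al.M07_Skew

/-! Z6: transport of the form: an `F_p`-linear bijection under which `E` acts with adjoint `bar` can be
corrected to an element of `Sp`. -/

namespace Pool.Agent.MP971469

namespace Data

variable {p r : ℕ} [Fact p.Prime] {E : Type} [Field E] [Finite E] [Algebra (ZMod p) E]

/-- Let `θ` be a linear automorphism of the `F_p`-space `E` such that for the form
`B'(x,y) = B (θ x) (θ y)` one has `B'(a x, y) = B'(x, bar(a) y)` for all `a ∈ E`. Then there is `ν ≠ 0` in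
`E` such that `θ ∘ ν⁻¹ ∈ Sp`. Proof: `B'(x,y) = B'(x bar(y), 1) = Tr (c x bar y)` for some `c ∈ E`
(trace form is perfect). `B'` is alternating: `Tr (c x bar x) = 0` for all `x`; as `x bar x` takes all
values in `F` (`norm_surj`), and `Tr (c f) = Tr (bar(c) f)` for `f ∈ F`, `Tr ((c + bar c) f) = 0` for all
`f ∈ F`, and also for all `f ∈ E⁻` (trace of an element of `E⁻` is zero), so `c + bar c = 0`
(`trace_nondeg`, `E = F + E⁻`). `c ≠ 0` by nondegeneracy; `c = j f` (`em_iff`), `f = ν bar ν`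
(`norm_surj`). `B'(x,y) = Tr (j (ν x) bar (ν y)) = B (ν x) (ν y)`. So
`B (θ ν⁻¹ x) (θ ν⁻¹ y) = B'(ν⁻¹ x, ν⁻¹ y) = B x y`. -/
theorem transport (S : Data p r E) (θ : (AE p E)ˣ)
    (h : ∀ (a : E) (x y : VV E), S.B ((θ : AE p E) (mE p a x)) ((θ : AE p E) y) =
      S.B ((θ : AE p E) x) ((θ : AE p E) (mE p (S.bar a) y))) :
    ∃ (ν : E) (g : (AE p E)ˣ), ν ≠ 0 ∧ g ∈ S.Sp ∧ (g : AE p E) = (θ : AE p E) * mE p ν⁻¹ := by
  have hcomm : ∀ a : E, mE p (S.bar a) * (S.adj (θ : AE p E) * θ) =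
      (S.adj (θ : AE p E) * θ) * mE p (S.bar a) := by
    intro a
    apply LinearMap.ext
    intro y
    rw [← sub_eq_zero]
    apply S.B_nondeg'
    intro x
    rw [map_sub, sub_eq_zero]
    have h2 : S.B x ((mE p (S.bar a) * (S.adj (θ : AE p E) * θ)) y) =
        S.B ((θ : AE p E) (mE p a x)) ((θ : AE p E) y) := by
      rw [Module.End.mul_apply, Module.End.mul_apply, S.B_adj', S.adj_mE, S.bar_bar, ← S.B_adj]
    have h3 : S.B x ((S.adj (θ : AE p E) * θ * mE p (S.bar a)) y) =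
        S.B ((θ : AE p E) x) ((θ : AE p E) (mE p (S.bar a) y)) := by
      rw [Module.End.mul_apply, Module.End.mul_apply, ← S.B_adj]
    rw [h2, h3]
    exact h a x y
  obtain ⟨c, hc⟩ : ∃ c : E, S.adj (θ : AE p E) * θ = mE p c := by
    refine ⟨_, S.eq_mE_of_comm_em _ ?_⟩
    intro a _
    have h1 := hcomm (S.bar a)
    rwa [S.bar_bar] at h1
  have hcb : S.bar c = c := by
    have h1 : S.adj (S.adj (θ : AE p E) * θ) = S.adj (θ : AE p E) * θ := by
      rw [S.adj_mul, S.adj_adj]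
    rw [hc, S.adj_mE] at h1
    exact mE_injective h1
  have hc0 : c ≠ 0 := by
    rintro rfl
    rw [map_zero] at hc
    have h1 : S.adj ((θ⁻¹ : (AE p E)ˣ) : AE p E) * (S.adj (θ : AE p E) * θ) = θ := by
      rw [← mul_assoc, ← S.adj_mul, θ.mul_inv, S.adj_one, one_mul]
    rw [hc, mul_zero] at h1
    have h2 : (1 : AE p E) = 0 := by
      rw [← θ.mul_inv, ← h1, zero_mul]
    have h3 : mE p (1 : E) = mE p (0 : E) := by
      rw [map_one, map_zero, h2]
    exact one_ne_zero (mE_injective h3)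
  obtain ⟨ν, hν, hνc⟩ := S.norm_surj c hcb hc0
  have hbν : S.bar ν ≠ 0 := fun h0 => hν ((map_eq_zero_iff _ (AlgEquiv.injective _)).1 h0)
  obtain ⟨g, hg, hg2⟩ := S.exists_Sp ((θ : AE p E) * mE p ν⁻¹) (by
    rw [S.adj_mul, S.adj_mE, mul_assoc, ← mul_assoc (S.adj (θ : AE p E)), hc, ← map_mul, ← map_mul,
      ← hνc, map_inv₀]
    have h1 : (S.bar ν)⁻¹ * (ν * S.bar ν * ν⁻¹) = 1 := by
      field_simp
    rw [h1, map_one])
  exact ⟨ν, g, hν, hg, hg2⟩

/-- An algebra homomorphism `E → AE` is conjugate to `mE`. Proof: let `ρ : E → AE` be an algebra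
homomorphism; `E` becomes an `E`-vector space of dimension one through `ρ` (its `F_p`-dimension is
`2r = [E:F_p]`), so for `v₀ ≠ 0` the map `θ : a ↦ ρ(a) v₀` is an `F_p`-linear bijection (injective
because each `ρ(a)`, `a ≠ 0`, is invertible), and `θ (a x) = ρ(a) θ(x)`. -/
theorem exists_theta (S : Data p r E) (ρ : E →ₐ[ZMod p] AE p E) :
    ∃ θ : (AE p E)ˣ, ∀ a : E, ρ a = cj θ (mE p a) := by
  set v0 : VV E := (toE p).symm 1 with hv0
  have hv0n : v0 ≠ 0 := by
    intro h0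
    rw [hv0] at h0
    exact one_ne_zero ((LinearEquiv.map_eq_zero_iff (toE p).symm).1 h0)
  let θ0 : AE p E :=
    { toFun := fun x => ρ (toE p x) v0
      map_add' := fun x y => by rw [map_add, map_add, LinearMap.add_apply]
      map_smul' := fun c x => by rw [map_smul, map_smul, LinearMap.smul_apply, RingHom.id_apply] }
  have hθ0 : ∀ x, θ0 x = ρ (toE p x) v0 := fun _ => rfl
  have hker : LinearMap.ker θ0 = ⊥ := by
    rw [LinearMap.ker_eq_bot']
    intro x hx
    by_contra hx0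
    have hx1 : toE p x ≠ 0 := fun h0 => hx0 ((LinearEquiv.map_eq_zero_iff (toE p)).1 h0)
    rw [hθ0] at hx
    have h1 : ρ ((toE p x)⁻¹ * toE p x) v0 = 0 := by
      rw [map_mul, Module.End.mul_apply, hx, map_zero]
    rw [inv_mul_cancel₀ hx1, map_one, Module.End.one_apply] at h1
    exact hv0n h1
  have : FiniteDimensional (ZMod p) (VV E) := Module.Finite.of_finite
  obtain ⟨θ, hθ⟩ := (LinearMap.isUnit_iff_ker_eq_bot θ0).2 hker
  refine ⟨θ, fun a => ?_⟩
  symm
  rw [cj_eq_iff, hθ]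
  apply LinearMap.ext
  intro x
  rw [Module.End.mul_apply, Module.End.mul_apply, hθ0, hθ0, toE_mE, map_mul, Module.End.mul_apply]

end Data

end Pool.Agent.MP971469
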