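import Pool.Agent.Lib.MP_971469_al.Z3_Good
import Pool.Agent.Lib.MP_971469_al.Z6_Transport

/-! Z7: normal form of the pairs with irreducible `z`. -/

namespace Pool.Agent.MP971469

namespace Data

variable {p r : ℕ} [Fact p.Prime] {E : Type} [Field E] [Finite E] [Algebra (ZMod p) E]

/-- The normal forms `a j + b bar`, `a ∈ F \ F_p`, `b * bar b = lam (1 - a²)`. -/
def NN (S : Data p r E) : Set (AE p E) :=
  {Y | ∃ a b : E, S.bar a = a ∧ (∀ c : ZMod p, algebraMap (ZMod p) E c ≠ a) ∧
    b * S.bar b = algebraMap (ZMod p) E S.lam * (1 - a ^ 2) ∧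
    Y = mE p (a * S.j) + mE p b * gE p S.bar}

/-- Elements of a field with `p^r` elements are mapped into `F`. -/
private theorem Z7_bar_phi (S : Data p r E) {K : Type} [Field K] [Algebra (ZMod p) K]
    (hK : Module.finrank (ZMod p) K = r) (φ : K →ₐ[ZMod p] E) (u : K) :
    S.bar (φ u) = φ u := by
  have hfin : Module.Finite (ZMod p) K := by
    apply Module.finite_of_finrank_pos
    rw [hK]
    exact S.r_pos
  have hf : Finite K := Module.finite_of_finite (ZMod p)
  have := Fintype.ofFinite K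
  have h1 : Fintype.card K = p ^ r := by
    rw [← Nat.card_eq_fintype_card, Module.natCard_eq_pow_finrank (K := ZMod p), hK, Nat.card_zmod]
  rw [S.bar_apply, ← map_pow, ← h1, FiniteField.pow_card]

/-- The algebra homomorphism `E → AE` extending `τ` on `F` and `j ↦ J`. -/
private theorem Z7_exists_rho (S : Data p r E) {K : Type} [Field K] [Algebra (ZMod p) K]
    (hK : Module.finrank (ZMod p) K = r) (φ : K →ₐ[ZMod p] E) (τ : K →ₐ[ZMod p] AE p E)
    (hτJ : ∀ u, τ u * S.J = S.J * τ u) (hτa : ∀ u, S.adj (τ u) = τ u) :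
    ∃ ρ : E →ₐ[ZMod p] AE p E, ρ S.j = S.J ∧ (∀ u, ρ (φ u) = τ u) ∧
      ∀ a, S.adj (ρ a) = ρ (S.bar a) := by
  have hfin : Module.Finite (ZMod p) K := by
    apply Module.finite_of_finrank_pos
    rw [hK]
    exact S.r_pos
  have hbar := S.Z7_bar_phi hK φ
  have hφinj : Function.Injective φ := (φ : K →+* E).injective
  -- the linear map `(u, v) ↦ u + v j`
  set ι : (K × K) →ₗ[ZMod p] E :=
    φ.toLinearMap.comp (LinearMap.fst (ZMod p) K K) +
      (LinearMap.mulRight (ZMod p) S.j).comp (φ.toLinearMap.comp (LinearMap.snd (ZMod p) K K))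
    with hι
  have hι' : ∀ u v, ι (u, v) = φ u + φ v * S.j := by
    intro u v
    rw [hι]
    simp
  have hinj : Function.Injective ι := by
    rw [← LinearMap.ker_eq_bot, LinearMap.ker_eq_bot']
    rintro ⟨u, v⟩ h
    rw [hι'] at h
    have h2 : S.bar (φ u + φ v * S.j) = 0 := by rw [h, map_zero]
    rw [map_add, map_mul, hbar, hbar, S.bar_j] at h2
    have h3 : (2 : E) * φ u = 0 := by
      have : (2 : E) * φ u = (φ u + φ v * S.j) + (φ u + φ v * -S.j) := by ring
      rw [this, h, h2, add_zero]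
    have h4 : φ u = 0 := by
      rcases mul_eq_zero.mp h3 with h5 | h5
      · exact absurd h5 S.two_ne'
      · exact h5
    rw [h4, zero_add] at h
    have h5 : φ v = 0 := by
      rcases mul_eq_zero.mp h with h6 | h6
      · exact h6
      · exact absurd h6 S.j_ne
    have h6 : u = 0 := hφinj (by rw [h4, map_zero])
    have h7 : v = 0 := hφinj (by rw [h5, map_zero])
    rw [h6, h7]
    rfl
  have hrank : Module.finrank (ZMod p) (K × K) = Module.finrank (ZMod p) E := by
    rw [Module.finrank_prod, hK, S.finrank_E]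
    ring
  set e : (K × K) ≃ₗ[ZMod p] E := LinearEquiv.ofInjectiveOfFinrankEq ι hinj hrank with he
  have he' : ∀ P, e P = ι P := by
    intro P
    rfl
  set κ : (K × K) →ₗ[ZMod p] AE p E :=
    τ.toLinearMap.comp (LinearMap.fst (ZMod p) K K) +
      (LinearMap.mulRight (ZMod p) S.J).comp (τ.toLinearMap.comp (LinearMap.snd (ZMod p) K K))
    with hκ
  have hκ' : ∀ u v, κ (u, v) = τ u + τ v * S.J := by
    intro u v
    rw [hκ]
    simp
  have hιmul : ∀ u v u' v', ι (u, v) * ι (u', v') =
      ι (u * u' + algebraMap (ZMod p) K S.lam * (v * v'), u * v' + v * u') := by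
    intro u v u' v'
    rw [hι', hι', hι', map_add, map_add, map_mul, map_mul, map_mul, map_mul, map_mul,
      AlgHom.commutes, ← S.j_sq]
    ring
  have hκmul : ∀ u v u' v', κ (u, v) * κ (u', v') =
      κ (u * u' + algebraMap (ZMod p) K S.lam * (v * v'), u * v' + v * u') := by
    intro u v u' v'
    have hJJ : S.J * S.J = algebraMap (ZMod p) (AE p E) S.lam := by
      rw [S.J_mul_J, Algebra.algebraMap_eq_smul_one]
    have hc : ∀ X : AE p E, X * algebraMap (ZMod p) (AE p E) S.lam =
        algebraMap (ZMod p) (AE p E) S.lam * X := fun X => (Algebra.commutes _ _).symm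
    rw [hκ', hκ', hκ', map_add, map_add, map_mul, map_mul, map_mul, map_mul, map_mul,
      AlgHom.commutes]
    rw [add_mul, mul_add, mul_add, add_mul]
    have h1 : τ v * S.J * τ u' = τ v * τ u' * S.J := by
      rw [mul_assoc, ← hτJ, mul_assoc]
    have h2 : τ v * S.J * (τ v' * S.J) =
        algebraMap (ZMod p) (AE p E) S.lam * (τ v * τ v') := by
      rw [← hc, ← hJJ]
      calc τ v * S.J * (τ v' * S.J) = τ v * (S.J * τ v') * S.J := by simp only [mul_assoc]
        _ = τ v * (τ v' * S.J) * S.J := by rw [hτJ]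
        _ = τ v * τ v' * (S.J * S.J) := by simp only [mul_assoc]
    rw [h1, h2, ← mul_assoc (τ u) (τ v') S.J]
    abel
  set ρ0 : E →ₗ[ZMod p] AE p E := κ.comp e.symm.toLinearMap with hρ0
  have hρ : ∀ u v, ρ0 (φ u + φ v * S.j) = τ u + τ v * S.J := by
    intro u v
    rw [← hι', ← he', hρ0, LinearMap.comp_apply, LinearEquiv.coe_coe, LinearEquiv.symm_apply_apply,
      hκ']
  have hsurj : ∀ x : E, ∃ u v, x = φ u + φ v * S.j := by
    intro x
    obtain ⟨⟨u, v⟩, h⟩ := e.surjective x
    exact ⟨u, v, by rw [← hι', ← he', h]⟩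
  have hone : ρ0 1 = 1 := by
    have h := hρ 1 0
    rw [map_one φ, map_zero φ, zero_mul, add_zero, map_one τ, map_zero τ, zero_mul, add_zero] at h
    exact h
  have hmul : ∀ x y, ρ0 (x * y) = ρ0 x * ρ0 y := by
    intro x y
    obtain ⟨u, v, rfl⟩ := hsurj x
    obtain ⟨u', v', rfl⟩ := hsurj y
    have h1 := hιmul u v u' v'
    rw [hι', hι', hι'] at h1
    have h2 := hκmul u v u' v'
    rw [hκ', hκ', hκ'] at h2
    rw [h1, hρ, hρ, hρ, h2]
  refine ⟨AlgHom.ofLinearMap ρ0 hone hmul, ?_, ?_, ?_⟩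
  · have h := hρ 0 1
    rw [map_zero φ, map_one φ, one_mul, zero_add, map_zero τ, map_one τ, one_mul, zero_add] at h
    exact h
  · intro u
    have h := hρ u 0
    rw [map_zero φ, map_zero τ, zero_mul, zero_mul, add_zero, add_zero] at h
    exact h
  · intro a
    obtain ⟨u, v, rfl⟩ := hsurj a
    rw [AlgHom.ofLinearMap_apply, AlgHom.ofLinearMap_apply, map_add S.bar, map_mul S.bar, hbar, hbar,
      S.bar_j]
    have h1 : φ u + φ v * -S.j = φ u + φ (-v) * S.j := by
      rw [map_neg]
      ring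
    rw [h1, hρ, hρ, S.adj_add, S.adj_mul, S.adj_J, hτa, hτa, map_neg, neg_mul, neg_mul, hτJ]

/-- Let `z` be self-adjoint, commute with `J`, with irreducible minimal polynomial of degree `r`. Then
there are `ψ ∈ Sp` commuting with `J` and `a' ∈ F` outside of the prime field with
`z = cj ψ (mE a')`. Proof: `F_p[z]` is a field with `p^r` elements, `F_p[z, J]` is commutative, and it is
the image of `E`: let `a' ∈ F` be a root of the minimal polynomial of `z` (it has degree `r`, so its
roots in a field with `p^(2r)` elements exist and satisfy `x^(p^r) = x`), the map `f(a') ↦ f(z)` is an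
embedding `F → AE`, and together with `j ↦ J` (`J² = lam`, `E = F + F j`) it gives an algebra
homomorphism `ρ : E → AE`, `ρ(f) = ` polynomial in `z` for `f ∈ F`, `ρ(j) = J`. Take `θ` from
`exists_theta`. The adjoint of `ρ(a)` is `ρ(bar a)` (`z* = z`, `J* = -J`), so `transport` applies to `θ`:
`B (θ (a x)) (θ y) = B (ρ(a) θ x) (θ y) = B (θ x) (ρ(bar a) θ y) = B (θ x) (θ (bar(a) y))`. Then
`ψ = θ ν⁻¹ ∈ Sp` and `cj ψ (mE a) = cj θ (mE a) = ρ(a)`. -/
theorem exists_psi (S : Data p r E) (z : AE p E) (hz : z ∈ S.sym) (hJ : z * S.J = S.J * z)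
    (hirr : Irreducible (minpoly (ZMod p) z)) (hdeg : (minpoly (ZMod p) z).natDegree = r) :
    ∃ ψ ∈ S.C S.J, ∃ a' : E, S.bar a' = a' ∧ (∀ c : ZMod p, algebraMap (ZMod p) E c ≠ a') ∧
      z = cj ψ (mE p a') := by
  have hint : IsIntegral (ZMod p) z := Algebra.IsIntegral.isIntegral z
  have hmon := minpoly.monic hint
  have := Fact.mk hirr
  have hne : minpoly (ZMod p) z ≠ 0 := hmon.ne_zero
  have hK : Module.finrank (ZMod p) (AdjoinRoot (minpoly (ZMod p) z)) = r := by
    rw [(AdjoinRoot.powerBasis hne).finrank, AdjoinRoot.powerBasis_dim, hdeg]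
  obtain ⟨φ⟩ : Nonempty (AdjoinRoot (minpoly (ZMod p) z) →ₐ[ZMod p] E) := by
    apply FiniteField.nonempty_algHom_of_finrank_dvd
    rw [hK, S.finrank_E]
    exact dvd_mul_left _ _
  have hgen : Polynomial.aeval z (minpoly (ZMod p) (AdjoinRoot.powerBasis hne).gen) = 0 := by
    rw [AdjoinRoot.minpoly_powerBasis_gen_of_monic hmon]
    exact minpoly.aeval _ _
  set τ : AdjoinRoot (minpoly (ZMod p) z) →ₐ[ZMod p] AE p E :=
    (AdjoinRoot.powerBasis hne).lift z hgen with hτ
  have hτroot : τ (AdjoinRoot.root (minpoly (ZMod p) z)) = z := by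
    have h := (AdjoinRoot.powerBasis hne).lift_gen z hgen
    rw [AdjoinRoot.powerBasis_gen] at h
    exact h
  have hτmk : ∀ u, ∃ g : Polynomial (ZMod p), τ u = Polynomial.aeval z g := by
    intro u
    obtain ⟨g, rfl⟩ := AdjoinRoot.mk_surjective u
    refine ⟨g, ?_⟩
    rw [← AdjoinRoot.aeval_eq, ← Polynomial.aeval_algHom_apply, hτroot]
  have hadj : ∀ g : Polynomial (ZMod p), S.adj (Polynomial.aeval z g) = Polynomial.aeval z g := by
    intro g
    have hz' := (S.mem_sym_iff z).mp hz
    induction g using Polynomial.induction_on with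
    | C a =>
      rw [Polynomial.aeval_C, Algebra.algebraMap_eq_smul_one, S.adj_smul, S.adj_one]
    | add f g hf hg => rw [map_add, S.adj_add, hf, hg]
    | monomial n a h =>
      have h1 : Polynomial.aeval z (Polynomial.C a * Polynomial.X ^ (n + 1)) =
          Polynomial.aeval z (Polynomial.C a * Polynomial.X ^ n) * z := by
        simp [pow_succ, mul_assoc]
      have h2 : Polynomial.aeval z (Polynomial.C a * Polynomial.X ^ (n + 1)) =
          z * Polynomial.aeval z (Polynomial.C a * Polynomial.X ^ n) := by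
        rw [h1]
        have h3 : (Polynomial.X : Polynomial (ZMod p)) * (Polynomial.C a * Polynomial.X ^ n) =
          (Polynomial.C a * Polynomial.X ^ n) * Polynomial.X := mul_comm _ _
        have h4 := congrArg (Polynomial.aeval z) h3
        rw [map_mul, map_mul (Polynomial.aeval z) _ Polynomial.X, Polynomial.aeval_X] at h4
        exact h4.symm
      rw [h1, S.adj_mul, h, hz', ← h2, h1]
  have hcommJ : ∀ g : Polynomial (ZMod p), Polynomial.aeval z g * S.J = S.J * Polynomial.aeval z g := by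
    intro g
    induction g using Polynomial.induction_on with
    | C a =>
      rw [Polynomial.aeval_C]
      exact Algebra.commutes _ _
    | add f g hf hg => rw [map_add, add_mul, mul_add, hf, hg]
    | monomial n a h =>
      have h1 : Polynomial.aeval z (Polynomial.C a * Polynomial.X ^ (n + 1)) =
          Polynomial.aeval z (Polynomial.C a * Polynomial.X ^ n) * z := by
        simp [pow_succ, mul_assoc]
      rw [h1, mul_assoc, hJ, ← mul_assoc, h, mul_assoc]
  obtain ⟨ρ, hρj, hρφ, hρadj⟩ := S.Z7_exists_rho hK φ τ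
    (fun u => by obtain ⟨g, hg⟩ := hτmk u; rw [hg, hcommJ])
    (fun u => by obtain ⟨g, hg⟩ := hτmk u; rw [hg, hadj])
  obtain ⟨θ, hθ⟩ := S.exists_theta ρ
  have hθ' : ∀ a, (θ : AE p E) * mE p a = ρ a * θ := fun a => (cj_eq_iff _ _ _).mp (hθ a).symm
  obtain ⟨ν, g, hν, hg, hgθ⟩ := S.transport θ (by
    intro a x y
    rw [← Module.End.mul_apply, ← Module.End.mul_apply, hθ', hθ', Module.End.mul_apply, S.B_adj,
      hρadj, ← Module.End.mul_apply])
  have hgρ : ∀ a, (g : AE p E) * mE p a = ρ a * g := by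
    intro a
    rw [hgθ, mul_assoc, ← map_mul, mul_comm ν⁻¹ a, map_mul, ← mul_assoc, hθ', mul_assoc]
  refine ⟨g, ⟨hg, ?_⟩, φ (AdjoinRoot.root _), S.Z7_bar_phi hK φ _, ?_, ?_⟩
  · have h := hgρ S.j
    rw [hρj] at h
    exact h
  · intro c hc
    have h1 : z = algebraMap (ZMod p) (AE p E) c := by
      rw [← hτroot, ← hρφ, ← hc, AlgHom.commutes]
    have h2 : (minpoly (ZMod p) z).natDegree = 1 := by
      have : Nontrivial (AE p E) := ⟨z, z + 1, fun h => by
        have h3 : (1 : AE p E) = 0 := by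
          have := congrArg (fun X => X - z) h
          simpa using this.symm
        have h4 : (mE p (1 : E)) = mE p (0 : E) := by rw [map_one, map_zero, h3]
        exact one_ne_zero (mE_injective h4)⟩
      rw [h1, minpoly.eq_X_sub_C, Polynomial.natDegree_X_sub_C]
    have h3 := S.r_ge
    omega
  · symm
    rw [cj_eq_iff, hgρ, hρφ, hτroot]

/-- Proof: take `ψ` and `a'` from `exists_psi` for `z = zz Y`. `Y' = cj ψ⁻¹ Y ∈ orbJ` and
`zz Y' = cj ψ⁻¹ (zz Y) = mE a'` (as `ψ` commutes with `J`). `Y'` commutes with `zz Y'` (`zz_comm_Y`), so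
with `F` (`comm_F_of_comm_gen`), so `Y' = x + y bar` (`eq_of_comm_F`), skew: `bar x = -x`, `x = a j`,
`a ∈ F` (`em_iff`); `Y'² = lam` gives `lam a² + y bar y = lam`; `zz Y' = 2 lam a`, so `a ∉ F_p`. -/
theorem normal_form (S : Data p r E) (Y : AE p E) (hY : Y ∈ S.orbJ)
    (hirr : Irreducible (minpoly (ZMod p) (S.zz Y)))
    (hdeg : (minpoly (ZMod p) (S.zz Y)).natDegree = r) :
    ∃ ψ ∈ S.C S.J, ∃ N ∈ S.NN, Y = cj ψ N := by
  classical
  obtain ⟨ψ, hψ, a', ha', ha'2, hz⟩ := S.exists_psi (S.zz Y) (S.zz_sym Y (S.orbJ_skew Y hY))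
    (S.zz_comm_J Y) hirr hdeg
  have hψ' := inv_mem hψ
  set Y' : AE p E := cj ψ⁻¹ Y with hY'
  have hYo : Y' ∈ S.orbJ := S.cj_mem_orbJ _ hψ'.1 Y hY
  have hcJ : cj ψ⁻¹ S.J = S.J := by
    rw [cj_eq_iff]
    exact hψ'.2
  have hzz : S.zz Y' = mE p a' := by
    have h1 : S.zz Y' = cj ψ⁻¹ (S.zz Y) := by
      unfold zz
      rw [cj_map_add, cj_map_mul, cj_map_mul, hcJ]
    rw [h1, hz, cj_inv_cj]
  have hcomm : Y' * mE p a' = mE p a' * Y' := by
    rw [← hzz]
    exact (S.zz_comm_Y Y' (S.orbJ_sq Y' hYo)).symm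
  have hF := S.comm_F_of_comm_gen Y' a' ha' ha'2 hcomm
  have hform := S.eq_of_comm_F Y' hF
  have hskew := S.orbJ_skew Y' hYo
  have hx : S.bar (coef Y' 1) = - coef Y' 1 := by
    have h1 := S.coef_skew Y' hskew 1
    rw [S.sgn_one, one_mul, inv_one, AlgEquiv.one_apply] at h1
    rw [h1, neg_neg, ← h1]
  obtain ⟨a, ha, hxa⟩ := (S.em_iff _).mp hx
  set b := coef Y' S.bar with hb
  rw [hxa] at hform
  -- the square
  have hsq := S.orbJ_sq Y' hYo
  have hcsq : coef (Y' * Y') 1 = S.j * a * (S.j * a) + b * S.bar b := by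
    have e1 : Y' * Y' = mE p (S.j * a) * Y' + mE p b * (gE p S.bar * Y') := by
      have e2 : ∀ Z : AE p E, Z = mE p (S.j * a) + mE p b * gE p S.bar →
          Z * Y' = mE p (S.j * a) * Y' + mE p b * (gE p S.bar * Y') := by
        intro Z hZ
        rw [hZ, add_mul, mul_assoc]
      exact e2 Y' hform
    rw [e1, coef_add, coef_mE_mul, coef_mE_mul, coef_gE_mul, hxa, S.bar_inv, mul_one, ← hb]
  have hcl : coef (S.lam • (1 : AE p E)) 1 = algebraMap (ZMod p) E S.lam := by
    rw [coef_smul, ← map_one (mE p), coef_mE, if_pos rfl, Algebra.smul_def, mul_one]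
  rw [hsq, hcl] at hcsq
  have hzc : coef (S.zz Y') 1 = 2 * algebraMap (ZMod p) E S.lam * a := by
    unfold zz
    rw [coef_add]
    unfold J
    rw [coef_mE_mul, coef_mul_mE, hxa, AlgEquiv.one_apply, ← S.j_sq]
    ring
  rw [hzz, coef_mE, if_pos rfl] at hzc
  refine ⟨ψ, hψ, Y', ⟨a, b, ha, ?_, ?_, ?_⟩, ?_⟩
  · intro c hc
    apply ha'2 (2 * S.lam * c)
    rw [hzc, map_mul, map_mul, hc]
    congr 2
    exact map_ofNat _ 2
  · have h1 : S.j * a * (S.j * a) = algebraMap (ZMod p) E S.lam * a ^ 2 := by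
      rw [← S.j_sq]; ring
    rw [h1] at hcsq
    have h2 : b * S.bar b = algebraMap (ZMod p) E S.lam - algebraMap (ZMod p) E S.lam * a ^ 2 := by
      rw [eq_sub_iff_add_eq, add_comm]
      exact hcsq.symm
    rw [h2]; ring
  · rw [mul_comm a S.j]
    exact hform
  · rw [hY', cj_cj_inv]

/-- Proof: for each of the at most `p^r` elements `a ∈ F` outside of the prime field `1 - a² ≠ 0`, so
`lam (1 - a²)` is a nonzero element of `F` and there are `p^r + 1` values `b` (`card_norm`). -/
theorem card_NN_le (S : Data p r E) : Nat.card S.NN ≤ p ^ r * (p ^ r + 1) := by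
  classical
  set A : Type := {a : E // S.bar a = a ∧ ∀ c : ZMod p, algebraMap (ZMod p) E c ≠ a} with hA
  set D : A → Type := fun a => {b : E // b * S.bar b = algebraMap (ZMod p) E S.lam * (1 - a.1 ^ 2)}
    with hD
  have hfinA : Finite A := Subtype.finite
  have := Fintype.ofFinite A
  have hfinD : ∀ a, Finite (D a) := fun a => Subtype.finite
  have hcardA : Nat.card A ≤ p ^ r := by
    rw [← S.card_F]
    apply Nat.card_le_card_of_injective (fun a : A => (⟨a.1, a.2.1⟩ : {f : E // S.bar f = f}))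
    intro a b h
    have h2 : a.1 = b.1 := by simpa using h
    exact Subtype.ext h2
  have hcardD : ∀ a, Nat.card (D a) = p ^ r + 1 := by
    intro a
    apply S.card_norm
    · rw [map_mul, AlgEquiv.commutes, map_sub, map_one, map_pow, a.2.1]
    · have h1 : algebraMap (ZMod p) E S.lam ≠ 0 := by
        intro h
        apply S.lam_ne
        apply (algebraMap (ZMod p) E).injective
        rw [h, map_zero]
      have h2 : (1 : E) - a.1 ^ 2 ≠ 0 := by
        intro h
        have h3 : (1 - a.1) * (1 + a.1) = 0 := by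
          rw [← h]; ring
        rcases mul_eq_zero.mp h3 with h4 | h4
        · apply a.2.2 1
          rw [map_one]
          exact sub_eq_zero.mp h4
        · apply a.2.2 (-1)
          rw [map_neg, map_one]
          exact (eq_neg_of_add_eq_zero_right h4).symm
      exact mul_ne_zero h1 h2
  have hsurj : Function.Surjective (fun x : (Σ a : A, D a) =>
      (⟨mE p (x.1.1 * S.j) + mE p x.2.1 * gE p S.bar, x.1.1, x.2.1, x.1.2.1, x.1.2.2, x.2.2, rfl⟩ :
        S.NN)) := by
    rintro ⟨Y, a, b, h1, h2, h3, h4⟩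
    exact ⟨⟨⟨a, h1, h2⟩, ⟨b, h3⟩⟩, Subtype.ext h4.symm⟩
  refine (Nat.card_le_card_of_surjective _ hsurj).trans ?_
  rw [Nat.card_sigma]
  rw [Finset.sum_congr rfl (fun a _ => hcardD a), Finset.sum_const, smul_eq_mul, Finset.card_univ,
    ← Nat.card_eq_fintype_card]
  exact Nat.mul_le_mul_right _ hcardA

end Data

end Pool.Agent.MP971469
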