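import Pool.Agent.Lib.MP_971469_al.Z7_Normal

/-! Z8: the group `Γ` of the elements `e σ`, `e ∈ E¹`, `sgn σ = 1`. -/

namespace Pool.Agent.MP971469

namespace Data

variable {p r : ℕ} [Fact p.Prime] {E : Type} [Field E] [Finite E] [Algebra (ZMod p) E]

/-- The set `Γ` of the units `e σ` with `e * bar e = 1`, `sgn σ = 1`. -/
def Gam (S : Data p r E) : Set (AE p E)ˣ :=
  {g | ∃ (e : E) (σ : Gal(E/ZMod p)), e * S.bar e = 1 ∧ S.sgn σ = 1 ∧
    (g : AE p E) = mE p e * gE p σ}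

private theorem Z8_mul (a b : E) (σ τ : Gal(E/ZMod p)) :
    (mE p a * gE p σ) * (mE p b * gE p τ) = mE p (a * σ b) * gE p (σ * τ) := by
  rw [mul_assoc, ← mul_assoc (gE p σ), gE_mul_mE, mul_assoc, ← map_mul (gE p), ← mul_assoc,
    ← map_mul]

private theorem Z8_one_one : (mE p (1 : E)) * gE p (1 : Gal(E/ZMod p)) = 1 := by
  rw [map_one, map_one, mul_one]

/-- the unit `e σ` -/
private noncomputable def Z8_unit (S : Data p r E) (e : E) (σ : Gal(E/ZMod p))
    (he : e * S.bar e = 1) : (AE p E)ˣ where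
  val := mE p e * gE p σ
  inv := mE p (σ⁻¹ (S.bar e)) * gE p σ⁻¹
  val_inv := by
    have h1 : σ (σ⁻¹ (S.bar e)) = S.bar e := by
      rw [← AlgEquiv.mul_apply, mul_inv_cancel, AlgEquiv.one_apply]
    rw [Z8_mul, h1, he, mul_inv_cancel, Z8_one_one]
  inv_val := by
    rw [Z8_mul, ← map_mul, mul_comm (S.bar e), he, map_one, inv_mul_cancel, Z8_one_one]

/-- Half of the automorphisms have `sgn = 1`: `sgn` is a surjective homomorphism to `{1,-1}` from a
group of order `2r`. -/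
theorem card_sgn_one (S : Data p r E) : Nat.card {σ : Gal(E/ZMod p) // S.sgn σ = 1} = r := by
  classical
  have h1 : Nat.card {σ : Gal(E/ZMod p) // S.sgn σ = 1} =
      Nat.card {σ : Gal(E/ZMod p) // ¬ S.sgn σ = 1} := by
    have hne : (1 : E) ≠ -1 := by
      intro h
      apply S.two_ne'
      have : (2 : E) = 1 + 1 := by norm_num
      rw [this]
      nth_rewrite 1 [h]
      ring
    apply Nat.card_congr
    refine
      { toFun := fun σ => ⟨σ.1 * S.bar, ?_⟩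
        invFun := fun σ => ⟨σ.1 * S.bar, ?_⟩
        left_inv := ?_
        right_inv := ?_ }
    · rw [S.sgn_mul, σ.2, S.sgn_bar, one_mul]
      exact fun h => hne h.symm
    · rcases S.sgn_eq σ.1 with h | h
      · exact absurd h σ.2
      · rw [S.sgn_mul, h, S.sgn_bar]; ring
    · rintro ⟨σ, hσ⟩
      ext1
      simp only
      rw [mul_assoc, S.bar_mul_bar, mul_one]
    · rintro ⟨σ, hσ⟩
      ext1
      simp only
      rw [mul_assoc, S.bar_mul_bar, mul_one]
  have h2 := Nat.card_congr (Equiv.sumCompl (fun σ : Gal(E/ZMod p) => S.sgn σ = 1))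
  rw [Nat.card_sum, ← h1, S.card_gal] at h2
  omega

/-- The map `(e, σ) ↦ e σ` is injective (`coef_single`). -/
theorem card_Gam (S : Data p r E) : Nat.card S.Gam = r * (p ^ r + 1) := by
  classical
  have key : Nat.card ({σ : Gal(E/ZMod p) // S.sgn σ = 1} × {e : E // e * S.bar e = 1}) =
      Nat.card S.Gam := by
    apply Nat.card_congr
    refine Equiv.ofBijective (fun x => ⟨Z8_unit S x.2.1 x.1.1 x.2.2,
      ⟨x.2.1, x.1.1, x.2.2, x.1.2, rfl⟩⟩) ⟨?_, ?_⟩
    · rintro ⟨⟨σ, hσ⟩, ⟨e, he⟩⟩ ⟨⟨τ, hτ⟩, ⟨f, hf⟩⟩ h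
      have h1 : mE p e * gE p σ = mE p f * gE p τ :=
        congrArg (fun g : S.Gam => ((g.1 : (AE p E)ˣ) : AE p E)) h
      have h2 : coef (mE p e * gE p σ) σ = coef (mE p f * gE p τ) σ := by rw [h1]
      rw [coef_single, coef_single, if_pos rfl] at h2
      have he0 : e ≠ 0 := by rintro rfl; simp at he
      have h3 : σ = τ := by
        by_contra h3
        rw [if_neg h3] at h2
        exact he0 h2
      subst h3
      rw [if_pos rfl] at h2
      subst h2
      rfl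
    · rintro ⟨g, e, σ, he, hσ, hg⟩
      refine ⟨⟨⟨σ, hσ⟩, ⟨e, he⟩⟩, ?_⟩
      ext1
      exact Units.ext hg.symm
  rw [← key, Nat.card_prod, S.card_sgn_one, S.card_E1]

/-- `Γ ⊆ C J`: `adj (e σ) = sgn σ σ⁻¹ bar(e)` (`adj_mE_gE`), and `σ j = j`. -/
theorem Gam_sub (S : Data p r E) (g : (AE p E)ˣ) (hg : g ∈ S.Gam) : g ∈ S.C S.J := by
  obtain ⟨e, σ, he, hσ, hg⟩ := hg
  refine ⟨?_, ?_⟩
  · rw [S.mem_Sp_iff, hg, S.adj_mE_gE, hσ, one_mul]
    have : g = Z8_unit S e σ he := Units.ext hg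
    rw [this]
    rfl
  · rw [hg]
    unfold J
    rw [mul_assoc, gE_mul_mE, S.gal_j_eq, hσ, one_mul, ← mul_assoc, ← mul_assoc, ← map_mul,
      ← map_mul, mul_comm]

theorem Gam_inv (S : Data p r E) (g : (AE p E)ˣ) (hg : g ∈ S.Gam) : g⁻¹ ∈ S.Gam := by
  obtain ⟨e, σ, he, hσ, hg⟩ := hg
  have h1 : g = Z8_unit S e σ he := Units.ext hg
  refine ⟨σ⁻¹ (S.bar e), σ⁻¹, ?_, ?_, ?_⟩
  · rw [S.gal_apply_comm S.bar σ⁻¹, ← map_mul, S.bar_bar, mul_comm, he, map_one]
  · rw [S.sgn_inv, hσ]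
  · rw [h1]
    rfl

/-- `Γ` preserves the set of normal forms: `e (a j + b bar) e⁻¹ = a j + b e (bar e)⁻¹ bar` and
`σ (a j + b bar) σ⁻¹ = σ(a) j + σ(b) bar`. -/
theorem Gam_NN (S : Data p r E) (g : (AE p E)ˣ) (hg : g ∈ S.Gam) (N : AE p E) (hN : N ∈ S.NN) :
    cj g N ∈ S.NN := by
  obtain ⟨e, σ, he, hσ, hg⟩ := hg
  obtain ⟨a, b, ha, hac, hb, rfl⟩ := hN
  have hcomm : ∀ x : E, S.bar (σ x) = σ (S.bar x) := fun x => S.gal_apply_comm S.bar σ x
  refine ⟨σ a, e * σ b * e, ?_, ?_, ?_, ?_⟩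
  · rw [hcomm, ha]
  · intro c hc
    refine hac c ?_
    apply σ.injective
    rw [AlgEquiv.commutes, hc]
  · have h1 : σ b * S.bar (σ b) = algebraMap (ZMod p) E S.lam * (1 - (σ a) ^ 2) := by
      rw [hcomm, ← map_mul, hb, map_mul, AlgEquiv.commutes, map_sub, map_one, map_pow]
    rw [← h1, map_mul, map_mul]
    calc e * σ b * e * (S.bar e * S.bar (σ b) * S.bar e)
        = (e * S.bar e) * (e * S.bar e) * (σ b * S.bar (σ b)) := by ring
      _ = σ b * S.bar (σ b) := by rw [he]; ring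
  · rw [cj_eq_iff, hg, mul_add, add_mul]
    have e1 : mE p e * gE p σ * mE p (a * S.j) = mE p (σ a * S.j) * (mE p e * gE p σ) := by
      rw [mul_assoc, gE_mul_mE, map_mul, S.gal_j_eq, hσ, one_mul, ← mul_assoc, ← mul_assoc,
        ← map_mul, ← map_mul]
      congr 2
      ring
    have e2 : mE p e * gE p σ * (mE p b * gE p S.bar) =
        mE p (e * σ b * e) * gE p S.bar * (mE p e * gE p σ) := by
      rw [Z8_mul, Z8_mul, S.gal_comm S.bar σ]
      congr 2
      calc e * σ b = e * σ b * (e * S.bar e) := by rw [he, mul_one]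
        _ = e * σ b * e * S.bar e := by ring
    rw [e1, e2]

end Data

end Pool.Agent.MP971469
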